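import Pool.Agent.Lib.GSR.RWG

/-!
# Closed and open conditions on the parameters of a game

`ClD D p`: the parameters in `D` with the property `p` form a closed set, `OpD D p`: the
parameters in `D` without the property `p` form a closed set.  Sums over moving sets: lower bounds
of sums over closed conditions and upper bounds of sums over open conditions are closed.
-/

set_option autoImplicit false

namespace Pool.Agent.Lib.GSR

open Finset Classical Topology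

/-- The condition `p` is closed in `D`. -/
def ClD {P : Type*} [TopologicalSpace P] (D : Set P) (p : P → Prop) : Prop :=
  IsClosed {θ | θ ∈ D ∧ p θ}

/-- The condition `p` is open in `D`. -/
def OpD {P : Type*} [TopologicalSpace P] (D : Set P) (p : P → Prop) : Prop :=
  IsClosed {θ | θ ∈ D ∧ ¬ p θ}

section cld

variable {P : Type*} [TopologicalSpace P] {D : Set P} {p q : P → Prop}

lemma ClD.congr (h : ClD D p) (hpq : ∀ θ ∈ D, (p θ ↔ q θ)) : ClD D q := by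
  have h1 : {θ | θ ∈ D ∧ q θ} = {θ | θ ∈ D ∧ p θ} := by
    ext θ
    exact ⟨fun h => ⟨h.1, (hpq θ h.1).2 h.2⟩, fun h => ⟨h.1, (hpq θ h.1).1 h.2⟩⟩
  unfold ClD
  rw [h1]
  exact h

lemma OpD.congr (h : OpD D p) (hpq : ∀ θ ∈ D, (p θ ↔ q θ)) : OpD D q :=
  ClD.congr (p := fun θ => ¬ p θ) (q := fun θ => ¬ q θ) h fun θ hθ => not_congr (hpq θ hθ)

lemma OpD.not (h : OpD D p) : ClD D fun θ => ¬ p θ := h

lemma ClD.not (h : ClD D p) : OpD D fun θ => ¬ p θ :=
  ClD.congr (p := p) (q := fun θ => ¬ ¬ p θ) h fun _ _ => not_not.symm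

lemma ClD.const (hD : IsClosed D) (a : Prop) : ClD D fun _ => a := by
  by_cases h : a
  · have h1 : {θ | θ ∈ D ∧ a} = D := by
      ext θ
      exact ⟨fun h => h.1, fun h' => ⟨h', h⟩⟩
    unfold ClD
    rw [h1]
    exact hD
  · have h1 : {θ | θ ∈ D ∧ a} = (∅ : Set P) := by
      ext θ
      exact ⟨fun h' => h h'.2, fun h' => h'.elim⟩
    unfold ClD
    rw [h1]
    exact isClosed_empty

lemma OpD.const (hD : IsClosed D) (a : Prop) : OpD D fun _ => a := ClD.const hD (¬ a)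

lemma ClD.and (hp : ClD D p) (hq : ClD D q) : ClD D fun θ => p θ ∧ q θ := by
  have h1 : {θ | θ ∈ D ∧ p θ ∧ q θ} = {θ | θ ∈ D ∧ p θ} ∩ {θ | θ ∈ D ∧ q θ} := by
    ext θ
    exact ⟨fun h => ⟨⟨h.1, h.2.1⟩, h.1, h.2.2⟩, fun h => ⟨h.1.1, h.1.2, h.2.2⟩⟩
  unfold ClD
  rw [h1]
  exact IsClosed.inter hp hq

lemma ClD.or (hp : ClD D p) (hq : ClD D q) : ClD D fun θ => p θ ∨ q θ := by
  have h1 : {θ | θ ∈ D ∧ (p θ ∨ q θ)} = {θ | θ ∈ D ∧ p θ} ∪ {θ | θ ∈ D ∧ q θ} := by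
    ext θ
    constructor
    · rintro ⟨h, h' | h'⟩
      · exact Or.inl ⟨h, h'⟩
      · exact Or.inr ⟨h, h'⟩
    · rintro (h | h)
      · exact ⟨h.1, Or.inl h.2⟩
      · exact ⟨h.1, Or.inr h.2⟩
  unfold ClD
  rw [h1]
  exact IsClosed.union hp hq

lemma OpD.and (hp : OpD D p) (hq : OpD D q) : OpD D fun θ => p θ ∧ q θ :=
  ClD.congr (ClD.or hp hq) fun _ _ => not_and_or.symm

lemma OpD.or (hp : OpD D p) (hq : OpD D q) : OpD D fun θ => p θ ∨ q θ :=
  ClD.congr (ClD.and hp hq) fun _ _ => not_or.symm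

lemma ClD.imp (hp : OpD D p) (hq : ClD D q) : ClD D fun θ => p θ → q θ :=
  ClD.congr (ClD.or hp hq) fun _ _ => imp_iff_not_or.symm

lemma OpD.imp (hp : ClD D p) (hq : OpD D q) : OpD D fun θ => p θ → q θ :=
  OpD.congr (OpD.or hp.not hq) fun _ _ => imp_iff_not_or.symm

lemma ClD.all {ι : Type*} (hD : IsClosed D) {p : ι → P → Prop} (h : ∀ i, ClD D (p i)) :
    ClD D fun θ => ∀ i, p i θ := by
  have h1 : {θ | θ ∈ D ∧ ∀ i, p i θ} = D ∩ ⋂ i, {θ | θ ∈ D ∧ p i θ} := by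
    ext θ
    constructor
    · exact fun h => ⟨h.1, Set.mem_iInter.2 fun i => ⟨h.1, h.2 i⟩⟩
    · exact fun h => ⟨h.1, fun i => (Set.mem_iInter.1 h.2 i).2⟩
  unfold ClD
  rw [h1]
  exact hD.inter (isClosed_iInter h)

lemma ClD.ex {ι : Type*} [Finite ι] {p : ι → P → Prop} (h : ∀ i, ClD D (p i)) :
    ClD D fun θ => ∃ i, p i θ := by
  have h1 : {θ | θ ∈ D ∧ ∃ i, p i θ} = ⋃ i, {θ | θ ∈ D ∧ p i θ} := by
    ext θ
    constructor
    · rintro ⟨h, i, hi⟩
      exact Set.mem_iUnion.2 ⟨i, h, hi⟩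
    · intro h
      obtain ⟨i, h, hi⟩ := Set.mem_iUnion.1 h
      exact ⟨h, i, hi⟩
  unfold ClD
  rw [h1]
  exact isClosed_iUnion_of_finite h

lemma OpD.ex {ι : Type*} (hD : IsClosed D) {p : ι → P → Prop} (h : ∀ i, OpD D (p i)) :
    OpD D fun θ => ∃ i, p i θ :=
  ClD.congr (ClD.all hD (p := fun i θ => ¬ p i θ) h) fun _ _ => not_exists.symm

lemma OpD.all {ι : Type*} [Finite ι] {p : ι → P → Prop} (h : ∀ i, OpD D (p i)) :
    OpD D fun θ => ∀ i, p i θ :=
  ClD.congr (ClD.ex (p := fun i θ => ¬ p i θ) h) fun _ _ => not_forall.symm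

lemma ClD.allF {ι : Type*} (hD : IsClosed D) (s : Finset ι) {p : ι → P → Prop}
    (h : ∀ i ∈ s, ClD D (p i)) : ClD D fun θ => ∀ i ∈ s, p i θ :=
  ClD.congr (ClD.all hD (p := fun (i : s) θ => p i θ) fun i => h i i.2) fun _ _ =>
    ⟨fun h i hi => h ⟨i, hi⟩, fun h i => h i i.2⟩

lemma ClD.exF {ι : Type*} (s : Finset ι) {p : ι → P → Prop}
    (h : ∀ i ∈ s, ClD D (p i)) : ClD D fun θ => ∃ i ∈ s, p i θ :=
  ClD.congr (ClD.ex (p := fun (i : s) θ => p i θ) fun i => h i i.2) fun _ _ =>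
    ⟨fun ⟨i, hi⟩ => ⟨i, i.2, hi⟩, fun ⟨i, hi, h⟩ => ⟨⟨i, hi⟩, h⟩⟩

lemma OpD.allF {ι : Type*} (s : Finset ι) {p : ι → P → Prop}
    (h : ∀ i ∈ s, OpD D (p i)) : OpD D fun θ => ∀ i ∈ s, p i θ :=
  OpD.congr (OpD.all (p := fun (i : s) θ => p i θ) fun i => h i i.2) fun _ _ =>
    ⟨fun h i hi => h ⟨i, hi⟩, fun h i => h i i.2⟩

lemma OpD.exF {ι : Type*} (hD : IsClosed D) (s : Finset ι) {p : ι → P → Prop}
    (h : ∀ i ∈ s, OpD D (p i)) : OpD D fun θ => ∃ i ∈ s, p i θ :=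
  OpD.congr (OpD.ex hD (p := fun (i : s) θ => p i θ) fun i => h i i.2) fun _ _ =>
    ⟨fun ⟨i, hi⟩ => ⟨i, i.2, hi⟩, fun ⟨i, hi, h⟩ => ⟨⟨i, hi⟩, h⟩⟩

lemma ClD.le (hD : IsClosed D) {f g : P → ℝ} (hf : ContinuousOn f D) (hg : ContinuousOn g D) :
    ClD D fun θ => f θ ≤ g θ := hD.isClosed_le hf hg

lemma OpD.lt (hD : IsClosed D) {f g : P → ℝ} (hf : ContinuousOn f D) (hg : ContinuousOn g D) :
    OpD D fun θ => f θ < g θ :=
  ClD.congr (ClD.le hD hg hf) fun _ _ => not_lt.symm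

lemma ClD.eq (hD : IsClosed D) {f g : P → ℝ} (hf : ContinuousOn f D) (hg : ContinuousOn g D) :
    ClD D fun θ => f θ = g θ :=
  ClD.congr ((ClD.le hD hf hg).and (ClD.le hD hg hf)) fun _ _ => le_antisymm_iff.symm

/-- Pullbacks. -/
lemma ClD.comp {P' : Type*} [TopologicalSpace P'] {D' : Set P'} {p : P' → Prop} (h : ClD D' p)
    (hD : IsClosed D) (φ : P → P') (hφ : ContinuousOn φ D) (hm : ∀ θ ∈ D, φ θ ∈ D') :
    ClD D fun θ => p (φ θ) := by
  have h1 := hφ.preimage_isClosed_of_isClosed hD h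
  have h2 : {θ | θ ∈ D ∧ p (φ θ)} = D ∩ φ ⁻¹' {θ | θ ∈ D' ∧ p θ} := by
    ext θ
    exact ⟨fun h => ⟨h.1, hm θ h.1, h.2⟩, fun h => ⟨h.1, h.2.2⟩⟩
  unfold ClD
  rw [h2]
  exact h1

lemma OpD.comp {P' : Type*} [TopologicalSpace P'] {D' : Set P'} {p : P' → Prop} (h : OpD D' p)
    (hD : IsClosed D) (φ : P → P') (hφ : ContinuousOn φ D) (hm : ∀ θ ∈ D, φ θ ∈ D') :
    OpD D fun θ => p (φ θ) :=
  ClD.comp (p := fun θ => ¬ p θ) h hD φ hφ hm

/-- Existence of a point in a compact set. -/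
lemma ClD.exC [T2Space P] {M : Type*} [TopologicalSpace M] (hD : IsCompact D) {K : Set M}
    (hK : IsCompact K) {R : P → M → Prop} (h : ClD (D ×ˢ K) fun q : P × M => R q.1 q.2) :
    ClD D fun θ => ∃ m ∈ K, R θ m := by
  have h1 : IsCompact {q : P × M | q ∈ D ×ˢ K ∧ R q.1 q.2} :=
    (hD.prod hK).of_isClosed_subset h fun q hq => hq.1
  have h2 := (h1.image continuous_fst).isClosed
  have h3 : {θ | θ ∈ D ∧ ∃ m ∈ K, R θ m} =
      Prod.fst '' {q : P × M | q ∈ D ×ˢ K ∧ R q.1 q.2} := by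
    ext θ
    constructor
    · rintro ⟨hθ, m, hm, hR⟩
      exact ⟨(θ, m), ⟨⟨hθ, hm⟩, hR⟩, rfl⟩
    · rintro ⟨⟨θ', m⟩, ⟨⟨hθ, hm⟩, hR⟩, rfl⟩
      exact ⟨hθ, m, hm, hR⟩
  unfold ClD
  rw [h3]
  exact h2

section sums

variable {ι : Type*}

lemma continuousOn_sumF {O : Finset ι} {w : ι → P → ℝ} (hw : ∀ o ∈ O, ContinuousOn (w o) D) :
    ContinuousOn (fun θ => ∑ o ∈ O, w o θ) D := by
  have h1 := continuousOn_finsetSum O (f := fun o θ => w o θ) hw
  exact h1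

/-- Lower bounds of sums over closed conditions. -/
lemma ClD.le_sum (hD : IsClosed D) (O : Finset ι) {p : ι → P → Prop} {w : ι → P → ℝ} {K : P → ℝ}
    (hp : ∀ o ∈ O, ClD D (p o)) (hw : ∀ o ∈ O, ContinuousOn (w o) D)
    (hw0 : ∀ o ∈ O, ∀ θ ∈ D, 0 ≤ w o θ) (hK : ContinuousOn K D) :
    ClD D fun θ => K θ ≤ ∑ o ∈ O with p o θ, w o θ := by
  refine ClD.congr (ClD.exF O.powerset (p := fun T θ => (∀ o ∈ T, p o θ) ∧
    K θ ≤ ∑ o ∈ T, w o θ) fun T hT => ?_) ?_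
  · have hT' := Finset.mem_powerset.1 hT
    exact (ClD.allF hD T fun o ho => hp o (hT' ho)).and
      (ClD.le hD hK (continuousOn_sumF fun o ho => hw o (hT' ho)))
  · intro θ hθ
    constructor
    · rintro ⟨T, hT, h1, h2⟩
      have hT' := Finset.mem_powerset.1 hT
      refine h2.trans (Finset.sum_le_sum_of_subset_of_nonneg ?_ fun o ho _ =>
        hw0 o (Finset.mem_filter.1 ho).1 θ hθ)
      intro o ho
      exact Finset.mem_filter.2 ⟨hT' ho, h1 o ho⟩
    · intro h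
      exact ⟨O.filter fun o => p o θ, Finset.mem_powerset.2 (Finset.filter_subset _ _),
        fun o ho => (Finset.mem_filter.1 ho).2, h⟩

/-- Upper bounds of sums over open conditions. -/
lemma ClD.sum_le (hD : IsClosed D) (O : Finset ι) {p : ι → P → Prop} {w : ι → P → ℝ} {K : P → ℝ}
    (hp : ∀ o ∈ O, OpD D (p o)) (hw : ∀ o ∈ O, ContinuousOn (w o) D)
    (hw0 : ∀ o ∈ O, ∀ θ ∈ D, 0 ≤ w o θ) (hK : ContinuousOn K D) :
    ClD D fun θ => ∑ o ∈ O with p o θ, w o θ ≤ K θ := by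
  refine ClD.congr (ClD.allF hD O.powerset (p := fun T θ => (∀ o ∈ T, p o θ) →
    ∑ o ∈ T, w o θ ≤ K θ) fun T hT => ?_) ?_
  · have hT' := Finset.mem_powerset.1 hT
    exact ClD.imp (OpD.allF T fun o ho => hp o (hT' ho))
      (ClD.le hD (continuousOn_sumF fun o ho => hw o (hT' ho)) hK)
  · intro θ hθ
    constructor
    · intro h
      exact h (O.filter fun o => p o θ) (Finset.mem_powerset.2 (Finset.filter_subset _ _))
        fun o ho => (Finset.mem_filter.1 ho).2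
    · intro h T hT h1
      have hT' := Finset.mem_powerset.1 hT
      refine (Finset.sum_le_sum_of_subset_of_nonneg ?_ fun o ho _ =>
        hw0 o (Finset.mem_filter.1 ho).1 θ hθ).trans h
      intro o ho
      exact Finset.mem_filter.2 ⟨hT' ho, h1 o ho⟩

/-- Strict upper bounds of sums over closed conditions. -/
lemma OpD.sum_lt (hD : IsClosed D) (O : Finset ι) {p : ι → P → Prop} {w : ι → P → ℝ} {K : P → ℝ}
    (hp : ∀ o ∈ O, ClD D (p o)) (hw : ∀ o ∈ O, ContinuousOn (w o) D)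
    (hw0 : ∀ o ∈ O, ∀ θ ∈ D, 0 ≤ w o θ) (hK : ContinuousOn K D) :
    OpD D fun θ => ∑ o ∈ O with p o θ, w o θ < K θ :=
  ClD.congr (ClD.le_sum hD O hp hw hw0 hK) fun _ _ => not_lt.symm

/-- Strict lower bounds of sums over open conditions. -/
lemma OpD.lt_sum (hD : IsClosed D) (O : Finset ι) {p : ι → P → Prop} {w : ι → P → ℝ} {K : P → ℝ}
    (hp : ∀ o ∈ O, OpD D (p o)) (hw : ∀ o ∈ O, ContinuousOn (w o) D)
    (hw0 : ∀ o ∈ O, ∀ θ ∈ D, 0 ≤ w o θ) (hK : ContinuousOn K D) :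
    OpD D fun θ => K θ < ∑ o ∈ O with p o θ, w o θ :=
  ClD.congr (ClD.sum_le hD O hp hw hw0 hK) fun _ _ => not_lt.symm

lemma ClD.le_card (hD : IsClosed D) (O : Finset ι) {p : ι → P → Prop}
    (hp : ∀ o ∈ O, ClD D (p o)) (n : ℕ) : ClD D fun θ => n ≤ (O.filter fun o => p o θ).card := by
  refine ClD.congr (ClD.le_sum hD O (w := fun _ _ => (1 : ℝ)) (K := fun _ => (n : ℝ)) hp
    (fun _ _ => continuousOn_const) (fun _ _ _ _ => zero_le_one) continuousOn_const) ?_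
  intro θ _
  simp only [Finset.sum_const, nsmul_eq_mul, mul_one, Nat.cast_le]

lemma ClD.card_le (hD : IsClosed D) (O : Finset ι) {p : ι → P → Prop}
    (hp : ∀ o ∈ O, OpD D (p o)) (n : ℕ) : ClD D fun θ => (O.filter fun o => p o θ).card ≤ n := by
  refine ClD.congr (ClD.sum_le hD O (w := fun _ _ => (1 : ℝ)) (K := fun _ => (n : ℝ)) hp
    (fun _ _ => continuousOn_const) (fun _ _ _ _ => zero_le_one) continuousOn_const) ?_
  intro θ _
  simp only [Finset.sum_const, nsmul_eq_mul, mul_one, Nat.cast_le]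

lemma OpD.card_lt (hD : IsClosed D) (O : Finset ι) {p : ι → P → Prop}
    (hp : ∀ o ∈ O, ClD D (p o)) (n : ℕ) : OpD D fun θ => (O.filter fun o => p o θ).card < n :=
  ClD.congr (ClD.le_card hD O hp n) fun _ _ => not_lt.symm

lemma OpD.lt_card (hD : IsClosed D) (O : Finset ι) {p : ι → P → Prop}
    (hp : ∀ o ∈ O, OpD D (p o)) (n : ℕ) : OpD D fun θ => n < (O.filter fun o => p o θ).card :=
  ClD.congr (ClD.card_le hD O hp n) fun _ _ => not_lt.symm

end sums

end cld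

/-- Every closed set is given by an inequality for a continuous function. -/
theorem exists_test {P : Type*} [PseudoMetricSpace P] {C : Set P} (hC : IsClosed C) :
    ∃ f : P → ℝ, Continuous f ∧ ∀ θ, f θ ≤ 0 ↔ θ ∈ C := by
  rcases Set.eq_empty_or_nonempty C with h | h
  · refine ⟨fun _ => 1, continuous_const, fun θ => ?_⟩
    rw [h]
    exact ⟨fun h1 => absurd h1 (by norm_num), fun h1 => h1.elim⟩
  · refine ⟨fun θ => Metric.infDist θ C, Metric.continuous_infDist_pt C, fun θ => ?_⟩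
    rw [hC.mem_iff_infDist_zero h]
    exact ⟨fun h1 => le_antisymm h1 Metric.infDist_nonneg, fun h1 => h1.le⟩

/-- The next world: it avoids the small sets `h i` and is homogeneous for the alternatives
`g j`, where the letters `a : L j` of the vertex `v` are given by the (not exclusive) relations
`g j a v`. -/
theorem ColS.next {V : Type} {col : Finset V → ℕ → Prop} (hc : ColS col) {I J : Type}
    [Fintype I] [Fintype J] (W : Finset V) (h : I → V → Prop) (C : ℕ)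
    (hC : ∀ i, col (W.filter fun v => h i v) C) (L : J → Type) [∀ j, Fintype (L j)]
    (g : ∀ j, L j → V → Prop) (hg : ∀ j, ∀ v ∈ W, (∀ i, ¬ h i v) → ∃ a, g j a v) (n : ℕ)
    (hW : ¬ col W (Fintype.card I * C + (∏ j, Fintype.card (L j)) * n)) :
    ∃ W' ⊆ W, ¬ col W' n ∧ (∀ i, ∀ v ∈ W', ¬ h i v) ∧ ∀ j, ∃ a, ∀ v ∈ W', g j a v := by
  obtain ⟨W1, hW1⟩ : ∃ W1, W1 = W.filter fun v => ∀ i, ¬ h i v := ⟨_, rfl⟩
  have h1 : ¬ col W1 ((∏ j, Fintype.card (L j)) * n) := by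
    intro hcol
    refine hW (hc.mono _ _ _ _ ?_ le_rfl (hc.union _ _ _ _
      (hc.biUnion Finset.univ (fun i => W.filter fun v => h i v) C fun i _ => hC i) hcol))
    intro v hv
    rw [Finset.mem_union, Finset.mem_biUnion]
    by_cases h2 : ∀ i, ¬ h i v
    · right
      rw [hW1]
      exact Finset.mem_filter.2 ⟨hv, h2⟩
    · left
      push Not at h2
      obtain ⟨i, hi⟩ := h2
      exact ⟨i, Finset.mem_univ _, Finset.mem_filter.2 ⟨hv, hi⟩⟩
  have hf : ∀ v : V, ∃ f : ∀ j, L j, v ∈ W1 → ∀ j, g j (f j) v := by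
    intro v
    by_cases hv : v ∈ W1
    · have h2 := hv
      rw [hW1, Finset.mem_filter] at h2
      choose f hf using fun j => hg j v h2.1 h2.2
      exact ⟨f, fun _ => hf⟩
    · by_cases hL : ∀ j, Nonempty (L j)
      · exact ⟨fun j => (hL j).some, fun h => absurd h hv⟩
      · exfalso
        push Not at hL
        obtain ⟨j, hj⟩ := hL
        refine h1 ?_
        have h2 : Fintype.card (L j) = 0 := Fintype.card_eq_zero_iff.2 (by
          exact hj)
        have h3 : W1 = ∅ := by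
          rw [Finset.eq_empty_iff_forall_notMem]
          intro u hu
          rw [hW1, Finset.mem_filter] at hu
          obtain ⟨a, _⟩ := hg j u hu.1 hu.2
          exact hj.false a
        rw [h3]
        exact hc.mono _ _ _ _ (Finset.Subset.refl _) (Nat.zero_le _) hc.emp
  choose f hf using hf
  have h2 : ¬ col W1 (Fintype.card (∀ j, L j) * n) := by
    rw [Fintype.card_pi]
    exact h1
  obtain ⟨k, W', hW', hk, hn⟩ := hc.exists_part W1 f n h2
  refine ⟨W', fun v hv => ?_, hn, fun i v hv => ?_, fun j => ⟨k j, fun v hv => ?_⟩⟩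
  · have h3 := hW' hv
    rw [hW1] at h3
    exact (Finset.mem_filter.1 h3).1
  · have h3 := hW' hv
    rw [hW1] at h3
    exact (Finset.mem_filter.1 h3).2 i
  · rw [← hk v hv]
    exact hf v (hW' hv) j

end Pool.Agent.Lib.GSR
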