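import Mathlib

/-!
# Logarithmic games

The payoff `∑ x, n x * log (η + ∑ y, M x y * p y)` of a law `p` on a set `S`: continuity, concavity
and the first order condition.
-/

set_option autoImplicit false

namespace Pool.Agent.Lib.GSR

open Finset Classical

section laws

variable {Y : Type} [Fintype Y]

/-- The laws on `S`. -/
def LawOn (S : Finset Y) : Set (Y → ℝ) := stdSimplex ℝ Y ∩ {p | ∀ y, y ∉ S → p y = 0}

theorem isCompact_lawOn (S : Finset Y) : IsCompact (LawOn S) := by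
  refine (isCompact_stdSimplex ℝ Y).inter_right ?_
  simp only [Set.ofPred_forall]
  refine isClosed_iInter fun v => isClosed_iInter fun _ => ?_
  exact isClosed_eq (continuous_apply v) continuous_const

theorem convex_lawOn (S : Finset Y) : Convex ℝ (LawOn S) := by
  refine (convex_stdSimplex ℝ Y).inter ?_
  intro p hp q hq a b _ _ _ y hy
  rw [Pi.add_apply, Pi.smul_apply, Pi.smul_apply, hp y hy, hq y hy, smul_zero, smul_zero,
    add_zero]

theorem single_mem_lawOn {S : Finset Y} {y : Y} (hy : y ∈ S) : (Pi.single y 1 : Y → ℝ) ∈ LawOn S :=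
  ⟨single_mem_stdSimplex ℝ y, fun z hz => Pi.single_eq_of_ne (by
    rintro rfl
    exact hz hy) 1⟩

theorem nonempty_lawOn {S : Finset Y} (hS : S.Nonempty) : (LawOn S).Nonempty := by
  obtain ⟨y, hy⟩ := hS
  exact ⟨_, single_mem_lawOn hy⟩

/-- The law `(1 - t) p + t δ_y`. -/
noncomputable def mvl (p : Y → ℝ) (y : Y) (t : ℝ) : Y → ℝ :=
  (1 - t) • p + t • (Pi.single y 1 : Y → ℝ)

theorem mvl_mem {S : Finset Y} {p : Y → ℝ} (hp : p ∈ LawOn S) {y : Y} (hy : y ∈ S) {t : ℝ}
    (h0 : 0 ≤ t) (h1 : t ≤ 1) : mvl p y t ∈ LawOn S :=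
  convex_lawOn S hp (single_mem_lawOn hy) (by linarith) h0 (by ring)

end laws

section game

variable {X Y : Type} [Fintype Y]

/-- The scale of the law `p`. -/
noncomputable def sc (η : ℝ) (M : X → Y → ℝ) (p : Y → ℝ) (x : X) : ℝ := η + ∑ y, M x y * p y

theorem le_sc {η : ℝ} {M : X → Y → ℝ} (hM : ∀ x y, 0 ≤ M x y) {p : Y → ℝ} (hp : ∀ y, 0 ≤ p y)
    (x : X) : η ≤ sc η M p x :=
  le_add_of_nonneg_right (Finset.sum_nonneg fun y _ => mul_nonneg (hM x y) (hp y))

theorem sc_pos {η : ℝ} (hη : 0 < η) {M : X → Y → ℝ} (hM : ∀ x y, 0 ≤ M x y) {p : Y → ℝ}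
    (hp : ∀ y, 0 ≤ p y) (x : X) : 0 < sc η M p x := hη.trans_le (le_sc hM hp x)

theorem continuousOn_sc {T : Type*} [TopologicalSpace T] {A : Set T} {η : ℝ}
    {M : T → X → Y → ℝ} (hM : ∀ x y, ContinuousOn (fun t => M t x y) A) {B : Set (Y → ℝ)}
    (x : X) : ContinuousOn (fun q : T × (Y → ℝ) => sc η (M q.1) q.2 x) (A ×ˢ B) := by
  refine continuousOn_const.add (continuousOn_finsetSum _ fun y _ => ?_)
  refine ContinuousOn.mul ?_ ?_
  · exact (hM x y).comp continuousOn_fst fun q hq => hq.1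
  · fun_prop

variable [Fintype X]

/-- The payoff of the law `p`. -/
noncomputable def lg (η : ℝ) (n : X → ℝ) (M : X → Y → ℝ) (p : Y → ℝ) : ℝ :=
  ∑ x, n x * Real.log (sc η M p x)

/-- The demand of `y`. -/
noncomputable def dm (η : ℝ) (n : X → ℝ) (M : X → Y → ℝ) (p : Y → ℝ) (y : Y) : ℝ :=
  ∑ x, n x * M x y / sc η M p x

/-- Continuity of the payoff. -/
theorem continuousOn_lg {T : Type*} [TopologicalSpace T] {A : Set T} {η : ℝ} (hη : 0 < η)
    {n : T → X → ℝ} {M : T → X → Y → ℝ} (hn : ∀ x, ContinuousOn (fun t => n t x) A)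
    (hM : ∀ x y, ContinuousOn (fun t => M t x y) A) (hM0 : ∀ t ∈ A, ∀ x y, 0 ≤ M t x y)
    {B : Set (Y → ℝ)} (hB : ∀ p ∈ B, ∀ y, 0 ≤ p y) :
    ContinuousOn (fun q : T × (Y → ℝ) => lg η (n q.1) (M q.1) q.2) (A ×ˢ B) := by
  refine continuousOn_finsetSum _ fun x _ => ?_
  refine ContinuousOn.mul ((hn x).comp continuousOn_fst fun q hq => hq.1) ?_
  exact (continuousOn_sc hM x).log fun q hq => (sc_pos hη (hM0 _ hq.1) (hB _ hq.2) x).ne'

/-- Concavity of the payoff. -/
theorem concaveOn_lg {η : ℝ} (hη : 0 < η) {n : X → ℝ} (hn : ∀ x, 0 ≤ n x) {M : X → Y → ℝ}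
    (hM : ∀ x y, 0 ≤ M x y) {B : Set (Y → ℝ)} (hBc : Convex ℝ B) (hB : ∀ p ∈ B, ∀ y, 0 ≤ p y) :
    ConcaveOn ℝ B (lg η n M) := by
  refine ⟨hBc, fun p hp q hq a b ha hb hab => ?_⟩
  unfold lg
  rw [smul_eq_mul, smul_eq_mul, Finset.mul_sum, Finset.mul_sum, ← Finset.sum_add_distrib]
  refine Finset.sum_le_sum fun x _ => ?_
  have h1 : sc η M (a • p + b • q) x = a * sc η M p x + b * sc η M q x := by
    unfold sc
    have h2 : ∑ y, M x y * (a • p + b • q) y = a * ∑ y, M x y * p y + b * ∑ y, M x y * q y := by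
      rw [Finset.mul_sum, Finset.mul_sum, ← Finset.sum_add_distrib]
      refine Finset.sum_congr rfl fun y _ => ?_
      rw [Pi.add_apply, Pi.smul_apply, Pi.smul_apply, smul_eq_mul, smul_eq_mul]
      ring
    rw [h2]
    linear_combination (-η) * hab
  have h3 := strictConcaveOn_log_Ioi.concaveOn.2 (sc_pos hη hM (hB p hp) x)
    (sc_pos hη hM (hB q hq) x) ha hb hab
  rw [smul_eq_mul, smul_eq_mul, smul_eq_mul, smul_eq_mul, ← h1] at h3
  have h4 := mul_le_mul_of_nonneg_left h3 (hn x)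
  linarith

omit [Fintype X] in
theorem sc_mvl (η : ℝ) (M : X → Y → ℝ) (p : Y → ℝ) (y : Y) (t : ℝ) (x : X) :
    sc η M (mvl p y t) x = sc η M p x + t * (M x y - (sc η M p x - η)) := by
  unfold sc mvl
  have h2 : ∑ z, M x z * ((1 - t) • p + t • (Pi.single y 1 : Y → ℝ)) z =
      (1 - t) * ∑ z, M x z * p z + t * M x y := by
    have h3 : M x y = ∑ z, M x z * (Pi.single y 1 : Y → ℝ) z := by
      rw [Finset.sum_eq_single y]
      · rw [Pi.single_eq_same, mul_one]
      · intro z _ hz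
        rw [Pi.single_eq_of_ne hz, mul_zero]
      · exact fun h => absurd (Finset.mem_univ _) h
    conv_rhs => rw [h3]
    rw [Finset.mul_sum, Finset.mul_sum, ← Finset.sum_add_distrib]
    refine Finset.sum_congr rfl fun z _ => ?_
    rw [Pi.add_apply, Pi.smul_apply, Pi.smul_apply, smul_eq_mul, smul_eq_mul]
    ring
  rw [h2]
  ring

/-- The inequality of the first order condition. -/
theorem foc_le {η : ℝ} (hη : 0 < η) {n : X → ℝ} (hn : ∀ x, 0 ≤ n x) {M : X → Y → ℝ}
    (hM : ∀ x y, 0 ≤ M x y) {S : Finset Y} {p : Y → ℝ} (hp : p ∈ LawOn S)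
    (hmax : ∀ q ∈ LawOn S, lg η n M q ≤ lg η n M p) {y : Y} (hy : y ∈ S) :
    dm η n M p y ≤ ∑ x, n x * (1 - η / sc η M p x) := by
  have hs := sc_pos hη hM hp.1.1
  -- the inequality for positive times
  have h1 : ∀ t : ℝ, 0 < t → t < 1 →
      ∑ x, n x * ((M x y - (sc η M p x - η)) /
        (sc η M p x + t * (M x y - (sc η M p x - η)))) ≤ 0 := by
    intro t h0 h1
    have h2 := mvl_mem hp hy h0.le h1.le
    have h3 := hmax _ h2
    have h4 := sc_pos hη hM h2.1.1
    have h5 : t * ∑ x, n x * ((M x y - (sc η M p x - η)) /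
        (sc η M p x + t * (M x y - (sc η M p x - η)))) ≤
        lg η n M (mvl p y t) - lg η n M p := by
      unfold lg
      rw [← Finset.sum_sub_distrib, Finset.mul_sum]
      refine Finset.sum_le_sum fun x _ => ?_
      have h6 := h4 x
      have h7 := Real.one_sub_inv_le_log_of_pos (div_pos h6 (hs x))
      rw [Real.log_div h6.ne' (hs x).ne', inv_div] at h7
      have h8 : t * (n x * ((M x y - (sc η M p x - η)) /
          (sc η M p x + t * (M x y - (sc η M p x - η))))) =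
          n x * (1 - sc η M p x / sc η M (mvl p y t) x) := by
        rw [sc_mvl] at h6 ⊢
        field_simp
        ring
      rw [h8, ← mul_sub]
      exact mul_le_mul_of_nonneg_left h7 (hn x)
    by_contra h
    rw [not_le] at h
    have := mul_pos h0 h
    linarith
  have h2 : Filter.Tendsto (fun t : ℝ => ∑ x, n x * ((M x y - (sc η M p x - η)) /
      (sc η M p x + t * (M x y - (sc η M p x - η))))) (nhdsWithin 0 (Set.Ioi 0))
      (nhds (∑ x, n x * ((M x y - (sc η M p x - η)) /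
        (sc η M p x + 0 * (M x y - (sc η M p x - η)))))) := by
    apply Filter.Tendsto.mono_left _ nhdsWithin_le_nhds
    refine tendsto_finsetSum _ fun x _ => ?_
    refine Filter.Tendsto.const_mul _ (Filter.Tendsto.div tendsto_const_nhds ?_ ?_)
    · exact Filter.Tendsto.const_add _ (Filter.Tendsto.mul_const _ Filter.tendsto_id)
    · rw [zero_mul, add_zero]
      exact (hs x).ne'
  have h3 : ∀ᶠ t : ℝ in nhdsWithin 0 (Set.Ioi 0),
      ∑ x, n x * ((M x y - (sc η M p x - η)) /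
        (sc η M p x + t * (M x y - (sc η M p x - η)))) ≤ 0 := by
    have h4 : Set.Ioo (0 : ℝ) 1 ∈ nhdsWithin (0 : ℝ) (Set.Ioi 0) := Ioo_mem_nhdsGT zero_lt_one
    filter_upwards [h4] with t ht
    exact h1 t ht.1 ht.2
  have h4 := le_of_tendsto h2 h3
  have h5 : ∑ x, n x * ((M x y - (sc η M p x - η)) /
      (sc η M p x + 0 * (M x y - (sc η M p x - η)))) =
      dm η n M p y - ∑ x, n x * (1 - η / sc η M p x) := by
    unfold dm
    rw [← Finset.sum_sub_distrib]
    refine Finset.sum_congr rfl fun x _ => ?_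
    have := (hs x).ne'
    rw [zero_mul, add_zero]
    field_simp
  rw [h5] at h4
  linarith

/-- The mean of the demand. -/
theorem sum_dm {η : ℝ} (hη : 0 < η) {n : X → ℝ} {M : X → Y → ℝ}
    (hM : ∀ x y, 0 ≤ M x y) {p : Y → ℝ} (hp : ∀ y, 0 ≤ p y) :
    ∑ y, p y * dm η n M p y = ∑ x, n x * (1 - η / sc η M p x) := by
  unfold dm
  simp_rw [Finset.mul_sum]
  rw [Finset.sum_comm]
  refine Finset.sum_congr rfl fun x _ => ?_
  have h1 := (sc_pos hη hM hp x).ne'
  have h2 : ∑ y, p y * (n x * M x y / sc η M p x) = n x / sc η M p x * ∑ y, M x y * p y := by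
    rw [Finset.mul_sum]
    exact Finset.sum_congr rfl fun y _ => by ring
  have h3 : ∑ y, M x y * p y = sc η M p x - η := by
    unfold sc
    ring
  rw [h2, h3]
  field_simp

/-- The first order condition on the support. -/
theorem foc_eq {η : ℝ} (hη : 0 < η) {n : X → ℝ} (hn : ∀ x, 0 ≤ n x) {M : X → Y → ℝ}
    (hM : ∀ x y, 0 ≤ M x y) {S : Finset Y} {p : Y → ℝ} (hp : p ∈ LawOn S)
    (hmax : ∀ q ∈ LawOn S, lg η n M q ≤ lg η n M p) {y : Y} (hy : p y ≠ 0) :
    dm η n M p y = ∑ x, n x * (1 - η / sc η M p x) := by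
  have hz : ∑ w, p w * (∑ x, n x * (1 - η / sc η M p x) - dm η n M p w) = 0 := by
    have h1 : ∑ w, p w * (∑ x, n x * (1 - η / sc η M p x) - dm η n M p w) =
        (∑ w, p w) * (∑ x, n x * (1 - η / sc η M p x)) - ∑ w, p w * dm η n M p w := by
      rw [Finset.sum_mul, ← Finset.sum_sub_distrib]
      exact Finset.sum_congr rfl fun w _ => by ring
    rw [h1, sum_dm hη hM hp.1.1, hp.1.2]
    ring
  have hS : ∀ w, p w ≠ 0 → w ∈ S := by
    intro w hw
    by_contra h
    exact hw (hp.2 w h)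
  have hnn : ∀ w ∈ Finset.univ, 0 ≤ p w * (∑ x, n x * (1 - η / sc η M p x) - dm η n M p w) := by
    intro w _
    by_cases h : p w = 0
    · rw [h, zero_mul]
    · exact mul_nonneg (hp.1.1 w) (sub_nonneg.2 (foc_le hη hn hM hp hmax (hS w h)))
  have h1 := (Finset.sum_eq_zero_iff_of_nonneg hnn).1 hz y (Finset.mem_univ y)
  rcases mul_eq_zero.1 h1 with h2 | h2
  · exact absurd h2 hy
  · linarith

/-- The value of the demand on the support is at most the total mass. -/
theorem lam_le {η : ℝ} (hη : 0 < η) {n : X → ℝ} (hn : ∀ x, 0 ≤ n x) {M : X → Y → ℝ}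
    (hM : ∀ x y, 0 ≤ M x y) {p : Y → ℝ} (hp : ∀ y, 0 ≤ p y) :
    0 ≤ ∑ x, n x * (1 - η / sc η M p x) ∧ ∑ x, n x * (1 - η / sc η M p x) ≤ ∑ x, n x := by
  have h1 : ∀ x, 0 ≤ η / sc η M p x ∧ η / sc η M p x ≤ 1 := fun x =>
    ⟨(div_pos hη (sc_pos hη hM hp x)).le, (div_le_one (sc_pos hη hM hp x)).2 (le_sc hM hp x)⟩
  refine ⟨Finset.sum_nonneg fun x _ => mul_nonneg (hn x) (by linarith [(h1 x).2]),
    Finset.sum_le_sum fun x _ => ?_⟩
  exact mul_le_of_le_one_right (hn x) (by linarith [(h1 x).1])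

/-! ### Linear plus logarithmic payoffs -/

/-- The payoff with a linear part. -/
noncomputable def pay (η : ℝ) (g : Y → ℝ) (n : X → ℝ) (M : X → Y → ℝ) (p : Y → ℝ) : ℝ :=
  ∑ y, p y * g y + lg η n M p

/-- The value of the best reply. -/
noncomputable def vl (η : ℝ) (g : Y → ℝ) (n : X → ℝ) (M : X → Y → ℝ) (p : Y → ℝ) : ℝ :=
  ∑ y, p y * g y + ∑ x, n x * (1 - η / sc η M p x)

theorem continuousOn_pay {T : Type*} [TopologicalSpace T] {A : Set T} {η : ℝ} (hη : 0 < η)
    {g : T → Y → ℝ} {n : T → X → ℝ} {M : T → X → Y → ℝ}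
    (hg : ∀ y, ContinuousOn (fun t => g t y) A) (hn : ∀ x, ContinuousOn (fun t => n t x) A)
    (hM : ∀ x y, ContinuousOn (fun t => M t x y) A) (hM0 : ∀ t ∈ A, ∀ x y, 0 ≤ M t x y)
    {B : Set (Y → ℝ)} (hB : ∀ p ∈ B, ∀ y, 0 ≤ p y) :
    ContinuousOn (fun q : T × (Y → ℝ) => pay η (g q.1) (n q.1) (M q.1) q.2) (A ×ˢ B) := by
  refine ContinuousOn.add (continuousOn_finsetSum _ fun y _ => ?_)
    (continuousOn_lg hη hn hM hM0 hB)
  refine ContinuousOn.mul ?_ ((hg y).comp continuousOn_fst fun q hq => hq.1)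
  fun_prop

theorem concaveOn_pay {η : ℝ} (hη : 0 < η) (g : Y → ℝ) {n : X → ℝ} (hn : ∀ x, 0 ≤ n x)
    {M : X → Y → ℝ} (hM : ∀ x y, 0 ≤ M x y) {B : Set (Y → ℝ)} (hBc : Convex ℝ B)
    (hB : ∀ p ∈ B, ∀ y, 0 ≤ p y) : ConcaveOn ℝ B (pay η g n M) := by
  refine ConcaveOn.add ⟨hBc, fun p _ q _ a b _ _ _ => le_of_eq ?_⟩ (concaveOn_lg hη hn hM hBc hB)
  rw [smul_eq_mul, smul_eq_mul, Finset.mul_sum, Finset.mul_sum, ← Finset.sum_add_distrib]
  refine Finset.sum_congr rfl fun y _ => ?_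
  rw [Pi.add_apply, Pi.smul_apply, Pi.smul_apply, smul_eq_mul, smul_eq_mul]
  ring

theorem pay_foc_le {η : ℝ} (hη : 0 < η) (g : Y → ℝ) {n : X → ℝ} (hn : ∀ x, 0 ≤ n x)
    {M : X → Y → ℝ} (hM : ∀ x y, 0 ≤ M x y) {S : Finset Y} {p : Y → ℝ} (hp : p ∈ LawOn S)
    (hmax : ∀ q ∈ LawOn S, pay η g n M q ≤ pay η g n M p) {y : Y} (hy : y ∈ S) :
    g y + dm η n M p y ≤ vl η g n M p := by
  have hs := sc_pos hη hM hp.1.1
  have hlin : ∀ t : ℝ, ∑ z, mvl p y t z * g z = ∑ z, p z * g z + t * (g y - ∑ z, p z * g z) := by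
    intro t
    have h3 : g y = ∑ z, (Pi.single y 1 : Y → ℝ) z * g z := by
      rw [Finset.sum_eq_single y]
      · rw [Pi.single_eq_same, one_mul]
      · intro z _ hz
        rw [Pi.single_eq_of_ne hz, zero_mul]
      · exact fun h => absurd (Finset.mem_univ _) h
    conv_rhs => rw [h3]
    have h4 : ∑ z, mvl p y t z * g z =
        (1 - t) * ∑ z, p z * g z + t * ∑ z, (Pi.single y 1 : Y → ℝ) z * g z := by
      rw [Finset.mul_sum, Finset.mul_sum, ← Finset.sum_add_distrib]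
      refine Finset.sum_congr rfl fun z _ => ?_
      unfold mvl
      rw [Pi.add_apply, Pi.smul_apply, Pi.smul_apply, smul_eq_mul, smul_eq_mul]
      ring
    rw [h4]
    ring
  -- the inequality for positive times
  have h1 : ∀ t : ℝ, 0 < t → t < 1 →
      (g y - ∑ z, p z * g z) + ∑ x, n x * ((M x y - (sc η M p x - η)) /
        (sc η M p x + t * (M x y - (sc η M p x - η)))) ≤ 0 := by
    intro t h0 h1
    have h2 := mvl_mem hp hy h0.le h1.le
    have h3 := hmax _ h2
    have h4 := sc_pos hη hM h2.1.1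
    have h5 : t * ∑ x, n x * ((M x y - (sc η M p x - η)) /
        (sc η M p x + t * (M x y - (sc η M p x - η)))) ≤
        lg η n M (mvl p y t) - lg η n M p := by
      unfold lg
      rw [← Finset.sum_sub_distrib, Finset.mul_sum]
      refine Finset.sum_le_sum fun x _ => ?_
      have h6 := h4 x
      have h7 := Real.one_sub_inv_le_log_of_pos (div_pos h6 (hs x))
      rw [Real.log_div h6.ne' (hs x).ne', inv_div] at h7
      have h8 : t * (n x * ((M x y - (sc η M p x - η)) /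
          (sc η M p x + t * (M x y - (sc η M p x - η))))) =
          n x * (1 - sc η M p x / sc η M (mvl p y t) x) := by
        rw [sc_mvl] at h6 ⊢
        field_simp
        ring
      rw [h8, ← mul_sub]
      exact mul_le_mul_of_nonneg_left h7 (hn x)
    unfold pay at h3
    rw [hlin t] at h3
    by_contra h
    rw [not_le] at h
    have h9 := mul_pos h0 h
    rw [mul_add] at h9
    linarith
  have h2 : Filter.Tendsto (fun t : ℝ => (g y - ∑ z, p z * g z) +
      ∑ x, n x * ((M x y - (sc η M p x - η)) /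
      (sc η M p x + t * (M x y - (sc η M p x - η))))) (nhdsWithin 0 (Set.Ioi 0))
      (nhds ((g y - ∑ z, p z * g z) + ∑ x, n x * ((M x y - (sc η M p x - η)) /
        (sc η M p x + 0 * (M x y - (sc η M p x - η)))))) := by
    apply Filter.Tendsto.mono_left _ nhdsWithin_le_nhds
    refine Filter.Tendsto.const_add _ (tendsto_finsetSum _ fun x _ => ?_)
    refine Filter.Tendsto.const_mul _ (Filter.Tendsto.div tendsto_const_nhds ?_ ?_)
    · exact Filter.Tendsto.const_add _ (Filter.Tendsto.mul_const _ Filter.tendsto_id)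
    · rw [zero_mul, add_zero]
      exact (hs x).ne'
  have h3 : ∀ᶠ t : ℝ in nhdsWithin 0 (Set.Ioi 0),
      (g y - ∑ z, p z * g z) + ∑ x, n x * ((M x y - (sc η M p x - η)) /
        (sc η M p x + t * (M x y - (sc η M p x - η)))) ≤ 0 := by
    have h4 : Set.Ioo (0 : ℝ) 1 ∈ nhdsWithin (0 : ℝ) (Set.Ioi 0) := Ioo_mem_nhdsGT zero_lt_one
    filter_upwards [h4] with t ht
    exact h1 t ht.1 ht.2
  have h4 := le_of_tendsto h2 h3
  have h5 : ∑ x, n x * ((M x y - (sc η M p x - η)) /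
      (sc η M p x + 0 * (M x y - (sc η M p x - η)))) =
      dm η n M p y - ∑ x, n x * (1 - η / sc η M p x) := by
    unfold dm
    rw [← Finset.sum_sub_distrib]
    refine Finset.sum_congr rfl fun x _ => ?_
    have := (hs x).ne'
    rw [zero_mul, add_zero]
    field_simp
  rw [h5] at h4
  unfold vl
  linarith

theorem pay_foc_eq {η : ℝ} (hη : 0 < η) (g : Y → ℝ) {n : X → ℝ} (hn : ∀ x, 0 ≤ n x)
    {M : X → Y → ℝ} (hM : ∀ x y, 0 ≤ M x y) {S : Finset Y} {p : Y → ℝ} (hp : p ∈ LawOn S)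
    (hmax : ∀ q ∈ LawOn S, pay η g n M q ≤ pay η g n M p) {y : Y} (hy : p y ≠ 0) :
    g y + dm η n M p y = vl η g n M p := by
  have hz : ∑ w, p w * (vl η g n M p - (g w + dm η n M p w)) = 0 := by
    have h1 : ∑ w, p w * (vl η g n M p - (g w + dm η n M p w)) =
        (∑ w, p w) * vl η g n M p - (∑ w, p w * g w + ∑ w, p w * dm η n M p w) := by
      rw [Finset.sum_mul, ← Finset.sum_add_distrib, ← Finset.sum_sub_distrib]
      exact Finset.sum_congr rfl fun w _ => by ring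
    rw [h1, sum_dm hη hM hp.1.1, hp.1.2]
    unfold vl
    ring
  have hS : ∀ w, p w ≠ 0 → w ∈ S := by
    intro w hw
    by_contra h
    exact hw (hp.2 w h)
  have hnn : ∀ w ∈ Finset.univ, 0 ≤ p w * (vl η g n M p - (g w + dm η n M p w)) := by
    intro w _
    by_cases h : p w = 0
    · rw [h, zero_mul]
    · exact mul_nonneg (hp.1.1 w) (sub_nonneg.2 (pay_foc_le hη g hn hM hp hmax (hS w h)))
  have h1 := (Finset.sum_eq_zero_iff_of_nonneg hnn).1 hz y (Finset.mem_univ y)
  rcases mul_eq_zero.1 h1 with h2 | h2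
  · exact absurd h2 hy
  · linarith

end game

end Pool.Agent.Lib.GSR
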