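import Pool.Agent.Lib.GSR.VioC
import Pool.Agent.Lib.GSR.Lg

/-!
# Coordinates of the game: domains and concave payoffs

`Ms Λ W` is the set of the measures on `W` of mass at most `Λ`, `LawN S` the set of the laws on `S`
(all laws if `S` is empty), `QMs S Λ W` the set of the pairs of a law and a measure.  The costs of
the services are convex.
-/

set_option autoImplicit false

namespace Pool.Agent.Lib.GSR

open Finset Classical
open Pool.Agent.Lib.FGF (cm)

section sets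

variable {V : Type} [Fintype V]

/-- Measures on `W` of mass at most `Λ`. -/
def Ms (Λ : ℝ) (W : Finset V) : Set (V → ℝ) :=
  {μ | (∀ u, 0 ≤ μ u) ∧ (∀ u, u ∉ W → μ u = 0) ∧ ∑ u, μ u ≤ Λ}

theorem isCompact_Ms (Λ : ℝ) (W : Finset V) : IsCompact (Ms Λ W) := by
  have h1 : IsCompact (Set.pi Set.univ fun _ : V => Set.Icc (0 : ℝ) Λ) :=
    isCompact_univ_pi fun _ => isCompact_Icc
  refine h1.of_isClosed_subset ?_ ?_
  · have h2 : Ms Λ W = (⋂ u, {μ : V → ℝ | 0 ≤ μ u}) ∩
        ((⋂ u, ⋂ (_ : u ∉ W), {μ : V → ℝ | μ u = 0}) ∩ {μ : V → ℝ | ∑ u, μ u ≤ Λ}) := by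
      ext μ
      simp only [Ms, Set.mem_ofPred_eq, Set.mem_inter_iff, Set.mem_iInter]
    rw [h2]
    refine IsClosed.inter (isClosed_iInter fun u => ?_) (IsClosed.inter
      (isClosed_iInter fun u => isClosed_iInter fun _ => ?_) ?_)
    · exact isClosed_le continuous_const (continuous_apply u)
    · exact isClosed_eq (continuous_apply u) continuous_const
    · exact isClosed_le (by fun_prop) continuous_const
  · intro μ hμ u _
    exact ⟨hμ.1 u, (Finset.single_le_sum (f := μ) (fun u _ => hμ.1 u) (Finset.mem_univ u)).trans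
      hμ.2.2⟩

theorem convex_Ms (Λ : ℝ) (W : Finset V) : Convex ℝ (Ms Λ W) := by
  intro μ hμ ν hν a b ha hb hab
  refine ⟨fun u => ?_, fun u hu => ?_, ?_⟩
  · rw [Pi.add_apply, Pi.smul_apply, Pi.smul_apply, smul_eq_mul, smul_eq_mul]
    exact add_nonneg (mul_nonneg ha (hμ.1 u)) (mul_nonneg hb (hν.1 u))
  · rw [Pi.add_apply, Pi.smul_apply, Pi.smul_apply, hμ.2.1 u hu, hν.2.1 u hu, smul_zero,
      smul_zero, add_zero]
  · have h1 : ∑ u, (a • μ + b • ν) u = a * ∑ u, μ u + b * ∑ u, ν u := by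
      simp only [Pi.add_apply, Pi.smul_apply, smul_eq_mul, Finset.sum_add_distrib,
        Finset.mul_sum]
    rw [h1]
    have h2 := mul_le_mul_of_nonneg_left hμ.2.2 ha
    have h3 := mul_le_mul_of_nonneg_left hν.2.2 hb
    calc a * ∑ u, μ u + b * ∑ u, ν u ≤ a * Λ + b * Λ := add_le_add h2 h3
      _ = Λ := by rw [← add_mul, hab, one_mul]

theorem zero_mem_Ms {Λ : ℝ} (hΛ : 0 ≤ Λ) (W : Finset V) : (0 : V → ℝ) ∈ Ms Λ W :=
  ⟨fun _ => le_rfl, fun _ _ => rfl, by simpa using hΛ⟩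

theorem nonempty_Ms {Λ : ℝ} (hΛ : 0 ≤ Λ) (W : Finset V) : (Ms Λ W).Nonempty :=
  ⟨_, zero_mem_Ms hΛ W⟩

/-- The set `S`, or everything if `S` is empty. -/
noncomputable def nes {Y : Type} [Fintype Y] (S : Finset Y) : Finset Y :=
  if S.Nonempty then S else Finset.univ

theorem nes_nonempty {Y : Type} [Fintype Y] [Nonempty Y] (S : Finset Y) : (nes S).Nonempty := by
  unfold nes
  split_ifs with h
  · exact h
  · exact Finset.univ_nonempty

theorem nes_eq {Y : Type} [Fintype Y] {S : Finset Y} (h : S.Nonempty) : nes S = S := if_pos h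

/-- Pairs of a law and a measure. -/
def QMs (S : Finset V) (Λ : ℝ) (W : Finset V) : Set (V ⊕ V → ℝ) :=
  {y | (fun u => y (.inl u)) ∈ LawOn S ∧ (fun u => y (.inr u)) ∈ Ms Λ W}

theorem isCompact_QMs (S : Finset V) (Λ : ℝ) (W : Finset V) : IsCompact (QMs S Λ W) := by
  have h1 := ((isCompact_lawOn S).prod (isCompact_Ms Λ W)).image
    (f := fun p : (V → ℝ) × (V → ℝ) => (Sum.elim p.1 p.2 : V ⊕ V → ℝ)) (by
      refine continuous_pi fun u => ?_
      rcases u with u | u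
      · exact (continuous_apply u).comp continuous_fst
      · exact (continuous_apply u).comp continuous_snd)
  have h2 : QMs S Λ W = (fun p : (V → ℝ) × (V → ℝ) => (Sum.elim p.1 p.2 : V ⊕ V → ℝ)) ''
      (LawOn S ×ˢ Ms Λ W) := by
    ext y
    constructor
    · rintro ⟨h3, h4⟩
      refine ⟨(fun u => y (.inl u), fun u => y (.inr u)), ⟨h3, h4⟩, ?_⟩
      funext u
      rcases u with u | u <;> rfl
    · rintro ⟨p, ⟨h3, h4⟩, rfl⟩
      exact ⟨h3, h4⟩
  rw [h2]
  exact h1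

theorem convex_QMs (S : Finset V) (Λ : ℝ) (W : Finset V) : Convex ℝ (QMs S Λ W) := by
  intro y hy z hz a b ha hb hab
  exact ⟨convex_lawOn S hy.1 hz.1 ha hb hab, convex_Ms Λ W hy.2 hz.2 ha hb hab⟩

theorem nonempty_QMs {S : Finset V} (hS : S.Nonempty) {Λ : ℝ} (hΛ : 0 ≤ Λ) (W : Finset V) :
    (QMs S Λ W).Nonempty := by
  obtain ⟨q, hq⟩ := nonempty_lawOn hS
  obtain ⟨μ, hμ⟩ := nonempty_Ms hΛ W
  exact ⟨Sum.elim q μ, hq, hμ⟩

theorem mem_QMs {S : Finset V} {Λ : ℝ} {W : Finset V} {q μ : V → ℝ} (hq : q ∈ LawOn S)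
    (hμ : μ ∈ Ms Λ W) : (Sum.elim q μ : V ⊕ V → ℝ) ∈ QMs S Λ W := ⟨hq, hμ⟩

end sets

/-! ### Convex costs -/

section cost

variable {E : Type} [AddCommGroup E] [Module ℝ E]

/-- Affine functions on `K`. -/
def Af (K : Set E) (g : E → ℝ) : Prop :=
  ∀ y ∈ K, ∀ z ∈ K, ∀ a b : ℝ, 0 ≤ a → 0 ≤ b → a + b = 1 →
    g (a • y + b • z) = a * g y + b * g z

variable {K : Set E}

theorem Af.const (c : ℝ) : Af K fun _ => c := fun y _ z _ a b _ _ hab => by
  rw [← add_mul, hab, one_mul]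

theorem Af.add {f g : E → ℝ} (hf : Af K f) (hg : Af K g) : Af K fun y => f y + g y :=
  fun y hy z hz a b ha hb hab => by
    simp only [hf y hy z hz a b ha hb hab, hg y hy z hz a b ha hb hab]
    ring

theorem Af.mul (c : ℝ) {f : E → ℝ} (hf : Af K f) : Af K fun y => c * f y :=
  fun y hy z hz a b ha hb hab => by
    simp only [hf y hy z hz a b ha hb hab]
    ring

theorem Af.mul_right (c : ℝ) {f : E → ℝ} (hf : Af K f) : Af K fun y => f y * c :=
  fun y hy z hz a b ha hb hab => by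
    simp only [hf y hy z hz a b ha hb hab]
    ring

theorem Af.sum {ι : Type} (s : Finset ι) {f : ι → E → ℝ} (hf : ∀ i ∈ s, Af K (f i)) :
    Af K fun y => ∑ i ∈ s, f i y := fun y hy z hz a b ha hb hab => by
  simp only [Finset.mul_sum]
  rw [← Finset.sum_add_distrib]
  exact Finset.sum_congr rfl fun i hi => hf i hi y hy z hz a b ha hb hab

theorem Af.cm {V : Type} [Fintype V] (G : SimpleGraph V) {f : E → V → ℝ}
    (hf : ∀ u, Af K fun y => f y u) (x : V) : Af K fun y => cm G (f y) x :=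
  (hf x).add (Af.sum _ fun u _ => hf u)

theorem Af.convexOn (hK : Convex ℝ K) {f : E → ℝ} (hf : Af K f) : ConvexOn ℝ K f :=
  ⟨hK, fun y hy z hz a b ha hb hab => (hf y hy z hz a b ha hb hab).le⟩

theorem Af.concaveOn (hK : Convex ℝ K) {f : E → ℝ} (hf : Af K f) : ConcaveOn ℝ K f :=
  ⟨hK, fun y hy z hz a b ha hb hab => (hf y hy z hz a b ha hb hab).ge⟩

/-- The violation of an affine charge is convex. -/
theorem convexOn_vioC {V : Type} [Fintype V] (hK : Convex ℝ K) {G : SimpleGraph V} {M j : ℕ}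
    {v : V} {L : Finset V} {g : E → V → ℝ} (hg : ∀ u, Af K fun y => g y u) :
    ConvexOn ℝ K fun y => vioC G M j v (g y) L := by
  refine ⟨hK, fun y hy z hz a b ha hb hab => ?_⟩
  have h1 : g (a • y + b • z) = fun u => a * g y u + b * g z u := by
    funext u
    exact hg u y hy z hz a b ha hb hab
  simp only [h1, smul_eq_mul]
  exact vioC_convex ha hb hab

theorem convexOn_sum' {ι : Type} (hK : Convex ℝ K) (s : Finset ι) {P : ι → ℝ}
    (hP : ∀ i ∈ s, 0 ≤ P i) {f : ι → E → ℝ} (hf : ∀ i ∈ s, ConvexOn ℝ K (f i)) :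
    ConvexOn ℝ K fun y => ∑ i ∈ s, P i * f i y := by
  refine ⟨hK, fun y hy z hz a b ha hb hab => ?_⟩
  simp only [smul_eq_mul, Finset.mul_sum]
  rw [← Finset.sum_add_distrib]
  refine Finset.sum_le_sum fun i hi => ?_
  have h1 := mul_le_mul_of_nonneg_left ((hf i hi).2 hy hz ha hb hab) (hP i hi)
  simp only [smul_eq_mul] at h1
  linarith

end cost

/-- The coordinates of a function are affine. -/
theorem Af.apply {Y : Type} {K : Set (Y → ℝ)} (u : Y) : Af K fun y => y u :=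
  fun _ _ _ _ _ _ _ _ _ => rfl

end Pool.Agent.Lib.GSR
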