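import Pool.Agent.Lib.GSR.Srv
import Pool.Agent.Lib.FGF.Cnt

/-!
# The ends of the ranks

If the charge `g` dominates the stars with the centre `v` (rank one) then `v` has few light
neighbours: a law on the neighbours of `v` with small atoms has small mass, up to its charge.
The same for sums over labels (`mass_labels`), for the hubs of a random label (`exists_hub`) and for
several laws of labels (`exists_pair_hub`).
-/

set_option autoImplicit false

namespace Pool.Agent.Lib.GSR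

open Finset Classical
open Pool.Agent.Lib.GSR3 (Stab Tree)
open Pool.Agent.Lib.FGF (cm nm Dom stGlue)
open Pool.Agent.Lib.FGF.Avg (wds mem_wds card_wds)
open Pool.Agent.Lib.GSLE (cl cl_nonneg cl_le_one)

namespace Ends_

lemma card_wds_one (M : ℕ) : (wds M 1).card ≤ M := by
  have h1 : wds M 1 ⊆ (Finset.univ : Finset (Fin M)).image fun i => [i] := by
    intro u hu
    obtain ⟨h2, h3⟩ := mem_wds.1 hu
    obtain ⟨i, rfl⟩ : ∃ i, u = [i] :=
      List.length_eq_one_iff.1 (le_antisymm h2 (List.length_pos_iff.2 h3))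
    exact Finset.mem_image.2 ⟨i, Finset.mem_univ _, rfl⟩
  refine (Finset.card_le_card h1).trans (Finset.card_image_le.trans ?_)
  rw [Finset.card_univ, Fintype.card_fin]

end Ends_

open Ends_

section

variable {V : Type} [Fintype V] {G : SimpleGraph V} {M κ : ℕ} {g : V → ℝ} {L : Finset V} {v : V}
  {a c : ℝ}

/-- Stable sets of light neighbours. -/
theorem card_stab_lt (hM : 1 ≤ M) (hg : ∀ u, 0 ≤ g u) {X : Finset V} (hXL : X ⊆ L)
    (hadj : ∀ x ∈ X, G.Adj v x) (hX : Stab G X) (hl : ∀ x ∈ X, g x ≤ c)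
    (hv : vioC G M 1 v g L ≤ a) (hac : M * c < 1 - a) : X.card < M := by
  by_contra hcard
  push Not at hcard
  obtain ⟨X', hX', hc⟩ := Finset.exists_subset_card_eq hcard
  let e : X' ≃ Fin M := X'.equivFinOfCardEq hc
  let b : Fin M → V := fun i => ((e.symm i : X') : V)
  have hcX : ∀ i, b i ∈ X := fun i => hX' (e.symm i).2
  have hcinj : ∀ i i', b i = b i' → i = i' := fun i i' h1 =>
    e.symm.injective (Subtype.ext h1)
  obtain ⟨ψ, hψ, hψ0, hψ1⟩ := stGlue V G M 0 v (fun i _ => b i)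
    (fun i => Pool.Agent.Lib.FGF.Cnt.tree0 G M (b i))
    (fun i => hadj _ (hcX i)) (fun i u _ h1 => G.ne_of_adj (hadj _ (hcX i)) h1.symm)
    (fun i u hu hu0 => (hu (List.eq_nil_of_length_eq_zero (Nat.le_zero.1 hu0))).elim)
    (fun i i' u u' hne _ _ => ⟨fun h1 => hne (hcinj i i' h1), hX _ (hcX i) _ (hcX i')⟩)
  have h1 : ∀ u ∈ wds M (0 + 1), ∃ i, ψ u = b i := by
    intro u hu
    obtain ⟨h2, h3⟩ := mem_wds.1 hu
    obtain ⟨i, rfl⟩ : ∃ i, u = [i] :=
      List.length_eq_one_iff.1 (le_antisymm h2 (List.length_pos_iff.2 h3))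
    have h4 := hψ1 i [] le_rfl
    rw [List.nil_append] at h4
    exact ⟨i, h4⟩
  have h2 : 1 - bc M (0 + 1) g ψ ≤ vioC G M (0 + 1) v g L := by
    refine le_vioC hψ hψ0 fun u hu => ?_
    obtain ⟨i, hi⟩ := h1 u hu
    rw [hi]
    exact hXL (hcX i)
  have hi0 : (0 : ℕ) < M := hM
  have hc0 : 0 ≤ c := (hg (b ⟨0, hi0⟩)).trans (hl _ (hcX _))
  have h3 : bc M (0 + 1) g ψ ≤ M * c := by
    unfold bc
    refine (Finset.sum_le_card_nsmul _ _ c fun u hu => ?_).trans ?_
    · obtain ⟨i, hi⟩ := h1 u hu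
      rw [hi]
      exact hl _ (hcX i)
    · rw [nsmul_eq_mul]
      exact mul_le_mul_of_nonneg_right (by exact_mod_cast card_wds_one M) hc0
  have h4 : vioC G M (0 + 1) v g L ≤ a := hv
  linarith

/-- Light neighbours. -/
theorem card_light (hM : 1 ≤ M) (hg : ∀ u, 0 ≤ g u) (f : V → Fin κ)
    (hf : ∀ u w, G.Adj v u → G.Adj v w → G.Adj u w → f u ≠ f w)
    (hv : vioC G M 1 v g L ≤ a) (hac : M * c < 1 - a) :
    (L.filter fun x => G.Adj v x ∧ g x ≤ c).card ≤ κ * M := by
  have h1 := Finset.card_le_mul_card_image_of_maps_to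
    (s := L.filter fun x => G.Adj v x ∧ g x ≤ c) (t := (Finset.univ : Finset (Fin κ))) (f := f)
    (fun x _ => Finset.mem_univ _) M fun k _ => by
      refine (card_stab_lt (c := c) hM hg ?_ ?_ ?_ ?_ hv hac).le
      · exact (Finset.filter_subset _ _).trans (Finset.filter_subset _ _)
      · intro x hx
        exact (Finset.mem_filter.1 (Finset.mem_filter.1 hx).1).2.1
      · intro x hx y hy hxy
        obtain ⟨hx1, hx2⟩ := Finset.mem_filter.1 hx
        obtain ⟨hy1, hy2⟩ := Finset.mem_filter.1 hy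
        exact hf x y (Finset.mem_filter.1 hx1).2.1 (Finset.mem_filter.1 hy1).2.1 hxy
          (hx2.trans hy2.symm)
      · intro x hx
        exact (Finset.mem_filter.1 (Finset.mem_filter.1 hx).1).2.2
  rw [Finset.card_univ, Fintype.card_fin] at h1
  rw [mul_comm]
  exact h1

/-- The mass of a law on the neighbours with small atoms. -/
theorem mass_light (hM : 1 ≤ M) (hg : ∀ u, 0 ≤ g u) (f : V → Fin κ)
    (hf : ∀ u w, G.Adj v u → G.Adj v w → G.Adj u w → f u ≠ f w)
    (hv : vioC G M 1 v g L ≤ a) (hac : M * c < 1 - a) (hc : 0 < c) (hc1 : c ≤ 1) {q : V → ℝ}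
    {b : ℝ} (hq0 : ∀ x, 0 ≤ q x) (hqv : ∀ x, q x ≠ 0 → G.Adj v x ∧ x ∈ L)
    (hqb : ∀ x, q x ≤ b) : ∑ x, q x ≤ κ * M * b + c⁻¹ * ∑ x, q x * min 1 (g x) := by
  have hb0 : 0 ≤ b := (hq0 v).trans (hqb v)
  have h1 : ∀ x, q x ≤ (if x ∈ L.filter (fun x => G.Adj v x ∧ g x ≤ c) then b else 0) +
      c⁻¹ * (q x * min 1 (g x)) := by
    intro x
    have h2 : 0 ≤ c⁻¹ * (q x * min 1 (g x)) :=
      mul_nonneg (inv_nonneg.2 hc.le) (mul_nonneg (hq0 x) (le_min zero_le_one (hg x)))
    split_ifs with hx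
    · linarith [hqb x]
    · rcases eq_or_ne (q x) 0 with h3 | h3
      · rw [h3] at h2 ⊢
        linarith
      · obtain ⟨h4, h5⟩ := hqv x h3
        have h6 : c < g x := by
          by_contra h
          exact hx (Finset.mem_filter.2 ⟨h5, h4, not_lt.1 h⟩)
        have h7 : c ≤ min 1 (g x) := le_min hc1 h6.le
        have h8 : q x * c ≤ q x * min 1 (g x) := mul_le_mul_of_nonneg_left h7 (hq0 x)
        rw [zero_add, ← div_eq_inv_mul, le_div_iff₀ hc]
        exact h8
  refine (Finset.sum_le_sum fun x _ => h1 x).trans ?_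
  rw [Finset.sum_add_distrib, ← Finset.mul_sum, Finset.sum_ite_mem, Finset.univ_inter,
    Finset.sum_const, nsmul_eq_mul]
  have h9 := card_light (L := L) hM hg f hf hv hac
  have h10 : (((L.filter fun x => G.Adj v x ∧ g x ≤ c).card : ℕ) : ℝ) ≤ κ * M := by
    exact_mod_cast h9
  have h11 := mul_le_mul_of_nonneg_right h10 hb0
  linarith

end

section

variable {V Om : Type} [Fintype V] {G : SimpleGraph V} {M κ : ℕ} {L : Finset V} {a c : ℝ}

/-- Sums over labels with hubs of rank one. -/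
theorem mass_labels (hM : 1 ≤ M) (O : Finset Om) {y : Om → V} {g : Om → V → ℝ} {ρ : Om → ℝ}
    {P : Om → V → ℝ} {b : ℝ} (hg : ∀ l u, 0 ≤ g l u) (f : V → V → Fin κ)
    (hf : ∀ v u w, G.Adj v u → G.Adj v w → G.Adj u w → f v u ≠ f v w)
    (hv : ∀ l ∈ O, vioC G M 1 (y l) (g l) L ≤ a) (hac : M * c < 1 - a) (hc : 0 < c)
    (hc1 : c ≤ 1) (hρ : ∀ l, 0 ≤ ρ l) (hP : ∀ l x, 0 ≤ P l x)
    (hPv : ∀ l ∈ O, ∀ x, P l x ≠ 0 → G.Adj (y l) x ∧ x ∈ L) (hPb : ∀ l ∈ O, ∀ x, P l x ≤ b) :
    ∑ l ∈ O, ρ l * ∑ x, P l x ≤ κ * M * b * ∑ l ∈ O, ρ l +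
      c⁻¹ * ∑ l ∈ O, ρ l * ∑ x, P l x * min 1 (g l x) := by
  rw [Finset.mul_sum, Finset.mul_sum, ← Finset.sum_add_distrib]
  refine Finset.sum_le_sum fun l hl => ?_
  have h1 := mul_le_mul_of_nonneg_left (mass_light hM (hg l) (f (y l)) (hf (y l)) (hv l hl) hac hc
    hc1 (hP l) (hPv l hl) (hPb l hl)) (hρ l)
  refine h1.trans (le_of_eq ?_)
  ring

/-- A heavy hub of a random label at a vertex of rank one; the hub is light. -/
theorem exists_hub [Fintype Om] (hM : 1 ≤ M) {g : V → ℝ} {t : V} (hg : ∀ u, 0 ≤ g u)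
    (f : V → Fin κ)
    (hf : ∀ u w, G.Adj t u → G.Adj t w → G.Adj u w → f u ≠ f w)
    (hv : vioC G M 1 t g L ≤ a) (hac : M * c < 1 - a) (hc : 0 < c) (hc1 : c ≤ 1) {y : Om → V}
    {om : Om → ℝ} (hom : ∀ l, 0 ≤ om l) (hom1 : ∑ l, om l = 1)
    (hy : ∀ l, om l ≠ 0 → G.Adj t (y l) ∧ y l ∈ L)
    (hcost : ∑ l, om l * min 1 (g (y l)) ≤ c / 2) :
    ∃ u ∈ L.filter (fun x => G.Adj t x ∧ g x ≤ c), 1 ≤ 2 * (κ * M) * psh y om u := by
  have hq0 : ∀ u, 0 ≤ psh y om u := fun u => Finset.sum_nonneg fun l _ => hom l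
  set S : Finset V := L.filter (fun x => G.Adj t x ∧ g x ≤ c) with hS
  by_contra hcon
  push Not at hcon
  -- the mass of the light hubs
  have h1 : ∀ u, psh y om u ≤ (if u ∈ S then psh y om u else 0) +
      c⁻¹ * (psh y om u * min 1 (g u)) := by
    intro u
    have h2 : 0 ≤ c⁻¹ * (psh y om u * min 1 (g u)) :=
      mul_nonneg (inv_nonneg.2 hc.le) (mul_nonneg (hq0 u) (le_min zero_le_one (hg u)))
    split_ifs with hx
    · linarith
    · rcases eq_or_ne (psh y om u) 0 with h3 | h3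
      · rw [h3] at h2 ⊢
        linarith
      · obtain ⟨l, hl, hl0⟩ := Finset.exists_ne_zero_of_sum_ne_zero h3
        have hyu := (Finset.mem_filter.1 hl).2
        obtain ⟨h4, h5⟩ := hy l hl0
        rw [hyu] at h4 h5
        have h6 : c < g u := by
          by_contra h
          exact hx (Finset.mem_filter.2 ⟨h5, h4, not_lt.1 h⟩)
        have h7 : c ≤ min 1 (g u) := le_min hc1 h6.le
        have h8 := mul_le_mul_of_nonneg_left h7 (hq0 u)
        rw [zero_add, ← div_eq_inv_mul, le_div_iff₀ hc]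
        exact h8
  have h2 : ∑ u, psh y om u = 1 := by
    have h3 := sum_psh y om (fun _ => 1)
    simp only [mul_one] at h3
    rw [h3, hom1]
  have h3 : ∑ u, psh y om u * min 1 (g u) ≤ c / 2 := by
    rw [sum_psh y om (fun u => min 1 (g u))]
    exact hcost
  have h4 : (1 : ℝ) ≤ ∑ u ∈ S, psh y om u + 1 / 2 := by
    have h5 := Finset.sum_le_sum fun u (_ : u ∈ (Finset.univ : Finset V)) => h1 u
    rw [h2, Finset.sum_add_distrib, ← Finset.mul_sum, Finset.sum_ite_mem, Finset.univ_inter] at h5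
    have h6 : c⁻¹ * ∑ u, psh y om u * min 1 (g u) ≤ 1 / 2 := by
      rw [← div_eq_inv_mul, div_le_iff₀ hc]
      linarith
    linarith
  have hcard : ((S.card : ℕ) : ℝ) ≤ κ * M := by
    exact_mod_cast card_light (L := L) hM hg f hf hv hac
  rcases S.eq_empty_or_nonempty with hS0 | hS0
  · rw [hS0, Finset.sum_empty] at h4
    linarith
  · have hpos : (0 : ℝ) < κ * M :=
      lt_of_lt_of_le (by exact_mod_cast Finset.card_pos.2 hS0) hcard
    have h5 : ∑ u ∈ S, 2 * (κ * M) * psh y om u < ∑ _u ∈ S, (1 : ℝ) :=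
      Finset.sum_lt_sum_of_nonempty hS0 hcon
    rw [← Finset.mul_sum, Finset.sum_const, nsmul_eq_mul, mul_one] at h5
    nlinarith

/-- Two of many laws of labels have a common heavy hub. -/
theorem exists_pair_hub [Fintype Om] (hM : 1 ≤ M) {g : V → ℝ} {t : V} (hg : ∀ u, 0 ≤ g u)
    (f : V → Fin κ)
    (hf : ∀ u w, G.Adj t u → G.Adj t w → G.Adj u w → f u ≠ f w)
    (hv : vioC G M 1 t g L ≤ a) (hac : M * c < 1 - a) (hc : 0 < c) (hc1 : c ≤ 1) {y : Om → V}
    {R : ℕ} (hR : κ * M < R) {om : ℕ → Om → ℝ} (hom : ∀ i < R, ∀ l, 0 ≤ om i l)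
    (hom1 : ∀ i < R, ∑ l, om i l = 1)
    (hy : ∀ i < R, ∀ l, om i l ≠ 0 → G.Adj t (y l) ∧ y l ∈ L)
    (hcost : ∀ i < R, ∑ l, om i l * min 1 (g (y l)) ≤ c / 2) :
    ∃ i j, i < j ∧ j < R ∧ ∃ u, 1 ≤ 2 * (κ * M) * psh y (om i) u ∧
      1 ≤ 2 * (κ * M) * psh y (om j) u := by
  set S : Finset V := L.filter (fun x => G.Adj t x ∧ g x ≤ c) with hS
  have h1 : ∀ i, ∃ u, i < R → u ∈ S ∧ 1 ≤ 2 * (κ * M) * psh y (om i) u := by
    intro i
    by_cases hi : i < R
    · obtain ⟨u, hu1, hu2⟩ := exists_hub hM hg f hf hv hac hc hc1 (hom i hi) (hom1 i hi)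
        (hy i hi) (hcost i hi)
      exact ⟨u, fun _ => ⟨hu1, hu2⟩⟩
    · exact ⟨t, fun h => (hi h).elim⟩
  choose u hu using h1
  obtain ⟨i, hi, j, hj, hij, he⟩ := Finset.exists_ne_map_eq_of_card_lt_of_maps_to
    (s := Finset.range R) (t := S) (f := u)
    (lt_of_le_of_lt (card_light (L := L) hM hg f hf hv hac) (by rw [Finset.card_range]; exact hR))
    (fun i hi => (hu i (Finset.mem_range.1 hi)).1)
  rw [Finset.mem_range] at hi hj
  rcases lt_or_gt_of_ne hij with h | h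
  · exact ⟨i, j, h, hj, u i, (hu i hi).2, by rw [he]; exact (hu j hj).2⟩
  · exact ⟨j, i, h, hi, u j, (hu j hj).2, by rw [← he]; exact (hu i hi).2⟩

/-- The cost `e3` of two laws of labels with a common heavy hub: own laws of the labels of the
first law see the hubs of the second law. -/
theorem le_cross_hub [Fintype Om] {y : Om → V} {om om' : Om → ℝ} {p : Om → V → ℝ} {D : ℝ} {u : V}
    (hom : ∀ l, 0 ≤ om l) (hom' : ∀ l, 0 ≤ om' l) (hp : ∀ l x, 0 ≤ p l x)
    (hown : ∀ l, om l ≠ 0 → ∀ x, p l x ≠ 0 → G.Adj (y l) x)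
    (hDl : ∀ l, om l ≠ 0 → D ≤ ∑ x, p l x) :
    psh y om u * psh y om' u * D ≤
      ∑ l, om l * ∑ x, p l x * ∑ l', om' l' * cl G x (y l') := by
  have h1 : psh y om u * psh y om' u * D =
      ∑ l ∈ Finset.univ.filter (fun l => y l = u), om l * (psh y om' u * D) := by
    rw [← Finset.sum_mul]
    unfold psh
    ring
  rw [h1]
  refine (Finset.sum_le_sum (g := fun l => om l * ∑ x, p l x * ∑ l', om' l' * cl G x (y l'))
    fun l hl => ?_).trans (Finset.sum_le_sum_of_subset_of_nonneg (Finset.subset_univ _)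
      fun l _ _ => mul_nonneg (hom l) (Finset.sum_nonneg fun x _ => mul_nonneg (hp l x)
        (Finset.sum_nonneg fun l' _ => mul_nonneg (hom' l') (cl_nonneg _ _ _))))
  rw [Finset.mem_filter] at hl
  rcases eq_or_ne (om l) 0 with h0 | h0
  · rw [h0, zero_mul, zero_mul]
  refine mul_le_mul_of_nonneg_left ?_ (hom l)
  have hps : 0 ≤ psh y om' u := Finset.sum_nonneg fun l _ => hom' l
  calc psh y om' u * D ≤ psh y om' u * ∑ x, p l x :=
        mul_le_mul_of_nonneg_left (hDl l h0) hps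
    _ = ∑ x, p l x * psh y om' u := by
        rw [Finset.mul_sum]
        exact Finset.sum_congr rfl fun x _ => mul_comm _ _
    _ ≤ ∑ x, p l x * ∑ l', om' l' * cl G x (y l') := by
        refine Finset.sum_le_sum fun x _ => ?_
        rcases eq_or_ne (p l x) 0 with hx | hx
        · rw [hx, zero_mul, zero_mul]
        refine mul_le_mul_of_nonneg_left ?_ (hp l x)
        have hadj := hown l h0 x hx
        have h2 : psh y om' u = ∑ l' ∈ Finset.univ.filter (fun l' => y l' = u),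
            om' l' * cl G x (y l') := by
          unfold psh
          refine Finset.sum_congr rfl fun l' hl' => ?_
          rw [(Finset.mem_filter.1 hl').2, ← hl.2]
          have h3 : cl G x (y l) = 1 := by
            unfold cl
            rw [if_pos (Or.inr hadj.symm)]
          rw [h3, mul_one]
        rw [h2]
        exact Finset.sum_le_sum_of_subset_of_nonneg (Finset.subset_univ _)
          fun l' _ _ => mul_nonneg (hom' l') (cl_nonneg _ _ _)

end

end Pool.Agent.Lib.GSR
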