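import Pool.Agent.Lib.GSR.RW
import Pool.Agent.Lib.GSR.Lg
import Pool.Agent.Lib.TCH.Dg

/-!
# Random exact worlds: the game and the closed tests

`col A n` is an abstract notion of colourability.  The next world may be asked to be off finitely
many small sets `{0 < h i}`, to lie on one side of finitely many functions `g j`, and to contain no
arc of a digraph of bounded outdegree; such worlds exist for every parameter.
-/

set_option autoImplicit false

namespace Pool.Agent.Lib.GSR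

open Finset Classical

/-- Abstract colourability. -/
structure ColS {V : Type} (col : Finset V → ℕ → Prop) : Prop where
  emp : col ∅ 0
  mono : ∀ A B n m, A ⊆ B → n ≤ m → col B n → col A m
  union : ∀ A B n m, col A n → col B m → col (A ∪ B) (n + m)

lemma ColS.biUnion {V : Type} {col : Finset V → ℕ → Prop} (h : ColS col) {κ : Type} (s : Finset κ)
    (A : κ → Finset V) (n : ℕ) (hA : ∀ k ∈ s, col (A k) n) : col (s.biUnion A) (s.card * n) := by
  induction s using Finset.induction_on with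
  | empty =>
    rw [Finset.biUnion_empty, Finset.card_empty, zero_mul]
    exact h.emp
  | insert a s ha ih =>
    rw [Finset.biUnion_insert, Finset.card_insert_of_notMem ha, Nat.succ_mul, Nat.add_comm]
    exact h.union _ _ _ _ (hA a (Finset.mem_insert_self _ _))
      (ih fun k hk => hA k (Finset.mem_insert_of_mem hk))

/-- Pigeonhole. -/
lemma ColS.exists_part {V : Type} {col : Finset V → ℕ → Prop} (h : ColS col) {κ : Type}
    [Fintype κ] (W : Finset V) (f : V → κ) (n : ℕ) (hW : ¬ col W (Fintype.card κ * n)) :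
    ∃ (k : κ) (W' : Finset V), W' ⊆ W ∧ (∀ v ∈ W', f v = k) ∧ ¬ col W' n := by
  by_contra hcon
  push Not at hcon
  refine hW (h.mono _ _ _ _ ?_ le_rfl (h.biUnion Finset.univ (fun k => W.filter fun v => f v = k) n
    fun k _ => hcon k _ (Finset.filter_subset _ _) fun v hv => (Finset.mem_filter.1 hv).2))
  intro v hv
  rw [Finset.mem_biUnion]
  exact ⟨f v, Finset.mem_univ _, Finset.mem_filter.2 ⟨hv, rfl⟩⟩

/-- The next world. -/
theorem ColS.exists_world {V : Type} {col : Finset V → ℕ → Prop} (hc : ColS col) {I J : Type}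
    [Fintype I] [Fintype J] (W : Finset V) (h : I → V → ℝ) (C : ℕ)
    (hC : ∀ i, col (W.filter fun v => 0 < h i v) C) (g : J → V → ℝ) (F : V → Finset V) (D : ℕ)
    (hF : ∀ v, (F v).card ≤ D) (n : ℕ)
    (hW : ¬ col W (Fintype.card I * C + 2 ^ Fintype.card J * (3 ^ D * n))) :
    ∃ W' ⊆ W, ¬ col W' n ∧ (∀ i, ∀ v ∈ W', h i v ≤ 0) ∧
      (∀ j, (∀ v ∈ W', g j v ≤ 0) ∨ ∀ v ∈ W', 0 ≤ g j v) ∧
      ∀ v ∈ W', ∀ w ∈ W', w ≠ v → w ∉ F v := by
  obtain ⟨W1, hW1⟩ : ∃ W1, W1 = W.filter fun v => ∀ i, h i v ≤ 0 := ⟨_, rfl⟩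
  have h1 : ¬ col W1 (2 ^ Fintype.card J * (3 ^ D * n)) := by
    intro hcol
    refine hW (hc.mono _ _ _ _ ?_ le_rfl (hc.union _ _ _ _
      (hc.biUnion Finset.univ (fun i => W.filter fun v => 0 < h i v) C fun i _ => hC i) hcol))
    intro v hv
    rw [Finset.mem_union, Finset.mem_biUnion, hW1, Finset.mem_filter]
    by_cases h2 : ∀ i, h i v ≤ 0
    · exact Or.inr ⟨hv, h2⟩
    · push Not at h2
      obtain ⟨i, hi⟩ := h2
      exact Or.inl ⟨i, Finset.mem_univ _, Finset.mem_filter.2 ⟨hv, hi⟩⟩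
  obtain ⟨k, W2, hW2, hk2, hk⟩ := hc.exists_part W1 (fun v (j : J) => decide (g j v ≤ 0))
    (3 ^ D * n) (by
      rw [Fintype.card_fun, Fintype.card_bool]
      exact h1)
  obtain ⟨φ, hφ⟩ := TCH.stDg V D F hF
  obtain ⟨l, W', hW', hl2, hl⟩ := hc.exists_part W2 φ n (by
    rw [Fintype.card_fin]
    exact hk)
  have hmem : ∀ v ∈ W', v ∈ W ∧ (∀ i, h i v ≤ 0) ∧ (∀ j, decide (g j v ≤ 0) = k j) ∧
      φ v = l := by
    intro v hv
    have h2 := hW2 (hW' hv)
    rw [hW1, Finset.mem_filter] at h2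
    exact ⟨h2.1, h2.2, fun j => congrFun (hk2 v (hW' hv)) j, hl2 v hv⟩
  refine ⟨W', fun v hv => (hmem v hv).1, hl, fun i v hv => (hmem v hv).2.1 i, fun j => ?_, ?_⟩
  · cases hkj : k j with
    | true =>
      refine Or.inl fun v hv => ?_
      have h2 := (hmem v hv).2.2.1 j
      rw [hkj, decide_eq_true_eq] at h2
      exact h2
    | false =>
      refine Or.inr fun v hv => ?_
      have h2 := (hmem v hv).2.2.1 j
      rw [hkj, decide_eq_false_iff_not, not_le] at h2
      exact h2.le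
  · intro v hv w hw hne hF'
    exact hφ v w hF' hne ((hmem w hw).2.2.2.trans (hmem v hv).2.2.2.symm)

/-! ### The test functions -/

lemma sum_max_le {α : Type} {s : Finset α} {h : α → ℝ} :
    ∑ v ∈ s, max 0 (h v) ≤ 0 ↔ ∀ v ∈ s, h v ≤ 0 := by
  constructor
  · intro h1 v hv
    have h2 := Finset.single_le_sum (f := fun v => max 0 (h v)) (fun v _ => le_max_left _ _) hv
    exact (le_max_right 0 (h v)).trans (h2.trans h1)
  · intro h1
    exact (Finset.sum_eq_zero fun v hv => max_eq_left (h1 v hv)).le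

/-- **The game with random exact worlds.**  The laws `θ.2 i` are best replies for payoffs which are
sums of a linear and a logarithmic part, the law `θ.1` on the pairs (chain, node) satisfies all the
tests exactly. -/
theorem rw_game {V : Type} [Fintype V] [Nonempty V] {col : Finset V → ℕ → Prop} (hcol : ColS col)
    (N : ℕ)
    -- the laws
    {ι : Type} [Fintype ι] (X Y : ι → Type) [∀ i, Fintype (X i)] [∀ i, Fintype (Y i)]
    (S : ∀ i, Finset (Y i)) (hS : ∀ i, (S i).Nonempty) {η : ℝ} (hη : 0 < η)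
    (D : Set (((Ch V N × V) → ℝ) × (∀ i, Y i → ℝ)))
    (hD : D = stdSimplex ℝ (Ch V N × V) ×ˢ Set.pi Set.univ fun i => LawOn (S i))
    (g : ∀ i, ((Ch V N × V) → ℝ) × (∀ i, Y i → ℝ) → Y i → ℝ)
    (n : ∀ i, ((Ch V N × V) → ℝ) × (∀ i, Y i → ℝ) → X i → ℝ)
    (M : ∀ i, ((Ch V N × V) → ℝ) × (∀ i, Y i → ℝ) → X i → Y i → ℝ)
    (hg : ∀ i y, ContinuousOn (fun θ => g i θ y) D)
    (hn : ∀ i x, ContinuousOn (fun θ => n i θ x) D) (hn0 : ∀ i, ∀ θ ∈ D, ∀ x, 0 ≤ n i θ x)
    (hM : ∀ i x y, ContinuousOn (fun θ => M i θ x y) D)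
    (hM0 : ∀ i, ∀ θ ∈ D, ∀ x y, 0 ≤ M i θ x y)
    -- the sizes and the combinatorial conditions on the worlds
    {I J : Type} [Fintype I] [Fintype J] (b C dg : ℕ → ℕ) (Nx : ℕ → Finset V → Finset V)
    (hNx : ∀ s W, Nx s W ⊆ W)
    (hb0 : ¬ col Finset.univ (b 0))
    (hb : ∀ s < N, ∀ W, ¬ col W (b s) → ¬ col (Nx s W)
      (Fintype.card I * C s + 2 ^ Fintype.card J * (3 ^ (dg s) * b (s + 1))))
    (hbN : Fintype.card I * C N ≤ b N)
    -- the tests
    (sm : ℕ → I → Ch V N → V → ((Ch V N × V) → ℝ) × (∀ i, Y i → ℝ) → ℝ)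
    (sg : ℕ → J → Ch V N → V → ((Ch V N × V) → ℝ) × (∀ i, Y i → ℝ) → ℝ)
    (ar : ℕ → Ch V N → V → V → ((Ch V N × V) → ℝ) × (∀ i, Y i → ℝ) → ℝ)
    (hsm : ∀ s ≤ N, ∀ i π v, ContinuousOn (sm s i π v) D)
    (hsg : ∀ s < N, ∀ j π v, ContinuousOn (sg s j π v) D)
    (har : ∀ s < N, ∀ π v w, ContinuousOn (ar s π v w) D)
    (hsm2 : ∀ θ ∈ D, ∀ s < N, ∀ c : Ch V N, ¬ col (wd c s) (b s) → ∀ i,
      col ((Nx s (wd c s)).filter fun v => 0 < sm s i (pfx s c) v θ) (C s))
    (hsmN : ∀ θ ∈ D, ∀ c : Ch V N, ¬ col (wd c N) (b N) → ∀ i,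
      col ((wd c N).filter fun v => 0 < sm N i c v θ) (C N))
    (har2 : ∀ θ ∈ D, ∀ s < N, ∀ (c : Ch V N) (v : V), ¬ col (wd c s) (b s) →
      ((wd c s).filter fun w => 0 < ar s (pfx s c) v w θ).card ≤ dg s) :
    ∃ θ ∈ D, (∀ i, ∀ q ∈ LawOn (S i), pay η (g i θ) (n i θ) (M i θ) q ≤
        pay η (g i θ) (n i θ) (M i θ) (θ.2 i)) ∧
      ∀ c x, θ.1 (c, x) ≠ 0 →
        (∀ s < N, wd c (s + 1) ⊆ Nx s (wd c s) ∧ ¬ col (wd c (s + 1)) (b (s + 1)) ∧
          (∀ i, ∀ v ∈ wd c (s + 1), sm s i (pfx s c) v θ ≤ 0) ∧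
          (∀ j, (∀ v ∈ wd c (s + 1), sg s j (pfx s c) v θ ≤ 0) ∨
            ∀ v ∈ wd c (s + 1), 0 ≤ sg s j (pfx s c) v θ) ∧
          ∀ v ∈ wd c (s + 1), ∀ w ∈ wd c (s + 1), w ≠ v → ar s (pfx s c) v w θ ≤ 0) ∧
        x ∈ wd c N ∧ ∀ i, sm N i c x θ ≤ 0 := by
  subst hD
  obtain ⟨bad, hbad⟩ : ∃ bad : ℕ → Option (I ⊕ Option J) → Ch V N → Finset V →
      ((Ch V N × V) → ℝ) × (∀ i, Y i → ℝ) → ℝ, bad = fun s k π W θ =>
      match k with
      | none => if W ⊆ Nx s (wd π s) then 0 else 1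
      | some (.inl i) => ∑ v ∈ W, max 0 (sm s i π v θ)
      | some (.inr (some j)) => min (∑ v ∈ W, max 0 (sg s j π v θ))
          (∑ v ∈ W, max 0 (-sg s j π v θ))
      | some (.inr none) => ∑ v ∈ W, ∑ w ∈ W.filter (fun w => w ≠ v), max 0 (ar s π v w θ) :=
    ⟨_, rfl⟩
  have key := rw_fp N (fun i => Y i → ℝ) (fun i => LawOn (S i)) (fun i => isCompact_lawOn _)
    (fun i => convex_lawOn _) (fun i => nonempty_lawOn (hS i))
    (fun i θ p => pay η (g i θ) (n i θ) (M i θ) p)
    (fun i => continuousOn_pay hη (hg i) (hn i) (hM i) (hM0 i) fun p hp => hp.1.1)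
    (fun i θ hθ => concaveOn_pay hη (g i θ) (hn0 i θ hθ) (hM0 i θ hθ) (convex_lawOn _)
      fun p hp => hp.1.1)
    (fun s W => ¬ col W (b s)) hb0 bad
    (by
      intro s hs k π W
      rw [hbad]
      rcases k with _ | i | _ | j
      · exact continuousOn_const
      · exact continuousOn_finsetSum _ fun v _ => continuousOn_const.sup (hsm s hs.le i π v)
      · exact continuousOn_finsetSum _ fun v _ => continuousOn_finsetSum _ fun w _ =>
          continuousOn_const.sup (har s hs π v w)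
      · exact ContinuousOn.inf
          (continuousOn_finsetSum _ fun v _ => continuousOn_const.sup (hsg s hs j π v))
          (continuousOn_finsetSum _ fun v _ => continuousOn_const.sup (hsg s hs j π v).neg))
    (fun k c x θ => match k with
      | some (.inl i) => sm N i c x θ
      | _ => 0)
    (by
      intro k c x
      rcases k with _ | i | _ | j
      · exact continuousOn_const
      · exact hsm N le_rfl i c x
      · exact continuousOn_const
      · exact continuousOn_const)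
    (by
      intro θ hθ s hs c hB
      obtain ⟨W, hW, hW1, hW2, hW3, hW4⟩ := hcol.exists_world (Nx s (wd c s))
        (fun i v => sm s i (pfx s c) v θ) (C s) (hsm2 θ hθ s hs c hB)
        (fun j v => sg s j (pfx s c) v θ)
        (fun v => (wd c s).filter fun w => 0 < ar s (pfx s c) v w θ) (dg s)
        (fun v => har2 θ hθ s hs c v hB) (b (s + 1)) (hb s hs _ hB)
      have hWs := hW.trans (hNx s _)
      refine ⟨W, hWs, hW1, fun k => ?_⟩
      rw [hbad]
      rcases k with _ | i | _ | j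
      · refine (if_pos ?_).le
        rw [wd_pfx le_rfl]
        exact hW
      · exact sum_max_le.2 (hW2 i)
      · refine (Finset.sum_eq_zero fun v hv => ?_).le
        refine Finset.sum_eq_zero fun w hw => max_eq_left ?_
        rw [Finset.mem_filter] at hw
        by_contra hcon
        rw [not_le] at hcon
        exact hW4 v hv w hw.1 hw.2 (Finset.mem_filter.2 ⟨hWs hw.1, hcon⟩)
      · rcases hW3 j with h1 | h1
        · exact (min_le_left _ _).trans (sum_max_le.2 h1)
        · exact (min_le_right _ _).trans (sum_max_le.2 fun v hv => by linarith [h1 v hv]))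
    (by
      intro θ hθ c hB
      by_contra hcon
      push Not at hcon
      refine hB (hcol.mono _ _ _ _ ?_ hbN (hcol.biUnion Finset.univ
        (fun i => (wd c N).filter fun v => 0 < sm N i c v θ) (C N) fun i _ => hsmN θ hθ c hB i))
      intro v hv
      obtain ⟨k, hk⟩ := hcon v hv
      rcases k with _ | i | _ | j
      · exact absurd hk (lt_irrefl _)
      · rw [Finset.mem_biUnion]
        exact ⟨i, Finset.mem_univ _, Finset.mem_filter.2 ⟨hv, hk⟩⟩
      · exact absurd hk (lt_irrefl _)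
      · exact absurd hk (lt_irrefl _))
  obtain ⟨θ, hθ, h1, h2⟩ := key
  refine ⟨θ, hθ, h1, fun c x hcx => ?_⟩
  obtain ⟨h3, h4, h5⟩ := h2 c x hcx
  rw [hbad] at h3
  refine ⟨fun s hs => ?_, h4, fun i => h5 (some (.inl i))⟩
  obtain ⟨-, h6, h7⟩ := h3 s hs
  refine ⟨?_, h6, fun i => ?_, fun j => ?_, ?_⟩
  · have h8 := h7 none
    by_contra h9
    rw [← wd_pfx (le_refl s) c] at h9
    simp only [if_neg h9] at h8
    exact absurd h8 (by norm_num)
  · exact sum_max_le.1 (h7 (some (.inl i)))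
  · rcases min_le_iff.1 (h7 (some (.inr (some j)))) with h8 | h8
    · exact Or.inl (sum_max_le.1 h8)
    · exact Or.inr fun v hv => by linarith [sum_max_le.1 h8 v hv]
  · intro v hv w hw hne
    have h8 := h7 (some (.inr none))
    have h9 : ∑ w ∈ (wd c (s + 1)).filter (fun w => w ≠ v), max 0 (ar s (pfx s c) v w θ) ≤ 0 :=
      le_trans (Finset.single_le_sum (f := fun v => ∑ w ∈ (wd c (s + 1)).filter (fun w => w ≠ v),
        max 0 (ar s (pfx s c) v w θ)) (fun v _ => Finset.sum_nonneg fun w _ => le_max_left _ _)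
        hv) h8
    exact sum_max_le.1 h9 w (Finset.mem_filter.2 ⟨hw, hne⟩)

end Pool.Agent.Lib.GSR
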