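import Pool.Agent.Lib.FPK.Fp
import Pool.Agent.Lib.GSR.Lg
import Pool.Agent.Lib.GSR.RWG

/-!
# Random exact histories

A history is a sequence of `N` step objects from a finite type `Z` (for instance a world together
with finite data: masters, assignments, bits), `pf s c` is the part of the history before the
step `s`.  One coordinate of the game is a law `Q` on the pairs (history, node); the other
coordinates are laws with linear plus logarithmic payoffs, or arbitrary concave best replies.  All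
the tests hold exactly on the support of `Q`.
-/

set_option autoImplicit false

namespace Pool.Agent.Lib.GSR.HZ

open Finset Classical
open Pool.Agent.Lib.GSR

/-- Histories. -/
abbrev Hs (Z : Type) (N : ℕ) : Type := Fin N → Z

/-- The part of the history `c` before the step `s`. -/
def pf {Z : Type} [Inhabited Z] {N : ℕ} (s : ℕ) (c : Hs Z N) : Hs Z N :=
  fun i => if i.1 < s then c i else default

section pf

variable {Z : Type} [Inhabited Z] {N : ℕ}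

lemma pf_pf {s t : ℕ} (h : s ≤ t) (c : Hs Z N) : pf s (pf t c) = pf s c := by
  funext i
  unfold pf
  by_cases h1 : i.1 < s
  · rw [if_pos h1, if_pos h1, if_pos (h1.trans_le h)]
  · rw [if_neg h1, if_neg h1]

lemma pf_self (c : Hs Z N) : pf N c = c := by
  funext i
  exact if_pos i.2

lemma pf_mono {s t : ℕ} (h : s ≤ t) {c c' : Hs Z N} (hc : pf t c = pf t c') :
    pf s c = pf s c' := by
  rw [← pf_pf h c, hc, pf_pf h c']

lemma pf_apply {s : ℕ} (c : Hs Z N) {i : Fin N} (h : i.1 < s) : pf s c i = c i := if_pos h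

lemma pf_update (c : Hs Z N) (s : Fin N) (z : Z) (t : ℕ) (ht : t ≤ s.1) :
    pf t (Function.update c s z) = pf t c := by
  funext i
  unfold pf
  by_cases h1 : i.1 < t
  · rw [if_pos h1, if_pos h1, Function.update_of_ne]
    intro h
    rw [h] at h1
    omega
  · rw [if_neg h1, if_neg h1]

/-- Allowed histories exist. -/
lemma exists_allowed (P : ∀ s : Fin N, Hs Z N → Z → Prop)
    (hP : ∀ (s : Fin N) (c : Hs Z N), (∀ t : Fin N, t < s → P t (pf t.1 c) (c t)) →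
      ∃ z, P s (pf s.1 c) z) : ∃ c : Hs Z N, ∀ s : Fin N, P s (pf s.1 c) (c s) := by
  have key : ∀ r : ℕ, r ≤ N → ∃ c : Hs Z N, ∀ s : Fin N, s.1 < r → P s (pf s.1 c) (c s) := by
    intro r
    induction r with
    | zero => exact fun _ => ⟨fun _ => default, fun s hs => absurd hs (Nat.not_lt_zero _)⟩
    | succ r ih =>
      intro hr
      obtain ⟨c, hc⟩ := ih (by omega)
      obtain ⟨z, hz⟩ := hP ⟨r, by omega⟩ c fun t ht => hc t ht
      refine ⟨Function.update c ⟨r, by omega⟩ z, fun s hs => ?_⟩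
      by_cases h1 : s = ⟨r, by omega⟩
      · rw [h1, pf_update c _ z _ le_rfl, Function.update_self]
        exact hz
      · have h2 : s.1 < r := by
          by_contra h3
          exact h1 (Fin.ext (by simp only; omega))
        rw [pf_update c _ z _ h2.le, Function.update_of_ne h1]
        exact hc s h2
  obtain ⟨c, hc⟩ := key N le_rfl
  exact ⟨c, fun s => hc s s.2⟩

end pf

/-- **Random exact histories**, general form: arbitrary best replies. -/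
theorem fp {Z X : Type} [Fintype Z] [Inhabited Z] [Fintype X] [Nonempty X] (N : ℕ)
    {ι : Type} [Fintype ι] (E : ι → Type)
    [∀ i, NormedAddCommGroup (E i)] [∀ i, NormedSpace ℝ (E i)] [∀ i, FiniteDimensional ℝ (E i)]
    (K : ∀ i, Set (E i)) (hK : ∀ i, IsCompact (K i)) (hc : ∀ i, Convex ℝ (K i))
    (hne : ∀ i, (K i).Nonempty)
    (f : ∀ i, ((Hs Z N × X) → ℝ) × (∀ j, E j) → E i → ℝ)
    (hf : ∀ i, ContinuousOn (fun p : (((Hs Z N × X) → ℝ) × (∀ j, E j)) × E i => f i p.1 p.2)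
      ((stdSimplex ℝ (Hs Z N × X) ×ˢ Set.pi Set.univ K) ×ˢ K i))
    (hcc : ∀ i, ∀ p ∈ stdSimplex ℝ (Hs Z N × X) ×ˢ Set.pi Set.univ K,
      ConcaveOn ℝ (K i) (f i p))
    {κ : Type} [Fintype κ]
    (tst : Fin N → κ → Hs Z N → Z → ((Hs Z N × X) → ℝ) × (∀ j, E j) → ℝ)
    (htst : ∀ s k π z, ContinuousOn (tst s k π z)
      (stdSimplex ℝ (Hs Z N × X) ×ˢ Set.pi Set.univ K))
    (tn : κ → Hs Z N → X → ((Hs Z N × X) → ℝ) × (∀ j, E j) → ℝ)
    (htn : ∀ k c x, ContinuousOn (tn k c x)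
      (stdSimplex ℝ (Hs Z N × X) ×ˢ Set.pi Set.univ K))
    (h1 : ∀ θ ∈ stdSimplex ℝ (Hs Z N × X) ×ˢ Set.pi Set.univ K, ∀ (s : Fin N) (c : Hs Z N),
      (∀ t : Fin N, t < s → ∀ k, tst t k (pf t.1 c) (c t) θ ≤ 0) →
        ∃ z, ∀ k, tst s k (pf s.1 c) z θ ≤ 0)
    (h2 : ∀ θ ∈ stdSimplex ℝ (Hs Z N × X) ×ˢ Set.pi Set.univ K, ∀ c : Hs Z N,
      (∀ t : Fin N, ∀ k, tst t k (pf t.1 c) (c t) θ ≤ 0) → ∃ x, ∀ k, tn k c x θ ≤ 0) :
    ∃ θ ∈ stdSimplex ℝ (Hs Z N × X) ×ˢ Set.pi Set.univ K,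
      (∀ i, ∀ y ∈ K i, f i θ y ≤ f i θ (θ.2 i)) ∧
      ∀ c x, θ.1 (c, x) ≠ 0 →
        (∀ (s : Fin N) k, tst s k (pf s.1 c) (c s) θ ≤ 0) ∧ ∀ k, tn k c x θ ≤ 0 := by
  obtain ⟨g, hg⟩ : ∃ g : (Fin N × κ) ⊕ κ → ((Hs Z N × X) → ℝ) × (∀ j, E j) → Hs Z N × X → ℝ,
      g = fun k θ x => match k with
      | .inl (s, k) => tst s k (pf s.1 x.1) (x.1 s) θ
      | .inr k => tn k x.1 x.2 θ := ⟨_, rfl⟩
  obtain ⟨θ, hθ, hθ1, hθ2⟩ := FPK.fp E K hK hc hne f hf hcc g (by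
    intro k x
    rw [hg]
    rcases k with ⟨s, k⟩ | k
    · exact htst s k _ _
    · exact htn k _ _) (by
    intro θ hθ
    obtain ⟨c, hc1⟩ := exists_allowed (fun s π z => ∀ k, tst s k π z θ ≤ 0)
      (fun s c h => h1 θ hθ s c h)
    obtain ⟨x, hx⟩ := h2 θ hθ c hc1
    refine ⟨(c, x), fun k => ?_⟩
    rw [hg]
    rcases k with ⟨s, k⟩ | k
    · exact hc1 s k
    · exact hx k)
  refine ⟨θ, hθ, hθ1, fun c x hcx => ?_⟩
  have h3 : ∀ k, g k θ (c, x) ≤ 0 := by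
    intro k
    by_contra h
    rw [not_le] at h
    exact hcx (hθ2 _ ⟨k, h⟩)
  rw [hg] at h3
  exact ⟨fun s k => h3 (.inl (s, k)), fun k => h3 (.inr k)⟩

/-- **Random exact histories**, the game of laws with linear plus logarithmic payoffs. -/
theorem game {Z X : Type} [Fintype Z] [Inhabited Z] [Fintype X] [Nonempty X] (N : ℕ)
    {ι : Type} [Fintype ι] (A Y : ι → Type) [∀ i, Fintype (A i)] [∀ i, Fintype (Y i)]
    (S : ∀ i, Finset (Y i)) (hS : ∀ i, (S i).Nonempty) {η : ℝ} (hη : 0 < η)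
    (D : Set (((Hs Z N × X) → ℝ) × (∀ i, Y i → ℝ)))
    (hD : D = stdSimplex ℝ (Hs Z N × X) ×ˢ Set.pi Set.univ fun i => LawOn (S i))
    (g : ∀ i, ((Hs Z N × X) → ℝ) × (∀ i, Y i → ℝ) → Y i → ℝ)
    (n : ∀ i, ((Hs Z N × X) → ℝ) × (∀ i, Y i → ℝ) → A i → ℝ)
    (M : ∀ i, ((Hs Z N × X) → ℝ) × (∀ i, Y i → ℝ) → A i → Y i → ℝ)
    (hg : ∀ i y, ContinuousOn (fun θ => g i θ y) D)
    (hn : ∀ i x, ContinuousOn (fun θ => n i θ x) D) (hn0 : ∀ i, ∀ θ ∈ D, ∀ x, 0 ≤ n i θ x)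
    (hM : ∀ i x y, ContinuousOn (fun θ => M i θ x y) D)
    (hM0 : ∀ i, ∀ θ ∈ D, ∀ x y, 0 ≤ M i θ x y)
    {κ : Type} [Fintype κ]
    (tst : Fin N → κ → Hs Z N → Z → ((Hs Z N × X) → ℝ) × (∀ i, Y i → ℝ) → ℝ)
    (htst : ∀ s k π z, ContinuousOn (tst s k π z) D)
    (tn : κ → Hs Z N → X → ((Hs Z N × X) → ℝ) × (∀ i, Y i → ℝ) → ℝ)
    (htn : ∀ k c x, ContinuousOn (tn k c x) D)
    (h1 : ∀ θ ∈ D, ∀ (s : Fin N) (c : Hs Z N),
      (∀ t : Fin N, t < s → ∀ k, tst t k (pf t.1 c) (c t) θ ≤ 0) →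
        ∃ z, ∀ k, tst s k (pf s.1 c) z θ ≤ 0)
    (h2 : ∀ θ ∈ D, ∀ c : Hs Z N,
      (∀ t : Fin N, ∀ k, tst t k (pf t.1 c) (c t) θ ≤ 0) → ∃ x, ∀ k, tn k c x θ ≤ 0) :
    ∃ θ ∈ D, (∀ i, ∀ q ∈ LawOn (S i), pay η (g i θ) (n i θ) (M i θ) q ≤
        pay η (g i θ) (n i θ) (M i θ) (θ.2 i)) ∧
      ∀ c x, θ.1 (c, x) ≠ 0 →
        (∀ (s : Fin N) k, tst s k (pf s.1 c) (c s) θ ≤ 0) ∧ ∀ k, tn k c x θ ≤ 0 := by
  subst hD
  exact fp N (fun i => Y i → ℝ) (fun i => LawOn (S i)) (fun i => isCompact_lawOn _)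
    (fun i => convex_lawOn _) (fun i => nonempty_lawOn (hS i))
    (fun i θ p => pay η (g i θ) (n i θ) (M i θ) p)
    (fun i => continuousOn_pay hη (hg i) (hn i) (hM i) (hM0 i) fun p hp => hp.1.1)
    (fun i θ hθ => concaveOn_pay hη (g i θ) (hn0 i θ hθ) (hM0 i θ hθ) (convex_lawOn _)
      fun p hp => hp.1.1) tst htst tn htn h1 h2

/-! ### Measures on histories -/

section hist

variable {Z V : Type} [Fintype Z] [Inhabited Z] [Fintype V] {N : ℕ}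

/-- The histories with the same part before the step `s`. -/
noncomputable def cls (s : ℕ) (c : Hs Z N) : Finset (Hs Z N) :=
  Finset.univ.filter fun c' => pf s c' = pf s c

lemma mem_cls {s : ℕ} {c c' : Hs Z N} : c' ∈ cls s c ↔ pf s c' = pf s c := by
  unfold cls
  rw [Finset.mem_filter]
  exact ⟨fun h => h.2, fun h => ⟨Finset.mem_univ _, h⟩⟩

lemma cls_pf (s : ℕ) (c : Hs Z N) : cls s (pf s c) = cls s c := by
  ext c'
  rw [mem_cls, mem_cls, pf_pf le_rfl]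

lemma cls_congr {s : ℕ} {c c' : Hs Z N} (h : pf s c = pf s c') : cls s c = cls s c' := by
  ext c''
  rw [mem_cls, mem_cls, h]

lemma cls_mono {s t : ℕ} (h : s ≤ t) (c : Hs Z N) : cls t c ⊆ cls s c := by
  intro c' hc'
  rw [mem_cls] at hc' ⊢
  exact pf_mono h hc'

/-- The mass of the history `c`. -/
noncomputable def qc (Q : Hs Z N × V → ℝ) (c : Hs Z N) : ℝ := ∑ x, Q (c, x)

/-- The mass of the part of `c` before the step `s`. -/
noncomputable def mq (Q : Hs Z N × V → ℝ) (s : ℕ) (c : Hs Z N) : ℝ := ∑ c' ∈ cls s c, qc Q c'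

/-- The (unnormalised) law of the node and of the vertices with the weights `ρ t` of the later
steps `t > s`, given the part of the history before the step `s`. -/
noncomputable def Nn (Q : Hs Z N × V → ℝ) (ρ : ℕ → Hs Z N → V → ℝ) (s : ℕ) (c : Hs Z N)
    (x : V) : ℝ :=
  ∑ c' ∈ cls s c, (Q (c', x) + ∑ t ∈ Finset.Ioo s N, qc Q c' * ρ t (pf t c') x)

variable {Q : Hs Z N × V → ℝ} {ρ : ℕ → Hs Z N → V → ℝ}

omit [Fintype Z] [Inhabited Z] in
lemma qc_nonneg (hQ : ∀ p, 0 ≤ Q p) (c : Hs Z N) : 0 ≤ qc Q c :=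
  Finset.sum_nonneg fun _ _ => hQ _

omit [Inhabited Z] in
lemma sum_qc (hQ : ∑ p, Q p = 1) : ∑ c, qc Q c = 1 := by
  rw [← hQ, Fintype.sum_prod_type]
  rfl

lemma mq_nonneg (hQ : ∀ p, 0 ≤ Q p) (s : ℕ) (c : Hs Z N) : 0 ≤ mq Q s c :=
  Finset.sum_nonneg fun _ _ => qc_nonneg hQ _

lemma mq_pf (s : ℕ) (c : Hs Z N) : mq Q s (pf s c) = mq Q s c := by
  unfold mq
  rw [cls_pf]

lemma mq_congr {s : ℕ} {c c' : Hs Z N} (h : pf s c = pf s c') : mq Q s c = mq Q s c' := by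
  unfold mq
  rw [cls_congr h]

lemma mq_le_one (hQ : ∀ p, 0 ≤ Q p) (hQ1 : ∑ p, Q p = 1) (s : ℕ) (c : Hs Z N) :
    mq Q s c ≤ 1 := by
  rw [← sum_qc hQ1]
  exact Finset.sum_le_sum_of_subset_of_nonneg (Finset.subset_univ _) fun _ _ _ => qc_nonneg hQ _

lemma mq_anti (hQ : ∀ p, 0 ≤ Q p) {s t : ℕ} (h : s ≤ t) (c : Hs Z N) : mq Q t c ≤ mq Q s c :=
  Finset.sum_le_sum_of_subset_of_nonneg (cls_mono h c) fun _ _ _ => qc_nonneg hQ _

lemma qc_le_mq (hQ : ∀ p, 0 ≤ Q p) (s : ℕ) (c : Hs Z N) : qc Q c ≤ mq Q s c :=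
  Finset.single_le_sum (f := fun c' => qc Q c') (fun _ _ => qc_nonneg hQ _) (mem_cls.2 rfl)

omit [Fintype Z] [Inhabited Z] in
lemma Q_le_qc (hQ : ∀ p, 0 ≤ Q p) (c : Hs Z N) (x : V) : Q (c, x) ≤ qc Q c :=
  Finset.single_le_sum (f := fun x => Q (c, x)) (fun _ _ => hQ _) (Finset.mem_univ x)

lemma Nn_pf (s : ℕ) (c : Hs Z N) (x : V) : Nn Q ρ s (pf s c) x = Nn Q ρ s c x := by
  unfold Nn
  rw [cls_pf]

lemma Nn_congr {s : ℕ} {c c' : Hs Z N} (h : pf s c = pf s c') (x : V) :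
    Nn Q ρ s c x = Nn Q ρ s c' x := by
  unfold Nn
  rw [cls_congr h]

omit [Fintype Z] in
lemma Nn_term_nonneg (hQ : ∀ p, 0 ≤ Q p) (hρ : ∀ t c x, 0 ≤ ρ t c x) (s : ℕ) (c' : Hs Z N)
    (x : V) : 0 ≤ Q (c', x) + ∑ t ∈ Finset.Ioo s N, qc Q c' * ρ t (pf t c') x :=
  add_nonneg (hQ _) (Finset.sum_nonneg fun _ _ => mul_nonneg (qc_nonneg hQ _) (hρ _ _ _))

lemma Nn_nonneg (hQ : ∀ p, 0 ≤ Q p) (hρ : ∀ t c x, 0 ≤ ρ t c x) (s : ℕ) (c : Hs Z N) (x : V) :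
    0 ≤ Nn Q ρ s c x :=
  Finset.sum_nonneg fun _ _ => Nn_term_nonneg hQ hρ s _ x

/-- The later laws are dominated by the earlier ones. -/
lemma Nn_anti (hQ : ∀ p, 0 ≤ Q p) (hρ : ∀ t c x, 0 ≤ ρ t c x) {s t : ℕ} (h : s ≤ t)
    (c : Hs Z N) (x : V) : Nn Q ρ t c x ≤ Nn Q ρ s c x := by
  unfold Nn
  refine (Finset.sum_le_sum fun c' _ => ?_).trans
    (Finset.sum_le_sum_of_subset_of_nonneg (cls_mono h c) fun _ _ _ =>
      Nn_term_nonneg hQ hρ s _ x)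
  refine add_le_add le_rfl (Finset.sum_le_sum_of_subset_of_nonneg ?_ fun _ _ _ =>
    mul_nonneg (qc_nonneg hQ _) (hρ _ _ _))
  intro u hu
  rw [Finset.mem_Ioo] at hu ⊢
  exact ⟨h.trans_lt hu.1, hu.2⟩

lemma sum_Q_le_Nn (hQ : ∀ p, 0 ≤ Q p) (hρ : ∀ t c x, 0 ≤ ρ t c x) (s : ℕ) (c : Hs Z N) (x : V) :
    ∑ c' ∈ cls s c, Q (c', x) ≤ Nn Q ρ s c x :=
  Finset.sum_le_sum fun _ _ => le_add_of_nonneg_right
    (Finset.sum_nonneg fun _ _ => mul_nonneg (qc_nonneg hQ _) (hρ _ _ _))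

lemma Q_le_Nn (hQ : ∀ p, 0 ≤ Q p) (hρ : ∀ t c x, 0 ≤ ρ t c x) (s : ℕ) (c : Hs Z N) (x : V) :
    Q (c, x) ≤ Nn Q ρ s c x :=
  (Finset.single_le_sum (f := fun c' => Q (c', x)) (fun _ _ => hQ _)
    (mem_cls.2 (rfl : pf s c = pf s c))).trans (sum_Q_le_Nn hQ hρ s c x)

lemma sum_hub_le_Nn (hQ : ∀ p, 0 ≤ Q p) (hρ : ∀ t c x, 0 ≤ ρ t c x) {s t : ℕ} (h : s < t)
    (ht : t < N) (c : Hs Z N) (x : V) :
    ∑ c' ∈ cls s c, qc Q c' * ρ t (pf t c') x ≤ Nn Q ρ s c x := by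
  refine Finset.sum_le_sum fun c' _ => le_add_of_nonneg_of_le (hQ _) ?_
  exact Finset.single_le_sum (f := fun t => qc Q c' * ρ t (pf t c') x)
    (fun _ _ => mul_nonneg (qc_nonneg hQ _) (hρ _ _ _)) (Finset.mem_Ioo.2 ⟨h, ht⟩)

/-- The vertices of the later steps are dominated by the law of an earlier step. -/
lemma hub_le_Nn (hQ : ∀ p, 0 ≤ Q p) (hρ : ∀ t c x, 0 ≤ ρ t c x) {s t : ℕ} (h : s < t)
    (ht : t < N) (c : Hs Z N) (x : V) :
    mq Q t c * ρ t (pf t c) x ≤ Nn Q ρ s c x := by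
  refine le_trans (le_of_eq ?_) ((Finset.sum_le_sum_of_subset_of_nonneg (cls_mono h.le c)
    fun c' _ _ => mul_nonneg (qc_nonneg hQ _) (hρ t (pf t c') x)).trans
      (sum_hub_le_Nn hQ hρ h ht c x))
  unfold mq
  rw [Finset.sum_mul]
  refine Finset.sum_congr rfl fun c' hc' => ?_
  rw [mem_cls.1 hc']

/-- The total mass of `Nn`. -/
lemma sum_Nn_le (hQ : ∀ p, 0 ≤ Q p) (s : ℕ) {B : ℝ}
    (h1 : ∀ t c, s < t → t < N → ∑ x, ρ t c x ≤ B) (c : Hs Z N) :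
    ∑ x, Nn Q ρ s c x ≤ (1 + (N - 1 - s : ℕ) * B) * mq Q s c := by
  unfold Nn mq
  rw [Finset.sum_comm, Finset.mul_sum]
  refine Finset.sum_le_sum fun c' _ => ?_
  rw [Finset.sum_add_distrib, Finset.sum_comm]
  have h2 : ∑ t ∈ Finset.Ioo s N, ∑ x, qc Q c' * ρ t (pf t c') x ≤
      ∑ t ∈ Finset.Ioo s N, B * qc Q c' := by
    refine Finset.sum_le_sum fun t ht => ?_
    rw [Finset.mem_Ioo] at ht
    rw [← Finset.mul_sum, mul_comm]
    exact mul_le_mul_of_nonneg_right (h1 t _ ht.1 ht.2) (qc_nonneg hQ _)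
  rw [Finset.sum_const, Nat.card_Ioo, nsmul_eq_mul] at h2
  have h3 : N - s - 1 = N - 1 - s := by omega
  rw [h3] at h2
  change qc Q c' + _ ≤ _
  linarith

/-- The splitting of `Nn` into the next steps. -/
lemma Nn_succ (s : ℕ) (c : Hs Z N) (x : V) :
    Nn Q ρ s c x = ∑ c' ∈ cls s c, (Q (c', x) + ∑ t ∈ Finset.Ioo (s + 1) N,
      qc Q c' * ρ t (pf t c') x) +
      if s + 1 < N then ∑ c' ∈ cls s c, qc Q c' * ρ (s + 1) (pf (s + 1) c') x else 0 := by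
  unfold Nn
  by_cases h : s + 1 < N
  · rw [if_pos h, ← Finset.sum_add_distrib]
    refine Finset.sum_congr rfl fun c' _ => ?_
    have h1 : Finset.Ioo s N = insert (s + 1) (Finset.Ioo (s + 1) N) := by
      ext t
      rw [Finset.mem_insert, Finset.mem_Ioo, Finset.mem_Ioo]
      omega
    rw [h1, Finset.sum_insert (by rw [Finset.mem_Ioo]; omega)]
    ring
  · rw [if_neg h, add_zero]
    refine Finset.sum_congr rfl fun c' _ => ?_
    have h1 : Finset.Ioo s N = ∅ := by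
      ext t
      rw [Finset.mem_Ioo]
      constructor
      · intro h2
        omega
      · intro h2
        exact absurd h2 (Finset.notMem_empty _)
    have h2 : Finset.Ioo (s + 1) N = ∅ := by
      ext t
      rw [Finset.mem_Ioo]
      constructor
      · intro h2
        omega
      · intro h2
        exact absurd h2 (Finset.notMem_empty _)
    rw [h1, h2]

/-- The support of `Nn`. -/
lemma Nn_supp (hQ : ∀ p, 0 ≤ Q p) {s : ℕ} {c : Hs Z N} {x : V} (hx : Nn Q ρ s c x ≠ 0) :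
    ∃ c', pf s c' = pf s c ∧ qc Q c' ≠ 0 ∧
      (Q (c', x) ≠ 0 ∨ ∃ t, s < t ∧ t < N ∧ ρ t (pf t c') x ≠ 0) := by
  obtain ⟨c', hc', h1⟩ := Finset.exists_ne_zero_of_sum_ne_zero hx
  rw [mem_cls] at hc'
  by_cases h3 : Q (c', x) = 0
  · rw [h3, zero_add] at h1
    obtain ⟨t, ht, h4⟩ := Finset.exists_ne_zero_of_sum_ne_zero h1
    rw [Finset.mem_Ioo] at ht
    exact ⟨c', hc', left_ne_zero_of_mul h4, Or.inr ⟨t, ht.1, ht.2, right_ne_zero_of_mul h4⟩⟩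
  · refine ⟨c', hc', fun h => ?_, Or.inl h3⟩
    have h6 := Q_le_qc hQ c' x
    rw [h] at h6
    exact h3 (le_antisymm h6 (hQ _))

omit [Fintype Z] [Inhabited Z] in
lemma continuous_qc (c : Hs Z N) : Continuous fun Q : Hs Z N × V → ℝ => qc Q c := by
  unfold qc
  fun_prop

lemma continuous_mq (s : ℕ) (c : Hs Z N) : Continuous fun Q : Hs Z N × V → ℝ => mq Q s c := by
  unfold mq
  exact continuous_finsetSum _ fun c' _ => continuous_qc c'

lemma continuousOn_Nn {T : Type*} [TopologicalSpace T] {A : Set T} {Q : T → Hs Z N × V → ℝ}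
    {ρ : T → ℕ → Hs Z N → V → ℝ} (hQ : ContinuousOn Q A)
    (hρ : ∀ t < N, ∀ c x, ContinuousOn (fun θ => ρ θ t c x) A) (s : ℕ) (c : Hs Z N) (x : V) :
    ContinuousOn (fun θ => Nn (Q θ) (ρ θ) s c x) A := by
  unfold Nn
  refine continuousOn_finsetSum _ fun c' _ => ContinuousOn.add ?_ ?_
  · exact (continuous_apply (c', x)).comp_continuousOn hQ
  · refine continuousOn_finsetSum _ fun t ht => ContinuousOn.mul ?_ ?_
    · exact (continuous_qc c').comp_continuousOn hQ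
    · exact hρ t (Finset.mem_Ioo.1 ht).2 _ _

end hist

end Pool.Agent.Lib.GSR.HZ
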