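import Pool.Agent.Lib.GSR.HZ

/-!
# Random exact histories with bits and normalised conditional laws

A step of a history is the next world together with the bits `β : Fin nb → Bool`.  The half prefix
`hp s j c` is the part of the history `c` before the step `s` together with the first `j` bits of
the step `s`; it is stored as a history.  The law of the node given a half prefix is an ordinary
coordinate of the game, and all the payoffs and all the tests depend only on these coordinates.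
-/

set_option autoImplicit false

namespace Pool.Agent.Lib.GSR.HZB

open Finset Classical
open Pool.Agent.Lib.GSR Pool.Agent.Lib.GSR.HZ

/-- Histories: a step is the next world together with `nb` bits. -/
abbrev Hi (V : Type) (N nb : ℕ) : Type := Hs (Finset V × (Fin nb → Bool)) N

/-- The first `j` bits. -/
def cut {nb : ℕ} (j : ℕ) (β : Fin nb → Bool) : Fin nb → Bool :=
  fun i => if i.1 < j then β i else false

lemma cut_cut {nb : ℕ} {j k : ℕ} (h : j ≤ k) (β : Fin nb → Bool) :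
    cut j (cut k β) = cut j β := by
  funext i
  unfold cut
  by_cases h1 : i.1 < j
  · rw [if_pos h1, if_pos h1, if_pos (h1.trans_le h)]
  · rw [if_neg h1, if_neg h1]

lemma cut_self {nb : ℕ} (β : Fin nb → Bool) : cut nb β = β := by
  funext i
  exact if_pos i.2

lemma cut_zero {nb : ℕ} (β : Fin nb → Bool) : cut 0 β = fun _ => false := by
  funext i
  exact if_neg (Nat.not_lt_zero _)

lemma cut_apply {nb j : ℕ} (β : Fin nb → Bool) {i : Fin nb} (h : i.1 < j) : cut j β i = β i :=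
  if_pos h

lemma cut_update {nb j : ℕ} (β : Fin nb → Bool) {i : Fin nb} (h : j ≤ i.1) (a : Bool) :
    cut j (Function.update β i a) = cut j β := by
  funext k
  unfold cut
  by_cases h1 : k.1 < j
  · rw [if_pos h1, if_pos h1, Function.update_of_ne]
    intro h2
    rw [h2] at h1
    omega
  · rw [if_neg h1, if_neg h1]

section hist

variable {V : Type} {N nb : ℕ}

/-- The half prefix. -/
def hp (s j : ℕ) (c : Hi V N nb) : Hi V N nb := fun i =>
  if i.1 < s then c i else if i.1 = s then (∅, cut j (c i).2) else default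

/-- The bits of the step `s`. -/
def bt (c : Hi V N nb) (s : ℕ) : Fin nb → Bool :=
  if h : s < N then (c ⟨s, h⟩).2 else fun _ => false

/-- The world before the step `s`. -/
def wo [Fintype V] (c : Hi V N nb) : ℕ → Finset V
  | 0 => Finset.univ
  | s + 1 => if h : s < N then (c ⟨s, h⟩).1 else ∅

lemma bt_of_lt (c : Hi V N nb) {s : ℕ} (h : s < N) : bt c s = (c ⟨s, h⟩).2 := dif_pos h

lemma wo_zero [Fintype V] (c : Hi V N nb) : wo c 0 = Finset.univ := rfl

lemma wo_succ [Fintype V] (c : Hi V N nb) {s : ℕ} (h : s < N) :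
    wo c (s + 1) = (c ⟨s, h⟩).1 := dif_pos h

lemma wo_ge [Fintype V] (c : Hi V N nb) {s : ℕ} (h : ¬ s < N) : wo c (s + 1) = ∅ := dif_neg h

lemma hp_lt {s : ℕ} (j : ℕ) (c : Hi V N nb) {i : Fin N} (h : i.1 < s) : hp s j c i = c i :=
  if_pos h

lemma hp_eq (j : ℕ) (c : Hi V N nb) (i : Fin N) : hp i.1 j c i = (∅, cut j (c i).2) := by
  unfold hp
  rw [if_neg (lt_irrefl _), if_pos rfl]

lemma hp_gt {s : ℕ} (j : ℕ) (c : Hi V N nb) {i : Fin N} (h : s < i.1) :
    hp s j c i = default := by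
  unfold hp
  rw [if_neg (by omega), if_neg (by omega)]

lemma hp_zero (s : ℕ) (c : Hi V N nb) : hp s 0 c = pf s c := by
  funext i
  unfold hp pf
  by_cases h1 : i.1 < s
  · rw [if_pos h1, if_pos h1]
  · rw [if_neg h1, if_neg h1]
    by_cases h2 : i.1 = s
    · rw [if_pos h2, cut_zero]
      rfl
    · rw [if_neg h2]

lemma hp_self (j : ℕ) (c : Hi V N nb) : hp N j c = c := by
  funext i
  exact if_pos i.2

/-- The half prefixes of a half prefix. -/
lemma hp_hp {s t j k : ℕ} (h : s < t ∨ s = t ∧ j ≤ k) (c : Hi V N nb) :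
    hp s j (hp t k c) = hp s j c := by
  funext i
  rcases lt_trichotomy i.1 s with h1 | h1 | h1
  · rw [hp_lt j _ h1, hp_lt j _ h1, hp_lt k c (by omega)]
  · subst h1
    rw [hp_eq, hp_eq]
    rcases h with h | ⟨rfl, h⟩
    · rw [hp_lt k c h]
    · rw [hp_eq, cut_cut h]
  · rw [hp_gt j _ h1, hp_gt j _ h1]

lemma hp_mono {s t j k : ℕ} (h : s < t ∨ s = t ∧ j ≤ k) {c c' : Hi V N nb}
    (hc : hp t k c = hp t k c') : hp s j c = hp s j c' := by
  rw [← hp_hp h c, hc, hp_hp h c']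

lemma bt_hp {s t : ℕ} (k : ℕ) (h : s < t) (c : Hi V N nb) : bt (hp t k c) s = bt c s := by
  unfold bt
  by_cases h1 : s < N
  · rw [dif_pos h1, dif_pos h1, hp_lt k c h]
  · rw [dif_neg h1, dif_neg h1]

lemma bt_hp_self (s k : ℕ) (c : Hi V N nb) : bt (hp s k c) s = cut k (bt c s) := by
  unfold bt
  by_cases h1 : s < N
  · rw [dif_pos h1, dif_pos h1, hp_eq k c ⟨s, h1⟩]
  · rw [dif_neg h1, dif_neg h1]
    funext i
    unfold cut
    split_ifs <;> rfl

/-- The bits of a half prefix. -/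
lemma bt_eq_of_hp {s k : ℕ} {c c' : Hi V N nb} (hc : hp s k c = hp s k c') {i : Fin nb}
    (hi : i.1 < k) : bt c s i = bt c' s i := by
  have h1 := congrArg (fun c => bt c s i) hc
  simp only [bt_hp_self] at h1
  rwa [cut_apply _ hi, cut_apply _ hi] at h1

lemma wo_hp [Fintype V] {s t : ℕ} (k : ℕ) (h : s ≤ t) (c : Hi V N nb) :
    wo (hp t k c) s = wo c s := by
  cases s with
  | zero => rfl
  | succ s =>
    by_cases h1 : s < N
    · rw [wo_succ _ h1, wo_succ _ h1, hp_lt k c (by simp only; omega)]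
    · rw [wo_ge _ h1, wo_ge _ h1]

lemma wo_pf [Fintype V] {s t : ℕ} (h : s ≤ t) (c : Hi V N nb) : wo (pf t c) s = wo c s := by
  rw [← hp_zero, wo_hp 0 h]

lemma hp_update (c : Hi V N nb) (s : Fin N) (z : Finset V × (Fin nb → Bool)) {t : ℕ} (j : ℕ)
    (ht : t < s.1) : hp t j (Function.update c s z) = hp t j c := by
  funext i
  rcases lt_trichotomy i.1 t with h1 | h1 | h1
  · rw [hp_lt j _ h1, hp_lt j _ h1, Function.update_of_ne]
    rintro rfl
    omega
  · subst h1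
    rw [hp_eq, hp_eq, Function.update_of_ne]
    rintro rfl
    omega
  · rw [hp_gt j _ h1, hp_gt j _ h1]

lemma hp_update_self (c : Hi V N nb) (s : Fin N) {z z' : Finset V × (Fin nb → Bool)} {j : ℕ}
    (h : cut j z.2 = cut j z'.2) :
    hp s.1 j (Function.update c s z) = hp s.1 j (Function.update c s z') := by
  funext i
  rcases lt_trichotomy i.1 s.1 with h1 | h1 | h1
  · rw [hp_lt j _ h1, hp_lt j _ h1, Function.update_of_ne, Function.update_of_ne]
    · rintro rfl
      omega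
    · rintro rfl
      omega
  · have h2 : i = s := Fin.ext h1
    subst h2
    rw [hp_eq, hp_eq, Function.update_self, Function.update_self, h]
  · rw [hp_gt j _ h1, hp_gt j _ h1]

lemma wo_update [Fintype V] (c : Hi V N nb) (s : Fin N) (z : Finset V × (Fin nb → Bool)) {t : ℕ}
    (ht : t ≤ s.1) : wo (Function.update c s z) t = wo c t := by
  cases t with
  | zero => rfl
  | succ t =>
    have h1 : t < N := by omega
    rw [wo_succ _ h1, wo_succ _ h1, Function.update_of_ne]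
    intro h2
    have h3 := congrArg Fin.val h2
    simp only at h3
    omega

lemma wo_update_self [Fintype V] (c : Hi V N nb) (s : Fin N)
    (z : Finset V × (Fin nb → Bool)) : wo (Function.update c s z) (s.1 + 1) = z.1 := by
  rw [wo_succ _ s.2, Function.update_self]

lemma bt_update (c : Hi V N nb) (s : Fin N) (z : Finset V × (Fin nb → Bool)) {t : ℕ}
    (ht : t < s.1) : bt (Function.update c s z) t = bt c t := by
  have h1 : t < N := by omega
  rw [bt_of_lt _ h1, bt_of_lt _ h1, Function.update_of_ne]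
  intro h2
  have h3 := congrArg Fin.val h2
  simp only at h3
  omega

lemma bt_update_self (c : Hi V N nb) (s : Fin N) (z : Finset V × (Fin nb → Bool)) :
    bt (Function.update c s z) s.1 = z.2 := by
  rw [bt_of_lt _ s.2, Function.update_self]

end hist

/-! ### The measures -/

section meas

variable {V : Type} [Fintype V] {N nb : ℕ}

/-- The histories through the half prefix `p`. -/
noncomputable def th (s j : ℕ) (p : Hi V N nb) : Finset (Hi V N nb) :=
  Finset.univ.filter fun c => hp s j c = p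

lemma mem_th {s j : ℕ} {p c : Hi V N nb} : c ∈ th s j p ↔ hp s j c = p := by
  unfold th
  rw [Finset.mem_filter]
  exact ⟨fun h => h.2, fun h => ⟨Finset.mem_univ _, h⟩⟩

/-- The mass of the half prefix `p`. -/
noncomputable def mh (Q : Hi V N nb × V → ℝ) (s j : ℕ) (p : Hi V N nb) : ℝ :=
  ∑ c ∈ th s j p, qc Q c

/-- The (unnormalised) law of the node given the half prefix `p`. -/
noncomputable def nn (Q : Hi V N nb × V → ℝ) (s j : ℕ) (p : Hi V N nb) (x : V) : ℝ :=
  ∑ c ∈ th s j p, Q (c, x)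

variable {Q : Hi V N nb × V → ℝ}

lemma sum_nn (Q : Hi V N nb × V → ℝ) (s j : ℕ) (p : Hi V N nb) :
    ∑ x, nn Q s j p x = mh Q s j p := by
  unfold nn mh qc
  rw [Finset.sum_comm]

lemma nn_nonneg (hQ : ∀ p, 0 ≤ Q p) (s j : ℕ) (p : Hi V N nb) (x : V) : 0 ≤ nn Q s j p x :=
  Finset.sum_nonneg fun _ _ => hQ _

lemma mh_nonneg (hQ : ∀ p, 0 ≤ Q p) (s j : ℕ) (p : Hi V N nb) : 0 ≤ mh Q s j p :=
  Finset.sum_nonneg fun _ _ => qc_nonneg hQ _

lemma nn_le_mh (hQ : ∀ p, 0 ≤ Q p) (s j : ℕ) (p : Hi V N nb) (x : V) :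
    nn Q s j p x ≤ mh Q s j p := by
  rw [← sum_nn]
  exact Finset.single_le_sum (f := fun x => nn Q s j p x) (fun x _ => nn_nonneg hQ s j p x)
    (Finset.mem_univ x)

lemma th_subset {s t j k : ℕ} (h : s < t ∨ s = t ∧ j ≤ k) (c : Hi V N nb) :
    th t k (hp t k c) ⊆ th s j (hp s j c) := by
  intro c' hc'
  rw [mem_th] at hc' ⊢
  exact hp_mono h hc'

lemma nn_anti (hQ : ∀ p, 0 ≤ Q p) {s t j k : ℕ} (h : s < t ∨ s = t ∧ j ≤ k) (c : Hi V N nb)
    (x : V) : nn Q t k (hp t k c) x ≤ nn Q s j (hp s j c) x :=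
  Finset.sum_le_sum_of_subset_of_nonneg (th_subset h c) fun _ _ _ => hQ _

lemma mh_anti (hQ : ∀ p, 0 ≤ Q p) {s t j k : ℕ} (h : s < t ∨ s = t ∧ j ≤ k) (c : Hi V N nb) :
    mh Q t k (hp t k c) ≤ mh Q s j (hp s j c) :=
  Finset.sum_le_sum_of_subset_of_nonneg (th_subset h c) fun _ _ _ => qc_nonneg hQ _

lemma qc_le_mh (hQ : ∀ p, 0 ≤ Q p) (s j : ℕ) (c : Hi V N nb) : qc Q c ≤ mh Q s j (hp s j c) :=
  Finset.single_le_sum (f := fun c => qc Q c) (fun _ _ => qc_nonneg hQ _) (mem_th.2 rfl)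

lemma Q_le_nn (hQ : ∀ p, 0 ≤ Q p) (s j : ℕ) (c : Hi V N nb) (x : V) :
    Q (c, x) ≤ nn Q s j (hp s j c) x :=
  Finset.single_le_sum (f := fun c => Q (c, x)) (fun _ _ => hQ _) (mem_th.2 rfl)

lemma mh_le_one (hQ : ∀ p, 0 ≤ Q p) (hQ1 : ∑ p, Q p = 1) (s j : ℕ) (p : Hi V N nb) :
    mh Q s j p ≤ 1 := by
  rw [← sum_qc hQ1]
  exact Finset.sum_le_sum_of_subset_of_nonneg (Finset.subset_univ _) fun _ _ _ => qc_nonneg hQ _

lemma nn_supp {s j : ℕ} {p : Hi V N nb} {x : V} (hx : nn Q s j p x ≠ 0) :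
    ∃ c, hp s j c = p ∧ Q (c, x) ≠ 0 := by
  obtain ⟨c, hc, h1⟩ := Finset.exists_ne_zero_of_sum_ne_zero hx
  exact ⟨c, mem_th.1 hc, h1⟩

/-- Splitting a sum over all the histories. -/
lemma sum_fiber (s j : ℕ) (F : Hi V N nb → ℝ) : ∑ p, ∑ c ∈ th s j p, F c = ∑ c, F c :=
  Finset.sum_fiberwise _ _ _

lemma continuous_mh (s j : ℕ) (p : Hi V N nb) :
    Continuous fun Q : Hi V N nb × V → ℝ => mh Q s j p := by
  unfold mh
  exact continuous_finsetSum _ fun c _ => continuous_qc c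

omit [Fintype V] in
lemma continuous_nn [Fintype V] (s j : ℕ) (p : Hi V N nb) (x : V) :
    Continuous fun Q : Hi V N nb × V → ℝ => nn Q s j p x := by
  unfold nn
  fun_prop

end meas

/-! ### The coordinates -/

/-- The indices of the half prefixes. -/
abbrev PI (V : Type) (N nb : ℕ) : Type := Fin (N + 1) × Fin (nb + 1) × Hi V N nb

/-- The parameters of the game: the laws of the node given the half prefixes and the other
coordinates. -/
abbrev Th (V : Type) (N nb : ℕ) {ι : Type} (Y : ι → Type) : Type :=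
  (PI V N nb → V → ℝ) × (∀ i, Y i → ℝ)

section coord

variable {V : Type} [Fintype V] {N nb : ℕ} {ι : Type} {Y : ι → Type}

/-- The domain. -/
def dom (N nb : ℕ) (K : ∀ i, Set (Y i → ℝ)) : Set (Th V N nb Y) :=
  (Set.pi Set.univ fun _ => stdSimplex ℝ V) ×ˢ Set.pi Set.univ K

/-- The law of the node given the half prefix `p`. -/
def nh (θ : Th V N nb Y) (s j : ℕ) (p : Hi V N nb) : V → ℝ :=
  θ.1 (Fin.ofNat (N + 1) s, Fin.ofNat (nb + 1) j, p)

lemma nh_mem {K : ∀ i, Set (Y i → ℝ)} {θ : Th V N nb Y} (hθ : θ ∈ dom N nb K) (s j : ℕ)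
    (p : Hi V N nb) : nh θ s j p ∈ stdSimplex ℝ V := hθ.1 _ (Set.mem_univ _)

lemma nh_nonneg {K : ∀ i, Set (Y i → ℝ)} {θ : Th V N nb Y} (hθ : θ ∈ dom N nb K) (s j : ℕ)
    (p : Hi V N nb) (x : V) : 0 ≤ nh θ s j p x := (nh_mem hθ s j p).1 x

lemma sum_nh {K : ∀ i, Set (Y i → ℝ)} {θ : Th V N nb Y} (hθ : θ ∈ dom N nb K) (s j : ℕ)
    (p : Hi V N nb) : ∑ x, nh θ s j p x = 1 := (nh_mem hθ s j p).2

omit [Fintype V] in
lemma continuous_nh (s j : ℕ) (p : Hi V N nb) (x : V) :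
    Continuous fun θ : Th V N nb Y => nh θ s j p x := by
  unfold nh
  fun_prop

lemma isClosed_dom {K : ∀ i, Set (Y i → ℝ)} [∀ i, Fintype (Y i)] (hK : ∀ i, IsCompact (K i)) :
    IsClosed (dom (V := V) N nb K) :=
  (isClosed_set_pi fun _ _ => (isCompact_stdSimplex ℝ V).isClosed).prod
    (isClosed_set_pi fun i _ => (hK i).isClosed)

end coord

/-! ### The tests -/

/-- The tests: `b s` bounds the colourability of the world number `s` from below, `Nx s p` is the
part of the world where the next world is taken, `X s i p v` are the small sets, `P s j p v` and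
`R s j p v` are the sides of the bit `j`. -/
structure Ts (V : Type) (N nb : ℕ) (I Θ : Type) where
  b : ℕ → ℕ
  Nx : ℕ → Hi V N nb → Finset V
  X : ℕ → I → Hi V N nb → V → Θ → Prop
  P : ℕ → Fin nb → Hi V N nb → V → Θ → Prop
  R : ℕ → Fin nb → Hi V N nb → V → Θ → Prop

section tests

variable {V : Type} [Fintype V] {N nb : ℕ} {I Θ : Type}

/-- The sides of the step `s`. -/
def Ts.Sd (T : Ts V N nb I Θ) (θ : Θ) (s : ℕ) (c : Hi V N nb) : Prop :=
  ∀ j, ∀ v ∈ wo c (s + 1),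
    (bt c s j = true → T.P s j (hp s j.1 c) v θ) ∧ (bt c s j = false → T.R s j (hp s j.1 c) v θ)

/-- All the tests of the step `s`. -/
def Ts.Ok (col : Finset V → ℕ → Prop) (T : Ts V N nb I Θ) (θ : Θ) (s : ℕ) (c : Hi V N nb) :
    Prop :=
  wo c (s + 1) ⊆ T.Nx s (pf s c) ∧ ¬ col (wo c (s + 1)) (T.b (s + 1)) ∧ T.Sd θ s c ∧
    ∀ i, ∀ v ∈ wo c (s + 1), ¬ T.X s i (hp s nb c) v θ

/-- The sides exist. -/
lemma Ts.exists_sd {col : Finset V → ℕ → Prop} (hcol : ColS col) (T : Ts V N nb I Θ) (θ : Θ)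
    (s : Fin N) (hPR : ∀ j p v, T.P s.1 j p v θ ∨ T.R s.1 j p v θ) (c : Hi V N nb)
    (W : Finset V) (m : ℕ) (hW : ¬ col W (2 ^ nb * m)) :
    ∃ (β : Fin nb → Bool) (W' : Finset V), W' ⊆ W ∧ ¬ col W' m ∧
      T.Sd θ s.1 (Function.update c s (W', β)) := by
  have key : ∀ r ≤ nb, ∃ (β : Fin nb → Bool) (W' : Finset V), W' ⊆ W ∧
      ¬ col W' (2 ^ (nb - r) * m) ∧ ∀ j : Fin nb, j.1 < r → ∀ v ∈ W',
        (β j = true → T.P s.1 j (hp s.1 j.1 (Function.update c s (∅, β))) v θ) ∧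
        (β j = false → T.R s.1 j (hp s.1 j.1 (Function.update c s (∅, β))) v θ) := by
    intro r
    induction r with
    | zero => exact fun _ => ⟨fun _ => false, W, subset_rfl, hW, fun j hj =>
        absurd hj (Nat.not_lt_zero _)⟩
    | succ r ih =>
      intro hr
      obtain ⟨β, W', hW1, hW2, hW3⟩ := ih (by omega)
      obtain ⟨k, W2, h1, h2, h3⟩ := hcol.exists_part W'
        (fun v => decide (T.P s.1 ⟨r, by omega⟩ (hp s.1 r (Function.update c s (∅, β))) v θ))
        (2 ^ (nb - (r + 1)) * m) (by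
          have h4 : Fintype.card Bool * (2 ^ (nb - (r + 1)) * m) = 2 ^ (nb - r) * m := by
            rw [Fintype.card_bool, ← mul_assoc, ← pow_succ']
            congr 2
            omega
          rw [h4]
          exact hW2)
      have hcut : ∀ j ≤ r, cut j (Function.update β ⟨r, by omega⟩ k) = cut j β := fun j hj =>
        cut_update β hj k
      have hhp : ∀ j ≤ r, hp s.1 j (Function.update c s
          ((∅ : Finset V), Function.update β ⟨r, by omega⟩ k)) =
          hp s.1 j (Function.update c s (∅, β)) := fun j hj =>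
        hp_update_self c s (hcut j hj)
      refine ⟨Function.update β ⟨r, by omega⟩ k, W2, h1.trans hW1, h3, fun j hj v hv => ?_⟩
      rw [hhp j.1 (by omega)]
      by_cases h5 : j = ⟨r, by omega⟩
      · have h6 := h2 v hv
        rw [h5, Function.update_self]
        constructor
        · intro h7
          rw [h7] at h6
          exact of_decide_eq_true h6
        · intro h7
          rw [h7] at h6
          exact (hPR _ _ _).resolve_left (of_decide_eq_false h6)
      · rw [Function.update_of_ne h5]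
        exact hW3 j (by
          have h6 : j.1 ≠ r := fun h => h5 (Fin.ext h)
          omega) v (h1 hv)
  obtain ⟨β, W', h1, h2, h3⟩ := key nb le_rfl
  refine ⟨β, W', h1, ?_, ?_⟩
  · rwa [Nat.sub_self, pow_zero, one_mul] at h2
  · intro j v hv
    rw [wo_update_self] at hv
    rw [bt_update_self, hp_update_self c s (z := (W', β)) (z' := ((∅ : Finset V), β)) rfl]
    exact h3 j j.2 v hv

/-- The next world exists. -/
lemma Ts.exists_next {col : Finset V → ℕ → Prop} (hcol : ColS col) [Fintype I]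
    (T : Ts V N nb I Θ) (θ : Θ) (s : Fin N) (C : ℕ)
    (hPR : ∀ j p v, T.P s.1 j p v θ ∨ T.R s.1 j p v θ) (c : Hi V N nb)
    (hNx : ¬ col (T.Nx s.1 (pf s.1 c)) (2 ^ nb * (Fintype.card I * C + T.b (s.1 + 1))))
    (hX : ∀ z : Finset V × (Fin nb → Bool), z.1 ⊆ T.Nx s.1 (pf s.1 c) →
      T.Sd θ s.1 (Function.update c s z) → ∀ i,
        col (z.1.filter fun v => T.X s.1 i (hp s.1 nb (Function.update c s z)) v θ) C) :
    ∃ z, T.Ok col θ s.1 (Function.update c s z) := by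
  obtain ⟨β, W, h1, h2, h3⟩ := T.exists_sd hcol θ s hPR c _ _ hNx
  obtain ⟨W', hW'⟩ : ∃ W', W' = W.filter fun v =>
      ∀ i, ¬ T.X s.1 i (hp s.1 nb (Function.update c s (W, β))) v θ := ⟨_, rfl⟩
  have hsub : W' ⊆ W := by
    rw [hW']
    exact Finset.filter_subset _ _
  have h4 : ¬ col W' (T.b (s.1 + 1)) := by
    intro h
    refine h2 (hcol.mono _ _ _ _ ?_ le_rfl (hcol.union _ _ _ _ (hcol.biUnion Finset.univ
      (fun i => W.filter fun v => T.X s.1 i (hp s.1 nb (Function.update c s (W, β))) v θ) C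
      fun i _ => hX (W, β) h1 h3 i) h))
    intro v hv
    rw [Finset.mem_union, Finset.mem_biUnion, hW', Finset.mem_filter]
    by_cases h5 : ∀ i, ¬ T.X s.1 i (hp s.1 nb (Function.update c s (W, β))) v θ
    · exact Or.inr ⟨hv, h5⟩
    · push Not at h5
      obtain ⟨i, hi⟩ := h5
      exact Or.inl ⟨i, Finset.mem_univ _, Finset.mem_filter.2 ⟨hv, hi⟩⟩
  refine ⟨(W', β), ?_, ?_, ?_, ?_⟩
  · rw [wo_update_self, HZ.pf_update c s _ _ le_rfl]
    exact hsub.trans h1
  · rw [wo_update_self]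
    exact h4
  · intro j v hv
    rw [wo_update_self] at hv
    have h5 := h3 j v (by
      rw [wo_update_self]
      exact hsub hv)
    rw [bt_update_self] at h5 ⊢
    rwa [hp_update_self c s (z := (W', β)) (z' := (W, β)) rfl]
  · intro i v hv
    rw [wo_update_self] at hv
    rw [hp_update_self c s (z := (W', β)) (z' := (W, β)) rfl]
    rw [hW', Finset.mem_filter] at hv
    exact hv.2 i

lemma Ts.ok_update {col : Finset V → ℕ → Prop} (T : Ts V N nb I Θ) (θ : Θ) (c : Hi V N nb)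
    (s : Fin N) (z : Finset V × (Fin nb → Bool)) {t : ℕ} (ht : t < s.1) :
    T.Ok col θ t (Function.update c s z) ↔ T.Ok col θ t c := by
  unfold Ts.Ok Ts.Sd
  rw [wo_update c s z ht, HZ.pf_update c s z t ht.le, bt_update c s z ht,
    hp_update c s z nb ht]
  simp only [hp_update c s z _ ht]

end tests

/-! ### The game -/

section game

variable {V : Type} [Fintype V] {N nb : ℕ} {ι : Type} {Y : ι → Type}

/-- The index types of all the coordinates. -/
def Yy (V : Type) (N nb : ℕ) (Y : ι → Type) : PI V N nb ⊕ ι → Type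
  | .inl _ => V
  | .inr i => Y i

noncomputable instance instFintypeYy [∀ i, Fintype (Y i)] : ∀ k, Fintype (Yy V N nb Y k)
  | .inl _ => inferInstanceAs (Fintype V)
  | .inr i => inferInstanceAs (Fintype (Y i))

/-- The domains of all the coordinates. -/
def Kk (K : ∀ i, Set (Y i → ℝ)) : ∀ k, Set (Yy V N nb Y k → ℝ)
  | .inl _ => stdSimplex ℝ V
  | .inr i => K i

/-- All the coordinates as a parameter of the game. -/
def pr (y : ∀ k, Yy V N nb Y k → ℝ) : Th V N nb Y :=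
  (fun p => y (.inl p), fun i => y (.inr i))

/-- The payoffs. -/
noncomputable def ff [∀ i, Fintype (Y i)] (f : ∀ i, Th V N nb Y → (Y i → ℝ) → ℝ) :
    ∀ k, ((Hi V N nb × V) → ℝ) × (∀ k, Yy V N nb Y k → ℝ) → (Yy V N nb Y k → ℝ) → ℝ
  | .inl p => fun q z => - ∑ x : V, (mh q.1 p.1.1 p.2.1.1 p.2.2 * z x -
      nn q.1 p.1.1 p.2.1.1 p.2.2 x) ^ 2
  | .inr i => fun q => f i (pr q.2)

lemma concaveOn_sq (m : ℝ) (n : V → ℝ) :
    ConcaveOn ℝ (stdSimplex ℝ V) fun z : V → ℝ => - ∑ x, (m * z x - n x) ^ 2 := by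
  refine ⟨convex_stdSimplex ℝ V, fun y _ z _ a b ha hb hab => ?_⟩
  rw [smul_eq_mul, smul_eq_mul]
  have h1 : ∑ x, (m * (a • y + b • z) x - n x) ^ 2 ≤
      a * ∑ x, (m * y x - n x) ^ 2 + b * ∑ x, (m * z x - n x) ^ 2 := by
    rw [Finset.mul_sum, Finset.mul_sum, ← Finset.sum_add_distrib]
    refine Finset.sum_le_sum fun x _ => ?_
    rw [Pi.add_apply, Pi.smul_apply, Pi.smul_apply, smul_eq_mul, smul_eq_mul]
    have h2 : m * (a * y x + b * z x) - n x = a * (m * y x - n x) + b * (m * z x - n x) := by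
      linear_combination (n x) * hab
    rw [h2]
    have h3 : a * (m * y x - n x) ^ 2 + b * (m * z x - n x) ^ 2 -
        (a * (m * y x - n x) + b * (m * z x - n x)) ^ 2 =
        a * b * ((m * y x - n x) - (m * z x - n x)) ^ 2 := by
      have h4 : b = 1 - a := by linarith
      rw [h4]
      ring
    have h5 := mul_nonneg (mul_nonneg ha hb) (sq_nonneg ((m * y x - n x) - (m * z x - n x)))
    linarith
  linarith

/-- The closed sets of the tests. -/
def Al {I : Type} (col : Finset V → ℕ → Prop) (T : Ts V N nb I (Th V N nb Y))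
    (K : ∀ i, Set (Y i → ℝ)) (s : ℕ) (c : Hi V N nb) : Set (Th V N nb Y) :=
  {θ | θ ∈ dom N nb K ∧ T.Ok col θ s c}

lemma isClosed_Al {I : Type} [∀ i, Fintype (Y i)] {col : Finset V → ℕ → Prop}
    {T : Ts V N nb I (Th V N nb Y)} {K : ∀ i, Set (Y i → ℝ)} (hK : ∀ i, IsCompact (K i)) {s : ℕ}
    (hX : ∀ i p v, IsClosed {θ | θ ∈ dom N nb K ∧ ¬ T.X s i p v θ})
    (hP : ∀ j p v, IsClosed {θ | θ ∈ dom N nb K ∧ T.P s j p v θ})
    (hR : ∀ j p v, IsClosed {θ | θ ∈ dom N nb K ∧ T.R s j p v θ}) (c : Hi V N nb) :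
    IsClosed (Al col T K s c) := by
  by_cases h : wo c (s + 1) ⊆ T.Nx s (pf s c) ∧ ¬ col (wo c (s + 1)) (T.b (s + 1))
  · have h1 : Al col T K s c = dom N nb K ∩ ((⋂ j, ⋂ v ∈ wo c (s + 1), if bt c s j = true then
        {θ | θ ∈ dom N nb K ∧ T.P s j (hp s j.1 c) v θ} else
        {θ | θ ∈ dom N nb K ∧ T.R s j (hp s j.1 c) v θ}) ∩
        ⋂ i, ⋂ v ∈ wo c (s + 1), {θ | θ ∈ dom N nb K ∧ ¬ T.X s i (hp s nb c) v θ}) := by
      ext θ
      simp only [Al, Set.mem_ofPred_eq, Set.mem_inter_iff, Set.mem_iInter]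
      constructor
      · rintro ⟨hθ, -, -, h3, h4⟩
        refine ⟨hθ, fun j v hv => ?_, fun i v hv => ⟨hθ, h4 i v hv⟩⟩
        by_cases h5 : bt c s j = true
        · rw [if_pos h5]
          exact ⟨hθ, (h3 j v hv).1 h5⟩
        · rw [if_neg h5]
          exact ⟨hθ, (h3 j v hv).2 (by simpa using h5)⟩
      · rintro ⟨hθ, h3, h4⟩
        refine ⟨hθ, h.1, h.2, fun j v hv => ?_, fun i v hv => (h4 i v hv).2⟩
        have h5 := h3 j v hv
        constructor
        · intro h6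
          rw [if_pos h6] at h5
          exact h5.2
        · intro h6
          rw [if_neg (by simp [h6])] at h5
          exact h5.2
    rw [h1]
    refine (isClosed_dom hK).inter (IsClosed.inter ?_ ?_)
    · refine isClosed_iInter fun j => isClosed_iInter fun v => isClosed_iInter fun _ => ?_
      split_ifs
      · exact hP j _ v
      · exact hR j _ v
    · exact isClosed_iInter fun i => isClosed_iInter fun v => isClosed_iInter fun _ => hX i _ v
  · have h1 : Al col T K s c = ∅ := by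
      ext θ
      simp only [Al, Set.mem_ofPred_eq, Set.mem_empty_iff_false, iff_false]
      rintro ⟨-, h2, h3, -⟩
      exact h ⟨h2, h3⟩
    rw [h1]
    exact isClosed_empty

/-- **The game with bits and normalised conditional laws.** -/
theorem game [Nonempty V] [Fintype ι] [∀ i, Fintype (Y i)] {I : Type} [Fintype I]
    {col : Finset V → ℕ → Prop} (hcol : ColS col)
    -- the coordinates
    (K : ∀ i : ι, Set (Y i → ℝ)) (hK : ∀ i, IsCompact (K i)) (hc : ∀ i, Convex ℝ (K i))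
    (hne : ∀ i, (K i).Nonempty) (f : ∀ i : ι, Th V N nb Y → (Y i → ℝ) → ℝ)
    (hf : ∀ i, ContinuousOn (fun p : Th V N nb Y × (Y i → ℝ) => f i p.1 p.2)
      (dom (V := V) N nb K ×ˢ K i))
    (hcc : ∀ i, ∀ θ ∈ dom (V := V) N nb K, ConcaveOn ℝ (K i) (f i θ))
    -- the tests
    (T : Ts V N nb I (Th V N nb Y)) (C : ℕ → ℕ)
    (hX : ∀ s < N, ∀ i p v, IsClosed {θ | θ ∈ dom N nb K ∧ ¬ T.X s i p v θ})
    (hP : ∀ s < N, ∀ j p v, IsClosed {θ | θ ∈ dom N nb K ∧ T.P s j p v θ})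
    (hR : ∀ s < N, ∀ j p v, IsClosed {θ | θ ∈ dom N nb K ∧ T.R s j p v θ})
    (hPR : ∀ θ ∈ dom N nb K, ∀ s < N, ∀ j p v, T.P s j p v θ ∨ T.R s j p v θ)
    -- the sizes
    (hb0 : ¬ col Finset.univ (T.b 0))
    (hb : ∀ s < N, ∀ c : Hi V N nb, ¬ col (wo c s) (T.b s) →
      ¬ col (T.Nx s (pf s c)) (2 ^ nb * (Fintype.card I * C s + T.b (s + 1))))
    (hX2 : ∀ θ ∈ dom N nb K, ∀ s < N, ∀ c : Hi V N nb, (∀ t < s, T.Ok col θ t c) →
      wo c (s + 1) ⊆ T.Nx s (pf s c) → T.Sd θ s c →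
        ∀ i, col ((wo c (s + 1)).filter fun v => T.X s i (hp s nb c) v θ) (C s)) :
    ∃ Q ∈ stdSimplex ℝ (Hi V N nb × V), ∃ θ ∈ dom N nb K,
      (∀ s ≤ N, ∀ j ≤ nb, ∀ p x, mh Q s j p * nh θ s j p x = nn Q s j p x) ∧
      (∀ i, ∀ y ∈ K i, f i θ y ≤ f i θ (θ.2 i)) ∧
      ∀ c x, Q (c, x) ≠ 0 → (∀ s < N, T.Ok col θ s c) ∧ x ∈ wo c N := by
  obtain ⟨g, hg⟩ : ∃ g : Option (Fin N) → ((Hi V N nb × V) → ℝ) × (∀ k, Yy V N nb Y k → ℝ) →
      Hi V N nb × V → ℝ, g = fun k q x =>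
      match k with
      | some s => if (Al col T K s.1 x.1).Nonempty then
          Metric.infDist (pr q.2) (Al col T K s.1 x.1) else 1
      | none => if x.2 ∈ wo x.1 N then 0 else 1 := ⟨_, rfl⟩
  have hpr : ∀ q ∈ stdSimplex ℝ (Hi V N nb × V) ×ˢ
      Set.pi Set.univ (Kk (V := V) (N := N) (nb := nb) K),
      pr q.2 ∈ dom (V := V) N nb K := fun q hq =>
    ⟨fun p _ => hq.2 (.inl p) (Set.mem_univ _), fun i _ => hq.2 (.inr i) (Set.mem_univ _)⟩
  have hprc : Continuous (pr : (∀ k, Yy V N nb Y k → ℝ) → Th V N nb Y) := by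
    unfold pr
    refine Continuous.prodMk ?_ ?_
    · exact continuous_pi fun p => continuous_apply (Sum.inl p)
    · exact continuous_pi fun i => continuous_apply (Sum.inr i)
  have hex : ∀ θ ∈ dom N nb K, ∃ (c : Hi V N nb) (x : V), (∀ s < N, T.Ok col θ s c) ∧
      x ∈ wo c N := by
    intro θ hθ
    have key : ∀ r ≤ N, ∃ c : Hi V N nb, (∀ s < r, T.Ok col θ s c) ∧
        ¬ col (wo c r) (T.b r) := by
      intro r
      induction r with
      | zero => exact fun _ => ⟨fun _ => default, fun s hs => absurd hs (Nat.not_lt_zero _), hb0⟩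
      | succ r ih =>
        intro hr
        obtain ⟨c, hc1, hc2⟩ := ih (by omega)
        have hr' : r < N := by omega
        obtain ⟨z, hz⟩ := T.exists_next hcol θ ⟨r, hr'⟩ (C r)
          (fun j p v => hPR θ hθ r hr' j p v) c (hb r hr' c hc2) (by
            intro z hz1 hz2 i
            have h5 := hX2 θ hθ r hr' (Function.update c ⟨r, hr'⟩ z)
              (fun t ht => (T.ok_update θ c ⟨r, hr'⟩ z ht).2 (hc1 t ht))
              (by
                have h6 := wo_update_self c ⟨r, hr'⟩ z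
                simp only at h6
                rw [h6, HZ.pf_update c ⟨r, hr'⟩ z r le_rfl]
                exact hz1) hz2 i
            have h6 := wo_update_self c ⟨r, hr'⟩ z
            simp only at h6
            rw [h6] at h5
            exact h5)
        refine ⟨Function.update c ⟨r, hr'⟩ z, fun s hs => ?_, hz.2.1⟩
        by_cases h1 : s = r
        · subst h1
          exact hz
        · exact (T.ok_update θ c ⟨r, hr'⟩ z (by simp only; omega)).2 (hc1 s (by omega))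
    obtain ⟨c, hc1, hc2⟩ := key N le_rfl
    have h1 : (wo c N).Nonempty := by
      rw [Finset.nonempty_iff_ne_empty]
      intro h
      rw [h] at hc2
      exact hc2 (hcol.mono _ _ _ _ subset_rfl (Nat.zero_le _) hcol.emp)
    obtain ⟨x, hx⟩ := h1
    exact ⟨c, x, hc1, hx⟩
  obtain ⟨q, hq, hq1, hq2⟩ := FPK.fp (V := Hi V N nb × V) (fun k => Yy V N nb Y k → ℝ)
    (Kk K) (by
      rintro (p | i)
      · exact isCompact_stdSimplex ℝ V
      · exact hK i) (by
      rintro (p | i)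
      · exact convex_stdSimplex ℝ V
      · exact hc i) (by
      rintro (p | i)
      · exact ⟨_, single_mem_stdSimplex ℝ (Classical.arbitrary V)⟩
      · exact hne i) (ff f) (by
      rintro (p | i)
      · refine ContinuousOn.neg (continuousOn_finsetSum _ fun x _ => ContinuousOn.pow
          (ContinuousOn.sub (ContinuousOn.mul ?_ ?_) ?_) 2)
        · exact ((continuous_mh _ _ _).comp (continuous_fst.comp continuous_fst)).continuousOn
        · exact ((continuous_apply x).comp continuous_snd).continuousOn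
        · exact ((continuous_nn _ _ _ x).comp (continuous_fst.comp continuous_fst)).continuousOn
      · exact (hf i).comp (f := fun p : (((Hi V N nb × V) → ℝ) × (∀ k, Yy V N nb Y k → ℝ)) ×
          (Y i → ℝ) => (pr p.1.2, p.2)) (((hprc.comp (continuous_snd.comp continuous_fst)).prodMk
            continuous_snd).continuousOn) fun p hp => ⟨hpr p.1 hp.1, hp.2⟩) (by
      rintro (p | i) q hq
      · exact concaveOn_sq _ _
      · exact hcc i _ (hpr q hq)) g (by
      intro k x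
      rw [hg]
      rcases k with _ | s
      · exact continuousOn_const
      · simp only
        split_ifs with h1
        · exact ((Metric.continuous_infDist_pt _).comp (hprc.comp continuous_snd)).continuousOn
        · exact continuousOn_const) (by
      intro q hq
      obtain ⟨c, x, h1, h2⟩ := hex (pr q.2) (hpr q hq)
      refine ⟨(c, x), fun k => ?_⟩
      rw [hg]
      rcases k with _ | s
      · exact (if_pos h2).le
      · have h3 : pr q.2 ∈ Al col T K s.1 c := ⟨hpr q hq, h1 s.1 s.2⟩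
        simp only
        rw [if_pos ⟨_, h3⟩, Metric.infDist_zero_of_mem h3])
  have hθ := hpr q hq
  refine ⟨q.1, hq.1, pr q.2, hθ, ?_, fun i y hy => hq1 (.inr i) y hy, fun c x hcx => ?_⟩
  · intro s hs j hj p x
    have hQ0 : ∀ p, 0 ≤ q.1 p := hq.1.1
    have hs1 : (Fin.ofNat (N + 1) s).1 = s := by
      simp only [Fin.ofNat]
      exact Nat.mod_eq_of_lt (by omega)
    have hj1 : (Fin.ofNat (nb + 1) j).1 = j := by
      simp only [Fin.ofNat]
      exact Nat.mod_eq_of_lt (by omega)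
    by_cases hm : mh q.1 s j p = 0
    · rw [hm, zero_mul]
      exact le_antisymm (nn_nonneg hQ0 s j p x) (by
        rw [← hm]
        exact nn_le_mh hQ0 s j p x)
    · have h1 := hq1 (.inl (Fin.ofNat (N + 1) s, Fin.ofNat (nb + 1) j, p))
        (fun x : V => nn q.1 s j p x / mh q.1 s j p) (by
          refine ⟨fun x => div_nonneg (nn_nonneg hQ0 s j p x) (mh_nonneg hQ0 s j p), ?_⟩
          rw [← Finset.sum_div, sum_nn, div_self hm])
      simp only [ff, hs1, hj1] at h1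
      have h2 : ∑ x : V, (mh q.1 s j p * (nn q.1 s j p x / mh q.1 s j p) -
          nn q.1 s j p x) ^ 2 = 0 := by
        refine Finset.sum_eq_zero fun x _ => ?_
        rw [mul_div_cancel₀ _ hm, sub_self]
        norm_num
      rw [h2, neg_zero, neg_nonneg] at h1
      have h3 := (Finset.sum_eq_zero_iff_of_nonneg fun x _ => sq_nonneg _).1
        (le_antisymm h1 (Finset.sum_nonneg fun x _ => sq_nonneg _)) x (Finset.mem_univ x)
      have h4 := pow_eq_zero_iff (n := 2) (by norm_num) |>.1 h3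
      exact sub_eq_zero.1 h4
  · have h3 : ∀ k, g k q (c, x) ≤ 0 := by
      intro k
      by_contra h
      rw [not_le] at h
      exact hcx (hq2 _ ⟨k, h⟩)
    rw [hg] at h3
    constructor
    · intro s hs
      have h4 := h3 (some ⟨s, hs⟩)
      simp only at h4
      by_cases h5 : (Al col T K s c).Nonempty
      · rw [if_pos h5] at h4
        have h6 : pr q.2 ∈ Al col T K s c :=
          ((isClosed_Al hK (hX s hs) (hP s hs) (hR s hs) c).mem_iff_infDist_zero h5).2
            (le_antisymm h4 Metric.infDist_nonneg)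
        exact h6.2
      · rw [if_neg h5] at h4
        exact absurd h4 (by norm_num)
    · have h4 := h3 none
      by_contra h5
      simp only [if_neg h5] at h4
      exact absurd h4 (by norm_num)

end game

/-! ### Consequences -/

lemma sum_biUnion_le {α κ : Type} [DecidableEq α] (s : Finset κ) (A : κ → Finset α)
    {w : α → ℝ} (hw : ∀ a, 0 ≤ w a) : ∑ a ∈ s.biUnion A, w a ≤ ∑ k ∈ s, ∑ a ∈ A k, w a := by
  induction s using Finset.induction_on with
  | empty => rw [Finset.biUnion_empty, Finset.sum_empty, Finset.sum_empty]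
  | insert k s hk ih =>
    rw [Finset.biUnion_insert, Finset.sum_insert hk]
    have h1 := Finset.sum_union_inter (s₁ := A k) (s₂ := s.biUnion A) (f := w)
    have h2 : 0 ≤ ∑ a ∈ A k ∩ s.biUnion A, w a := Finset.sum_nonneg fun a _ => hw a
    linarith

section cons

variable {V : Type} [Fintype V] {N nb : ℕ} {ι : Type} {Y : ι → Type} {I : Type}

/-- The equilibrium. -/
structure Eqm (col : Finset V → ℕ → Prop) (T : Ts V N nb I (Th V N nb Y))
    (Q : Hi V N nb × V → ℝ) (θ : Th V N nb Y) : Prop where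
  Q0 : ∀ p, 0 ≤ Q p
  Q1 : ∑ p, Q p = 1
  nm : ∀ s j p, nh θ s j p ∈ stdSimplex ℝ V
  nq : ∀ s ≤ N, ∀ j ≤ nb, ∀ p x, mh Q s j p * nh θ s j p x = nn Q s j p x
  ok : ∀ c x, Q (c, x) ≠ 0 → (∀ s < N, T.Ok col θ s c) ∧ x ∈ wo c N
  nx : ∀ s p, T.Nx s p ⊆ wo p s

variable {col : Finset V → ℕ → Prop} {T : Ts V N nb I (Th V N nb Y)} {Q : Hi V N nb × V → ℝ}
  {θ : Th V N nb Y}

/-- A history of positive mass passes all the tests. -/
lemma Eqm.ok' (h : Eqm col T Q θ) {c : Hi V N nb} (hc : qc Q c ≠ 0) {s : ℕ} (hs : s < N) :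
    T.Ok col θ s c := by
  obtain ⟨x, -, hx⟩ := Finset.exists_ne_zero_of_sum_ne_zero hc
  exact (h.ok c x hx).1 s hs

lemma Eqm.wo_sub (h : Eqm col T Q θ) {c : Hi V N nb} (hc : qc Q c ≠ 0) {s : ℕ} (hs : s < N) :
    wo c (s + 1) ⊆ wo c s := by
  refine (h.ok' hc hs).1.trans ((h.nx s _).trans ?_)
  rw [wo_pf le_rfl]

lemma Eqm.wo_anti (h : Eqm col T Q θ) {c : Hi V N nb} (hc : qc Q c ≠ 0) {s t : ℕ} (hst : s ≤ t)
    (ht : t ≤ N) : wo c t ⊆ wo c s := by
  induction t, hst using Nat.le_induction with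
  | base => exact subset_rfl
  | succ t _ ih => exact (h.wo_sub hc (by omega)).trans (ih (by omega))

lemma Eqm.qc_ne (h : Eqm col T Q θ) {c : Hi V N nb} {x : V} (hx : Q (c, x) ≠ 0) : qc Q c ≠ 0 := by
  intro h1
  have h2 := Q_le_qc h.Q0 c x
  rw [h1] at h2
  exact hx (le_antisymm h2 (h.Q0 _))

/-- The node lies in all the worlds. -/
lemma Eqm.mem_wo (h : Eqm col T Q θ) {c : Hi V N nb} {x : V} (hx : Q (c, x) ≠ 0) {s : ℕ}
    (hs : s ≤ N) : x ∈ wo c s := h.wo_anti (h.qc_ne hx) hs le_rfl (h.ok c x hx).2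

lemma Eqm.mh_pos (h : Eqm col T Q θ) {c : Hi V N nb} (hc : qc Q c ≠ 0) (s j : ℕ) :
    0 < mh Q s j (hp s j c) :=
  (lt_of_le_of_ne (qc_nonneg h.Q0 c) hc.symm).trans_le (qc_le_mh h.Q0 s j c)

lemma Eqm.nh_nonneg (h : Eqm col T Q θ) (s j : ℕ) (p : Hi V N nb) (x : V) : 0 ≤ nh θ s j p x :=
  (h.nm s j p).1 x

lemma Eqm.sum_nh (h : Eqm col T Q θ) (s j : ℕ) (p : Hi V N nb) : ∑ x, nh θ s j p x = 1 :=
  (h.nm s j p).2

/-- The support of the law of the node given a half prefix. -/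
lemma Eqm.nh_supp (h : Eqm col T Q θ) {s j : ℕ} (hs : s ≤ N) (hj : j ≤ nb) {p : Hi V N nb}
    (hp' : mh Q s j p ≠ 0) {x : V} (hx : nh θ s j p x ≠ 0) :
    ∃ c, hp s j c = p ∧ Q (c, x) ≠ 0 := by
  refine nn_supp (Q := Q) (s := s) (j := j) ?_
  rw [← h.nq s hs j hj p x]
  exact mul_ne_zero hp' hx

lemma Eqm.nh_supp_wo (h : Eqm col T Q θ) {s j : ℕ} (hs : s ≤ N) (hj : j ≤ nb) {p : Hi V N nb}
    (hp' : mh Q s j p ≠ 0) {x : V} (hx : nh θ s j p x ≠ 0) : x ∈ wo p s := by
  obtain ⟨c, rfl, hc⟩ := h.nh_supp hs hj hp' hx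
  rw [wo_hp j le_rfl]
  exact h.mem_wo hc hs

/-- Comparison of the laws along a history. -/
lemma Eqm.nh_le (h : Eqm col T Q θ) {c : Hi V N nb} (hc : qc Q c ≠ 0) {s t j k : ℕ}
    (hst : s < t ∨ s = t ∧ j ≤ k) (ht : t ≤ N) (hj : j ≤ nb) (hk : k ≤ nb) {c0 : ℝ}
    (hm : c0 * mh Q s j (hp s j c) ≤ mh Q t k (hp t k c)) (x : V) :
    c0 * nh θ t k (hp t k c) x ≤ nh θ s j (hp s j c) x := by
  have h1 := nn_anti h.Q0 hst c x
  rw [← h.nq t ht k hk, ← h.nq s (by omega) j hj] at h1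
  have h2 := h.mh_pos hc s j
  have h3 : c0 * mh Q s j (hp s j c) * nh θ t k (hp t k c) x ≤
      mh Q t k (hp t k c) * nh θ t k (hp t k c) x :=
    mul_le_mul_of_nonneg_right hm (h.nh_nonneg _ _ _ _)
  have h4 : mh Q s j (hp s j c) * (c0 * nh θ t k (hp t k c) x) ≤
      mh Q s j (hp s j c) * nh θ s j (hp s j c) x := by
    calc mh Q s j (hp s j c) * (c0 * nh θ t k (hp t k c) x)
        = c0 * mh Q s j (hp s j c) * nh θ t k (hp t k c) x := by ring
      _ ≤ _ := h3.trans h1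
  exact le_of_mul_le_mul_left h4 h2

/-- Typical histories: the bits of every step have conditional probability at least `c0`. -/
def Typ (Q : Hi V N nb × V → ℝ) (c0 : ℝ) (c : Hi V N nb) : Prop :=
  ∀ s < N, c0 * mh Q s 0 (hp s 0 c) ≤ mh Q s nb (hp s nb c)

/-- Laws of the same step. -/
lemma Eqm.nh_le_bits (h : Eqm col T Q θ) {c : Hi V N nb} (hc : qc Q c ≠ 0) {c0 : ℝ}
    (hc0 : 0 ≤ c0) (hT : Typ Q c0 c) {s : ℕ} (hs : s < N) {j k : ℕ} (hjk : j ≤ k) (hk : k ≤ nb)
    (x : V) : c0 * nh θ s k (hp s k c) x ≤ nh θ s j (hp s j c) x := by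
  refine h.nh_le hc (Or.inr ⟨rfl, hjk⟩) hs.le (hjk.trans hk) hk ?_ x
  calc c0 * mh Q s j (hp s j c) ≤ c0 * mh Q s 0 (hp s 0 c) :=
        mul_le_mul_of_nonneg_left (mh_anti h.Q0 (Or.inr ⟨rfl, Nat.zero_le _⟩) c) hc0
    _ ≤ mh Q s nb (hp s nb c) := hT s hs
    _ ≤ mh Q s k (hp s k c) := mh_anti h.Q0 (Or.inr ⟨rfl, hk⟩) c

/-- Averages over the nodes. -/
lemma Eqm.sum_eq (h : Eqm col T Q θ) {s j : ℕ} (hs : s ≤ N) (hj : j ≤ nb)
    (F : Hi V N nb → V → ℝ) :
    ∑ p : Hi V N nb × V, Q p * F (hp s j p.1) p.2 =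
      ∑ p, mh Q s j p * ∑ x, nh θ s j p x * F p x := by
  rw [Fintype.sum_prod_type, ← sum_fiber s j]
  refine Finset.sum_congr rfl fun p _ => ?_
  rw [Finset.mul_sum, Finset.sum_comm]
  refine Finset.sum_congr rfl fun x _ => ?_
  rw [← mul_assoc, h.nq s hs j hj p x]
  unfold nn
  rw [Finset.sum_mul]
  refine Finset.sum_congr rfl fun c hc => ?_
  rw [mem_th.1 hc]

lemma sum_mh (hQ1 : ∑ p, Q p = 1) (s j : ℕ) : ∑ p, mh Q s j p = 1 := by
  rw [← sum_qc hQ1]
  exact sum_fiber s j _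

/-- If a set of nodes is small for the law given every half prefix, it is small for `Q`. -/
lemma Eqm.sum_le (h : Eqm col T Q θ) {s j : ℕ} (hs : s ≤ N) (hj : j ≤ nb)
    {F : Hi V N nb → V → ℝ} {ε : ℝ}
    (hF : ∀ p, mh Q s j p ≠ 0 → ∑ x, nh θ s j p x * F p x ≤ ε) :
    ∑ p : Hi V N nb × V, Q p * F (hp s j p.1) p.2 ≤ ε := by
  rw [h.sum_eq hs hj]
  calc ∑ p, mh Q s j p * ∑ x, nh θ s j p x * F p x ≤ ∑ p, mh Q s j p * ε := by
        refine Finset.sum_le_sum fun p _ => ?_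
        by_cases h1 : mh Q s j p = 0
        · rw [h1, zero_mul, zero_mul]
        · exact mul_le_mul_of_nonneg_left (hF p h1) (mh_nonneg h.Q0 s j p)
    _ = ε := by rw [← Finset.sum_mul, sum_mh h.Q1, one_mul]

/-- **The side lemma.** -/
lemma Eqm.side (h : Eqm col T Q θ) {c : Hi V N nb} (hc : qc Q c ≠ 0) {c0 : ℝ}
    (hT : Typ Q c0 c) (hc0 : 0 ≤ c0) {s : ℕ} (hs : s < N) (j : Fin nb) (S : Finset V)
    (hS : ∀ c' x, hp s (j.1 + 1) c' = hp s (j.1 + 1) c → Q (c', x) ≠ 0 → x ∈ S) :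
    c0 ≤ ∑ x ∈ S, nh θ s j.1 (hp s j.1 c) x := by
  have h1 : mh Q s (j.1 + 1) (hp s (j.1 + 1) c) ≤
      mh Q s j.1 (hp s j.1 c) * ∑ x ∈ S, nh θ s j.1 (hp s j.1 c) x := by
    rw [← sum_nn, Finset.mul_sum, ← Finset.sum_subset (Finset.subset_univ S)]
    · refine Finset.sum_le_sum fun x _ => ?_
      rw [h.nq s hs.le j.1 j.2.le]
      exact nn_anti h.Q0 (Or.inr ⟨rfl, Nat.le_succ _⟩) c x
    · intro x _ hx
      by_contra h2
      obtain ⟨c', hc', h3⟩ := nn_supp h2
      exact hx (hS c' x hc' h3)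
  have h2 : c0 * mh Q s j.1 (hp s j.1 c) ≤ mh Q s (j.1 + 1) (hp s (j.1 + 1) c) :=
    calc c0 * mh Q s j.1 (hp s j.1 c) ≤ c0 * mh Q s 0 (hp s 0 c) :=
          mul_le_mul_of_nonneg_left (mh_anti h.Q0 (Or.inr ⟨rfl, Nat.zero_le _⟩) c) hc0
      _ ≤ mh Q s nb (hp s nb c) := hT s hs
      _ ≤ _ := mh_anti h.Q0 (Or.inr ⟨rfl, j.2⟩) c
  have h3 := h.mh_pos hc s j.1
  rw [mul_comm] at h2
  exact le_of_mul_le_mul_left (h2.trans h1) h3

/-- A side whose vertices have small probability does not occur in a typical history. -/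
lemma Eqm.side_false (h : Eqm col T Q θ) {c : Hi V N nb} (hc : qc Q c ≠ 0) {c0 : ℝ}
    (hT : Typ Q c0 c) (hc0 : 0 ≤ c0) {s : ℕ} (hs : s < N) (j : Fin nb)
    (hP : ∑ x ∈ Finset.univ.filter (fun x => T.P s j (hp s j.1 c) x θ),
      nh θ s j.1 (hp s j.1 c) x < c0) :
    bt c s j = false ∧ ∀ v ∈ wo c (s + 1), T.R s j (hp s j.1 c) v θ := by
  have h1 : bt c s j = false := by
    by_contra hcon
    rw [Bool.not_eq_false] at hcon
    refine absurd hP (not_lt.2 (h.side hc hT hc0 hs j _ fun c' x hc' hx => ?_))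
    have h2 : hp s j.1 c' = hp s j.1 c := hp_mono (Or.inr ⟨rfl, Nat.le_succ _⟩) hc'
    rw [Finset.mem_filter, ← h2]
    exact ⟨Finset.mem_univ _, ((h.ok' (h.qc_ne hx) hs).2.2.1 j x (h.mem_wo hx (by omega))).1
      ((bt_eq_of_hp hc' (Nat.lt_succ_self _)).trans hcon)⟩
  exact ⟨h1, fun v hv => ((h.ok' hc hs).2.2.1 j v hv).2 h1⟩

/-- The same for the other side. -/
lemma Eqm.side_true (h : Eqm col T Q θ) {c : Hi V N nb} (hc : qc Q c ≠ 0) {c0 : ℝ}
    (hT : Typ Q c0 c) (hc0 : 0 ≤ c0) {s : ℕ} (hs : s < N) (j : Fin nb)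
    (hR : ∑ x ∈ Finset.univ.filter (fun x => T.R s j (hp s j.1 c) x θ),
      nh θ s j.1 (hp s j.1 c) x < c0) :
    bt c s j = true ∧ ∀ v ∈ wo c (s + 1), T.P s j (hp s j.1 c) v θ := by
  have h1 : bt c s j = true := by
    by_contra hcon
    rw [Bool.not_eq_true] at hcon
    refine absurd hR (not_lt.2 (h.side hc hT hc0 hs j _ fun c' x hc' hx => ?_))
    have h2 : hp s j.1 c' = hp s j.1 c := hp_mono (Or.inr ⟨rfl, Nat.le_succ _⟩) hc'
    rw [Finset.mem_filter, ← h2]
    exact ⟨Finset.mem_univ _, ((h.ok' (h.qc_ne hx) hs).2.2.1 j x (h.mem_wo hx (by omega))).2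
      ((bt_eq_of_hp hc' (Nat.lt_succ_self _)).trans hcon)⟩
  exact ⟨h1, fun v hv => ((h.ok' hc hs).2.2.1 j v hv).1 h1⟩

/-- The mass of the histories which are not typical. -/
lemma Eqm.not_typ (h : Eqm col T Q θ) {c0 : ℝ} (hc0 : 0 ≤ c0) :
    ∑ c ∈ Finset.univ.filter (fun c => ¬ Typ Q c0 c), qc Q c ≤ N * (2 ^ nb * c0) := by
  have h1 : ∀ s : Fin N, ∑ c ∈ Finset.univ.filter (fun c : Hi V N nb =>
      ¬ c0 * mh Q s.1 0 (hp s.1 0 c) ≤ mh Q s.1 nb (hp s.1 nb c)), qc Q c ≤ 2 ^ nb * c0 := by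
    intro s
    have h2 : ∀ c : Hi V N nb, hp s.1 nb c =
        Function.update (hp s.1 0 c) s ((∅ : Finset V), bt c s.1) := by
      intro c
      funext i
      rcases lt_trichotomy i.1 s.1 with h1 | h1 | h1
      · rw [hp_lt _ _ h1, Function.update_of_ne, hp_lt _ _ h1]
        rintro rfl
        omega
      · have h2 : i = s := Fin.ext h1
        subst h2
        rw [hp_eq, Function.update_self, cut_self, bt_of_lt _ i.2]
      · rw [hp_gt _ _ h1, Function.update_of_ne, hp_gt _ _ h1]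
        rintro rfl
        omega
    -- the classes
    obtain ⟨S, hS⟩ : ∃ S : Finset (Hi V N nb × (Fin nb → Bool)), S = Finset.univ.filter fun p =>
        mh Q s.1 nb (Function.update p.1 s ((∅ : Finset V), p.2)) < c0 * mh Q s.1 0 p.1 :=
      ⟨_, rfl⟩
    calc ∑ c ∈ Finset.univ.filter (fun c : Hi V N nb =>
          ¬ c0 * mh Q s.1 0 (hp s.1 0 c) ≤ mh Q s.1 nb (hp s.1 nb c)), qc Q c
        ≤ ∑ c ∈ S.biUnion fun p => th s.1 nb (Function.update p.1 s ((∅ : Finset V), p.2)),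
            qc Q c := by
          refine Finset.sum_le_sum_of_subset_of_nonneg ?_ fun c _ _ => qc_nonneg h.Q0 c
          intro c hc
          rw [Finset.mem_filter, not_le] at hc
          rw [Finset.mem_biUnion]
          refine ⟨(hp s.1 0 c, bt c s.1), ?_, ?_⟩
          · rw [hS, Finset.mem_filter]
            refine ⟨Finset.mem_univ _, ?_⟩
            rw [← h2 c]
            exact hc.2
          · rw [mem_th]
            exact h2 c
      _ ≤ ∑ p ∈ S, mh Q s.1 nb (Function.update p.1 s ((∅ : Finset V), p.2)) :=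
          sum_biUnion_le _ _ fun c => qc_nonneg h.Q0 c
      _ ≤ ∑ p ∈ S, c0 * mh Q s.1 0 p.1 := by
          refine Finset.sum_le_sum fun p hp' => ?_
          rw [hS, Finset.mem_filter] at hp'
          exact hp'.2.le
      _ ≤ ∑ p : Hi V N nb × (Fin nb → Bool), c0 * mh Q s.1 0 p.1 :=
          Finset.sum_le_sum_of_subset_of_nonneg (Finset.subset_univ _) fun p _ _ =>
            mul_nonneg hc0 (mh_nonneg h.Q0 _ _ _)
      _ = 2 ^ nb * c0 := by
          rw [Fintype.sum_prod_type]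
          simp only [Finset.sum_const, Finset.card_univ, Fintype.card_fun, Fintype.card_bool,
            Fintype.card_fin, nsmul_eq_mul]
          rw [← Finset.mul_sum, ← Finset.mul_sum, sum_mh h.Q1]
          push_cast
          ring
  calc ∑ c ∈ Finset.univ.filter (fun c => ¬ Typ Q c0 c), qc Q c
      ≤ ∑ c ∈ Finset.univ.biUnion fun s : Fin N => Finset.univ.filter (fun c : Hi V N nb =>
          ¬ c0 * mh Q s.1 0 (hp s.1 0 c) ≤ mh Q s.1 nb (hp s.1 nb c)), qc Q c := by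
        refine Finset.sum_le_sum_of_subset_of_nonneg ?_ fun c _ _ => qc_nonneg h.Q0 c
        intro c hc
        rw [Finset.mem_filter] at hc
        have h2 := hc.2
        unfold Typ at h2
        push Not at h2
        obtain ⟨s, hs, h3⟩ := h2
        rw [Finset.mem_biUnion]
        exact ⟨⟨s, hs⟩, Finset.mem_univ _, Finset.mem_filter.2 ⟨Finset.mem_univ _, h3.not_ge⟩⟩
    _ ≤ ∑ s : Fin N, ∑ c ∈ Finset.univ.filter (fun c : Hi V N nb =>
          ¬ c0 * mh Q s.1 0 (hp s.1 0 c) ≤ mh Q s.1 nb (hp s.1 nb c)), qc Q c :=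
        sum_biUnion_le _ _ fun c => qc_nonneg h.Q0 c
    _ ≤ ∑ _s : Fin N, 2 ^ nb * c0 := Finset.sum_le_sum fun s _ => h1 s
    _ = N * (2 ^ nb * c0) := by
        rw [Finset.sum_const, Finset.card_univ, Fintype.card_fin, nsmul_eq_mul]

/-- A pattern of bits of large mass. -/
lemma exists_bits (hQ0 : ∀ p, 0 ≤ Q p) (S : Finset (Hi V N nb)) :
    ∃ b : Fin N → Fin nb → Bool, ∑ c ∈ S, qc Q c ≤
      2 ^ (nb * N) * ∑ c ∈ S.filter (fun c => ∀ s : Fin N, bt c s.1 = b s), qc Q c := by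
  by_contra hcon
  push Not at hcon
  have h1 : ∑ c ∈ S, qc Q c ≤ ∑ b : Fin N → Fin nb → Bool,
      ∑ c ∈ S.filter (fun c => ∀ s : Fin N, bt c s.1 = b s), qc Q c := by
    refine le_trans (Finset.sum_le_sum_of_subset_of_nonneg
      (t := Finset.univ.biUnion fun b : Fin N → Fin nb → Bool =>
        S.filter (fun c => ∀ s : Fin N, bt c s.1 = b s)) ?_ fun c _ _ => qc_nonneg hQ0 c)
      (sum_biUnion_le _ _ fun c => qc_nonneg hQ0 c)
    intro c hc
    rw [Finset.mem_biUnion]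
    exact ⟨fun s => bt c s.1, Finset.mem_univ _, Finset.mem_filter.2 ⟨hc, fun s => rfl⟩⟩
  have h2 : ∑ b : Fin N → Fin nb → Bool,
      2 ^ (nb * N) * ∑ c ∈ S.filter (fun c => ∀ s : Fin N, bt c s.1 = b s), qc Q c <
      ∑ _b : Fin N → Fin nb → Bool, ∑ c ∈ S, qc Q c :=
    Finset.sum_lt_sum_of_nonempty Finset.univ_nonempty fun b _ => hcon b
  rw [← Finset.mul_sum, Finset.sum_const, Finset.card_univ, nsmul_eq_mul] at h2
  have h3 : ((Fintype.card (Fin N → Fin nb → Bool) : ℕ) : ℝ) = 2 ^ (nb * N) := by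
    rw [Fintype.card_fun, Fintype.card_fun, Fintype.card_bool, Fintype.card_fin,
      Fintype.card_fin, ← pow_mul]
    push_cast
    rfl
  rw [h3] at h2
  have h4 := mul_le_mul_of_nonneg_left h1 (by positivity : (0 : ℝ) ≤ 2 ^ (nb * N))
  linarith

/-- **The equilibrium exists.** -/
theorem exists_eq [Nonempty V] [Fintype ι] [∀ i, Fintype (Y i)] {I : Type} [Fintype I]
    {col : Finset V → ℕ → Prop} (hcol : ColS col)
    -- the coordinates
    (K : ∀ i : ι, Set (Y i → ℝ)) (hK : ∀ i, IsCompact (K i)) (hc : ∀ i, Convex ℝ (K i))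
    (hne : ∀ i, (K i).Nonempty) (f : ∀ i : ι, Th V N nb Y → (Y i → ℝ) → ℝ)
    (hf : ∀ i, ContinuousOn (fun p : Th V N nb Y × (Y i → ℝ) => f i p.1 p.2)
      (dom (V := V) N nb K ×ˢ K i))
    (hcc : ∀ i, ∀ θ ∈ dom (V := V) N nb K, ConcaveOn ℝ (K i) (f i θ))
    -- the tests
    (T : Ts V N nb I (Th V N nb Y)) (hNx : ∀ s p, T.Nx s p ⊆ wo p s) (C : ℕ → ℕ)
    (hX : ∀ s < N, ∀ i p v, IsClosed {θ | θ ∈ dom N nb K ∧ ¬ T.X s i p v θ})
    (hP : ∀ s < N, ∀ j p v, IsClosed {θ | θ ∈ dom N nb K ∧ T.P s j p v θ})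
    (hR : ∀ s < N, ∀ j p v, IsClosed {θ | θ ∈ dom N nb K ∧ T.R s j p v θ})
    (hPR : ∀ θ ∈ dom N nb K, ∀ s < N, ∀ j p v, T.P s j p v θ ∨ T.R s j p v θ)
    -- the sizes
    (hb0 : ¬ col Finset.univ (T.b 0))
    (hb : ∀ s < N, ∀ c : Hi V N nb, ¬ col (wo c s) (T.b s) →
      ¬ col (T.Nx s (pf s c)) (2 ^ nb * (Fintype.card I * C s + T.b (s + 1))))
    (hX2 : ∀ θ ∈ dom N nb K, ∀ s < N, ∀ c : Hi V N nb, (∀ t < s, T.Ok col θ t c) →
      wo c (s + 1) ⊆ T.Nx s (pf s c) → T.Sd θ s c →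
        ∀ i, col ((wo c (s + 1)).filter fun v => T.X s i (hp s nb c) v θ) (C s)) :
    ∃ Q θ, θ ∈ dom (V := V) N nb K ∧ Eqm col T Q θ ∧
      ∀ i, ∀ y ∈ K i, f i θ y ≤ f i θ (θ.2 i) := by
  obtain ⟨Q, hQ, θ, hθ, h1, h2, h3⟩ := game hcol K hK hc hne f hf hcc T C hX hP hR hPR hb0 hb hX2
  exact ⟨Q, θ, hθ, ⟨hQ.1, hQ.2, nh_mem hθ, h1, h3, hNx⟩, h2⟩

end cons

end Pool.Agent.Lib.GSR.HZB
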