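import Pool.Agent.Lib.GSR.Typ
import Pool.Agent.Lib.TCW.BX

/-!
# Typical nodes have self-linked labels: the form for the records of `TCW.BX`

Real heights of the nodes, integer heights of the labels.
-/

set_option autoImplicit false

namespace Pool.Agent.Lib.GSR

open Finset Classical
open Pool.Agent.Lib.GSR3 (Stab Tree)
open Pool.Agent.Lib.FGF (Frac)
open Pool.Agent.Lib.TCW (RecB IncB Cst)

/-- The wide own incidence. -/
def OwB {V Ω : Type} (G : SimpleGraph V) (s v0 w0 : ℕ) (hub : Ω → V) (h : ℕ → V → ℝ)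
    (H : ℕ → Ω → ℤ) (x : V) (o : Ω) : Prop :=
  G.Adj x (hub o) ∧ |h s x - H s o| ≤ v0 ∧ ∀ c < s, |h c x - H c o| ≤ w0

namespace TypB_

lemma fl_le {x : ℝ} {z : ℤ} {v : ℕ} (h : |x - z| ≤ v) : |⌊x⌋ - z| ≤ ((v + 1 : ℕ) : ℤ) := by
  rw [abs_le] at h ⊢
  have h1 : z - v ≤ ⌊x⌋ := by
    rw [Int.le_floor]
    push_cast
    linarith
  have h2 : ⌊x⌋ ≤ z + v := by
    rw [← Int.lt_add_one_iff, Int.floor_lt]
    push_cast
    linarith
  push_cast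
  constructor <;> linarith

lemma le_fl {x : ℝ} {z : ℤ} {v : ℕ} (h : |⌊x⌋ - z| ≤ (v : ℤ)) : |x - z| ≤ ((v + 1 : ℕ) : ℝ) := by
  rw [abs_le] at h ⊢
  have h1 := Int.floor_le x
  have h2 := Int.lt_floor_add_one x
  have h3 : -(v : ℝ) ≤ ⌊x⌋ - z := by exact_mod_cast h.1
  have h4 : (⌊x⌋ : ℝ) - z ≤ v := by exact_mod_cast h.2
  push_cast
  constructor <;> linarith

end TypB_

open TypB_

/-- Typical nodes have self-linked labels, in the form of the records of `TCW.BX`. -/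
theorem stTypB (M ht : ℕ) (F K C1 b c : ℝ) (g0 : ℕ) (hM : 1 ≤ M) (hF : 1 ≤ F) (hK : 0 < K)
    (hC : 0 < C1) (hb : 0 < b) (hc : 0 < c) : ∃ ε : ℝ, 0 < ε ∧
    ∀ w0 s : ℕ, ∃ W : ℕ, ∀ k : Cst, W ≤ k.w0 → ∀ (V Ω : Type) [Fintype V] (G : SimpleGraph V)
      (As : Finset V) (O : Finset Ω) (hub : Ω → V) (E : V → Ω → Prop) (h : ℕ → V → ℝ)
      (H : ℕ → Ω → ℤ) (r : V → ℝ) (w : Ω → ℝ) (n : V → ℝ) (P : V → Ω → ℝ),
      Frac G F → (∀ φ : List (Fin M) → V, ¬ Tree G ht M φ) →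
      (∀ x, 0 ≤ r x) → (∀ o, 0 ≤ w o) → (∀ x, 0 ≤ n x) →
      (∀ x ∈ As, ∀ o ∈ O, E x o → OwB G s g0 w0 hub h H x o) →
      (∀ x ∈ As, ∑ o ∈ O with G.Adj x (hub o) ∧ |h s x - H s o| ≤ ((g0 + 2 : ℕ) : ℝ), w o ≤ K) →
      (∀ o ∈ O, ∑ x ∈ As with G.Adj x (hub o) ∧ |h s x - H s o| ≤ ((g0 + 2 : ℕ) : ℝ), r x ≤ K) →
      ∑ x ∈ As, (2 : ℝ) ^ (h s x) * r x ≤ K →
      ∑ o ∈ O, (2 : ℝ) ^ (H s o) * w o ≤ K →
      (∀ x ∈ As, ∀ o ∈ O, E x o → 0 ≤ P x o ∧ n x * P x o ≤ C1 * ((2 : ℝ) ^ (H s o) * r x * w o)) →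
        RecB G s (g0 + 2) K k As O hub (OwB G s (g0 + 2) k.w0 hub h H) r w h H ∧
        ∑ x ∈ As with b ≤ (∑ o ∈ O with E x o, P x o) ∧
          ¬ ∃ I : V → Ω → Prop, IncB ε As O (OwB G s (g0 + 2) k.w0 hub h H) r w I x, n x ≤ c := by
  have h2p : ∀ t : ℤ, (0 : ℝ) < (2 : ℝ) ^ t := fun t => zpow_pos (by norm_num) t
  have hK' : (0 : ℝ) < 2 ^ (g0 + 1) * K := by positivity
  obtain ⟨ε, hε, hS⟩ := stTyp M ht F (2 ^ (g0 + 1) * K) C1 b c (g0 + 1) hM hF hK' hC hb hc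
  refine ⟨ε, hε, fun w0 s => ?_⟩
  obtain ⟨W, hW⟩ := hS (w0 + 1) s
  refine ⟨W + 1, ?_⟩
  intro k hk V Ω _ G As O hub E h H r w n P hFr hT hr0 hw0 hn hE hnw hnr hmr hmw hP
  have hKK : K ≤ 2 ^ (g0 + 1) * K := by
    have h1 : (1 : ℝ) ≤ 2 ^ (g0 + 1) := one_le_pow₀ (by norm_num)
    nlinarith
  have hI : SWI G As O hub E (g0 + 1) (w0 + 1) s (fun x => ⌊h s x⌋) (fun o => H s o)
      (fun c x => ⌊h c x⌋) H (fun t => (2 : ℝ) ^ t) r w (2 ^ (g0 + 1) * K) := by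
    refine ⟨hr0, hw0, fun t => (h2p t).le, ?_, ?_, ?_, ?_, ?_⟩
    · intro x hx o ho h1
      obtain ⟨h2, h3, h4⟩ := hE x hx o ho h1
      exact ⟨h2, fl_le h3, fun c hc => fl_le (h4 c hc)⟩
    · intro x hx
      refine le_trans (le_trans (Finset.sum_le_sum_of_subset_of_nonneg ?_ fun o _ _ => hw0 o)
        (hnw x hx)) hKK
      intro o ho
      rw [SL_.mf] at ho ⊢
      exact ⟨ho.1, ho.2.1, le_fl ho.2.2⟩
    · intro o ho
      refine le_trans (le_trans (Finset.sum_le_sum_of_subset_of_nonneg ?_ fun o _ _ => hr0 o)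
        (hnr o ho)) hKK
      intro x hx
      rw [SL_.mf] at hx ⊢
      exact ⟨hx.1, hx.2.1, le_fl hx.2.2⟩
    · intro t ht
      have h1 : ∑ x ∈ As, (2 : ℝ) ^ (⌊h s x⌋ + t) * r x ≤
          ∑ x ∈ As, 2 ^ (g0 + 1) * ((2 : ℝ) ^ (h s x) * r x) := by
        refine Finset.sum_le_sum fun x _ => ?_
        rw [← mul_assoc]
        refine mul_le_mul_of_nonneg_right ?_ (hr0 x)
        have h3 : ((⌊h s x⌋ + t : ℤ) : ℝ) ≤ ((g0 + 1 : ℕ) : ℝ) + h s x := by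
          have h4 := Int.floor_le (h s x)
          have h5 : (t : ℝ) ≤ ((g0 + 1 : ℕ) : ℝ) := by
            have := (abs_le.1 ht).2
            exact_mod_cast this
          push_cast at h5 ⊢
          linarith
        calc (2 : ℝ) ^ (⌊h s x⌋ + t) = (2 : ℝ) ^ (((⌊h s x⌋ + t : ℤ) : ℝ)) :=
              (Real.rpow_intCast 2 _).symm
          _ ≤ (2 : ℝ) ^ (((g0 + 1 : ℕ) : ℝ) + h s x) :=
              Real.rpow_le_rpow_of_exponent_le (by norm_num) h3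
          _ = 2 ^ (g0 + 1) * (2 : ℝ) ^ (h s x) := by
              rw [Real.rpow_add (by norm_num), Real.rpow_natCast]
      refine h1.trans ?_
      rw [← Finset.mul_sum]
      exact mul_le_mul_of_nonneg_left hmr (by positivity)
    · exact hmw.trans hKK
  obtain ⟨E', h1, h2, h3⟩ := hW V Ω G As O hub E (fun x => ⌊h s x⌋) (fun o => H s o)
    (fun c x => ⌊h c x⌋) H (fun t => (2 : ℝ) ^ t) r w n P hFr hT hI hn hP
  have hk' : ((W + 1 : ℕ) : ℝ) ≤ (k.w0 : ℝ) := by exact_mod_cast hk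
  have hEO : ∀ x o, E' x o → x ∈ As ∧ o ∈ O ∧ OwB G s (g0 + 2) k.w0 hub h H x o := by
    intro x o h4
    obtain ⟨h5, h6, h7, h8, h9⟩ := h1 x o h4
    exact ⟨h5, h6, h7, le_fl h8, fun c hc => (le_fl (h9 c hc)).trans hk'⟩
  refine ⟨⟨hr0, hw0, ?_, ?_, ?_, ?_, ?_⟩, ?_⟩
  · intro x hx
    refine le_trans (Finset.sum_le_sum_of_subset_of_nonneg ?_ fun o _ _ => hw0 o) (hnw x hx)
    intro o ho
    rw [SL_.mf] at ho ⊢
    exact ⟨ho.1, ho.2.1, ho.2.2.1⟩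
  · intro o ho
    refine le_trans (Finset.sum_le_sum_of_subset_of_nonneg ?_ fun o _ _ => hr0 o) (hnr o ho)
    intro x hx
    rw [SL_.mf] at hx ⊢
    exact ⟨hx.1, hx.2.1, hx.2.2.1⟩
  · exact fun x _ o _ h4 => h4.1
  · exact fun x _ o _ h4 => h4.2.1
  · exact fun x _ o _ h4 => h4.2.2
  · refine le_trans (Finset.sum_le_sum_of_subset_of_nonneg ?_ fun x _ _ => hn x) h3
    intro x hx
    rw [SL_.mf] at hx ⊢
    refine ⟨hx.1, hx.2.1, fun o h4 => hx.2.2 ⟨E', hEO, h2, o, h4⟩⟩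

end Pool.Agent.Lib.GSR
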