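import Pool.Agent.Lib.GSR.UnsH
import Pool.Agent.Lib.GSR.TypB
import Pool.Agent.Lib.GSLE.Cells
import Pool.Agent.Lib.GSLE.LE

/-!
# The cells of one stage

The cells `O` of an item of one stage satisfy the conditions of `Uns.lean` (`CellL.ownL`), of
`TypB.lean` and of the records of `TCW/BX.lean` (`CellL.recB`, `CellL.nr1`).  The height of a
vertex at its stage is the logarithm of its scale, the height of a cell at its stage is minus the
level of its main label.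
-/

set_option autoImplicit false

namespace Pool.Agent.Lib.GSR

open Finset Classical
open Pool.Agent.Lib.GSLE
open Pool.Agent.Lib.TCW (RecB Cst)

namespace LabB_

/-! ### The kernel and the levels -/

theorem le_kp {u v : ℝ} (hu : 0 < u) (h1 : v ≤ u) (h2 : v * u ≤ 1) : √v ≤ kp u := by
  rcases le_total u 1 with h | h
  · rw [kp_of_le h]
    exact Real.sqrt_le_sqrt h1
  · rw [kp_of_ge h, le_div_iff₀ (Real.sqrt_pos.mpr hu)]
    rcases le_total 0 v with h3 | h3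
    · rw [← Real.sqrt_mul h3]
      exact (Real.sqrt_le_one.mpr h2)
    · rw [Real.sqrt_eq_zero_of_nonpos h3, zero_mul]
      exact zero_le_one

theorem pow_ds_le {q a : ℝ} {k i : ℕ} (hq : 0 < q) (hq2 : q * q = 1 / 2)
    (h1 : (1 / 2 : ℝ) ^ k ≤ a) (h2 : a < 2 * (1 / 2 : ℝ) ^ k) :
    q * q ^ ds k i ≤ kp (a / (1 / 2 : ℝ) ^ i) := by
  have hpi : (0 : ℝ) < (1 / 2 : ℝ) ^ i := by positivity
  have hpk : (0 : ℝ) < (1 / 2 : ℝ) ^ k := by positivity
  have ha : 0 < a := lt_of_lt_of_le hpk h1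
  have h3 : q * q ^ ds k i = √((1 / 2 : ℝ) ^ (ds k i + 1)) := by
    rw [← pow_succ', eq_comm, Real.sqrt_eq_iff_mul_self_eq (by positivity) (by positivity),
      ← mul_pow, hq2]
  rw [h3]
  rcases le_total i k with h | h
  · obtain ⟨m, rfl⟩ := Nat.exists_eq_add_of_le h
    have h4 : ds (i + m) i = m := by unfold ds; omega
    have hpm : (0 : ℝ) < (1 / 2 : ℝ) ^ m := by positivity
    rw [h4]
    rw [pow_add] at h1 h2
    have h5 : (1 / 2 : ℝ) ^ m ≤ 1 := pow_le_one₀ (by norm_num) (by norm_num)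
    have h6 : (1 / 2 : ℝ) ^ m ≤ a / (1 / 2 : ℝ) ^ i := by
      rw [le_div_iff₀ hpi]
      linarith
    have h7 : a / (1 / 2 : ℝ) ^ i ≤ 2 * (1 / 2 : ℝ) ^ m := by
      rw [div_le_iff₀ hpi]
      nlinarith
    refine le_kp (div_pos ha hpi) ?_ ?_
    · rw [pow_succ]
      linarith
    · rw [pow_succ]
      calc (1 / 2 : ℝ) ^ m * (1 / 2) * (a / (1 / 2 : ℝ) ^ i)
          ≤ (1 / 2 : ℝ) ^ m * (1 / 2) * (2 * (1 / 2 : ℝ) ^ m) :=
            mul_le_mul_of_nonneg_left h7 (by positivity)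
        _ = (1 / 2 : ℝ) ^ m * (1 / 2 : ℝ) ^ m := by ring
        _ ≤ 1 := mul_le_one₀ h5 hpm.le h5
  · obtain ⟨m, rfl⟩ := Nat.exists_eq_add_of_le h
    have h4 : ds k (k + m) = m := by unfold ds; omega
    have hpm : (0 : ℝ) < (1 / 2 : ℝ) ^ m := by positivity
    have h5 : (1 / 2 : ℝ) ^ m ≤ 1 := pow_le_one₀ (by norm_num) (by norm_num)
    rw [h4]
    have h6 : 1 ≤ a / (1 / 2 : ℝ) ^ (k + m) := by
      rw [one_le_div hpi, pow_add]
      nlinarith
    refine le_kp (div_pos ha hpi) ?_ ?_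
    · refine le_trans ?_ h6
      exact pow_le_one₀ (by norm_num) (by norm_num)
    · rw [mul_div_assoc', div_le_one hpi, pow_succ, pow_add]
      calc (1 / 2 : ℝ) ^ m * (1 / 2) * a
          ≤ (1 / 2 : ℝ) ^ m * (1 / 2) * (2 * (1 / 2 : ℝ) ^ k) :=
            mul_le_mul_of_nonneg_left h2.le (by positivity)
        _ = (1 / 2 : ℝ) ^ k * (1 / 2 : ℝ) ^ m := by ring

theorem inv_le_kp {a b Υ : ℝ} (ha : 0 < a) (hb : 0 < b) (hΥ : 1 ≤ Υ) (h : a ≤ Υ * b) :
    1 / b ≤ Υ * √Υ * (kp (a / b) / a) := by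
  have hΥ0 : 0 < Υ := by linarith
  have hs : 0 < √Υ := Real.sqrt_pos.mpr hΥ0
  have hu : 0 < a / b := div_pos ha hb
  have h1 : a / b ≤ Υ := by
    rw [div_le_iff₀ hb]
    exact h
  have h2 := kp_div_anti hu h1
  rw [kp_of_ge hΥ] at h2
  have h3 : 1 / (Υ * √Υ) ≤ kp (a / b) / (a / b) := by
    refine le_trans (le_of_eq ?_) h2
    field_simp
  rw [div_le_iff₀ (by positivity)] at h3
  have h4 : 1 / b ≤ kp (a / b) / (a / b) * (Υ * √Υ) / b :=
    div_le_div_of_nonneg_right h3 hb.le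
  refine h4.trans (le_of_eq ?_)
  field_simp

/-- The level of a number in a real window. -/
theorem ds_of_logb {a : ℝ} {k i v : ℕ} (h1 : (1 / 2 : ℝ) ^ k ≤ a) (h2 : a < 2 * (1 / 2 : ℝ) ^ k)
    (h : |Real.logb 2 a + i| ≤ v) : ds k i ≤ v := by
  have hpk : (0 : ℝ) < (1 / 2 : ℝ) ^ k := by positivity
  have ha : 0 < a := lt_of_lt_of_le hpk h1
  have e1 : Real.logb 2 ((1 / 2 : ℝ) ^ k) = -k := by
    rw [one_div, inv_pow, Real.logb_inv, Real.logb_pow, Real.logb_self_eq_one (by norm_num),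
      mul_one]
  have h3 : -(k : ℝ) ≤ Real.logb 2 a := by
    rw [← e1]
    exact Real.logb_le_logb_of_le (by norm_num) hpk h1
  have h4 : Real.logb 2 a < 1 - k := by
    have h5 := Real.logb_lt_logb (b := 2) (by norm_num) ha h2
    rw [Real.logb_mul (by norm_num) hpk.ne', e1, Real.logb_self_eq_one (by norm_num)] at h5
    linarith
  rw [abs_le] at h
  have h6 : (i : ℝ) ≤ k + v := by linarith [h.2]
  have h7 : (k : ℝ) < i + v + 1 := by linarith [h.1]
  have h8 : i ≤ k + v := by exact_mod_cast h6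
  have h9 : k < i + v + 1 := by exact_mod_cast h7
  unfold ds
  omega

theorem two_zpow_neg (i : ℕ) : (2 : ℝ) ^ (-(i : ℤ)) = (1 / 2 : ℝ) ^ i := by
  rw [zpow_neg, zpow_natCast, one_div, inv_pow]

theorem two_rpow_logb {a : ℝ} (ha : 0 < a) : (2 : ℝ) ^ Real.logb 2 a = a :=
  Real.rpow_logb (by norm_num) (by norm_num) ha

/-- One-sided windows. -/
theorem le_of_logb {a : ℝ} {i v : ℕ} (ha : 0 < a) (h : Real.logb 2 a ≤ -(i : ℝ) + v) :
    a ≤ 2 ^ v * (1 / 2 : ℝ) ^ i := by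
  have h1 := Real.rpow_le_rpow_of_exponent_le (x := (2 : ℝ)) (by norm_num) h
  rw [two_rpow_logb ha, Real.rpow_add (by norm_num), Real.rpow_natCast,
    Real.rpow_neg (by norm_num), Real.rpow_natCast] at h1
  rw [one_div, inv_pow, mul_comm]
  exact h1

theorem ups_le (v : ℕ) : (2 : ℝ) ^ v * √((2 : ℝ) ^ v) ≤ 4 ^ v := by
  have h1 : (1 : ℝ) ≤ 2 ^ v := one_le_pow₀ (by norm_num)
  have h2 : √((2 : ℝ) ^ v) ≤ 2 ^ v := by
    rw [Real.sqrt_le_left (by positivity)]
    nlinarith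
  calc (2 : ℝ) ^ v * √((2 : ℝ) ^ v) ≤ 2 ^ v * 2 ^ v :=
        mul_le_mul_of_nonneg_left h2 (by positivity)
    _ = 4 ^ v := by
        rw [← mul_pow]
        norm_num

end LabB_

open LabB_

/-- The cells `O` of the item `S` of one stage: `n` the node law, `a` the scale with the levels
`k`, `π` the main law, `y` the hubs and `i` the levels of the main labels, `km` their own kernel,
`g₀` the own window; `c` the own kernel of the cells, `A` their scale, `θ` its smallest quotient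
with `a`, `Δ` the largest own mass of the main labels. -/
structure CellL {V Λ : Type} [Fintype V] [Fintype Λ] {N J : ℕ} (G : SimpleGraph V) (h0 : ℤ)
    (h : Fin N → V → ℝ) (w : ℝ) (S : Finset (Fin N)) (n a : V → ℝ) (k : V → ℕ) (π : Λ → ℝ)
    (y : Λ → V) (i : Λ → ℕ) (km : V → Λ → ℝ) (g₀ : ℕ) (θ Δ : ℝ) (c : V → Λ × Cel N J → ℝ)
    (A : V → ℝ) (O : Finset (Λ × Cel N J)) : Prop where
  n0 : ∀ x, 0 ≤ n x
  a0 : ∀ x, 0 < a x
  ka : ∀ x, (1 / 2 : ℝ) ^ k x ≤ a x
  ak : ∀ x, a x < 2 * (1 / 2 : ℝ) ^ k x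
  π0 : ∀ l, 0 ≤ π l
  k0 : ∀ x l, 0 ≤ km x l
  k1 : ∀ x l, km x l ≤ kp (a x / (1 / 2 : ℝ) ^ i l)
  adj : ∀ x l, km x l ≠ 0 → G.Adj x (y l)
  win : ∀ x l, km x l ≠ 0 → |Real.logb 2 (a x) + i l| ≤ g₀
  root : ∀ x, ∑ l with G.Adj x (y l), π l * kp (a x / (1 / 2 : ℝ) ^ i l) ≤ a x
  hl : ∀ c ∈ S, ∀ z, (h0 : ℝ) - J ≤ h c z
  hu : ∀ c ∈ S, ∀ z, h c z ≤ h0
  θ0 : 0 < θ
  Δ0 : 0 ≤ Δ
  own : ∀ p ∈ O, ∑ z, n z / a z * km z p.1 ≤ Δ
  aA : ∀ x, n x ≠ 0 → θ * a x ≤ A x
  c0 : ∀ x p, 0 ≤ c x p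
  cC : ∀ x p, c x p ≤ CC h0 h w S km x p

section

variable {V Λ : Type} [Fintype V] [Fintype Λ] {N J : ℕ} {G : SimpleGraph V} {h0 : ℤ}
  {h : Fin N → V → ℝ} {w g : ℝ} {S : Finset (Fin N)} {n a : V → ℝ} {k : V → ℕ} {π : Λ → ℝ}
  {y : Λ → V} {i : Λ → ℕ} {km : V → Λ → ℝ} {g₀ : ℕ} {θ Δ : ℝ} {c : V → Λ × Cel N J → ℝ}
  {A : V → ℝ} {O : Finset (Λ × Cel N J)}

namespace CellL

/-- The weights are nonnegative. -/
theorem rho0 (hC : CellL G h0 h w S n a k π y i km g₀ θ Δ c A O) (p : Λ × Cel N J) :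
    0 ≤ rhoC h0 h g S n a π km y p :=
  rhoC_nonneg hC.n0 hC.a0 hC.π0 hC.k0 p

/-- Every bound for the main law passes to the cells. -/
theorem typed (hC : CellL G h0 h w S n a k π y i km g₀ θ Δ c A O) (v : Λ → ℝ)
    (hv : ∀ l, 0 ≤ v l) (T : Finset (Λ × Cel N J)) (hT : T ⊆ O) (L : Finset Λ)
    (hL : ∀ p ∈ T, p.1 ∈ L) :
    ∑ p ∈ T, v p.1 * rhoC h0 h g S n a π km y p ≤ Δ * ∑ l ∈ L, v l * π l :=
  sum_rhoC_le hC.n0 hC.a0 hC.π0 hC.k0 hC.hl hC.hu hC.Δ0 v hv T (fun p hp => hC.own p (hT hp)) L hL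

theorem c_le (hC : CellL G h0 h w S n a k π y i km g₀ θ Δ c A O) (x : V) (p : Λ × Cel N J) :
    c x p ≤ km x p.1 :=
  (hC.cC x p).trans (CC_le hC.k0 x p)

theorem km_le_one (hC : CellL G h0 h w S n a k π y i km g₀ θ Δ c A O) (x : V) (l : Λ) :
    km x l ≤ 1 :=
  (hC.k1 x l).trans (kp_le_one _)

theorem c_ne (hC : CellL G h0 h w S n a k π y i km g₀ θ Δ c A O) {x : V} {p : Λ × Cel N J}
    (hp : c x p ≠ 0) : CC h0 h w S km x p ≠ 0 := fun h1 =>
  hp (le_antisymm ((hC.cC x p).trans h1.le) (hC.c0 x p))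

/-- Own nodes: adjacent, in the windows. -/
theorem own_ne (hC : CellL G h0 h w S n a k π y i km g₀ θ Δ c A O) {x : V} {p : Λ × Cel N J}
    (hp : c x p ≠ 0) : G.Adj x (y p.1) ∧ |Real.logb 2 (a x) + i p.1| ≤ g₀ ∧
      ds (k x) (i p.1) ≤ g₀ ∧ ∀ b ∈ S, |h b x - hc h0 p.2 b| < w + 1 := by
  obtain ⟨h1, h2⟩ := CC_ne (hC.c_ne hp)
  exact ⟨hC.adj x _ h1, hC.win x _ h1, ds_of_logb (hC.ka x) (hC.ak x) (hC.win x _ h1), h2⟩

/-- The own mass at one node. -/
theorem node_le (hC : CellL G h0 h w S n a k π y i km g₀ θ Δ c A O) (x : V)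
    (p : Λ × Cel N J) : n x * c x p / A x ≤ 1 / θ * (n x / a x * c x p) := by
  by_cases hx : n x = 0
  · simp [hx]
  · have h1 : 0 < θ * a x := mul_pos hC.θ0 (hC.a0 x)
    have h2 := div_le_div_of_nonneg_left (mul_nonneg (hC.n0 x) (hC.c0 x p)) h1 (hC.aA x hx)
    refine h2.trans (le_of_eq ?_)
    have h3 := (hC.a0 x).ne'
    have h4 := hC.θ0.ne'
    field_simp

theorem node0 (hC : CellL G h0 h w S n a k π y i km g₀ θ Δ c A O) (x : V)
    (p : Λ × Cel N J) : 0 ≤ n x * c x p / A x := by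
  by_cases hx : n x = 0
  · simp [hx]
  · exact div_nonneg (mul_nonneg (hC.n0 x) (hC.c0 x p))
      ((mul_pos hC.θ0 (hC.a0 x)).le.trans (hC.aA x hx))

/-- The own masses of the cells are bounded. -/
theorem mass_le (hC : CellL G h0 h w S n a k π y i km g₀ θ Δ c A O) {p : Λ × Cel N J}
    (hp : p ∈ O) : ∑ x, n x * c x p / A x ≤ Δ / θ := by
  calc ∑ x, n x * c x p / A x ≤ ∑ x, 1 / θ * (n x / a x * km x p.1) := by
        refine Finset.sum_le_sum fun x _ => (hC.node_le x p).trans ?_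
        refine mul_le_mul_of_nonneg_left ?_ (one_div_nonneg.mpr hC.θ0.le)
        exact mul_le_mul_of_nonneg_left (hC.c_le x p) (div_nonneg (hC.n0 x) (hC.a0 x).le)
    _ = 1 / θ * ∑ x, n x / a x * km x p.1 := (Finset.mul_sum _ _ _).symm
    _ ≤ 1 / θ * Δ := mul_le_mul_of_nonneg_left (hC.own p hp) (one_div_nonneg.mpr hC.θ0.le)
    _ = Δ / θ := by ring

/-- The nodes see only few labels. -/
theorem own_le (hC : CellL G h0 h w S n a k π y i km g₀ θ Δ c A O) (x : V) :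
    ∑ p ∈ O, c x p * rhoC h0 h g S n a π km y p ≤ Δ * a x := by
  calc ∑ p ∈ O, c x p * rhoC h0 h g S n a π km y p
      ≤ ∑ p ∈ O, km x p.1 * rhoC h0 h g S n a π km y p :=
        Finset.sum_le_sum fun p _ => mul_le_mul_of_nonneg_right (hC.c_le x p) (hC.rho0 p)
    _ ≤ Δ * ∑ l, km x l * π l :=
        hC.typed (fun l => km x l) (fun l => hC.k0 x l) O (fun _ h => h) Finset.univ
          fun _ _ => Finset.mem_univ _
    _ ≤ Δ * a x := by
        refine mul_le_mul_of_nonneg_left (le_trans ?_ (hC.root x)) hC.Δ0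
        rw [Finset.sum_filter]
        refine Finset.sum_le_sum fun l _ => ?_
        split_ifs with h1
        · rw [mul_comm]
          exact mul_le_mul_of_nonneg_left (hC.k1 x l) (hC.π0 l)
        · have h2 : km x l = 0 := by
            by_contra h3
            exact h1 (hC.adj x l h3)
          rw [h2, zero_mul]

/-- Few labels near every vertex, with the weights `q ^ ds`. -/
theorem near_q (hC : CellL G h0 h w S n a k π y i km g₀ θ Δ c A O) {q : ℝ} (hq : 0 < q)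
    (hq2 : q * q = 1 / 2) (x : V) :
    ∑ p ∈ O with G.Adj x (y p.1), rhoC h0 h g S n a π km y p * q ^ ds (k x) (i p.1) ≤
      2 * Δ / q * (1 / 2 : ℝ) ^ k x := by
  calc ∑ p ∈ O with G.Adj x (y p.1), rhoC h0 h g S n a π km y p * q ^ ds (k x) (i p.1)
      = ∑ p ∈ O with G.Adj x (y p.1), q ^ ds (k x) (i p.1) * rhoC h0 h g S n a π km y p :=
        Finset.sum_congr rfl fun p _ => mul_comm _ _
    _ ≤ Δ * ∑ l with G.Adj x (y l), q ^ ds (k x) (i l) * π l :=
        hC.typed (fun l => q ^ ds (k x) (i l)) (fun l => by positivity) _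
          (Finset.filter_subset _ _) _ fun p hp =>
            Finset.mem_filter.2 ⟨Finset.mem_univ _, (Finset.mem_filter.1 hp).2⟩
    _ ≤ Δ * (1 / q * a x) := by
        refine mul_le_mul_of_nonneg_left ?_ hC.Δ0
        refine le_trans ?_ (mul_le_mul_of_nonneg_left (hC.root x) (one_div_nonneg.mpr hq.le))
        rw [Finset.mul_sum]
        refine Finset.sum_le_sum fun l _ => ?_
        have h1 := pow_ds_le (i := i l) hq hq2 (hC.ka x) (hC.ak x)
        have h2 : q ^ ds (k x) (i l) ≤ 1 / q * kp (a x / (1 / 2 : ℝ) ^ i l) := by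
          rw [one_div, inv_mul_eq_div, le_div_iff₀ hq, mul_comm]
          exact h1
        calc q ^ ds (k x) (i l) * π l ≤ 1 / q * kp (a x / (1 / 2 : ℝ) ^ i l) * π l :=
              mul_le_mul_of_nonneg_right h2 (hC.π0 l)
          _ = 1 / q * (π l * kp (a x / (1 / 2 : ℝ) ^ i l)) := by ring
    _ ≤ Δ * (1 / q * (2 * (1 / 2 : ℝ) ^ k x)) :=
        mul_le_mul_of_nonneg_left
          (mul_le_mul_of_nonneg_left (hC.ak x).le (one_div_nonneg.mpr hq.le)) hC.Δ0
    _ = 2 * Δ / q * (1 / 2 : ℝ) ^ k x := by ring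

/-- Thin nodes are not hubs of labels with a positive own mass. -/
theorem not_hub (hC : CellL G h0 h w S n a k π y i km g₀ θ Δ c A O) {x : V} {p : Λ × Cel N J}
    {ξ δ : ℝ} (hξ : ∀ r, ∑ z with k z = r, n z / a z * cl G z x ≤ ξ)
    (hp : δ < ∑ z, n z * c z p / A z) (hδ : (2 * g₀ + 1) * ξ / θ ≤ δ) : x ≠ y p.1 := by
  rintro rfl
  have hθ : 0 ≤ 1 / θ := one_div_nonneg.mpr hC.θ0.le
  have ht : ∀ z, n z * c z p / A z ≤
      if k z ∈ Finset.Icc (i p.1 - g₀) (i p.1 + g₀) then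
        1 / θ * (n z / a z * cl G z (y p.1)) else 0 := by
    intro z
    have h3 := hC.node_le z p
    have h4 : 0 ≤ n z / a z := div_nonneg (hC.n0 z) (hC.a0 z).le
    by_cases h5 : c z p = 0
    · rw [h5, mul_zero, zero_div]
      split_ifs
      · exact mul_nonneg hθ (mul_nonneg h4 (cl_nonneg G _ _))
      · exact le_rfl
    · obtain ⟨h6, -, h7, -⟩ := hC.own_ne h5
      rw [if_pos (by
        rw [Finset.mem_Icc]
        unfold ds at h7
        omega)]
      refine h3.trans (mul_le_mul_of_nonneg_left (mul_le_mul_of_nonneg_left ?_ h4) hθ)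
      have h8 : cl G z (y p.1) = 1 := by
        unfold cl
        rw [if_pos (Or.inr h6)]
      rw [h8]
      exact (hC.c_le z p).trans (hC.km_le_one z p.1)
  have h1 : ∑ z, n z * c z p / A z ≤ (2 * g₀ + 1) * ξ / θ := by
    calc ∑ z, n z * c z p / A z
        ≤ ∑ z, if k z ∈ Finset.Icc (i p.1 - g₀) (i p.1 + g₀) then
            1 / θ * (n z / a z * cl G z (y p.1)) else 0 := Finset.sum_le_sum fun z _ => ht z
      _ = ∑ r ∈ Finset.Icc (i p.1 - g₀) (i p.1 + g₀), ∑ z with k z = r,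
            1 / θ * (n z / a z * cl G z (y p.1)) := by
          rw [← Finset.sum_filter]
          rw [← Finset.sum_fiberwise_of_maps_to (g := k)
            (t := Finset.Icc (i p.1 - g₀) (i p.1 + g₀)) fun z hz => (Finset.mem_filter.1 hz).2]
          refine Finset.sum_congr rfl fun r hr => ?_
          refine Finset.sum_congr ?_ fun _ _ => rfl
          ext z
          simp only [Finset.mem_filter, Finset.mem_univ, true_and]
          constructor
          · exact fun h1 => h1.2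
          · intro h1
            exact ⟨by rw [h1]; exact hr, h1⟩
      _ ≤ ∑ r ∈ Finset.Icc (i p.1 - g₀) (i p.1 + g₀), 1 / θ * ξ := by
          refine Finset.sum_le_sum fun r _ => ?_
          rw [← Finset.mul_sum]
          exact mul_le_mul_of_nonneg_left (hξ r) hθ
      _ = (Finset.Icc (i p.1 - g₀) (i p.1 + g₀)).card * (1 / θ * ξ) := by
          rw [Finset.sum_const, nsmul_eq_mul]
      _ ≤ (2 * g₀ + 1) * (1 / θ * ξ) := by
          refine mul_le_mul_of_nonneg_right ?_ (mul_nonneg hθ ?_)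
          · rw [Nat.card_Icc]
            have h5 : i p.1 + g₀ + 1 - (i p.1 - g₀) ≤ 2 * g₀ + 1 := by omega
            calc ((i p.1 + g₀ + 1 - (i p.1 - g₀) : ℕ) : ℝ) ≤ ((2 * g₀ + 1 : ℕ) : ℝ) := by
                  exact_mod_cast h5
              _ = 2 * g₀ + 1 := by push_cast; ring
          · refine le_trans (Finset.sum_nonneg fun z _ => ?_) (hξ 0)
            exact mul_nonneg (div_nonneg (hC.n0 z) (hC.a0 z).le) (cl_nonneg G _ _)
      _ = (2 * g₀ + 1) * ξ / θ := by ring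
  linarith

/-- **The conditions of `Uns.lean`.**  The own law of the cell `p` is its own mass divided by
`Pm`. -/
theorem ownL (hC : CellL G h0 h w S n a k π y i km g₀ θ Δ c A O) {q Pm : ℝ} (hq : 0 < q)
    (hq2 : q * q = 1 / 2) (hPm : 0 < Pm) (hΔP : Δ / θ ≤ Pm)
    (hhub : ∀ x, n x ≠ 0 → ∀ p ∈ O, x ≠ y p.1) :
    OwnL G n a A k c (rhoC h0 h g S n a π km y) (fun p x => n x * c x p / A x / Pm)
      (fun p => y p.1) (fun p => i p.1) g₀ Δ θ (1 / Pm) q (2 * Δ / q) O where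
  n0 := hC.n0
  a0 := hC.a0
  ak := hC.ak
  aA := hC.aA
  H0 := hC.Δ0
  θ0 := hC.θ0
  B0 := one_div_nonneg.mpr hPm.le
  c0 := fun x _ p _ => hC.c0 x p
  ρ0 := fun p _ => hC.rho0 p
  win := fun x _ p _ hp => (hC.own_ne hp).2.2.1
  own := fun x _ => hC.own_le x
  p0 := fun p x => div_nonneg (hC.node0 x p) hPm.le
  p1 := fun p hp => by
    rw [← Finset.sum_div]
    exact div_le_one_of_le₀ ((hC.mass_le hp).trans hΔP) hPm.le
  pB := fun p _ x => le_of_eq (by ring)
  near := fun x _ => hC.near_q hq hq2 x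
  hub := hhub

/-! ### Heights -/

/-- Few labels which are not lower than `x`, for every vertex `x`. -/
theorem near_w (hC : CellL G h0 h w S n a k π y i km g₀ θ Δ c A O) (v : ℕ) (x : V) :
    ∑ p ∈ O with G.Adj x (y p.1) ∧ Real.logb 2 (a x) ≤ -(i p.1 : ℝ) + v,
      rhoC h0 h g S n a π km y p / (1 / 2 : ℝ) ^ i p.1 ≤ Δ * 4 ^ v := by
  have ha := hC.a0 x
  have h1v : (1 : ℝ) ≤ 2 ^ v := one_le_pow₀ (by norm_num)
  calc ∑ p ∈ O with G.Adj x (y p.1) ∧ Real.logb 2 (a x) ≤ -(i p.1 : ℝ) + v,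
        rhoC h0 h g S n a π km y p / (1 / 2 : ℝ) ^ i p.1
      = ∑ p ∈ O with G.Adj x (y p.1) ∧ Real.logb 2 (a x) ≤ -(i p.1 : ℝ) + v,
        1 / (1 / 2 : ℝ) ^ i p.1 * rhoC h0 h g S n a π km y p :=
        Finset.sum_congr rfl fun p _ => by ring
    _ ≤ Δ * ∑ l with G.Adj x (y l) ∧ Real.logb 2 (a x) ≤ -(i l : ℝ) + v,
          1 / (1 / 2 : ℝ) ^ i l * π l :=
        hC.typed (fun l => 1 / (1 / 2 : ℝ) ^ i l) (fun l => by positivity) _
          (Finset.filter_subset _ _) _ fun p hp =>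
            Finset.mem_filter.2 ⟨Finset.mem_univ _, (Finset.mem_filter.1 hp).2⟩
    _ ≤ Δ * 4 ^ v := by
        refine mul_le_mul_of_nonneg_left ?_ hC.Δ0
        calc ∑ l with G.Adj x (y l) ∧ Real.logb 2 (a x) ≤ -(i l : ℝ) + v,
              1 / (1 / 2 : ℝ) ^ i l * π l
            ≤ ∑ l with G.Adj x (y l) ∧ Real.logb 2 (a x) ≤ -(i l : ℝ) + v,
              2 ^ v * √(2 ^ v) / a x * (π l * kp (a x / (1 / 2 : ℝ) ^ i l)) := by
              refine Finset.sum_le_sum fun l hl => ?_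
              have h1 := (Finset.mem_filter.1 hl).2.2
              have h2 := inv_le_kp ha (b := (1 / 2 : ℝ) ^ i l) (by positivity) h1v
                (le_of_logb ha h1)
              calc 1 / (1 / 2 : ℝ) ^ i l * π l
                  ≤ 2 ^ v * √(2 ^ v) * (kp (a x / (1 / 2 : ℝ) ^ i l) / a x) * π l :=
                    mul_le_mul_of_nonneg_right h2 (hC.π0 l)
                _ = _ := by ring
          _ ≤ ∑ l with G.Adj x (y l),
              2 ^ v * √(2 ^ v) / a x * (π l * kp (a x / (1 / 2 : ℝ) ^ i l)) := by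
              refine Finset.sum_le_sum_of_subset_of_nonneg ?_ fun l _ _ => ?_
              · intro l hl
                rw [Finset.mem_filter] at hl ⊢
                exact ⟨hl.1, hl.2.1⟩
              · exact mul_nonneg (by positivity) (mul_nonneg (hC.π0 l) (kp_nonneg _))
          _ = 2 ^ v * √(2 ^ v) / a x *
              ∑ l with G.Adj x (y l), π l * kp (a x / (1 / 2 : ℝ) ^ i l) :=
              (Finset.mul_sum _ _ _).symm
          _ ≤ 2 ^ v * √(2 ^ v) / a x * a x :=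
              mul_le_mul_of_nonneg_left (hC.root x) (by positivity)
          _ = 2 ^ v * √(2 ^ v) := by field_simp
          _ ≤ 4 ^ v := ups_le v

/-- Few nodes near every label. -/
theorem near_r (hC : CellL G h0 h w S n a k π y i km g₀ θ Δ c A O) {K : ℝ}
    {p : Λ × Cel N J} (hK : ∀ r, ∑ x with k x = r ∧ G.Adj x (y p.1), n x / a x ≤ K) (v : ℕ)
    (As : Finset V) :
    ∑ x ∈ As with G.Adj x (y p.1) ∧ |Real.logb 2 (a x) + i p.1| ≤ v, n x / a x ≤
      (2 * v + 1) * K := by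
  have h0' : ∀ x, 0 ≤ n x / a x := fun x => div_nonneg (hC.n0 x) (hC.a0 x).le
  calc ∑ x ∈ As with G.Adj x (y p.1) ∧ |Real.logb 2 (a x) + i p.1| ≤ v, n x / a x
      ≤ ∑ x with k x ∈ Finset.Icc (i p.1 - v) (i p.1 + v) ∧ G.Adj x (y p.1), n x / a x := by
        refine Finset.sum_le_sum_of_subset_of_nonneg ?_ fun x _ _ => h0' x
        intro x hx
        rw [Finset.mem_filter] at hx ⊢
        refine ⟨Finset.mem_univ _, ?_, hx.2.1⟩
        have h1 := ds_of_logb (hC.ka x) (hC.ak x) hx.2.2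
        rw [Finset.mem_Icc]
        unfold ds at h1
        omega
    _ = ∑ r ∈ Finset.Icc (i p.1 - v) (i p.1 + v), ∑ x with k x = r ∧ G.Adj x (y p.1),
          n x / a x := by
        rw [← Finset.sum_fiberwise_of_maps_to (g := k)
          (t := Finset.Icc (i p.1 - v) (i p.1 + v)) fun z hz => (Finset.mem_filter.1 hz).2.1]
        refine Finset.sum_congr rfl fun r hr => ?_
        refine Finset.sum_congr ?_ fun _ _ => rfl
        ext z
        simp only [Finset.mem_filter, Finset.mem_univ, true_and]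
        constructor
        · exact fun h1 => ⟨h1.2, h1.1.2⟩
        · intro h1
          exact ⟨⟨by rw [h1.1]; exact hr, h1.2⟩, h1.1⟩
    _ ≤ ∑ r ∈ Finset.Icc (i p.1 - v) (i p.1 + v), K := Finset.sum_le_sum fun r _ => hK r
    _ = (Finset.Icc (i p.1 - v) (i p.1 + v)).card * K := by
        rw [Finset.sum_const, nsmul_eq_mul]
    _ ≤ (2 * v + 1) * K := by
        refine mul_le_mul_of_nonneg_right ?_
          ((Finset.sum_nonneg fun x _ => h0' x).trans (hK 0))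
        rw [Nat.card_Icc]
        have h5 : i p.1 + v + 1 - (i p.1 - v) ≤ 2 * v + 1 := by omega
        calc ((i p.1 + v + 1 - (i p.1 - v) : ℕ) : ℝ) ≤ ((2 * v + 1 : ℕ) : ℝ) := by
              exact_mod_cast h5
          _ = 2 * v + 1 := by push_cast; ring

/-- The mass of the nodes. -/
theorem sum_r (hC : CellL G h0 h w S n a k π y i km g₀ θ Δ c A O) (As : Finset V) :
    ∑ x ∈ As, (2 : ℝ) ^ Real.logb 2 (a x) * (n x / a x) ≤ ∑ x, n x := by
  refine le_trans (le_of_eq (Finset.sum_congr rfl fun x _ => ?_))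
    (Finset.sum_le_sum_of_subset_of_nonneg (Finset.subset_univ As) fun x _ _ => hC.n0 x)
  have h1 := (hC.a0 x).ne'
  rw [two_rpow_logb (hC.a0 x)]
  field_simp

/-- The mass of the labels. -/
theorem sum_w (hC : CellL G h0 h w S n a k π y i km g₀ θ Δ c A O) :
    ∑ p ∈ O, (2 : ℝ) ^ (-(i p.1 : ℤ)) *
      (rhoC h0 h g S n a π km y p / (1 / 2 : ℝ) ^ i p.1) ≤ Δ * ∑ l, π l := by
  calc ∑ p ∈ O, (2 : ℝ) ^ (-(i p.1 : ℤ)) *
        (rhoC h0 h g S n a π km y p / (1 / 2 : ℝ) ^ i p.1)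
      = ∑ p ∈ O, (1 : ℝ) * rhoC h0 h g S n a π km y p := by
        refine Finset.sum_congr rfl fun p _ => ?_
        rw [two_zpow_neg]
        have h1 : ((1 / 2 : ℝ) ^ i p.1) ≠ 0 := by positivity
        field_simp
    _ ≤ Δ * ∑ l, (1 : ℝ) * π l :=
        hC.typed (fun _ => 1) (fun _ => zero_le_one) O (fun _ h => h) Finset.univ
          fun _ _ => Finset.mem_univ _
    _ = Δ * ∑ l, π l := by
        simp only [one_mul]

/-- The shares. -/
theorem share (hC : CellL G h0 h w S n a k π y i km g₀ θ Δ c A O) (x : V)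
    (p : Λ × Cel N J) : n x * (rhoC h0 h g S n a π km y p * c x p / A x) ≤
      1 / θ * ((2 : ℝ) ^ (-(i p.1 : ℤ)) * (n x / a x) *
        (rhoC h0 h g S n a π km y p / (1 / 2 : ℝ) ^ i p.1)) := by
  have h1 := hC.node_le x p
  have h2 := hC.rho0 (g := g) p
  have h4 : 0 ≤ n x / a x := div_nonneg (hC.n0 x) (hC.a0 x).le
  have h5 : c x p ≤ 1 := (hC.c_le x p).trans (hC.km_le_one x p.1)
  have hpi : ((1 / 2 : ℝ) ^ i p.1) ≠ 0 := by positivity
  calc n x * (rhoC h0 h g S n a π km y p * c x p / A x)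
      = rhoC h0 h g S n a π km y p * (n x * c x p / A x) := by ring
    _ ≤ rhoC h0 h g S n a π km y p * (1 / θ * (n x / a x * c x p)) :=
        mul_le_mul_of_nonneg_left h1 h2
    _ ≤ rhoC h0 h g S n a π km y p * (1 / θ * (n x / a x * 1)) := by
        refine mul_le_mul_of_nonneg_left (mul_le_mul_of_nonneg_left
          (mul_le_mul_of_nonneg_left h5 h4) (one_div_nonneg.mpr hC.θ0.le)) h2
    _ = 1 / θ * ((2 : ℝ) ^ (-(i p.1 : ℤ)) * (n x / a x) *
        (rhoC h0 h g S n a π km y p / (1 / 2 : ℝ) ^ i p.1)) := by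
        rw [two_zpow_neg]
        field_simp

theorem share0 (hC : CellL G h0 h w S n a k π y i km g₀ θ Δ c A O) {x : V} (hx : n x ≠ 0)
    (p : Λ × Cel N J) : 0 ≤ rhoC h0 h g S n a π km y p * c x p / A x :=
  div_nonneg (mul_nonneg (hC.rho0 p) (hC.c0 x p))
    ((mul_pos hC.θ0 (hC.a0 x)).le.trans (hC.aA x hx))

/-! ### The heights of the records -/

variable {s : ℕ} {hV : ℕ → V → ℝ} {HH : ℕ → Λ × Cel N J → ℤ}

/-- Own pairs are in the windows of the records; `e b` is the stage with the number `b`. -/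
theorem owB (hC : CellL G h0 h w S n a k π y i km g₀ θ Δ c A O)
    (hs : ∀ x, hV s x = Real.logb 2 (a x)) (Hs : ∀ p, HH s p = -(i p.1 : ℤ))
    {e : ℕ → Fin N} (heS : ∀ b < s, e b ∈ S) (hb : ∀ b < s, ∀ x, hV b x = h (e b) x)
    (Hb : ∀ b < s, ∀ p, HH b p = hc h0 p.2 (e b)) {v0 w0 : ℕ} (hg : g₀ ≤ v0)
    (hw : w + 1 ≤ w0) {x : V} {p : Λ × Cel N J} (hp : c x p ≠ 0) :
    OwB G s v0 w0 (fun p => y p.1) hV HH x p := by
  obtain ⟨h1, h2, -, h4⟩ := hC.own_ne hp
  have h5 : (g₀ : ℝ) ≤ v0 := by exact_mod_cast hg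
  refine ⟨h1, ?_, fun b hb' => ?_⟩
  · rw [hs, Hs]
    push_cast
    rw [sub_neg_eq_add]
    exact h2.trans h5
  · rw [hb b hb', Hb b hb']
    exact ((h4 _ (heS b hb')).le).trans hw

/-- The sum of the weights of the labels near a node, in the window `v`. -/
theorem nw (hC : CellL G h0 h w S n a k π y i km g₀ θ Δ c A O)
    (hs : ∀ x, hV s x = Real.logb 2 (a x)) (Hs : ∀ p, HH s p = -(i p.1 : ℤ)) (v : ℕ) (x : V) :
    ∑ p ∈ O with G.Adj x (y p.1) ∧ |hV s x - HH s p| ≤ v,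
      rhoC h0 h g S n a π km y p / (1 / 2 : ℝ) ^ i p.1 ≤ Δ * 4 ^ v := by
  refine le_trans (Finset.sum_le_sum_of_subset_of_nonneg ?_ fun p _ _ => ?_) (hC.near_w v x)
  · intro p hp
    rw [Finset.mem_filter] at hp ⊢
    refine ⟨hp.1, hp.2.1, ?_⟩
    have h1 := (abs_le.1 hp.2.2).2
    rw [hs, Hs] at h1
    push_cast at h1
    linarith
  · exact div_nonneg (hC.rho0 p) (by positivity)

/-- The sum of the weights of the nodes near a label, in the window `v`. -/
theorem nr (hC : CellL G h0 h w S n a k π y i km g₀ θ Δ c A O)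
    (hs : ∀ x, hV s x = Real.logb 2 (a x)) (Hs : ∀ p, HH s p = -(i p.1 : ℤ)) {K : ℝ}
    {p : Λ × Cel N J} (hK : ∀ r, ∑ x with k x = r ∧ G.Adj x (y p.1), n x / a x ≤ K) (v : ℕ)
    (As : Finset V) :
    ∑ x ∈ As with G.Adj x (y p.1) ∧ |hV s x - HH s p| ≤ v, n x / a x ≤ (2 * v + 1) * K := by
  refine le_trans (le_of_eq (Finset.sum_congr ?_ fun _ _ => rfl)) (hC.near_r hK v As)
  refine Finset.filter_congr fun x _ => ?_
  rw [hs, Hs]
  push_cast
  rw [sub_neg_eq_add]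

/-- **The record** with the own incidence `OwB`. -/
theorem recB (hC : CellL G h0 h w S n a k π y i km g₀ θ Δ c A O)
    (hs : ∀ x, hV s x = Real.logb 2 (a x)) (Hs : ∀ p, HH s p = -(i p.1 : ℤ)) {K K0 : ℝ}
    (hK : ∀ p ∈ O, ∀ r, ∑ x with k x = r ∧ G.Adj x (y p.1), n x / a x ≤ K) (v0 : ℕ) (kc : Cst)
    (As : Finset V) (hK1 : Δ * 4 ^ v0 ≤ K0) (hK2 : (2 * v0 + 1) * K ≤ K0) :
    RecB G s v0 K0 kc As O (fun p => y p.1) (OwB G s v0 kc.w0 (fun p => y p.1) hV HH)
      (fun x => n x / a x) (fun p => rhoC h0 h g S n a π km y p / (1 / 2 : ℝ) ^ i p.1) hV HH where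
  r0 := fun x => div_nonneg (hC.n0 x) (hC.a0 x).le
  w0 := fun p => div_nonneg (hC.rho0 p) (by positivity)
  wE := fun x _ => by
    refine le_trans (Finset.sum_le_sum_of_subset_of_nonneg ?_ fun p _ _ => ?_)
      ((hC.nw (g := g) hs Hs v0 x).trans hK1)
    · intro p hp
      rw [Finset.mem_filter] at hp ⊢
      exact ⟨hp.1, hp.2.1, hp.2.2.1⟩
    · exact div_nonneg (hC.rho0 p) (by positivity)
  rE := fun p hp => by
    refine le_trans (Finset.sum_le_sum_of_subset_of_nonneg ?_ fun x _ _ => ?_)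
      ((hC.nr hs Hs (hK p hp) v0 As).trans hK2)
    · intro x hx
      rw [Finset.mem_filter] at hx ⊢
      exact ⟨hx.1, hx.2.1, hx.2.2.1⟩
    · exact div_nonneg (hC.n0 x) (hC.a0 x).le
  adj := fun _ _ _ _ h1 => h1.1
  own := fun _ _ _ _ h1 => h1.2.1
  low := fun _ _ _ _ h1 => h1.2.2

/-- **The field `nr1`** of the structure `NrB`, for every vertex `t`. -/
theorem nr1 (hC : CellL G h0 h w S n a k π y i km g₀ θ Δ c A O)
    (hs : ∀ x, hV s x = Real.logb 2 (a x)) (Hs : ∀ p, HH s p = -(i p.1 : ℤ)) {kc : Cst} {u : ℕ}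
    (hu : kc.u ≤ u) (hK : Δ * 4 ^ u ≤ kc.K) (t : V) :
    ∑ p ∈ O with G.Adj (y p.1) t ∧ hV s t ≤ HH s p + kc.u,
      rhoC h0 h g S n a π km y p / (1 / 2 : ℝ) ^ i p.1 ≤ kc.K := by
  refine le_trans (Finset.sum_le_sum_of_subset_of_nonneg ?_ fun p _ _ => ?_)
    ((hC.near_w u t).trans hK)
  · intro p hp
    rw [Finset.mem_filter] at hp ⊢
    refine ⟨hp.1, hp.2.1.symm, ?_⟩
    have h1 := hp.2.2
    have h2 : (kc.u : ℝ) ≤ u := by exact_mod_cast hu
    rw [hs, Hs] at h1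
    push_cast at h1
    linarith
  · exact div_nonneg (hC.rho0 p) (by positivity)

end CellL

end

end Pool.Agent.Lib.GSR
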