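import Pool.Agent.Lib.FGF.LemA
import Pool.Agent.Lib.FGF.Glue

/-!
# Lemma A with a fixed law of the roots

If `v` is not the root of a light tree of depth `j + 1` in the world `L'` and `q` is a law on a
stable set `X` of neighbours of `v` then for all the roots `c` in `X`, up to an exceptional set of
small `q`-measure, the light trees of depth `j` with root `c` and all other vertices in `L` are met
by the weight at `v`, a measure `l` of bounded mass on `L` and a bounded multiple of `q`.  The roots
are never used for payments: `L` is an arbitrary subset of the world.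
-/

set_option autoImplicit false

namespace Pool.Agent.Lib.GSR

open Finset Classical
open Pool.Agent.Lib.FracGS (nb wnb TAdj)
open Pool.Agent.Lib.GSR3 (Stab Small Tree)
open Pool.Agent.Lib.GSR5 (Law pr)
open Pool.Agent.Lib.FGF (cm nm Dom StGlue)
open Pool.Agent.Lib.FGF.LemAAux

/-- Lemma A with a fixed law of the roots. -/
def StLemFR : Prop :=
  ∀ M j : ℕ, 1 ≤ M → 1 ≤ j → ∀ δ : ℝ, 0 < δ → ∃ Λ η : ℝ, 0 ≤ Λ ∧ 0 < η ∧
    ∀ (V : Type) [Fintype V] (G : SimpleGraph V) (m q : V → ℝ) (L L' X : Finset V) (v : V),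
      (∀ u, 0 ≤ m u) → (∀ u, 0 ≤ q u) → L ⊆ L' → X ⊆ L' →
      (∀ c ∈ X, G.Adj v c) → Stab G X → Dom G M (j + 1) v m L' →
        ∃ (l : V → ℝ) (Z : Finset V), (∀ u, 0 ≤ l u) ∧ (∀ u, l u ≠ 0 → u ∈ L) ∧
          ∑ u, l u ≤ Λ ∧ Z ⊆ X ∧ ∑ u ∈ Z, q u ≤ δ ∧ ∀ c ∈ X, c ∉ Z → cm G m c < 1 →
            Dom G M j c (fun u => m u + (if u = v then 1 else 0) + l u + q u / η) L

namespace LemFR_

variable {V : Type} {M j : ℕ} [Fintype V] {G : SimpleGraph V}

/-- The good trees. -/
def Good (G : SimpleGraph V) (m q : V → ℝ) (η : ℝ) (L X : Finset V) (v : V)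
    (t : Tr M j V) : Prop :=
  ex t [] ∈ X ∧ 0 < q (ex t []) ∧ cm G m (ex t []) < 1 ∧ Tree G j M (ex t) ∧
    ∀ u : List (Fin M), u ≠ [] → u.length ≤ j →
      ex t u ∈ L ∧ cm G (fun u => m u + (if u = v then 1 else 0) + q u / η) (ex t u) < 1

/-- The root of the second tree is in the closed neighbourhood of a vertex of the first one. -/
def RHit (G : SimpleGraph V) (t t' : Tr M j V) : Prop :=
  ∃ w : List (Fin M), w ≠ [] ∧ w.length ≤ j ∧ (ex t w = ex t' [] ∨ G.Adj (ex t w) (ex t' []))

omit [Fintype V] in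
lemma conf_hit [Fintype V] (hM : 1 ≤ M) (hj : 1 ≤ j) {m q : V → ℝ} {η : ℝ} {L X : Finset V} {v : V}
    (hX : Stab G X) {t t' : Tr M j V} (ht : Good G m q η L X v t) (ht' : Good G m q η L X v t')
    (h : Conf G t t') :
    (∃ w : List (Fin M), w ≠ [] ∧ w.length ≤ j ∧ Hit G t' (ex t w)) ∨ RHit G t t' ∨
      RHit G t' t := by
  obtain ⟨w, w', hw, hw', h1⟩ := h
  by_cases h0 : w' = []
  · by_cases h2 : w = []
    · subst h0 h2
      rcases h1 with h1 | h1
      · right; left
        refine ⟨[⟨0, hM⟩], by simp, by simpa using hj, Or.inr ?_⟩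
        rw [← h1]
        exact (ht.2.2.2.1.adj [⟨0, hM⟩] [] (by simpa using hj) hw).2 (Or.inl ⟨_, rfl⟩)
      · exact absurd h1 (hX _ ht.1 _ ht'.1)
    · right; left
      subst h0
      exact ⟨w, h2, hw, h1⟩
  · by_cases h2 : w = []
    · right; right
      subst h2
      refine ⟨w', h0, hw', ?_⟩
      rcases h1 with h1 | h1
      · exact Or.inl h1.symm
      · exact Or.inr h1.symm
    · left
      refine ⟨w, h2, hw, w', h0, hw', ?_⟩
      rcases h1 with h1 | h1
      · exact Or.inl h1.symm
      · exact Or.inr h1.symm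

/-- The indicator of `RHit`. -/
noncomputable def rh (G : SimpleGraph V) (t t' : Tr M j V) : ℝ := if RHit G t t' then 1 else 0

omit [Fintype V] in
lemma rh_nonneg [Fintype V] (t t' : Tr M j V) : 0 ≤ rh G t t' := by
  unfold rh
  split_ifs <;> norm_num

/-- The law of the roots. -/
noncomputable def rt (p : Tr M j V → ℝ) (c : V) : ℝ :=
  ∑ t ∈ Finset.univ.filter (fun t => ex t [] = c), p t

/-- The probability that the root of the second tree is hit. -/
lemma rh_pr {m q : V → ℝ} {η D : ℝ} {L X : Finset V} {v : V} (hη : 0 < η)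
    (hm : ∀ u, 0 ≤ m u) {p : Tr M j V → ℝ} (hp : Law p)
    (hr : ∀ c, rt p c ≤ D * q c) (hD : 0 ≤ D) {t : Tr M j V} (ht : Good G m q η L X v t) :
    ∑ t', p t' * rh G t t' ≤ (wd M j).card * (D * η) := by
  have h1 : ∀ t', p t' * rh G t t' ≤ ∑ w ∈ (wd M j).erase [],
      p t' * (if (ex t w = ex t' [] ∨ G.Adj (ex t w) (ex t' [])) then 1 else 0) := by
    intro t'
    have h0 : ∀ w ∈ (wd M j).erase [], (0 : ℝ) ≤
        p t' * (if (ex t w = ex t' [] ∨ G.Adj (ex t w) (ex t' [])) then 1 else 0) := by
      intro w _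
      refine mul_nonneg (hp.nn _) ?_
      split_ifs <;> norm_num
    unfold rh
    split_ifs with h
    · obtain ⟨w, hw0, hw, h2⟩ := h
      refine le_trans (le_of_eq ?_) (Finset.single_le_sum h0
        (Finset.mem_erase.2 ⟨hw0, mem_wd.2 hw⟩))
      rw [if_pos h2]
    · rw [mul_zero]
      exact Finset.sum_nonneg h0
  have h2 : ∀ w ∈ (wd M j).erase [], ∑ t', p t' *
      (if (ex t w = ex t' [] ∨ G.Adj (ex t w) (ex t' [])) then 1 else 0) ≤ D * η := by
    intro w hw
    obtain ⟨hw0, hw1⟩ := Finset.mem_erase.1 hw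
    have h3 := (ht.2.2.2.2 w hw0 (mem_wd.1 hw1)).2
    have h4 : cm G (fun u => q u / η) (ex t w) ≤ 1 := by
      refine le_trans (cm_mono (fun u => ?_) _) h3.le
      have := hm u
      split_ifs <;> linarith
    have h5 : ∑ t', p t' * (if (ex t w = ex t' [] ∨ G.Adj (ex t w) (ex t' [])) then 1 else 0) =
        ∑ c, rt p c * (if (ex t w = c ∨ G.Adj (ex t w) c) then 1 else 0) := by
      unfold rt
      simp only [Finset.sum_mul]
      rw [Finset.sum_comm' (t' := Finset.univ) (s' := fun t' => {ex t' []})]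
      · refine Finset.sum_congr rfl fun t' _ => ?_
        rw [Finset.sum_singleton]
      · intro c t'
        simp only [Finset.mem_univ, Finset.mem_filter, true_and, Finset.mem_singleton, and_true]
        exact eq_comm
    rw [h5]
    calc ∑ c, rt p c * (if (ex t w = c ∨ G.Adj (ex t w) c) then 1 else 0)
        ≤ ∑ c, (D * η) * (q c / η * (if (ex t w = c ∨ G.Adj (ex t w) c) then 1 else 0)) := by
          refine Finset.sum_le_sum fun c _ => ?_
          have h6 := hr c
          rw [← mul_assoc]
          refine mul_le_mul_of_nonneg_right ?_ (by split_ifs <;> norm_num)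
          calc rt p c ≤ D * q c := h6
            _ = D * η * (q c / η) := by
              field_simp
      _ = D * η * cm G (fun u => q u / η) (ex t w) := by
          rw [cm_eq, Finset.mul_sum]
      _ ≤ D * η * 1 := mul_le_mul_of_nonneg_left h4 (by positivity)
      _ = D * η := mul_one _
  calc ∑ t', p t' * rh G t t'
      ≤ ∑ t', ∑ w ∈ (wd M j).erase [],
        p t' * (if (ex t w = ex t' [] ∨ G.Adj (ex t w) (ex t' [])) then 1 else 0) :=
        Finset.sum_le_sum fun t' _ => h1 t'
    _ = ∑ w ∈ (wd M j).erase [], ∑ t',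
        p t' * (if (ex t w = ex t' [] ∨ G.Adj (ex t w) (ex t' [])) then 1 else 0) :=
        Finset.sum_comm
    _ ≤ ((wd M j).erase []).card * (D * η) := by
        rw [← nsmul_eq_mul]
        exact Finset.sum_le_card_nsmul _ _ _ h2
    _ ≤ (wd M j).card * (D * η) := by
        refine mul_le_mul_of_nonneg_right ?_ (by positivity)
        exact_mod_cast Finset.card_le_card (Finset.erase_subset _ _)

/-- The probability of a conflict. -/
lemma conf_pr (hM : 1 ≤ M) (hj : 1 ≤ j) {m q : V → ℝ} {η D e : ℝ} {L X : Finset V} {v : V}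
    (hη : 0 < η) (hD : 0 ≤ D) (hm : ∀ u, 0 ≤ m u)
    (hX : Stab G X) {p : Tr M j V → ℝ} (hp : Law p) (hr : ∀ c, rt p c ≤ D * q c)
    (hS : ∀ t, p t ≠ 0 → Good G m q η L X v t) (he : ∀ u ∈ L, ∑ t, p t * pay G t u ≤ e)
    (he0 : 0 ≤ e) :
    ∑ t, p t * pr p (fun t' => Conf G t t') ≤
      (wd M j).card * e + 2 * ((wd M j).card * (D * η)) := by
  have h1 : ∀ t t', p t * (p t' * (if Conf G t t' then 1 else 0)) ≤
      ∑ w ∈ (wd M j).erase [], p t * (p t' * pay G t' (ex t w)) +
        (p t * (p t' * rh G t t') + p t' * (p t * rh G t' t)) := by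
    intro t t'
    have h0 : 0 ≤ ∑ w ∈ (wd M j).erase [], p t * (p t' * pay G t' (ex t w)) :=
      Finset.sum_nonneg fun w _ => mul_nonneg (hp.nn _) (mul_nonneg (hp.nn _) (pay_nonneg _ _))
    have h0' : 0 ≤ p t * (p t' * rh G t t') :=
      mul_nonneg (hp.nn _) (mul_nonneg (hp.nn _) (rh_nonneg _ _))
    have h0'' : 0 ≤ p t' * (p t * rh G t' t) :=
      mul_nonneg (hp.nn _) (mul_nonneg (hp.nn _) (rh_nonneg _ _))
    by_cases hc : Conf G t t'
    · by_cases ht : p t = 0
      · rw [ht, zero_mul]
        rw [ht] at h0 h0' h0''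
        linarith
      by_cases ht' : p t' = 0
      · rw [ht', zero_mul, mul_zero]
        rw [ht'] at h0 h0' h0''
        linarith
      rw [if_pos hc, mul_one]
      rcases conf_hit hM hj hX (hS t ht) (hS t' ht') hc with ⟨w, hw0, hw, hh⟩ | hh | hh
      · have h2 : p t * p t' ≤ ∑ w ∈ (wd M j).erase [], p t * (p t' * pay G t' (ex t w)) := by
          refine le_trans (le_of_eq ?_) (Finset.single_le_sum
            (f := fun w => p t * (p t' * pay G t' (ex t w)))
            (fun w _ => mul_nonneg (hp.nn _) (mul_nonneg (hp.nn _) (pay_nonneg _ _)))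
            (Finset.mem_erase.2 ⟨hw0, mem_wd.2 hw⟩))
          show p t * p t' = p t * (p t' * pay G t' (ex t w))
          rw [pay, if_pos hh, mul_one]
        linarith
      · have h2 : p t * (p t' * rh G t t') = p t * p t' := by
          rw [rh, if_pos hh, mul_one]
        linarith
      · have h2 : p t' * (p t * rh G t' t) = p t * p t' := by
          rw [rh, if_pos hh, mul_one, mul_comm]
        linarith
    · rw [if_neg hc, mul_zero, mul_zero]
      linarith
  have key : ∑ t, ∑ t', ∑ w ∈ (wd M j).erase [], p t * (p t' * pay G t' (ex t w)) ≤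
      (wd M j).card * e := by
    calc ∑ t, ∑ t', ∑ w ∈ (wd M j).erase [], p t * (p t' * pay G t' (ex t w))
        = ∑ t, p t * ∑ w ∈ (wd M j).erase [], ∑ t', p t' * pay G t' (ex t w) := by
          refine Finset.sum_congr rfl fun t _ => ?_
          rw [Finset.sum_comm, Finset.mul_sum]
          refine Finset.sum_congr rfl fun w _ => ?_
          rw [Finset.mul_sum]
      _ ≤ ∑ t, p t * ((wd M j).card * e) := by
          refine Finset.sum_le_sum fun t _ => ?_
          by_cases ht : p t = 0
          · rw [ht, zero_mul, zero_mul]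
          · refine mul_le_mul_of_nonneg_left ?_ (hp.nn t)
            calc ∑ w ∈ (wd M j).erase [], ∑ t', p t' * pay G t' (ex t w)
                ≤ ((wd M j).erase []).card • e := by
                  refine Finset.sum_le_card_nsmul _ _ _ fun w hw => ?_
                  obtain ⟨hw0, hw1⟩ := Finset.mem_erase.1 hw
                  exact he _ ((hS t ht).2.2.2.2 w hw0 (mem_wd.1 hw1)).1
              _ ≤ (wd M j).card * e := by
                  rw [nsmul_eq_mul]
                  refine mul_le_mul_of_nonneg_right ?_ he0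
                  exact_mod_cast Finset.card_le_card (Finset.erase_subset _ _)
      _ = (wd M j).card * e := by
          rw [← Finset.sum_mul, hp.one, one_mul]
  have key2 : ∑ t, ∑ t', p t * (p t' * rh G t t') ≤ (wd M j).card * (D * η) := by
    calc ∑ t, ∑ t', p t * (p t' * rh G t t') = ∑ t, p t * ∑ t', p t' * rh G t t' := by
          refine Finset.sum_congr rfl fun t _ => ?_
          rw [Finset.mul_sum]
      _ ≤ ∑ t, p t * ((wd M j).card * (D * η)) := by
          refine Finset.sum_le_sum fun t _ => ?_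
          by_cases ht : p t = 0
          · rw [ht, zero_mul, zero_mul]
          · exact mul_le_mul_of_nonneg_left (rh_pr hη hm hp hr hD (hS t ht)) (hp.nn t)
      _ = (wd M j).card * (D * η) := by
          rw [← Finset.sum_mul, hp.one, one_mul]
  have key3 : ∑ t, ∑ t', p t' * (p t * rh G t' t) ≤ (wd M j).card * (D * η) := by
    rw [Finset.sum_comm]
    exact key2
  calc ∑ t, p t * pr p (fun t' => Conf G t t')
      = ∑ t, ∑ t', p t * (p t' * (if Conf G t t' then 1 else 0)) := by
        refine Finset.sum_congr rfl fun t _ => ?_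
        unfold pr
        rw [Finset.sum_filter, Finset.mul_sum]
        refine Finset.sum_congr rfl fun t' _ => ?_
        split_ifs <;> simp
    _ ≤ ∑ t, ∑ t', (∑ w ∈ (wd M j).erase [], p t * (p t' * pay G t' (ex t w)) +
        (p t * (p t' * rh G t t') + p t' * (p t * rh G t' t))) :=
        Finset.sum_le_sum fun t _ => Finset.sum_le_sum fun t' _ => h1 t t'
    _ = ∑ t, ∑ t', ∑ w ∈ (wd M j).erase [], p t * (p t' * pay G t' (ex t w)) +
        (∑ t, ∑ t', p t * (p t' * rh G t t') + ∑ t, ∑ t', p t' * (p t * rh G t' t)) := by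
        simp only [Finset.sum_add_distrib]
    _ ≤ _ := by linarith

/-- The payoffs with the strategies which watch the roots. -/
noncomputable def pay2 (G : SimpleGraph V) (q : V → ℝ) (e d : ℝ) (t : Tr M j V) :
    V ⊕ V → ℝ
  | .inl u => pay G t u
  | .inr c => if ex t [] = c then e * d / q c else 0

end LemFR_

open LemFR_

theorem stLemFR : StLemFR := by
  intro M j hM hj δ hδ
  set n : ℝ := ((wd M j).card : ℝ) with hn
  have hn1 : 1 ≤ n := by
    rw [hn]
    have : 0 < (wd M j).card := Finset.card_pos.2 ⟨[], mem_wd.2 (Nat.zero_le _)⟩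
    exact_mod_cast this
  have hM1 : (1 : ℝ) ≤ M := by exact_mod_cast hM
  set e : ℝ := 1 / (8 * (M : ℝ) ^ 2 * n) with he
  have hD : 0 < 8 * (M : ℝ) ^ 2 * n := by positivity
  have he0 : 0 < e := by
    rw [he]
    positivity
  set d : ℝ := δ / 2 with hd
  have hd0 : 0 < d := by
    rw [hd]
    positivity
  set η : ℝ := e * d / 4 with hη
  have hη0 : 0 < η := by
    rw [hη]
    positivity
  refine ⟨2 * n / e, η, by positivity, hη0, ?_⟩
  intro V _ G m q L L' X v hm hq hLL hXL hXv hX hDom
  set S : Finset (Tr M j V) := Finset.univ.filter (fun t => Good G m q η L X v t) with hS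
  set Z0 : Finset V := X.filter (fun c => q c = 0) with hZ0
  have hqη : ∀ u, 0 ≤ q u / η := fun u => div_nonneg (hq u) hη0.le
  -- restrictions of trees are good
  have hre : ∀ (l : V → ℝ), (∀ u, 0 ≤ l u) → ∀ c ∈ X, 0 < q c → cm G m c < 1 →
      ∀ φ : List (Fin M) → V, Tree G j M φ → φ [] = c →
        (∀ u : List (Fin M), u ≠ [] → u.length ≤ j → φ u ∈ L ∧
          cm G (fun u => m u + (if u = v then 1 else 0) + l u + q u / η) (φ u) < 1) →
            re M j φ ∈ S := by
    intro l hl c hc hqc hc1 φ hφ h0 hu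
    refine Finset.mem_filter.2 ⟨Finset.mem_univ _, ?_, ?_, ?_, tree_re hφ, ?_⟩
    · rw [ex_re φ (Nat.zero_le _), h0]
      exact hc
    · rw [ex_re φ (Nat.zero_le _), h0]
      exact hqc
    · rw [ex_re φ (Nat.zero_le _), h0]
      exact hc1
    · intro u hu0 huj
      rw [ex_re φ huj]
      refine ⟨(hu u hu0 huj).1, lt_of_le_of_lt (cm_mono (fun w => ?_) _) (hu u hu0 huj).2⟩
      have := hl w
      linarith
  rcases S.eq_empty_or_nonempty with hSe | hSn
  · refine ⟨fun _ => 0, Z0, fun _ => le_rfl, fun u hu => absurd rfl hu, ?_,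
      Finset.filter_subset _ _, ?_, ?_⟩
    · simp only [Finset.sum_const_zero]
      positivity
    · refine le_trans (le_of_eq (Finset.sum_eq_zero fun c hc => (Finset.mem_filter.1 hc).2)) hδ.le
    · intro c hc hcZ hc1 φ hφ h0 hu
      have hqc : 0 < q c := lt_of_le_of_ne (hq c) fun h => hcZ (Finset.mem_filter.2 ⟨hc, h.symm⟩)
      have := hre (fun _ => 0) (fun _ => le_rfl) c hc hqc hc1 φ hφ h0 hu
      rw [hSe] at this
      exact absurd this (Finset.notMem_empty _)
  set C : Finset (V ⊕ V) := Finset.univ.filter (fun z => (∃ u ∈ L, z = Sum.inl u) ∨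
    ∃ c ∈ X, 0 < q c ∧ z = Sum.inr c) with hC
  have hCn : C.Nonempty := by
    obtain ⟨t, ht⟩ := hSn
    have ht' := (Finset.mem_filter.1 ht).2
    exact ⟨Sum.inr (ex t []), Finset.mem_filter.2 ⟨Finset.mem_univ _,
      Or.inr ⟨_, ht'.1, ht'.2.1, rfl⟩⟩⟩
  rcases GSR5.stMinimax (Tr M j V) (V ⊕ V) S C (pay2 G q e d) e hSn hCn with
    ⟨p, hp, hpS, hpe⟩ | ⟨l0, hl0, hl0L, hl0e⟩
  · exfalso
    have hpG : ∀ t, p t ≠ 0 → Good G m q η L X v t := fun t ht =>
      (Finset.mem_filter.1 (hpS t ht)).2
    have hpe1 : ∀ u ∈ L, ∑ t, p t * pay G t u ≤ e := fun u hu =>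
      hpe (Sum.inl u) (Finset.mem_filter.2 ⟨Finset.mem_univ _, Or.inl ⟨u, hu, rfl⟩⟩)
    have hrt : ∀ c, rt p c ≤ (1 / d) * q c := by
      intro c
      by_cases hc : c ∈ X ∧ 0 < q c
      · have h1 := hpe (Sum.inr c) (Finset.mem_filter.2 ⟨Finset.mem_univ _,
          Or.inr ⟨c, hc.1, hc.2, rfl⟩⟩)
        have h2 : ∑ t, p t * pay2 G q e d t (Sum.inr c) = rt p c * (e * d / q c) := by
          unfold rt
          rw [Finset.sum_filter, Finset.sum_mul]
          refine Finset.sum_congr rfl fun t _ => ?_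
          show p t * (if ex t [] = c then e * d / q c else 0) = _
          split_ifs <;> simp
        rw [h2] at h1
        have h3 : rt p c * (e * d) ≤ e * q c := by
          have h4 := mul_le_mul_of_nonneg_right h1 hc.2.le
          have h6 : q c ≠ 0 := hc.2.ne'
          calc rt p c * (e * d) = rt p c * (e * d / q c) * q c := by
                field_simp
            _ ≤ e * q c := h4
        have h5 : rt p c * d ≤ q c := by
          have : e * (rt p c * d) ≤ e * q c := by linarith
          exact le_of_mul_le_mul_left this he0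
        rw [div_mul_eq_mul_div, one_mul, le_div_iff₀ hd0]
        exact h5
      · have h1 : rt p c = 0 := by
          unfold rt
          refine Finset.sum_eq_zero fun t ht => ?_
          by_contra h0
          have h2 := hpG t h0
          rw [← (Finset.mem_filter.1 ht).2] at hc
          exact hc ⟨h2.1, h2.2.1⟩
        rw [h1]
        have := hq c
        positivity
    have h1 := conf_pr hM hj hη0 (by positivity) hm hX hp hrt hpG hpe1 he0.le
    rw [← hn] at h1
    have hb : n * e + 2 * (n * (1 / d * η)) ≤ 2 * (n * e) := by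
      have : 1 / d * η = e / 4 := by
        rw [hη]
        field_simp
      rw [this]
      have : 0 ≤ n * e := by positivity
      linarith
    have h1' := h1.trans hb
    have h2 : ((Fintype.card (Fin M) : ℝ) + (Fintype.card (Fin M) : ℝ) ^ 2) * (2 * (n * e))
        < 1 := by
      rw [Fintype.card_fin]
      have h3 : n * e * (8 * (M : ℝ) ^ 2) = 1 := by
        rw [he]
        field_simp
      have h4 : (M : ℝ) ≤ (M : ℝ) ^ 2 := by nlinarith
      have h5 : 0 < n * e := by positivity
      nlinarith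
    obtain ⟨f, hf1, -, hf2⟩ := GSR5.stIndep (Fin M) (Tr M j V) (fun _ => p)
      (fun _ _ => False) (fun _ _ t t' => Conf G t t') (2 * (n * e)) (fun _ => hp)
      (by positivity) (fun _ => by
        unfold pr
        rw [Finset.filter_false]
        simp only [Finset.sum_empty]
        positivity) (fun _ _ _ => h1') h2
    have hG : ∀ i, Good G m q η L X v (f i) := fun i => hpG _ (hf1 i)
    have hpos : ∀ u : V, (0 : ℝ) ≤ m u + (if u = v then 1 else 0) + q u / η := by
      intro u
      have := hm u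
      have := hqη u
      split_ifs <;> linarith
    have hfar : ∀ i (u : List (Fin M)), u ≠ [] → u.length ≤ j →
        ¬ (ex (f i) u = v ∨ G.Adj (ex (f i) u) v) := by
      intro i u hu0 hu hc
      have h3 := ((hG i).2.2.2.2 u hu0 hu).2
      have h4 := cm_ge (G := G) hpos hc
      simp only [if_true] at h4
      have := hm v
      have := hqη v
      linarith
    obtain ⟨ψ, hψ, hψ0, hψ1⟩ := FGF.stGlue V G M j v (fun i => ex (f i))
      (fun i => (hG i).2.2.2.1)
      (fun i => hXv _ (hG i).1)
      (fun i u hu hc => by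
        by_cases hu0 : u = []
        · subst hu0
          exact G.ne_of_adj (hXv _ (hG i).1) hc.symm
        · exact hfar i u hu0 hu (Or.inl hc))
      (fun i u hu0 hu hc => hfar i u hu0 hu (Or.inr hc.symm))
      (fun i i' u u' hne hu hu' => by
        have h3 := hf2 i i' hne
        exact ⟨fun hc => h3 ⟨u, u', hu, hu', Or.inl hc⟩,
          fun hc => h3 ⟨u, u', hu, hu', Or.inr hc⟩⟩)
    refine hDom ψ hψ hψ0 fun u hu0 hu => ?_
    obtain ⟨w, i, rfl⟩ : ∃ (w : List (Fin M)) (i : Fin M), u = w ++ [i] :=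
      ⟨u.dropLast, u.getLast hu0, (List.dropLast_append_getLast hu0).symm⟩
    have hw : w.length ≤ j := by
      simpa using hu
    rw [hψ1 i w hw]
    by_cases hw0 : w = []
    · subst hw0
      exact ⟨hXL (hG i).1, (hG i).2.2.1⟩
    · obtain ⟨h3, h4⟩ := (hG i).2.2.2.2 w hw0 hw
      refine ⟨hLL h3, lt_of_le_of_lt (cm_mono (fun z => ?_) _) h4⟩
      have := hqη z
      split_ifs <;> linarith
  · set l1 : V → ℝ := fun u => 2 * n / e * l0 (Sum.inl u) with hl1
    have hl1n : ∀ u, 0 ≤ l1 u := fun u => mul_nonneg (by positivity) (hl0.nn _)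
    refine ⟨l1, X.filter (fun c => q c ≤ 2 * d * l0 (Sum.inr c)), hl1n, ?_, ?_,
      Finset.filter_subset _ _, ?_, ?_⟩
    · intro u hu
      have h1 : l0 (Sum.inl u) ≠ 0 := fun h0 => hu (by
        show 2 * n / e * l0 (Sum.inl u) = 0
        rw [h0, mul_zero])
      rcases (Finset.mem_filter.1 (hl0L _ h1)).2 with ⟨u', hu', he'⟩ | ⟨c, -, -, he'⟩
      · rw [Sum.inl.inj he']
        exact hu'
      · cases he'
    · rw [hl1, ← Finset.mul_sum]
      have h1 : ∑ u, l0 (Sum.inl u) ≤ 1 := by
        rw [← hl0.one, Fintype.sum_sum_type]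
        have : 0 ≤ ∑ c, l0 (Sum.inr c) := Finset.sum_nonneg fun c _ => hl0.nn _
        linarith
      calc 2 * n / e * ∑ u, l0 (Sum.inl u) ≤ 2 * n / e * 1 :=
            mul_le_mul_of_nonneg_left h1 (by positivity)
        _ = 2 * n / e := mul_one _
    · calc ∑ c ∈ X.filter (fun c => q c ≤ 2 * d * l0 (Sum.inr c)), q c
          ≤ ∑ c ∈ X.filter (fun c => q c ≤ 2 * d * l0 (Sum.inr c)), 2 * d * l0 (Sum.inr c) :=
            Finset.sum_le_sum fun c hc => (Finset.mem_filter.1 hc).2
        _ ≤ ∑ c, 2 * d * l0 (Sum.inr c) :=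
            Finset.sum_le_univ_sum_of_nonneg fun c => mul_nonneg (by positivity) (hl0.nn _)
        _ = 2 * d * ∑ c, l0 (Sum.inr c) := by rw [Finset.mul_sum]
        _ ≤ 2 * d * 1 := by
            refine mul_le_mul_of_nonneg_left ?_ (by positivity)
            rw [← hl0.one, Fintype.sum_sum_type]
            have : 0 ≤ ∑ c, l0 (Sum.inl c) := Finset.sum_nonneg fun c _ => hl0.nn _
            linarith
        _ = δ := by
            rw [hd]
            ring
    · intro c hc hcZ hc1 φ hφ h0 hu
      have hcZ' : 2 * d * l0 (Sum.inr c) < q c := by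
        by_contra h
        exact hcZ (Finset.mem_filter.2 ⟨hc, not_lt.1 h⟩)
      have hqc : 0 < q c := lt_of_le_of_lt (mul_nonneg (by positivity) (hl0.nn _)) hcZ'
      have hmem := hre l1 hl1n c hc hqc hc1 φ hφ h0 hu
      have h1 := hl0e _ hmem
      rw [Fintype.sum_sum_type] at h1
      have h1b : ∑ c', l0 (Sum.inr c') * pay2 G q e d (re M j φ) (Sum.inr c') ≤ e / 2 := by
        have h2 : ∑ c', l0 (Sum.inr c') * pay2 G q e d (re M j φ) (Sum.inr c') =
            l0 (Sum.inr c) * (e * d / q c) := by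
          rw [Finset.sum_eq_single c]
          · show l0 (Sum.inr c) * (if ex (re M j φ) [] = c then e * d / q c else 0) = _
            rw [ex_re φ (Nat.zero_le _), h0, if_pos rfl]
          · intro c' _ hne
            show l0 (Sum.inr c') * (if ex (re M j φ) [] = c' then e * d / q c' else 0) = 0
            rw [ex_re φ (Nat.zero_le _), h0, if_neg hne.symm, mul_zero]
          · intro h
            exact absurd (Finset.mem_univ _) h
        rw [h2, mul_div_assoc', div_le_iff₀ hqc]
        nlinarith
      have h1c : e / 2 ≤ ∑ u, l0 (Sum.inl u) * pay G (re M j φ) u := by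
        have h3 : ∑ u, l0 (Sum.inl u) * pay2 G q e d (re M j φ) (Sum.inl u) =
            ∑ u, l0 (Sum.inl u) * pay G (re M j φ) u := rfl
        rw [h3] at h1
        linarith
      have h2 := meets (G := G) hl1n (re M j φ)
      have h3 : ∑ u, l1 u * pay G (re M j φ) u =
          2 * n / e * ∑ u, l0 (Sum.inl u) * pay G (re M j φ) u := by
        rw [Finset.mul_sum]
        exact Finset.sum_congr rfl fun u _ => mul_assoc _ _ _
      have h4 : n ≤ 2 * n / e * ∑ u, l0 (Sum.inl u) * pay G (re M j φ) u := by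
        calc n = 2 * n / e * (e / 2) := by
              field_simp
          _ ≤ _ := mul_le_mul_of_nonneg_left h1c (by positivity)
      have h5 : ∑ w ∈ (wd M j).erase [], cm G l1 (ex (re M j φ) w) ≤
          ((wd M j).erase []).card := by
        rw [← nsmul_one]
        refine Finset.sum_le_card_nsmul _ _ _ fun w hw => ?_
        obtain ⟨hw0, hw1⟩ := Finset.mem_erase.1 hw
        rw [ex_re φ (mem_wd.1 hw1)]
        refine le_trans (cm_mono (fun z => ?_) _) (hu w hw0 (mem_wd.1 hw1)).2.le
        have := hm z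
        have := hqη z
        split_ifs <;> linarith
      have h6 : (((wd M j).erase []).card : ℝ) < n := by
        rw [hn]
        exact_mod_cast Finset.card_erase_lt_of_mem (mem_wd.2 (Nat.zero_le _))
      linarith

end Pool.Agent.Lib.GSR
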