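import Pool.Agent.Lib.GSR.Srv

/-!
# Masters: the bound at the other vertices

`br q a k b l = a / b * q ^ (- ds k l)` is the bracket of the scales `a` (level `k`) and `b`
(level `l`).  It is submultiplicative.  `mst` is the new master of the vertex `x` of the stage `s`
with the scale `ax`: the average of the charges of its labels.  `mst_bd` is its bound at a vertex
`z` at which the payment function is bounded.
-/

set_option autoImplicit false

namespace Pool.Agent.Lib.GSR

open Finset Classical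
open Pool.Agent.Lib.FGF (cm nm)
open Pool.Agent.Lib.GSLE (cl cl_nonneg cl_le_one ds ds_comm ds_tri ds_self gp pay_point)
open Srv_ (cm_cl)

/-- The bracket of two scales. -/
noncomputable def br (q a : ℝ) (k : ℕ) (b : ℝ) (l : ℕ) : ℝ := a / b * (q ^ ds k l)⁻¹

theorem br_nonneg {q a b : ℝ} {k l : ℕ} (hq : 0 ≤ q) (ha : 0 ≤ a) (hb : 0 ≤ b) :
    0 ≤ br q a k b l := by
  unfold br
  positivity

/-- The bracket is submultiplicative. -/
theorem br_mul {q a b c : ℝ} {k l m : ℕ} (h0 : 0 < q) (h1 : q ≤ 1) (ha : 0 ≤ a) (hb : 0 < b)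
    (hc : 0 < c) : br q a k c m ≤ br q a k b l * br q b l c m := by
  unfold br
  have h2 : (q ^ ds k m)⁻¹ ≤ (q ^ ds k l)⁻¹ * (q ^ ds l m)⁻¹ := by
    rw [← mul_inv, ← pow_add]
    refine inv_anti₀ (by positivity) (pow_le_pow_of_le_one h0.le h1 (ds_tri k l m))
  calc a / c * (q ^ ds k m)⁻¹ ≤ a / c * ((q ^ ds k l)⁻¹ * (q ^ ds l m)⁻¹) :=
        mul_le_mul_of_nonneg_left h2 (by positivity)
    _ = a / b * (q ^ ds k l)⁻¹ * (b / c * (q ^ ds l m)⁻¹) := by
        field_simp

/-- Comparable scales at close levels. -/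
theorem br_le_of_near {q a b c D : ℝ} {k l m w : ℕ} (h0 : 0 < q) (h1 : q ≤ 1) (ha : 0 ≤ a)
    (hb : 0 < b) (hc : 0 < c) (hD : c ≤ D * b) (hw : ds l m ≤ w) :
    br q a k b l ≤ D * (q ^ w)⁻¹ * br q a k c m := by
  have h2 := br_mul (m := l) (l := m) (k := k) h0 h1 ha hc hb
  have h3 : br q c m b l ≤ D * (q ^ w)⁻¹ := by
    unfold br
    refine mul_le_mul ((div_le_iff₀ hb).2 hD) ?_ (by positivity) ?_
    · refine inv_anti₀ (by positivity) (pow_le_pow_of_le_one h0.le h1 ?_)
      rw [ds_comm]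
      exact hw
    · exact le_trans (div_nonneg hc.le hb.le) ((div_le_iff₀ hb).2 hD)
  calc br q a k b l ≤ br q a k c m * br q c m b l := h2
    _ ≤ br q a k c m * (D * (q ^ w)⁻¹) :=
        mul_le_mul_of_nonneg_left h3 (br_nonneg h0.le ha hc.le)
    _ = D * (q ^ w)⁻¹ * br q a k c m := by ring

section

variable {V Om : Type} [Fintype V] [Fintype Om]

/-- The new master of a vertex with the scale `ax` and the own kernel `c` (own incidence times
weight of the service): `Q l` is the law on the vertices `t` with the masters `mt t` and `R l` is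
the sum of the other charges of the label `l`. -/
noncomputable def mst (τ ax A : ℝ) (c ρ : Om → ℝ) (Q : Om → V → ℝ) (mt : V → V → ℝ)
    (R : Om → V → ℝ) (u : V) : ℝ :=
  τ / ax * ∑ l, c l * ρ l * (A * ∑ t, Q l t * mt t u + R l u)

theorem mst_nonneg {τ ax A : ℝ} {c ρ : Om → ℝ} {Q : Om → V → ℝ} {mt : V → V → ℝ}
    {R : Om → V → ℝ} (hτ : 0 ≤ τ) (hax : 0 ≤ ax) (hA : 0 ≤ A) (hc : ∀ l, 0 ≤ c l)
    (hρ : ∀ l, 0 ≤ ρ l) (hQ : ∀ l t, 0 ≤ Q l t) (hm : ∀ t u, 0 ≤ mt t u)
    (hR : ∀ l u, 0 ≤ R l u) (u : V) : 0 ≤ mst τ ax A c ρ Q mt R u :=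
  mul_nonneg (div_nonneg hτ hax) (Finset.sum_nonneg fun l _ =>
    mul_nonneg (mul_nonneg (hc l) (hρ l)) (add_nonneg (mul_nonneg hA
      (Finset.sum_nonneg fun t _ => mul_nonneg (hQ l t) (hm t u))) (hR l u)))

/-- The charge of the new master at `z`. -/
theorem cm_mst (G : SimpleGraph V) (τ ax A : ℝ) (c ρ : Om → ℝ) (Q : Om → V → ℝ)
    (mt : V → V → ℝ) (R : Om → V → ℝ) (z : V) :
    cm G (mst τ ax A c ρ Q mt R) z =
      τ / ax * ∑ l, c l * ρ l * (A * ∑ t, Q l t * cm G (mt t) z + cm G (R l) z) := by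
  simp only [cm_cl]
  unfold mst
  simp only [Finset.mul_sum, Finset.sum_mul]
  rw [Finset.sum_comm]
  refine Finset.sum_congr rfl fun l _ => ?_
  have h1 : ∀ u : V, τ / ax * (c l * ρ l * (∑ t, A * (Q l t * mt t u) + R l u)) * cl G z u =
      (∑ t, τ / ax * (c l * ρ l * (A * (Q l t * (mt t u * cl G z u))))) +
        τ / ax * (c l * ρ l * (R l u * cl G z u)) := by
    intro u
    have h2 : ∑ t, τ / ax * (c l * ρ l * (A * (Q l t * (mt t u * cl G z u)))) =
        τ / ax * (c l * ρ l * (∑ t, A * (Q l t * mt t u))) * cl G z u := by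
      simp only [Finset.mul_sum, Finset.sum_mul]
      refine Finset.sum_congr rfl fun t _ => ?_
      ring
    rw [h2]
    ring
  rw [Finset.sum_congr rfl fun u _ => h1 u, Finset.sum_add_distrib, Finset.sum_comm]
  simp only [Finset.mul_sum, mul_add]

/-- **The bound of the new master** at a vertex `z` with a bounded payment function.  `la c l`,
`lk c l` are the scale and the level of the label `l` for the stage `c`. -/
theorem mst_bd (G : SimpleGraph V) {q τ A B Bd C1 D0 H e : ℝ} (h0 : 0 < q) (h1 : q ≤ 1)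
    (hτ : 0 ≤ τ) (hA : 0 ≤ A) (hB : 0 ≤ B) (hC1 : 0 ≤ C1) (hD0 : 0 ≤ D0) (he : 0 ≤ e)
    {a : ℕ → V → ℝ} {k : ℕ → V → ℕ} (ha : ∀ c u, 0 < a c u) {C : Finset ℕ} {s : ℕ}
    (hs : s ∉ C) {la : ℕ → Om → ℝ} {lk : ℕ → Om → ℕ} (hla : ∀ c l, 0 < la c l)
    {c ρ : Om → ℝ} {i : Om → ℕ} {Q : Om → V → ℝ} {mt : V → V → ℝ} {R : Om → V → ℝ}
    (hc : ∀ l, 0 ≤ c l) (hρ : ∀ l, 0 ≤ ρ l) (hQ : ∀ l t, 0 ≤ Q l t) (hR : ∀ l u, 0 ≤ R l u)
    {x z : V}
    (hmt : ∀ l t, Q l t ≠ 0 →
      cm G (mt t) z ≤ B * ∑ c ∈ C, br q (a c z) (k c z) (a c t) (k c t))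
    (hcost : ∀ l, ∀ d ∈ C, ∑ t, Q l t * br q (la d l) (lk d l) (a d t) (k d t) ≤ e)
    (hown : ∀ l, c l ≠ 0 → ∀ d ∈ C,
      br q (a d z) (k d z) (la d l) (lk d l) ≤ D0 * br q (a d z) (k d z) (a d x) (k d x))
    (hcl : ∀ l, c l ≤ C1 * q ^ ds (k s x) (i l))
    (hH : ∑ l, c l * ρ l ≤ H * a s x)
    (hgp : gp q (a s) (k s) (cl G) ρ i R z ≤ Bd) :
    cm G (mst τ (a s x) A c ρ Q mt R) z ≤
      τ * (A * B * D0 * e * H + C1 * Bd) *
        ∑ d ∈ insert s C, br q (a d z) (k d z) (a d x) (k d x) := by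
  have hax := ha s x
  have hbr : ∀ d u v, 0 ≤ br q (a d u) (k d u) (a d v) (k d v) := fun d u v =>
    br_nonneg h0.le (ha d u).le (ha d v).le
  have hcρ : ∀ l, 0 ≤ c l * ρ l := fun l => mul_nonneg (hc l) (hρ l)
  have hH0 : 0 ≤ H * a s x := le_trans (Finset.sum_nonneg fun l _ => hcρ l) hH
  have hH1 : 0 ≤ H := nonneg_of_mul_nonneg_left hH0 hax
  have hBd : 0 ≤ Bd := by
    refine le_trans ?_ hgp
    unfold gp
    refine Finset.sum_nonneg fun l _ => mul_nonneg (hρ l) (div_nonneg (mul_nonneg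
      (by positivity) (Finset.sum_nonneg fun b _ => mul_nonneg (hR l b) (cl_nonneg G z b)))
      (ha s z).le)
  set S : ℝ := ∑ d ∈ C, br q (a d z) (k d z) (a d x) (k d x) with hS
  have hS0 : 0 ≤ S := Finset.sum_nonneg fun d _ => hbr d z x
  set T : ℝ := br q (a s z) (k s z) (a s x) (k s x) with hT
  have hT0 : 0 ≤ T := hbr s z x
  -- the charges of the old masters
  have e1 : ∀ l, c l * ρ l * (A * ∑ t, Q l t * cm G (mt t) z) ≤
      c l * ρ l * (A * (B * (D0 * e * S))) := by
    intro l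
    by_cases hl : c l = 0
    · rw [hl, zero_mul, zero_mul, zero_mul]
    refine mul_le_mul_of_nonneg_left (mul_le_mul_of_nonneg_left ?_ hA) (hcρ l)
    calc ∑ t, Q l t * cm G (mt t) z
        ≤ ∑ t, Q l t * (B * ∑ d ∈ C, D0 * br q (a d z) (k d z) (a d x) (k d x) *
            br q (la d l) (lk d l) (a d t) (k d t)) := by
          refine Finset.sum_le_sum fun t _ => ?_
          by_cases ht : Q l t = 0
          · rw [ht, zero_mul, zero_mul]
          refine mul_le_mul_of_nonneg_left ((hmt l t ht).trans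
            (mul_le_mul_of_nonneg_left (Finset.sum_le_sum fun d hd => ?_) hB)) (hQ l t)
          refine (br_mul (l := lk d l) h0 h1 (ha d z).le (hla d l) (ha d t)).trans ?_
          exact mul_le_mul_of_nonneg_right (hown l hl d hd)
            (br_nonneg h0.le (hla d l).le (ha d t).le)
      _ = B * ∑ d ∈ C, D0 * br q (a d z) (k d z) (a d x) (k d x) *
            ∑ t, Q l t * br q (la d l) (lk d l) (a d t) (k d t) := by
          simp only [Finset.mul_sum]
          rw [Finset.sum_comm]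
          refine Finset.sum_congr rfl fun d _ => Finset.sum_congr rfl fun t _ => ?_
          ring
      _ ≤ B * ∑ d ∈ C, D0 * br q (a d z) (k d z) (a d x) (k d x) * e := by
          refine mul_le_mul_of_nonneg_left (Finset.sum_le_sum fun d hd => ?_) hB
          exact mul_le_mul_of_nonneg_left (hcost l d hd) (mul_nonneg hD0 (hbr d z x))
      _ = B * (D0 * e * S) := by
          rw [hS]
          simp only [Finset.mul_sum]
          refine Finset.sum_congr rfl fun d _ => ?_
          ring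
  have e2 : ∑ l, c l * ρ l * (A * ∑ t, Q l t * cm G (mt t) z) ≤
      A * B * D0 * e * H * S * a s x := by
    calc ∑ l, c l * ρ l * (A * ∑ t, Q l t * cm G (mt t) z)
        ≤ ∑ l, c l * ρ l * (A * (B * (D0 * e * S))) := Finset.sum_le_sum fun l _ => e1 l
      _ = (∑ l, c l * ρ l) * (A * (B * (D0 * e * S))) := by rw [Finset.sum_mul]
      _ ≤ H * a s x * (A * (B * (D0 * e * S))) :=
          mul_le_mul_of_nonneg_right hH (by positivity)
      _ = A * B * D0 * e * H * S * a s x := by ring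
  -- the other charges
  have e3 : ∑ l, c l * ρ l * cm G (R l) z ≤ C1 * Bd * T * a s x := by
    have h2 := pay_point h0 h1 hρ hR (fun u b => cl_nonneg G u b) (ha s) hgp (k s x) hC1 hcl
    have h3 : ∑ l, c l * ρ l * cm G (R l) z = ∑ l, c l * ρ l * ∑ b, R l b * cl G z b := by
      simp only [cm_cl]
    rw [h3]
    refine h2.trans (le_of_eq ?_)
    rw [hT]
    unfold br
    rw [ds_comm (k s z) (k s x)]
    field_simp
  have e4 : ∑ l, c l * ρ l * (A * ∑ t, Q l t * cm G (mt t) z + cm G (R l) z) ≤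
      (A * B * D0 * e * H * S + C1 * Bd * T) * a s x := by
    have h2 : ∑ l, c l * ρ l * (A * ∑ t, Q l t * cm G (mt t) z + cm G (R l) z) =
        ∑ l, c l * ρ l * (A * ∑ t, Q l t * cm G (mt t) z) + ∑ l, c l * ρ l * cm G (R l) z := by
      rw [← Finset.sum_add_distrib]
      exact Finset.sum_congr rfl fun l _ => mul_add _ _ _
    rw [h2]
    linarith
  rw [cm_mst, Finset.sum_insert hs, ← hS, ← hT]
  calc τ / a s x * ∑ l, c l * ρ l * (A * ∑ t, Q l t * cm G (mt t) z + cm G (R l) z)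
      ≤ τ / a s x * ((A * B * D0 * e * H * S + C1 * Bd * T) * a s x) :=
        mul_le_mul_of_nonneg_left e4 (div_nonneg hτ hax.le)
    _ = τ * (A * B * D0 * e * H * S + C1 * Bd * T) := by
        field_simp
    _ ≤ τ * ((A * B * D0 * e * H + C1 * Bd) * (T + S)) := by
        refine mul_le_mul_of_nonneg_left ?_ hτ
        have h5 : 0 ≤ A * B * D0 * e * H * T := by positivity
        have h6 : 0 ≤ C1 * Bd * S := by positivity
        nlinarith
    _ = τ * (A * B * D0 * e * H + C1 * Bd) * (T + S) := by ring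

/-- **The new master dominates.**  If the well dominated labels have the share `η` of the scale
then the charge of the new master (with the penalty `pen` scaled) has no violation. -/
theorem mst_dom (G : SimpleGraph V) {M j : ℕ} {ax A η Z Z' H : ℝ} (hη : 0 < η) (hax : 0 < ax)
    (hZ : 0 ≤ Z) (hZ' : H / η * Z ≤ Z') {c ρ : Om → ℝ} {Q : Om → V → ℝ} {mt : V → V → ℝ}
    {R : Om → V → ℝ} {pen : V → ℝ} (hpen : ∀ u, 0 ≤ pen u) (hc : ∀ l, 0 ≤ c l)
    (hρ : ∀ l, 0 ≤ ρ l) (hH : ∑ l, c l * ρ l ≤ H * ax) {x : V} {L : Finset V}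
    (h : η * ax ≤ ∑ l, c l * ρ l * (1 - vioC G M j x (fun u =>
      cm G (fun v => A * ∑ t, Q l t * mt t v + R l v) u + Z * pen u) L)) :
    vioC G M j x (fun u => cm G (mst (1 / η) ax A c ρ Q mt R) u + Z' * pen u) L = 0 := by
  have h1 := vioC_avg (G := G) (M := M) (j := j) (v := x) (L := L) (Finset.univ : Finset Om)
    (fun l => c l * ρ l / ax)
    (fun l u => cm G (fun v => A * ∑ t, Q l t * mt t v + R l v) u + Z * pen u) hη
    (fun l _ => div_nonneg (mul_nonneg (hc l) (hρ l)) hax.le) (by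
      have h2 : ∑ l, c l * ρ l / ax * (1 - vioC G M j x (fun u =>
          cm G (fun v => A * ∑ t, Q l t * mt t v + R l v) u + Z * pen u) L) =
          (∑ l, c l * ρ l * (1 - vioC G M j x (fun u =>
          cm G (fun v => A * ∑ t, Q l t * mt t v + R l v) u + Z * pen u) L)) / ax := by
        rw [Finset.sum_div]
        refine Finset.sum_congr rfl fun l _ => ?_
        ring
      rw [h2, le_div_iff₀ hax]
      exact h)
  refine le_antisymm (le_trans (vioC_anti (fun u => ?_) (Finset.Subset.refl L)) h1.le)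
    vioC_nonneg
  have h3 : ∀ l, cm G (fun v => A * ∑ t, Q l t * mt t v + R l v) u =
      A * ∑ t, Q l t * cm G (mt t) u + cm G (R l) u := by
    intro l
    simp only [cm_cl, add_mul, Finset.sum_add_distrib]
    congr 1
    simp only [Finset.mul_sum, Finset.sum_mul]
    rw [Finset.sum_comm]
    refine Finset.sum_congr rfl fun t _ => Finset.sum_congr rfl fun v _ => ?_
    ring
  rw [cm_mst]
  simp only [h3, mul_add]
  rw [Finset.sum_add_distrib, mul_add]
  have h4 : 1 / η * ∑ l, (c l * ρ l / ax * (A * ∑ t, Q l t * cm G (mt t) u) +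
      c l * ρ l / ax * cm G (R l) u) =
      1 / η / ax * ∑ l, (c l * ρ l * (A * ∑ t, Q l t * cm G (mt t) u) +
        c l * ρ l * cm G (R l) u) := by
    rw [Finset.mul_sum, Finset.mul_sum]
    refine Finset.sum_congr rfl fun l _ => ?_
    field_simp
  have h5 : 1 / η * ∑ l, c l * ρ l / ax * (Z * pen u) ≤ Z' * pen u := by
    rw [← Finset.sum_mul, ← Finset.sum_div]
    have h6 : (∑ l, c l * ρ l) / ax ≤ H := (div_le_iff₀ hax).2 hH
    calc 1 / η * ((∑ l, c l * ρ l) / ax * (Z * pen u)) ≤ 1 / η * (H * (Z * pen u)) := by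
          refine mul_le_mul_of_nonneg_left (mul_le_mul_of_nonneg_right h6
            (mul_nonneg hZ (hpen u))) (by positivity)
      _ = H / η * Z * pen u := by ring
      _ ≤ Z' * pen u := mul_le_mul_of_nonneg_right hZ' (hpen u)
  linarith

end

end Pool.Agent.Lib.GSR
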