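import Pool.Agent.Lib.GSR.Uns

/-!
# An optimal service which is bad shows that the label is not served

`srvR` is the objective of the service `(q, mu)` of one label: the violation at the hub, with the
cover `Z * F`, the cost on the own law `P` and the cost of the heights.  If the optimal value is
larger than `δ * Pm + cost t` then the label is not served at `t`.
-/

set_option autoImplicit false

namespace Pool.Agent.Lib.GSR

open Finset Classical
open Pool.Agent.Lib.FGF (cm)
open Pool.Agent.Lib.GSLE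

/-- The objective of the service `(q, mu)` of a label with the hub `v` and the own law `P`. -/
noncomputable def srvR {V : Type} [Fintype V] (G : SimpleGraph V) (M j : ℕ) (A Z : ℝ) (v : V)
    (W : Finset V) (P : V → ℝ) (m : V → V → ℝ) (F cost : V → ℝ) (q mu : V → ℝ) : ℝ :=
  vioC G M j v (fun x => cm G (fun u => A * ∑ t, q t * m t u + mu u) x + Z * F x) W +
    ∑ x, P x * cm G (fun u => A * ∑ t, q t * m t u + mu u) x + ∑ t, q t * cost t

section

variable {V : Type} [Fintype V] {G : SimpleGraph V} {M j : ℕ} {A Z : ℝ} {v : V}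
  {W : Finset V} {P : V → ℝ} {m : V → V → ℝ} {F cost : V → ℝ}

namespace NSrv_

lemma cm_lin (c d : ℝ) (r s : V → ℝ) (x : V) :
    cm G (fun u => c * r u + d * s u) x = c * cm G r x + d * cm G s x := by
  rw [Srv_.cm_cl, Srv_.cm_cl, Srv_.cm_cl, Finset.mul_sum, Finset.mul_sum,
    ← Finset.sum_add_distrib]
  exact Finset.sum_congr rfl fun u _ => by ring

end NSrv_

open NSrv_

/-- The vertices with a large cover need not be in the body set. -/
theorem vioC_cover {g f : V → ℝ} (hg : ∀ u, 0 ≤ g u) (hf : ∀ u, 0 ≤ f u) :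
    vioC G M j v (fun x => g x + f x) W ≤ vioC G M j v g (W.filter fun u => f u < 1) := by
  refine vioC_le vioC_nonneg fun φ h1 h2 h3 => ?_
  by_cases hall : ∀ u ∈ FGF.Avg.wds M j, φ u ∈ W.filter fun u => f u < 1
  · have h4 := le_vioC (g := g) h1 h2 hall
    have h5 : bc M j g φ ≤ bc M j (fun x => g x + f x) φ :=
      bc_mono (fun u => by linarith [hf u]) φ
    linarith
  · push Not at hall
    obtain ⟨u, hu, hu2⟩ := hall
    have h4 : 1 ≤ f (φ u) := by
      by_contra h5
      push Not at h5
      exact hu2 (Finset.mem_filter.2 ⟨h3 u hu, h5⟩)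
    have h5 : g (φ u) + f (φ u) ≤ bc M j (fun x => g x + f x) φ :=
      Finset.single_le_sum (f := fun u => g (φ u) + f (φ u))
        (fun u _ => add_nonneg (hg _) (hf _)) hu
    have h6 := vioC_nonneg (G := G) (M := M) (j := j) (v := v) (g := g)
      (L := W.filter fun u => f u < 1)
    have h7 := hg (φ u)
    linarith

/-- The objective of the service by one vertex. -/
theorem srvR_point (t : V) (mu : V → ℝ) :
    srvR G M j A Z v W P m F cost (fun u => if u = t then 1 else 0) mu =
      vioC G M j v (fun x => (A * cm G (m t) x + cm G mu x) + Z * F x) W +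
        ∑ x, P x * (A * cm G (m t) x + cm G mu x) + cost t := by
  have h1 : (fun u => A * ∑ t', (if t' = t then (1 : ℝ) else 0) * m t' u + mu u) =
      fun u => A * m t u + 1 * mu u := by
    funext u
    rw [one_mul]
    congr 2
    rw [Finset.sum_eq_single t]
    · rw [if_pos rfl, one_mul]
    · intro b _ hb
      rw [if_neg hb, zero_mul]
    · intro h
      exact absurd (Finset.mem_univ t) h
  have h2 : ∀ x, cm G (fun u => A * ∑ t', (if t' = t then (1 : ℝ) else 0) * m t' u + mu u) x =
      A * cm G (m t) x + cm G mu x := by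
    intro x
    rw [h1, cm_lin, one_mul]
  have h3 : ∑ u, (if u = t then (1 : ℝ) else 0) * cost u = cost t := by
    rw [Finset.sum_eq_single t]
    · rw [if_pos rfl, one_mul]
    · intro b _ hb
      rw [if_neg hb, zero_mul]
    · intro h
      exact absurd (Finset.mem_univ t) h
  unfold srvR
  rw [h3]
  congr 1
  congr 1
  · congr 1
    funext x
    rw [h2]
  · exact Finset.sum_congr rfl fun x _ => by rw [h2]

variable {Om : Type} {y : Om → V} {PP : Om → V → ℝ} {Λ δ del Pm ropt : ℝ} {l : Om}

/-- **The service lemma for optimal services**: if the optimal value of the objective is more than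
`del` then the label is not served at any vertex `t` of the world at small cost. -/
theorem not_served_of_opt (hA : 0 ≤ A) (hPm : 1 ≤ Pm)
    (hm : ∀ t u, 0 ≤ m t u) (hF : ∀ u, 0 ≤ Z * F u)
    (hopt : ∀ q mu : V → ℝ, (∀ t, 0 ≤ q t) → ∑ t, q t = 1 → (∀ t, q t ≠ 0 → t ∈ W) →
      (∀ u, 0 ≤ mu u) → (∀ u, mu u ≠ 0 → u ∈ W) → ∑ u, mu u ≤ Λ →
        ropt ≤ srvR G M j A Z (y l) W (PP l) m F cost q mu)
    (hdel : del < ropt) {t : V} (ht : t ∈ W) (hc : Pm * δ + cost t ≤ del) :
    ¬ Served G M j A Λ δ y (fun l x => PP l x / Pm) (cm G (m t))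
      (W.filter fun u => Z * F u < 1) W l := by
  rintro ⟨mu, hmu0, hmuW, hmuΛ, hS⟩
  have hPm0 : 0 < Pm := by linarith
  have h1 := hopt (fun u => if u = t then 1 else 0) mu
    (fun u => by split_ifs <;> norm_num) (by
      rw [Finset.sum_ite_eq' Finset.univ t]
      exact if_pos (Finset.mem_univ t))
    (fun u hu => by
      by_cases hut : u = t
      · rw [hut]
        exact ht
      · rw [if_neg hut] at hu
        exact absurd rfl hu) hmu0 hmuW hmuΛ
  rw [srvR_point] at h1
  have hg : ∀ u, 0 ≤ A * cm G (m t) u + cm G mu u := fun u =>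
    add_nonneg (mul_nonneg hA (Srv_.cm_nonneg (hm t) u)) (Srv_.cm_nonneg hmu0 u)
  have h2 := vioC_cover (G := G) (M := M) (j := j) (v := y l) (W := W) hg hF
  have h3 : ∑ x, PP l x * (A * cm G (m t) x + cm G mu x) =
      Pm * ∑ x, PP l x / Pm * (A * cm G (m t) x + cm G mu x) := by
    rw [Finset.mul_sum]
    refine Finset.sum_congr rfl fun x _ => ?_
    field_simp
  have h4 : 0 ≤ vioC G M j (y l) (fun x => A * cm G (m t) x + cm G mu x)
      (W.filter fun u => Z * F u < 1) := vioC_nonneg
  have h5 : Pm * (vioC G M j (y l) (fun x => A * cm G (m t) x + cm G mu x)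
      (W.filter fun u => Z * F u < 1) +
      ∑ x, PP l x / Pm * (A * cm G (m t) x + cm G mu x)) ≤ Pm * δ :=
    mul_le_mul_of_nonneg_left hS hPm0.le
  rw [mul_add, ← h3] at h5
  have h6 : vioC G M j (y l) (fun x => A * cm G (m t) x + cm G mu x)
      (W.filter fun u => Z * F u < 1) ≤ Pm * vioC G M j (y l)
        (fun x => A * cm G (m t) x + cm G mu x) (W.filter fun u => Z * F u < 1) :=
    le_mul_of_one_le_left h4 hPm
  linarith

/-- The form with `δ = del / (2 * Pm)`. -/
theorem not_served_of_opt' (hA : 0 ≤ A) (hPm : 1 ≤ Pm)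
    (hm : ∀ t u, 0 ≤ m t u) (hF : ∀ u, 0 ≤ Z * F u)
    (hopt : ∀ q mu : V → ℝ, (∀ t, 0 ≤ q t) → ∑ t, q t = 1 → (∀ t, q t ≠ 0 → t ∈ W) →
      (∀ u, 0 ≤ mu u) → (∀ u, mu u ≠ 0 → u ∈ W) → ∑ u, mu u ≤ Λ →
        ropt ≤ srvR G M j A Z (y l) W (PP l) m F cost q mu)
    (hdel : del < ropt) {t : V} (ht : t ∈ W) (hc : cost t ≤ del / 2) :
    ¬ Served G M j A Λ (del / (2 * Pm)) y (fun l x => PP l x / Pm) (cm G (m t))
      (W.filter fun u => Z * F u < 1) W l := by
  refine not_served_of_opt hA hPm hm hF hopt hdel ht ?_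
  have hPm0 : 0 < Pm := by linarith
  have h1 : Pm * (del / (2 * Pm)) = del / 2 := by
    field_simp
  linarith

/-- The height cost of a vertex which is high over the label: `cost t = ∑ c ∈ C, b c (H / a c t)`
with an increasing bracket `b c`, at most `r` each. -/
theorem cost_high {ι : Type} (C : Finset ι) (b : ι → ℝ) {r : ℝ} {k : ℕ} (hC : C.card ≤ k)
    (hr : 0 ≤ r) (h : ∀ c ∈ C, b c ≤ r) : ∑ c ∈ C, b c ≤ k * r := by
  refine (Finset.sum_le_card_nsmul C b r h).trans ?_
  rw [nsmul_eq_mul]
  exact mul_le_mul_of_nonneg_right (by exact_mod_cast hC) hr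

end

end Pool.Agent.Lib.GSR
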