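import Pool.Agent.Lib.GSR.RkRam

/-!
# Selection of the pool

`avg_prod`: if all the numbers `r c`, `c ∈ S`, have `P`-mean at least `ε` and `S` is large then for
some `C ⊆ S` with `j` elements the product of the `r c`, `c ∈ C`, has `P`-mean at least
`ε / (2 * |S| ^ j)`.

`poolSel`: on a large pool of stages the masters exist for all sets of one size `m`, they do not
grow, all pairs are negative and all items of the size `r` have the same answer.
-/

set_option autoImplicit false

namespace Pool.Agent.Lib.GSR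

open Finset Classical

/-- Elementary symmetric sums of numbers in `[0, 1]` with a large sum. -/
theorem esymm_ge (S : Finset ℕ) (j : ℕ) (r : ℕ → ℝ) (h0 : ∀ c ∈ S, 0 ≤ r c)
    (h1 : ∀ c ∈ S, r c ≤ 1) (h : ((2 * j : ℕ) : ℝ) ≤ ∑ c ∈ S, r c) :
    1 ≤ ∑ C ∈ S.powersetCard j, ∏ c ∈ C, r c := by
  induction j with
  | zero => simp
  | succ j ih =>
    have h2 : ((2 * j : ℕ) : ℝ) ≤ ∑ c ∈ S, r c := by
      push_cast at h ⊢
      linarith
    have h3 := ih h2
    -- double counting of the pairs `(C, c)` with `c ∈ C`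
    have hpos : ∀ n, ∀ C ∈ S.powersetCard n, 0 ≤ ∏ c ∈ C, r c := fun n C hC =>
      Finset.prod_nonneg fun c hc => h0 c ((Finset.mem_powersetCard.1 hC).1 hc)
    have h4 : ∑ C ∈ S.powersetCard j, ∑ c ∈ S \ C, r c * ∏ c ∈ C, r c =
        ((j + 1 : ℕ) : ℝ) * ∑ C ∈ S.powersetCard (j + 1), ∏ c ∈ C, r c := by
      have h5 : ∀ D ∈ S.powersetCard (j + 1), ((j + 1 : ℕ) : ℝ) * ∏ c ∈ D, r c =
          ∑ d ∈ D, r d * ∏ c ∈ D.erase d, r c := by
        intro D hD
        rw [Finset.sum_congr rfl fun d hd => Finset.mul_prod_erase D r hd, Finset.sum_const,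
          (Finset.mem_powersetCard.1 hD).2, nsmul_eq_mul]
      rw [Finset.mul_sum, Finset.sum_congr rfl h5, Finset.sum_sigma', Finset.sum_sigma']
      refine Finset.sum_bij' (fun p _ => ⟨insert p.2 p.1, p.2⟩) (fun p _ => ⟨p.1.erase p.2, p.2⟩)
        ?_ ?_ ?_ ?_ ?_
      · rintro ⟨C, c⟩ hp
        simp only [Finset.mem_sigma, Finset.mem_powersetCard, Finset.mem_sdiff] at hp ⊢
        refine ⟨⟨Finset.insert_subset hp.2.1 hp.1.1, ?_⟩, Finset.mem_insert_self _ _⟩
        rw [Finset.card_insert_of_notMem hp.2.2, hp.1.2]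
      · rintro ⟨D, d⟩ hp
        simp only [Finset.mem_sigma, Finset.mem_powersetCard, Finset.mem_sdiff] at hp ⊢
        refine ⟨⟨(Finset.erase_subset _ _).trans hp.1.1, ?_⟩, hp.1.1 hp.2,
          Finset.notMem_erase _ _⟩
        rw [Finset.card_erase_of_mem hp.2, hp.1.2]
        rfl
      · rintro ⟨C, c⟩ hp
        simp only [Finset.mem_sigma, Finset.mem_powersetCard, Finset.mem_sdiff] at hp
        simp only [Finset.erase_insert hp.2.2]
      · rintro ⟨D, d⟩ hp
        simp only [Finset.mem_sigma] at hp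
        simp only [Finset.insert_erase hp.2]
      · rintro ⟨C, c⟩ hp
        simp only [Finset.mem_sigma, Finset.mem_powersetCard, Finset.mem_sdiff] at hp
        simp only [Finset.erase_insert hp.2.2]
    have h6 : ((j + 1 : ℕ) : ℝ) * ∑ C ∈ S.powersetCard j, ∏ c ∈ C, r c ≤
        ∑ C ∈ S.powersetCard j, ∑ c ∈ S \ C, r c * ∏ c ∈ C, r c := by
      rw [Finset.mul_sum]
      refine Finset.sum_le_sum fun C hC => ?_
      rw [← Finset.sum_mul]
      refine mul_le_mul_of_nonneg_right ?_ (hpos _ _ hC)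
      obtain ⟨hCS, hCc⟩ := Finset.mem_powersetCard.1 hC
      have h7 : ∑ c ∈ C, r c ≤ (j : ℝ) := by
        refine (Finset.sum_le_sum fun c hc => h1 c (hCS hc)).trans ?_
        rw [Finset.sum_const, hCc, nsmul_eq_mul, mul_one]
      have h8 := Finset.sum_sdiff (f := r) hCS
      push_cast at h ⊢
      linarith
    have h9 : (0 : ℝ) < ((j + 1 : ℕ) : ℝ) := by positivity
    rw [h4] at h6
    have h10 := le_of_mul_le_mul_left h6 h9
    linarith

/-- The averaging lemma. -/
theorem avg_prod {Λ : Type} [Fintype Λ] (P : Λ → ℝ) (hP : ∀ l, 0 ≤ P l) (hP1 : ∑ l, P l ≤ 1)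
    (S : Finset ℕ) (hSne : S.Nonempty) (r : ℕ → Λ → ℝ) (h0 : ∀ c ∈ S, ∀ l, 0 ≤ r c l) (h1 : ∀ c ∈ S, ∀ l, r c l ≤ 1)
    {ε : ℝ} (hε : 0 < ε) (hS : ∀ c ∈ S, ε ≤ ∑ l, P l * r c l) (j : ℕ)
    (hj : 4 * (j : ℝ) ≤ ε * S.card) :
    ∃ C ⊆ S, C.card = j ∧ ε / (2 * (S.card : ℝ) ^ j) ≤ ∑ l, P l * ∏ c ∈ C, r c l := by
  set n : ℝ := (S.card : ℝ) with hn
  have hn0 : 0 ≤ n := Nat.cast_nonneg _
  -- the labels with a large sum
  set T : Finset Λ := Finset.univ.filter fun l => ((2 * j : ℕ) : ℝ) ≤ ∑ c ∈ S, r c l with hT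
  have hsum : ∀ l, ∑ c ∈ S, r c l ≤ n := by
    intro l
    refine (Finset.sum_le_sum fun c hc => h1 c hc l).trans ?_
    rw [Finset.sum_const, nsmul_eq_mul, mul_one]
  have hsum0 : ∀ l, 0 ≤ ∑ c ∈ S, r c l := fun l => Finset.sum_nonneg fun c hc => h0 c hc l
  have h2 : ε * n ≤ ∑ l, P l * ∑ c ∈ S, r c l := by
    have h3 : ∑ l, P l * ∑ c ∈ S, r c l = ∑ c ∈ S, ∑ l, P l * r c l := by
      rw [Finset.sum_comm]
      exact Finset.sum_congr rfl fun l _ => Finset.mul_sum _ _ _
    rw [h3]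
    calc ε * n = ∑ c ∈ S, ε := by rw [Finset.sum_const, nsmul_eq_mul, mul_comm]
      _ ≤ _ := Finset.sum_le_sum hS
  have h3 : ∑ l, P l * ∑ c ∈ S, r c l ≤ n * ∑ l ∈ T, P l + ((2 * j : ℕ) : ℝ) := by
    rw [← Finset.sum_filter_add_sum_filter_not Finset.univ
      (fun l => ((2 * j : ℕ) : ℝ) ≤ ∑ c ∈ S, r c l)]
    refine add_le_add ?_ ?_
    · rw [Finset.mul_sum]
      refine Finset.sum_le_sum fun l _ => ?_
      rw [mul_comm n]
      exact mul_le_mul_of_nonneg_left (hsum l) (hP l)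
    · calc ∑ l with ¬ ((2 * j : ℕ) : ℝ) ≤ ∑ c ∈ S, r c l, P l * ∑ c ∈ S, r c l
          ≤ ∑ l with ¬ ((2 * j : ℕ) : ℝ) ≤ ∑ c ∈ S, r c l, P l * ((2 * j : ℕ) : ℝ) := by
            refine Finset.sum_le_sum fun l hl => ?_
            rw [Finset.mem_filter, not_le] at hl
            exact mul_le_mul_of_nonneg_left hl.2.le (hP l)
        _ = (∑ l with ¬ ((2 * j : ℕ) : ℝ) ≤ ∑ c ∈ S, r c l, P l) * ((2 * j : ℕ) : ℝ) := by
            rw [Finset.sum_mul]
        _ ≤ 1 * ((2 * j : ℕ) : ℝ) := by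
            refine mul_le_mul_of_nonneg_right ?_ (Nat.cast_nonneg _)
            exact (Finset.sum_le_sum_of_subset_of_nonneg (Finset.filter_subset _ _)
              fun l _ _ => hP l).trans hP1
        _ = _ := one_mul _
  have hT1 : ε / 2 ≤ ∑ l ∈ T, P l := by
    have h4 : 0 < n := by
      rw [hn]
      exact_mod_cast Finset.card_pos.2 hSne
    have h5 : n * (ε / 2) ≤ n * ∑ l ∈ T, P l := by
      push_cast at h3
      nlinarith
    exact le_of_mul_le_mul_left h5 h4
  have hprod : ∀ C ∈ S.powersetCard j, ∀ l, 0 ≤ ∏ c ∈ C, r c l := fun C hC l =>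
    Finset.prod_nonneg fun c hc => h0 c ((Finset.mem_powersetCard.1 hC).1 hc) l
  have h4 : ε / 2 ≤ ∑ C ∈ S.powersetCard j, ∑ l, P l * ∏ c ∈ C, r c l := by
    rw [Finset.sum_comm]
    refine hT1.trans ?_
    refine (Finset.sum_le_sum fun l hl => ?_ :
      ∑ l ∈ T, P l ≤ ∑ l ∈ T, ∑ C ∈ S.powersetCard j, P l * ∏ c ∈ C, r c l).trans
        (Finset.sum_le_sum_of_subset_of_nonneg (Finset.filter_subset _ _) fun l _ _ =>
          Finset.sum_nonneg fun C hC => mul_nonneg (hP l) (hprod C hC l))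
    rw [← Finset.mul_sum]
    refine le_mul_of_one_le_right (hP l) ?_
    rw [hT, Finset.mem_filter] at hl
    exact esymm_ge S j (fun c => r c l) (fun c hc => h0 c hc l) (fun c hc => h1 c hc l) hl.2
  by_contra hcon
  push Not at hcon
  have hne : (S.powersetCard j).Nonempty := by
    by_contra h
    rw [Finset.not_nonempty_iff_eq_empty] at h
    rw [h, Finset.sum_empty] at h4
    linarith
  have h5 : ∑ C ∈ S.powersetCard j, ∑ l, P l * ∏ c ∈ C, r c l <
      ∑ C ∈ S.powersetCard j, ε / (2 * n ^ j) := by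
    refine Finset.sum_lt_sum_of_nonempty hne fun C hC => ?_
    obtain ⟨hCS, hCc⟩ := Finset.mem_powersetCard.1 hC
    exact hcon C hCS hCc
  rw [Finset.sum_const, Finset.card_powersetCard, nsmul_eq_mul] at h5
  have h6 : ((S.card.choose j : ℕ) : ℝ) ≤ n ^ j := by
    rw [hn]
    exact_mod_cast Nat.choose_le_pow _ _
  have h7 : 0 ≤ n ^ j := pow_nonneg hn0 _
  rcases h7.eq_or_lt with h8 | h8
  · rw [← h8, mul_zero, div_zero, mul_zero] at h5
    linarith
  · have h9 : ((S.card.choose j : ℕ) : ℝ) * (ε / (2 * n ^ j)) ≤ ε / 2 := by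
      rw [← mul_div_assoc, div_le_div_iff₀ (by positivity) two_pos]
      nlinarith
    linarith

/-- **Selection of the pool.**  `M C`: the masters for `C` exist; `P C s`, `B C s`: the two kinds
of steps from `C` to `insert s C`; `I S s`: the answer of the item `(S, s)`. -/
theorem poolSel (h r q L0 : ℕ) (h1 : 1 ≤ h) : ∃ N : ℕ, ∀ (M : Finset ℕ → Prop)
    (P B I : Finset ℕ → ℕ → Prop) (T : Finset ℕ), N ≤ T.card → M ∅ →
      (∀ s ∈ T, P ∅ s) →
      (∀ C s, C ⊆ T → s ∈ T → (∀ c ∈ C, c < s) → P C s ∨ B C s → M C → M (insert s C)) →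
      (∀ C, C ⊆ T → C.card = h → ¬ M C) →
      (∀ S, S ⊆ T → S.card = L0 → ∀ s ∈ T, (∀ c ∈ S, c < s) → (∀ c ∈ S, P {c} s) →
        ∀ j, 2 ≤ j → j < h → (∀ C, C ⊆ S → C.card = j → M C) →
          ∃ C, C ⊆ S ∧ C.card = j ∧ P C s) →
      ∃ Q, Q ⊆ T ∧ Q.card = q ∧ (∃ m, 1 ≤ m ∧ m < h ∧ (∀ C, C ⊆ Q → C.card = m → M C) ∧
        ∀ C, C ⊆ Q → C.card = m → ∀ s ∈ Q, (∀ c ∈ C, c < s) → ¬ P C s ∧ ¬ B C s) ∧
        (∀ c ∈ Q, ∀ s ∈ Q, c < s → ¬ P {c} s) ∧
        ((∀ S, S ⊆ Q → S.card = r → ∀ s ∈ Q, (∀ c ∈ S, c < s) → I S s) ∨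
          ∀ S, S ⊆ Q → S.card = r → ∀ s ∈ Q, (∀ c ∈ S, c < s) → ¬ I S s) := by
  obtain ⟨N3, hN3⟩ := FGF.Ram.one (k := 2) (by norm_num) (r + 1) (max q 1)
  obtain ⟨N2, hN2⟩ := rkRam h (max N3 1)
  obtain ⟨N1, hN1⟩ := simRam (k := 2) (by norm_num) (h + 1) (max N2 (max (L0 + 1) (h + 1)))
  refine ⟨N1, fun M P B I T hT hM0 hP0 hstep hno havg => ?_⟩
  have hmax : ∀ (C : Finset ℕ) (s : ℕ), (∀ c ∈ C, c < s) → ∀ h : (insert s C).Nonempty,
      (insert s C).max' h = s := by
    intro C s hs h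
    refine le_antisymm ?_ (Finset.le_max' _ _ (Finset.mem_insert_self _ _))
    refine Finset.max'_le _ _ _ ?_
    intro y hy
    rcases Finset.mem_insert.1 hy with rfl | hy
    · exact le_rfl
    · exact (hs y hy).le
  have hnot : ∀ (C : Finset ℕ) (s : ℕ), (∀ c ∈ C, c < s) → s ∉ C := fun C s hs h =>
    lt_irrefl _ (hs s h)
  -- the colour of a set for a relation between sets and stages
  obtain ⟨cl, hcl⟩ : ∃ cl : (Finset ℕ → ℕ → Prop) → Finset ℕ → ℕ, cl = fun R S =>
      if h : S.Nonempty then (if R (S.erase (S.max' h)) (S.max' h) then 1 else 0) else 0 :=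
    ⟨_, rfl⟩
  have hcl2 : ∀ R S, cl R S < 2 := by
    intro R S
    rw [hcl]
    simp only
    split_ifs <;> norm_num
  have hcl1 : ∀ (R : Finset ℕ → ℕ → Prop) (C : Finset ℕ) (s : ℕ), (∀ c ∈ C, c < s) →
      (R C s ↔ cl R (insert s C) = 1) := by
    intro R C s hs
    rw [hcl]
    simp only
    rw [dif_pos (Finset.insert_nonempty s C), hmax C s hs, Finset.erase_insert (hnot C s hs)]
    split_ifs with h2
    · simp [h2]
    · simp [h2]
  obtain ⟨B1, hB1T, hB1c, i, hik, hi⟩ := hN1 (fun _ S => cl P S) T (fun _ S => hcl2 P S) hT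
  have hiP : ∀ (C : Finset ℕ) (s : ℕ), C ⊆ B1 → s ∈ B1 → (∀ c ∈ C, c < s) → C.card ≤ h →
      (P C s ↔ i (C.card + 1) = 1) := by
    intro C s hC hs hlt hc
    rw [hcl1 P C s hlt, ← hi (C.card + 1) (by omega) (insert s C) (Finset.insert_subset hs hC)
      (Finset.card_insert_of_notMem (hnot C s hlt))]
  -- a stage with many stages below it
  have hbig : ∀ n, n + 1 ≤ B1.card → ∃ s ∈ B1, ∃ S, S ⊆ B1 ∧ S.card = n ∧ ∀ c ∈ S, c < s := by
    intro n hn
    have hne : B1.Nonempty := by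
      rw [← Finset.card_pos]
      omega
    obtain ⟨S, hS, hSc⟩ := Finset.exists_subset_card_eq (s := B1.erase (B1.max' hne)) (n := n) (by
      rw [Finset.card_erase_of_mem (B1.max'_mem hne)]
      omega)
    refine ⟨B1.max' hne, B1.max'_mem hne, S, hS.trans (Finset.erase_subset _ _), hSc, ?_⟩
    intro c hc
    exact lt_of_le_of_ne (B1.le_max' c (Finset.mem_of_mem_erase (hS hc)))
      (Finset.ne_of_mem_erase (hS hc))
  -- if the pairs are positive then all sizes are positive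
  have hneg : i 2 ≠ 1 := by
    intro h2
    have hMj : ∀ m, (∀ j < m, i (j + 1) = 1) → m ≤ h → ∀ C, C ⊆ B1 → C.card = m → M C := by
      intro m
      induction m with
      | zero =>
        intro _ _ C _ hC
        rw [Finset.card_eq_zero.1 hC]
        exact hM0
      | succ m ih =>
        intro hj hm C hC hCc
        have hne : C.Nonempty := by
          rw [← Finset.card_pos]
          omega
        have hms := C.max'_mem hne
        have hlt : ∀ c ∈ C.erase (C.max' hne), c < C.max' hne := by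
          intro c hc
          exact lt_of_le_of_ne (C.le_max' c (Finset.mem_of_mem_erase hc))
            (Finset.ne_of_mem_erase hc)
        have hc1 : (C.erase (C.max' hne)).card = m := by
          rw [Finset.card_erase_of_mem hms, hCc]
          rfl
        have hsub : C.erase (C.max' hne) ⊆ B1 := (Finset.erase_subset _ _).trans hC
        have h3 := ih (fun j hj' => hj j (by omega)) (by omega) _ hsub hc1
        have h4 : P (C.erase (C.max' hne)) (C.max' hne) := by
          rw [hiP _ _ hsub (hC hms) hlt (by omega), hc1]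
          exact hj m (by omega)
        have h5 := hstep _ _ (hsub.trans hB1T) (hB1T (hC hms)) hlt (Or.inl h4) h3
        rwa [Finset.insert_erase hms] at h5
    have hall : ∀ j < h, i (j + 1) = 1 := by
      intro j
      induction j using Nat.strong_induction_on with
      | _ j ih =>
        intro hj
        rcases Nat.lt_or_ge j 2 with hj2 | hj2
        · interval_cases j
          · obtain ⟨s, hs, S, hS, hSc, hlt⟩ := hbig 0 (by omega)
            have h3 := (hiP ∅ s (Finset.empty_subset _) hs (by simp) (by simp)).1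
              (hP0 s (hB1T hs))
            simpa using h3
          · exact h2
        · obtain ⟨s, hs, S, hS, hSc, hlt⟩ := hbig L0 (by omega)
          obtain ⟨C, hCS, hCc, hPC⟩ := havg S (hS.trans hB1T) hSc s (hB1T hs) hlt (by
            intro c hc
            rw [hiP {c} s (Finset.singleton_subset_iff.2 (hS hc)) hs (by
              intro c' hc'
              rw [Finset.mem_singleton.1 hc']
              exact hlt c hc) (by rw [Finset.card_singleton]; omega), Finset.card_singleton]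
            exact h2) j hj2 hj (by
              intro C hC hCc
              exact hMj j (fun j' hj' => ih j' hj' (by omega)) hj.le C (hC.trans hS) hCc)
          rw [hiP C s (hCS.trans hS) hs (fun c hc => hlt c (hCS hc)) (by omega), hCc] at hPC
          exact hPC
    obtain ⟨C, hCB, hCc⟩ := Finset.exists_subset_card_eq (s := B1) (n := h) (by omega)
    exact hno C (hCB.trans hB1T) hCc (hMj h hall le_rfl C hCB hCc)
  -- the first size for which the masters do not grow
  obtain ⟨P2, hP2B, hP2c, m, hmh, hMm, hβ⟩ := hN2 (fun C s => P C s ∨ B C s) M B1 (by omega) hM0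
    (fun C s hC hs hlt hPB hM => hstep C s (hC.trans hB1T) (hB1T hs) hlt hPB hM)
    (fun C hC hCc => hno C (hC.trans hB1T) hCc)
  have hm1 : 1 ≤ m := by
    by_contra hm0
    have hm0' : m = 0 := by omega
    subst hm0'
    have hne : P2.Nonempty := by
      rw [← Finset.card_pos]
      omega
    obtain ⟨s, hs⟩ := hne
    exact hβ ∅ (Finset.empty_subset _) rfl s hs (by simp) (Or.inl (hP0 s (hB1T (hP2B hs))))
  -- the items
  obtain ⟨Q, hQP, hQc, a, ha⟩ := hN3 (cl I) P2 (hcl2 I) (by omega)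
  obtain ⟨Q', hQ'Q, hQ'c⟩ := Finset.exists_subset_card_eq (s := Q) (n := q) (by omega)
  have hQ'P := hQ'Q.trans hQP
  refine ⟨Q', hQ'P.trans (hP2B.trans hB1T), hQ'c, ⟨m, hm1, hmh, ?_, ?_⟩, ?_, ?_⟩
  · exact fun C hC hCc => hMm C (hC.trans hQ'P) hCc
  · intro C hC hCc s hs hlt
    have h3 := hβ C (hC.trans hQ'P) hCc s (hQ'P hs) hlt
    push Not at h3
    exact h3
  · intro c hc s hs hlt
    rw [hiP {c} s (Finset.singleton_subset_iff.2 (hP2B (hQ'P hc))) (hP2B (hQ'P hs)) (by
      intro c' hc'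
      rw [Finset.mem_singleton.1 hc']
      exact hlt) (by rw [Finset.card_singleton]; exact h1), Finset.card_singleton]
    exact hneg
  · rcases eq_or_ne a 1 with h3 | h3
    · left
      intro S hS hSc s hs hlt
      rw [hcl1 I S s hlt, ha (insert s S) (Finset.insert_subset (hQ'Q hs) (hS.trans hQ'Q)) (by
        rw [Finset.card_insert_of_notMem (hnot S s hlt), hSc])]
      exact h3
    · right
      intro S hS hSc s hs hlt
      rw [hcl1 I S s hlt, ha (insert s S) (Finset.insert_subset (hQ'Q hs) (hS.trans hQ'Q)) (by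
        rw [Finset.card_insert_of_notMem (hnot S s hlt), hSc])]
      exact h3

end Pool.Agent.Lib.GSR
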