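import Pool.Agent.Lib.FPK.Fp

/-!
# Random exact worlds: the fixed point

A chain of worlds `c : Ch V N` is a sequence `W_1, ..., W_N` of sets of vertices (`W_0` is the set
of all vertices; `wd c s = W_s`), `pfx s c` is the part of the chain up to `W_s`.  One coordinate of
the game is a law `Q` on the pairs (chain, node), the other coordinates are ordinary best replies.
The tests `bad s k π W θ` say which sets `W` may be the world after the prefix `π`; they are
continuous in `θ` and satisfied exactly by all the chains which have positive probability.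
-/

set_option autoImplicit false

namespace Pool.Agent.Lib.GSR

open Finset Classical

/-- Chains of worlds. -/
abbrev Ch (V : Type) (N : ℕ) : Type := Fin N → Finset V

/-- The first `s` worlds of the chain `c`. -/
def pfx {V : Type} {N : ℕ} (s : ℕ) (c : Ch V N) : Ch V N := fun i => if i.1 < s then c i else ∅

/-- The world number `s` of the chain `c`. -/
def wd {V : Type} [Fintype V] {N : ℕ} (c : Ch V N) : ℕ → Finset V
  | 0 => Finset.univ
  | s + 1 => if h : s < N then c ⟨s, h⟩ else ∅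

lemma wd_succ {V : Type} [Fintype V] {N : ℕ} (c : Ch V N) (s : ℕ) :
    wd c (s + 1) = if h : s < N then c ⟨s, h⟩ else ∅ := rfl

lemma pfx_pfx {V : Type} {N : ℕ} {s t : ℕ} (h : s ≤ t) (c : Ch V N) :
    pfx s (pfx t c) = pfx s c := by
  funext i
  unfold pfx
  by_cases h1 : i.1 < s
  · rw [if_pos h1, if_pos h1, if_pos (h1.trans_le h)]
  · rw [if_neg h1, if_neg h1]

lemma pfx_self {V : Type} {N : ℕ} (c : Ch V N) : pfx N c = c := by
  funext i
  exact if_pos i.2

lemma pfx_mono {V : Type} {N : ℕ} {s t : ℕ} (h : s ≤ t) {c c' : Ch V N}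
    (hc : pfx t c = pfx t c') : pfx s c = pfx s c' := by
  rw [← pfx_pfx h c, hc, pfx_pfx h c']

lemma wd_pfx {V : Type} [Fintype V] {N : ℕ} {s t : ℕ} (h : s ≤ t) (c : Ch V N) :
    wd (pfx t c) s = wd c s := by
  cases s with
  | zero => rfl
  | succ s =>
    rw [wd_succ, wd_succ]
    by_cases h1 : s < N
    · rw [dif_pos h1, dif_pos h1]
      exact if_pos (Nat.lt_of_succ_le h)
    · rw [dif_neg h1, dif_neg h1]

lemma wd_update {V : Type} [Fintype V] {N : ℕ} (c : Ch V N) (s : Fin N) (W : Finset V) (t : ℕ)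
    (ht : t ≤ s.1) : wd (Function.update c s W) t = wd c t := by
  cases t with
  | zero => rfl
  | succ t =>
    rw [wd_succ, wd_succ]
    by_cases h1 : t < N
    · rw [dif_pos h1, dif_pos h1, Function.update_of_ne]
      intro h
      have h2 := congrArg Fin.val h
      simp only at h2
      omega
    · rw [dif_neg h1, dif_neg h1]

lemma wd_update_self {V : Type} [Fintype V] {N : ℕ} (c : Ch V N) (s : Fin N) (W : Finset V) :
    wd (Function.update c s W) (s.1 + 1) = W := by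
  rw [wd_succ, dif_pos s.2]
  exact Function.update_self ..

lemma pfx_update {V : Type} {N : ℕ} (c : Ch V N) (s : Fin N) (W : Finset V) (t : ℕ)
    (ht : t ≤ s.1) : pfx t (Function.update c s W) = pfx t c := by
  funext i
  unfold pfx
  by_cases h1 : i.1 < t
  · rw [if_pos h1, if_pos h1, Function.update_of_ne]
    intro h
    rw [h] at h1
    omega
  · rw [if_neg h1, if_neg h1]

/-- Allowed chains: world by world. -/
def Okc {V : Type} [Fintype V] {N : ℕ} (P : ℕ → Ch V N → Finset V → Prop) (c : Ch V N) (r : ℕ) :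
    Prop :=
  ∀ s < r, wd c (s + 1) ⊆ wd c s ∧ P s (pfx s c) (wd c (s + 1))

/-- Allowed chains exist. -/
lemma exists_okc {V : Type} [Fintype V] {N : ℕ} (P : ℕ → Ch V N → Finset V → Prop)
    (Big : ℕ → Finset V → Prop) (h0 : Big 0 Finset.univ)
    (hP : ∀ s < N, ∀ c : Ch V N, Big s (wd c s) →
      ∃ W ⊆ wd c s, Big (s + 1) W ∧ P s (pfx s c) W) (r : ℕ) (hr : r ≤ N) :
    ∃ c : Ch V N, Okc P c r ∧ Big r (wd c r) := by
  induction r with
  | zero => exact ⟨fun _ => ∅, fun s hs => absurd hs (Nat.not_lt_zero s), h0⟩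
  | succ r ih =>
    obtain ⟨c, hc, hB⟩ := ih (by omega)
    obtain ⟨W, hW, hW2, hW3⟩ := hP r (by omega) c hB
    refine ⟨Function.update c ⟨r, by omega⟩ W, ?_, ?_⟩
    · intro s hs
      by_cases h1 : s = r
      · subst h1
        have h2 := wd_update_self c ⟨s, by omega⟩ W
        simp only at h2
        rw [h2, wd_update c ⟨s, by omega⟩ W s le_rfl, pfx_update c ⟨s, by omega⟩ W s le_rfl]
        exact ⟨hW, hW3⟩
      · rw [wd_update c ⟨r, by omega⟩ W (s + 1) (by simp only; omega),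
          wd_update c ⟨r, by omega⟩ W s (by simp only; omega),
          pfx_update c ⟨r, by omega⟩ W s (by simp only; omega)]
        exact hc s (by omega)
    · have h2 := wd_update_self c ⟨r, by omega⟩ W
      simp only at h2
      rw [h2]
      exact hW2

/-- **Random exact worlds.**  `Q = θ.1` is a law on the pairs (chain, node), the other coordinates
`θ.2` are best replies.  All pairs of positive probability satisfy all the tests exactly. -/
theorem rw_fp {V : Type} [Fintype V] [Nonempty V] (N : ℕ) {ι : Type} [Fintype ι] (E : ι → Type)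
    [∀ i, NormedAddCommGroup (E i)] [∀ i, NormedSpace ℝ (E i)] [∀ i, FiniteDimensional ℝ (E i)]
    (K : ∀ i, Set (E i)) (hK : ∀ i, IsCompact (K i)) (hc : ∀ i, Convex ℝ (K i))
    (hne : ∀ i, (K i).Nonempty)
    (f : ∀ i, ((Ch V N × V) → ℝ) × (∀ j, E j) → E i → ℝ)
    (hf : ∀ i, ContinuousOn (fun p : (((Ch V N × V) → ℝ) × (∀ j, E j)) × E i => f i p.1 p.2)
      ((stdSimplex ℝ (Ch V N × V) ×ˢ Set.pi Set.univ K) ×ˢ K i))
    (hcc : ∀ i, ∀ p ∈ stdSimplex ℝ (Ch V N × V) ×ˢ Set.pi Set.univ K,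
      ConcaveOn ℝ (K i) (f i p))
    (Big : ℕ → Finset V → Prop) (h0 : Big 0 Finset.univ) {κ : Type} [Fintype κ]
    (bad : ℕ → κ → Ch V N → Finset V → ((Ch V N × V) → ℝ) × (∀ j, E j) → ℝ)
    (hbad : ∀ s < N, ∀ k π W, ContinuousOn (bad s k π W)
      (stdSimplex ℝ (Ch V N × V) ×ˢ Set.pi Set.univ K))
    (bl : κ → Ch V N → V → ((Ch V N × V) → ℝ) × (∀ j, E j) → ℝ)
    (hbl : ∀ k c x, ContinuousOn (bl k c x)
      (stdSimplex ℝ (Ch V N × V) ×ˢ Set.pi Set.univ K))
    (h1 : ∀ θ ∈ stdSimplex ℝ (Ch V N × V) ×ˢ Set.pi Set.univ K, ∀ s < N, ∀ c : Ch V N,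
      Big s (wd c s) → ∃ W ⊆ wd c s, Big (s + 1) W ∧ ∀ k, bad s k (pfx s c) W θ ≤ 0)
    (h2 : ∀ θ ∈ stdSimplex ℝ (Ch V N × V) ×ˢ Set.pi Set.univ K, ∀ c : Ch V N,
      Big N (wd c N) → ∃ x ∈ wd c N, ∀ k, bl k c x θ ≤ 0) :
    ∃ θ ∈ stdSimplex ℝ (Ch V N × V) ×ˢ Set.pi Set.univ K,
      (∀ i, ∀ y ∈ K i, f i θ y ≤ f i θ (θ.2 i)) ∧
      ∀ c x, θ.1 (c, x) ≠ 0 →
        Okc (fun s π W => Big (s + 1) W ∧ ∀ k, bad s k π W θ ≤ 0) c N ∧
        x ∈ wd c N ∧ ∀ k, bl k c x θ ≤ 0 := by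
  obtain ⟨g, hg⟩ : ∃ g : (Fin N × Option κ) ⊕ Option κ →
      ((Ch V N × V) → ℝ) × (∀ j, E j) → Ch V N × V → ℝ, g = fun k θ x =>
      match k with
      | .inl (s, some k) => bad s.1 k (pfx s.1 x.1) (wd x.1 (s.1 + 1)) θ
      | .inl (s, none) => if wd x.1 (s.1 + 1) ⊆ wd x.1 s.1 ∧ Big (s.1 + 1) (wd x.1 (s.1 + 1)) then
          0 else 1
      | .inr (some k) => bl k x.1 x.2 θ
      | .inr none => if x.2 ∈ wd x.1 N then 0 else 1 := ⟨_, rfl⟩
  have hex : ∀ θ ∈ stdSimplex ℝ (Ch V N × V) ×ˢ Set.pi Set.univ K,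
      ∃ c x, Okc (fun s π W => Big (s + 1) W ∧ ∀ k, bad s k π W θ ≤ 0) c N ∧
        x ∈ wd c N ∧ ∀ k, bl k c x θ ≤ 0 := by
    intro θ hθ
    obtain ⟨c, hc1, hc2⟩ := exists_okc (fun s π W => Big (s + 1) W ∧ ∀ k, bad s k π W θ ≤ 0)
      Big h0 (fun s hs c hB => by
        obtain ⟨W, hW, hW2, hW3⟩ := h1 θ hθ s hs c hB
        exact ⟨W, hW, hW2, hW2, hW3⟩) N le_rfl
    obtain ⟨x, hx, hx2⟩ := h2 θ hθ c hc2
    exact ⟨c, x, hc1, hx, hx2⟩
  obtain ⟨θ, hθ, hθ1, hθ2⟩ := FPK.fp E K hK hc hne f hf hcc g (by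
    intro k x
    rw [hg]
    rcases k with ⟨s, _ | k⟩ | _ | k
    · exact continuousOn_const
    · exact hbad s.1 s.2 k _ _
    · exact continuousOn_const
    · exact hbl k _ _) (by
    intro θ hθ
    obtain ⟨c, x, hc1, hx, hx2⟩ := hex θ hθ
    refine ⟨(c, x), fun k => ?_⟩
    rw [hg]
    rcases k with ⟨s, _ | k⟩ | _ | k
    · exact (if_pos ⟨(hc1 s.1 s.2).1, (hc1 s.1 s.2).2.1⟩).le
    · exact (hc1 s.1 s.2).2.2 k
    · exact (if_pos hx).le
    · exact hx2 k)
  refine ⟨θ, hθ, hθ1, fun c x hcx => ?_⟩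
  have h3 : ∀ k, g k θ (c, x) ≤ 0 := by
    intro k
    by_contra h
    rw [not_le] at h
    exact hcx (hθ2 _ ⟨k, h⟩)
  rw [hg] at h3
  refine ⟨fun s hs => ?_, ?_, fun k => h3 (.inr (some k))⟩
  · have h4 : wd c (s + 1) ⊆ wd c s ∧ Big (s + 1) (wd c (s + 1)) := by
      have h5 := h3 (.inl (⟨s, hs⟩, none))
      by_contra h6
      simp only [if_neg h6] at h5
      exact absurd h5 (by norm_num)
    exact ⟨h4.1, h4.2, fun k => h3 (.inl (⟨s, hs⟩, some k))⟩
  · have h5 := h3 (.inr none)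
    by_contra h6
    simp only [if_neg h6] at h5
    exact absurd h5 (by norm_num)

end Pool.Agent.Lib.GSR
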