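import Pool.Agent.Lib.FGF.Ram

/-!
# Ramsey's theorem for the ranks of the masters

`simRam`: simultaneous Ramsey theorem for sets of the sizes `0, ..., n`.
`rkRam`: if masters exist for the empty set of stages and the pairs `(C, s)` with `β C s` add the
stage `s` to the set `C`, but no set with `n` elements has masters, then on a large subpool all the
sets `C` with a fixed number `m < n` of elements have masters and no pair `(C, s)`, `s` above `C`,
satisfies `β`.
`few_of`: the set of stages of a pair `(x, t)` at which the lower part has fewer than `m` elements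
of `T` has at most `m` elements in `T`.
-/

set_option autoImplicit false

namespace Pool.Agent.Lib.GSR

open Finset Classical

/-- Simultaneous Ramsey theorem. -/
theorem simRam {k : ℕ} (hk : 1 ≤ k) (n : ℕ) : ∀ N : ℕ, ∃ R : ℕ, ∀ (col : ℕ → Finset ℕ → ℕ)
    (A : Finset ℕ), (∀ r S, col r S < k) → R ≤ A.card →
      ∃ B, B ⊆ A ∧ B.card = N ∧ ∃ i : ℕ → ℕ, (∀ r, i r < k) ∧
        ∀ r ≤ n, ∀ S, S ⊆ B → S.card = r → col r S = i r := by
  induction n with
  | zero =>
    intro N
    refine ⟨N, fun col A hcol hA => ?_⟩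
    obtain ⟨B, hBA, hBc⟩ := Finset.exists_subset_card_eq hA
    refine ⟨B, hBA, hBc, fun r => col r ∅, fun r => hcol r ∅, fun r hr S _ hS => ?_⟩
    have h0 : r = 0 := by omega
    subst h0
    rw [Finset.card_eq_zero.1 hS]
  | succ n ih =>
    intro N
    obtain ⟨R1, hR1⟩ := FGF.Ram.one hk (n + 1) N
    obtain ⟨R, hR⟩ := ih R1
    refine ⟨R, fun col A hcol hA => ?_⟩
    obtain ⟨B1, hB1A, hB1c, i, hik, hi⟩ := hR col A hcol hA
    obtain ⟨B, hBB1, hBc, j, hj⟩ := hR1 (col (n + 1)) B1 (hcol (n + 1)) hB1c.ge
    by_cases hjk : j < k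
    · refine ⟨B, hBB1.trans hB1A, hBc, fun r => if r ≤ n then i r else j, fun r => ?_, ?_⟩
      · simp only
        split_ifs
        · exact hik r
        · exact hjk
      · intro r hr S hS hSc
        simp only
        split_ifs with h
        · exact hi r h S (hS.trans hBB1) hSc
        · have h1 : r = n + 1 := by omega
          subst h1
          exact hj S hS hSc
    · refine ⟨B, hBB1.trans hB1A, hBc, i, hik, ?_⟩
      intro r hr S hS hSc
      by_cases h : r ≤ n
      · exact hi r h S (hS.trans hBB1) hSc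
      · have h1 : r = n + 1 := by omega
        subst h1
        exact absurd ((hj S hS hSc) ▸ hcol (n + 1) S) hjk

/-- The ranks: the first size of the sets `C` for which the masters do not grow. -/
theorem rkRam (n q : ℕ) : ∃ N : ℕ, ∀ (β : Finset ℕ → ℕ → Prop) (M : Finset ℕ → Prop)
    (A : Finset ℕ), N ≤ A.card → M ∅ →
      (∀ C s, C ⊆ A → s ∈ A → (∀ c ∈ C, c < s) → β C s → M C → M (insert s C)) →
      (∀ C, C ⊆ A → C.card = n → ¬ M C) →
        ∃ P, P ⊆ A ∧ P.card = q ∧ ∃ m < n, (∀ C, C ⊆ P → C.card = m → M C) ∧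
          ∀ C, C ⊆ P → C.card = m → ∀ s ∈ P, (∀ c ∈ C, c < s) → ¬ β C s := by
  obtain ⟨N, hN⟩ := simRam (k := 2) (by norm_num) (n + 1) (max q n)
  refine ⟨N, fun β M A hA h0 hstep hno => ?_⟩
  obtain ⟨B, hBA, hBc, i, hik, hi⟩ := hN (fun _ S => if h : S.Nonempty then
      (if β (S.erase (S.max' h)) (S.max' h) then 1 else 0) else 0) A (by
    intro r S
    split_ifs <;> norm_num) hA
  have hmax : ∀ (C : Finset ℕ) (s : ℕ), (∀ c ∈ C, c < s) → ∀ h : (insert s C).Nonempty,
      (insert s C).max' h = s := by
    intro C s hs h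
    refine le_antisymm ?_ (Finset.le_max' _ _ (Finset.mem_insert_self _ _))
    refine Finset.max'_le _ _ _ ?_
    intro y hy
    rcases Finset.mem_insert.1 hy with rfl | hy
    · exact le_rfl
    · exact (hs y hy).le
  have hnot : ∀ (C : Finset ℕ) (s : ℕ), (∀ c ∈ C, c < s) → s ∉ C := fun C s hs h =>
    lt_irrefl _ (hs s h)
  have hcol : ∀ (C : Finset ℕ) (s : ℕ), C ⊆ B → s ∈ B → (∀ c ∈ C, c < s) → C.card ≤ n →
      (β C s ↔ i (C.card + 1) = 1) := by
    intro C s hC hs hlt hc
    have h1 := hi (C.card + 1) (by omega) (insert s C) (Finset.insert_subset hs hC)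
      (Finset.card_insert_of_notMem (hnot C s hlt))
    rw [dif_pos (Finset.insert_nonempty s C), hmax C s hlt, Finset.erase_insert (hnot C s hlt)] at h1
    rw [← h1]
    split_ifs with h2
    · simp [h2]
    · simp [h2]
  have hM : ∀ m, (∀ j < m, i (j + 1) = 1) → m ≤ n → ∀ C, C ⊆ B → C.card = m → M C := by
    intro m
    induction m with
    | zero =>
      intro _ _ C _ hC
      rw [Finset.card_eq_zero.1 hC]
      exact h0
    | succ m ih =>
      intro hj hm C hC hCc
      have hne : C.Nonempty := by
        rw [← Finset.card_pos]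
        omega
      have hms := C.max'_mem hne
      have hlt : ∀ c ∈ C.erase (C.max' hne), c < C.max' hne := by
        intro c hc
        exact lt_of_le_of_ne (C.le_max' c (Finset.mem_of_mem_erase hc)) (Finset.ne_of_mem_erase hc)
      have hc1 : (C.erase (C.max' hne)).card = m := by
        rw [Finset.card_erase_of_mem hms, hCc]
        rfl
      have hsub : C.erase (C.max' hne) ⊆ B := (Finset.erase_subset _ _).trans hC
      have h1 := ih (fun j hj' => hj j (by omega)) (by omega) _ hsub hc1
      have h2 : β (C.erase (C.max' hne)) (C.max' hne) := by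
        rw [hcol _ _ hsub (hC hms) hlt (by omega), hc1]
        exact hj m (by omega)
      have h3 := hstep _ _ (hsub.trans hBA) (hBA (hC hms)) hlt h2 h1
      rwa [Finset.insert_erase hms] at h3
  have hex : ∃ m, m < n ∧ i (m + 1) ≠ 1 := by
    by_contra hcon
    push Not at hcon
    obtain ⟨C, hCB, hCc⟩ := Finset.exists_subset_card_eq (s := B) (n := n) (by omega)
    exact hno C (hCB.trans hBA) hCc (hM n hcon le_rfl C hCB hCc)
  obtain ⟨P, hPB, hPc⟩ := Finset.exists_subset_card_eq (s := B) (n := q) (by omega)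
  have hm := Nat.find_spec hex
  have hlow : ∀ j < Nat.find hex, i (j + 1) = 1 := by
    intro j hj
    by_contra h
    exact Nat.find_min hex hj ⟨lt_trans hj hm.1, h⟩
  refine ⟨P, hPB.trans hBA, hPc, Nat.find hex, hm.1, ?_, ?_⟩
  · intro C hC hCc
    exact hM _ hlow hm.1.le C (hC.trans hPB) hCc
  · intro C hC hCc s hs hlt hβ
    rw [hcol C s (hC.trans hPB) (hPB hs) hlt (by omega), hCc] at hβ
    exact hm.2 hβ

/-- At most `m` stages of `T` have fewer than `m` stages of `T` below them. -/
theorem few_of (T : Finset ℕ) (m : ℕ) :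
    (T.filter fun s => (T.filter fun c => c < s).card < m).card ≤ m := by
  by_contra hcon
  rw [not_le] at hcon
  set S := T.filter fun s => (T.filter fun c => c < s).card < m with hS
  have hne : S.Nonempty := by
    rw [← Finset.card_pos]
    omega
  have h1 := S.max'_mem hne
  have h2 : S.erase (S.max' hne) ⊆ T.filter fun c => c < S.max' hne := by
    intro c hc
    rw [Finset.mem_filter]
    exact ⟨(Finset.mem_filter.1 (Finset.mem_of_mem_erase hc)).1,
      lt_of_le_of_ne (S.le_max' c (Finset.mem_of_mem_erase hc)) (Finset.ne_of_mem_erase hc)⟩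
  have h3 := Finset.card_le_card h2
  rw [Finset.card_erase_of_mem h1] at h3
  have h4 := (Finset.mem_filter.1 h1).2
  omega

end Pool.Agent.Lib.GSR
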