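import Pool.Agent.Lib.GSR.SLDefs

/-!
# Self-linked parts of incidences in graphs without an induced tree: proof
-/

set_option autoImplicit false

namespace Pool.Agent.Lib.GSR

open Finset Classical
open Pool.Agent.Lib.GSR3 (Stab Tree)
open Pool.Agent.Lib.FGF (Frac)
open Pool.Agent.Lib.FracGS (TAdj)

namespace SL_

lemma mf {α : Type} {s : Finset α} {p : α → Prop} {d : DecidablePred p} {a : α} :
    a ∈ @Finset.filter α p d s ↔ a ∈ s ∧ p a := Finset.mem_filter

/-! ### Words and indices -/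

/-- The index of a word. -/
def ix {M : ℕ} : List (Fin M) → ℕ
  | [] => 0
  | t :: u => (M + 1) * ix u + (t.1 + 1)

lemma ix_div {M : ℕ} (t : Fin M) (u : List (Fin M)) : ix (t :: u) / (M + 1) = ix u := by
  have h : ix (t :: u) = (t.1 + 1) + (M + 1) * ix u := by
    unfold ix
    rw [Nat.add_comm]
    cases u <;> rfl
  rw [h, Nat.add_mul_div_left _ _ (Nat.succ_pos M), Nat.div_eq_of_lt (by have := t.2; omega),
    zero_add]

lemma ix_mod {M : ℕ} (t : Fin M) (u : List (Fin M)) : ix (t :: u) % (M + 1) = t.1 + 1 := by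
  have h : ix (t :: u) = (t.1 + 1) + (M + 1) * ix u := by
    unfold ix
    rw [Nat.add_comm]
    cases u <;> rfl
  rw [h, Nat.add_mul_mod_self_left, Nat.mod_eq_of_lt (by have := t.2; omega)]

lemma ix_pos {M : ℕ} (t : Fin M) (u : List (Fin M)) : 0 < ix (t :: u) := by
  rcases Nat.eq_zero_or_pos (ix (t :: u)) with h | h
  · have h1 := ix_mod t u
    rw [h, Nat.zero_mod] at h1
    omega
  · exact h

lemma ix_inj {M : ℕ} : ∀ u v : List (Fin M), ix u = ix v → u = v
  | [], [] => fun _ => rfl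
  | [], t :: v => fun h => absurd (h.symm ▸ ix_pos t v : 0 < ix ([] : List (Fin M)))
      (by unfold ix; exact lt_irrefl 0)
  | t :: u, [] => fun h => absurd (h ▸ ix_pos t u : 0 < ix ([] : List (Fin M)))
      (by unfold ix; exact lt_irrefl 0)
  | t :: u, s :: v => fun h => by
    have h1 := ix_div t u
    have h2 := ix_mod t u
    rw [h, ix_div] at h1
    rw [h, ix_mod] at h2
    have h3 : t = s := Fin.ext (by omega)
    rw [h3, ix_inj u v h1.symm]

lemma ix_le {M : ℕ} (h : ℕ) : ∀ u : List (Fin M), u.length ≤ h → ix u ≤ (M + 1) ^ h := by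
  intro u hu
  have key : ∀ u : List (Fin M), ix u < (M + 1) ^ u.length := by
    intro u
    induction u with
    | nil => unfold ix; simp
    | cons t u ih =>
      have h1 : ix (t :: u) = (M + 1) * ix u + (t.1 + 1) := by
        cases u <;> rfl
      rw [h1, List.length_cons, pow_succ]
      have h2 := t.2
      have h3 : (M + 1) * (ix u + 1) ≤ (M + 1) * (M + 1) ^ u.length :=
        Nat.mul_le_mul_left _ ih
      nlinarith
  exact (key u).le.trans (Nat.pow_le_pow_right (Nat.succ_pos M) hu)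

/-! ### Trimming -/

lemma trim {V Ω : Type} (r : V → ℝ) (w : Ω → ℝ) (p : V → ℝ) (q : Ω → ℝ)
    (hp : ∀ x, 0 ≤ p x) (hq : ∀ o, 0 ≤ q o) (c : ℝ) (hc : 0 ≤ c) (f : V × Ω → ℝ) :
    ∀ S : Finset (V × Ω), (∀ e ∈ S, f e = p e.1 * w e.2) → (∀ e ∈ S, f e = q e.2 * r e.1) →
      ∃ S' ⊆ S, (∀ e ∈ S', c ≤ ∑ e' ∈ S' with e'.1 = e.1, w e'.2) ∧
        (∀ e ∈ S', c ≤ ∑ e' ∈ S' with e'.2 = e.2, r e'.1) ∧
        ∑ e ∈ S, f e ≤ ∑ e ∈ S', f e + c * ∑ x ∈ S.image Prod.fst, p x +
          c * ∑ o ∈ S.image Prod.snd, q o := by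
  intro S
  induction S using Finset.strongInduction with
  | H S ih =>
    intro h1 h2
    by_cases hx : ∃ e ∈ S, ∑ e' ∈ S with e'.1 = e.1, w e'.2 < c
    · obtain ⟨e, he, hlt⟩ := hx
      have hss : S.filter (fun e' => e'.1 ≠ e.1) ⊂ S := by
        refine Finset.filter_ssubset.2 ⟨e, he, ?_⟩
        simp
      obtain ⟨S', hS', h3, h4, h5⟩ := ih _ hss (fun e' h => h1 e' (Finset.mem_filter.1 h).1)
        (fun e' h => h2 e' (Finset.mem_filter.1 h).1)
      refine ⟨S', hS'.trans (Finset.filter_subset _ _), h3, h4, ?_⟩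
      have h6 : ∑ e' ∈ S, f e' = ∑ e' ∈ S with e'.1 = e.1, f e' +
          ∑ e' ∈ S with e'.1 ≠ e.1, f e' := (Finset.sum_filter_add_sum_filter_not _ _ _).symm
      have h7 : ∑ e' ∈ S with e'.1 = e.1, f e' ≤ c * p e.1 := by
        have h8 : ∑ e' ∈ S with e'.1 = e.1, f e' = p e.1 * ∑ e' ∈ S with e'.1 = e.1, w e'.2 := by
          rw [Finset.mul_sum]
          refine Finset.sum_congr rfl fun e' he' => ?_
          rw [Finset.mem_filter] at he'
          rw [h1 e' he'.1, he'.2]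
        rw [h8, mul_comm c]
        exact mul_le_mul_of_nonneg_left hlt.le (hp _)
      have h9 : p e.1 + ∑ x ∈ (S.filter (fun e' => e'.1 ≠ e.1)).image Prod.fst, p x ≤
          ∑ x ∈ S.image Prod.fst, p x := by
        have h10 : e.1 ∉ (S.filter (fun e' => e'.1 ≠ e.1)).image Prod.fst := by
          intro h
          obtain ⟨e', he', h11⟩ := Finset.mem_image.1 h
          exact (Finset.mem_filter.1 he').2 h11
        rw [← Finset.sum_insert h10]
        refine Finset.sum_le_sum_of_subset_of_nonneg ?_ fun x _ _ => hp x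
        intro x hx
        rw [Finset.mem_insert] at hx
        rcases hx with rfl | hx
        · exact Finset.mem_image_of_mem _ he
        · exact Finset.image_subset_image (Finset.filter_subset _ _) hx
      have h11 : ∑ o ∈ (S.filter (fun e' => e'.1 ≠ e.1)).image Prod.snd, q o ≤
          ∑ o ∈ S.image Prod.snd, q o :=
        Finset.sum_le_sum_of_subset_of_nonneg
          (Finset.image_subset_image (Finset.filter_subset _ _)) fun o _ _ => hq o
      have h12 := mul_le_mul_of_nonneg_left h9 hc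
      have h13 := mul_le_mul_of_nonneg_left h11 hc
      rw [h6]
      linarith
    · by_cases ho : ∃ e ∈ S, ∑ e' ∈ S with e'.2 = e.2, r e'.1 < c
      · obtain ⟨e, he, hlt⟩ := ho
        have hss : S.filter (fun e' => e'.2 ≠ e.2) ⊂ S := by
          refine Finset.filter_ssubset.2 ⟨e, he, ?_⟩
          simp
        obtain ⟨S', hS', h3, h4, h5⟩ := ih _ hss (fun e' h => h1 e' (Finset.mem_filter.1 h).1)
          (fun e' h => h2 e' (Finset.mem_filter.1 h).1)
        refine ⟨S', hS'.trans (Finset.filter_subset _ _), h3, h4, ?_⟩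
        have h6 : ∑ e' ∈ S, f e' = ∑ e' ∈ S with e'.2 = e.2, f e' +
            ∑ e' ∈ S with e'.2 ≠ e.2, f e' := (Finset.sum_filter_add_sum_filter_not _ _ _).symm
        have h7 : ∑ e' ∈ S with e'.2 = e.2, f e' ≤ c * q e.2 := by
          have h8 : ∑ e' ∈ S with e'.2 = e.2, f e' =
              q e.2 * ∑ e' ∈ S with e'.2 = e.2, r e'.1 := by
            rw [Finset.mul_sum]
            refine Finset.sum_congr rfl fun e' he' => ?_
            rw [Finset.mem_filter] at he'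
            rw [h2 e' he'.1, he'.2]
          rw [h8, mul_comm c]
          exact mul_le_mul_of_nonneg_left hlt.le (hq _)
        have h9 : q e.2 + ∑ o ∈ (S.filter (fun e' => e'.2 ≠ e.2)).image Prod.snd, q o ≤
            ∑ o ∈ S.image Prod.snd, q o := by
          have h10 : e.2 ∉ (S.filter (fun e' => e'.2 ≠ e.2)).image Prod.snd := by
            intro h
            obtain ⟨e', he', h11⟩ := Finset.mem_image.1 h
            exact (Finset.mem_filter.1 he').2 h11
          rw [← Finset.sum_insert h10]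
          refine Finset.sum_le_sum_of_subset_of_nonneg ?_ fun x _ _ => hq x
          intro x hx
          rw [Finset.mem_insert] at hx
          rcases hx with rfl | hx
          · exact Finset.mem_image_of_mem _ he
          · exact Finset.image_subset_image (Finset.filter_subset _ _) hx
        have h11 : ∑ x ∈ (S.filter (fun e' => e'.2 ≠ e.2)).image Prod.fst, p x ≤
            ∑ x ∈ S.image Prod.fst, p x :=
          Finset.sum_le_sum_of_subset_of_nonneg
            (Finset.image_subset_image (Finset.filter_subset _ _)) fun o _ _ => hp o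
        have h12 := mul_le_mul_of_nonneg_left h9 hc
        have h13 := mul_le_mul_of_nonneg_left h11 hc
        rw [h6]
        linarith
      · push Not at hx ho
        refine ⟨S, subset_rfl, hx, ho, ?_⟩
        have h3 : 0 ≤ c * ∑ x ∈ S.image Prod.fst, p x :=
          mul_nonneg hc (Finset.sum_nonneg fun x _ => hp x)
        have h4 : 0 ≤ c * ∑ o ∈ S.image Prod.snd, q o :=
          mul_nonneg hc (Finset.sum_nonneg fun x _ => hq x)
        linarith

/-! ### Stable sets -/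

lemma frac_pairs {V Ω : Type} [Fintype V] {G : SimpleGraph V} {F : ℝ} (hF : Frac G F)
    (S : Finset (V × Ω)) (f : V × Ω → ℝ) (hf : ∀ e, 0 ≤ f e) (g : V × Ω → V) :
    ∃ J : Finset V, Stab G J ∧ ∑ e ∈ S, f e ≤ F * ∑ e ∈ S with g e ∈ J, f e := by
  obtain ⟨J, hJ, h⟩ := hF (fun y => ∑ e ∈ S with g e = y, f e)
    (fun y => Finset.sum_nonneg fun e _ => hf e)
  refine ⟨J, hJ, ?_⟩
  have h1 : ∑ e ∈ S, f e = ∑ y, ∑ e ∈ S with g e = y, f e :=
    (Finset.sum_fiberwise S g f).symm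
  have h2 : ∑ y ∈ J, ∑ e ∈ S with g e = y, f e = ∑ e ∈ S with g e ∈ J, f e := by
    rw [Finset.sum_filter]
    simp_rw [Finset.sum_filter]
    rw [Finset.sum_comm]
    refine Finset.sum_congr rfl fun e _ => ?_
    rw [Finset.sum_ite_eq]
  rw [h1, ← h2]
  exact h

/-! ### Monotonicity and atoms -/

lemma kap_mono {V Ω : Type} {A A' : Finset V} {O O' : Finset Ω} {E E' : V → Ω → Prop}
    {r : V → ℝ} {w : Ω → ℝ} (r0 : ∀ x, 0 ≤ r x) (w0 : ∀ o, 0 ≤ w o) (hA : A' ⊆ A) (hO : O' ⊆ O)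
    (hE : ∀ x ∈ A', ∀ o ∈ O', E' x o → E x o) (x : V) (hx : x ∈ A') (o : Ω) (ho : o ∈ O') :
    TCH.kap A' O' E' r w x o ≤ TCH.kap A O E r w x o := by
  unfold TCH.kap
  refine le_trans (Finset.sum_le_sum
      (g := fun x' => r x' * ∑ o' ∈ O with E x o' ∧ E x' o', w o') fun x' hx' => ?_)
    (Finset.sum_le_sum_of_subset_of_nonneg ?_ fun x' _ _ => ?_)
  · rw [Finset.mem_filter] at hx'
    refine mul_le_mul_of_nonneg_left ?_ (r0 x')
    refine Finset.sum_le_sum_of_subset_of_nonneg ?_ fun o' _ _ => w0 o'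
    intro o' ho'
    rw [Finset.mem_filter] at ho' ⊢
    exact ⟨hO ho'.1, hE x hx o' ho'.1 ho'.2.1, hE x' hx'.1 o' ho'.1 ho'.2.2⟩
  · intro x' hx'
    rw [Finset.mem_filter] at hx' ⊢
    exact ⟨hA hx'.1, hE x' hx'.1 o ho hx'.2⟩
  · exact mul_nonneg (r0 x') (Finset.sum_nonneg fun o' _ => w0 o')

lemma kap_ge_r {V Ω : Type} {A : Finset V} {O : Finset Ω} {E : V → Ω → Prop} {r : V → ℝ}
    {w : Ω → ℝ} (r0 : ∀ x, 0 ≤ r x) (w0 : ∀ o, 0 ≤ w o) (x : V) (hx : x ∈ A) (o : Ω)
    (hxo : E x o) : r x * ∑ o' ∈ O with E x o', w o' ≤ TCH.kap A O E r w x o := by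
  unfold TCH.kap
  have h := Finset.single_le_sum
    (f := fun x' => r x' * ∑ o' ∈ O with E x o' ∧ E x' o', w o') (s := A.filter fun x' => E x' o)
    (fun x' _ => mul_nonneg (r0 x') (Finset.sum_nonneg fun o' _ => w0 o'))
    (Finset.mem_filter.2 ⟨hx, hxo⟩)
  simp only [and_self] at h
  exact h

lemma kap_ge_w {V Ω : Type} {A : Finset V} {O : Finset Ω} {E : V → Ω → Prop} {r : V → ℝ}
    {w : Ω → ℝ} (r0 : ∀ x, 0 ≤ r x) (w0 : ∀ o, 0 ≤ w o) (x : V) (o : Ω) (ho : o ∈ O)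
    (hxo : E x o) : w o * ∑ x' ∈ A with E x' o, r x' ≤ TCH.kap A O E r w x o := by
  unfold TCH.kap
  rw [Finset.mul_sum]
  refine Finset.sum_le_sum fun x' hx' => ?_
  rw [Finset.mem_filter] at hx'
  rw [mul_comm (w o)]
  refine mul_le_mul_of_nonneg_left ?_ (r0 x')
  exact Finset.single_le_sum (fun o' _ => w0 o') (Finset.mem_filter.2 ⟨ho, hxo, hx'.2⟩)

/-- Few pairs contain an atom. -/
lemma atoms {ι κ : Type} (R : Finset ι) (f k a : ι → ℝ) (key : ι → κ) (b p : κ → ℝ)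
    (T : Finset κ) (hf : ∀ e, 0 ≤ f e) (hk : ∀ e ∈ R, a e * b (key e) ≤ k e) (hb : ∀ j, 0 ≤ b j)
    (hk0 : ∀ e ∈ R, 0 ≤ k e) (hT : ∀ e ∈ R, key e ∈ T) (hp : ∀ j, 0 ≤ p j)
    (hs : ∀ j ∈ T, ∑ e ∈ R with key e = j, f e ≤ p j * b j) (α c K D : ℝ) (hα : 0 < α)
    (hc : 0 < c) (hpK : ∑ j ∈ T, p j ≤ K) (hD : ∑ e ∈ R, f e * k e ≤ D) :
    ∑ e ∈ R with α < a e, f e ≤ c * K + D / (α * c) := by
  have h1 : ∑ e ∈ R with α < a e, f e ≤ ∑ e ∈ R with b (key e) < c, f e +
      ∑ e ∈ R, f e * k e / (α * c) := by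
    rw [Finset.sum_filter, Finset.sum_filter, ← Finset.sum_add_distrib]
    refine Finset.sum_le_sum fun e he => ?_
    have h2 : 0 ≤ f e * k e / (α * c) :=
      div_nonneg (mul_nonneg (hf e) (hk0 e he)) (mul_pos hα hc).le
    split_ifs with h3 h4 h4
    · linarith
    · rw [zero_add, le_div_iff₀ (mul_pos hα hc)]
      refine mul_le_mul_of_nonneg_left ?_ (hf e)
      refine le_trans ?_ (hk e he)
      exact mul_le_mul h3.le (not_lt.1 h4) hc.le (hα.le.trans h3.le)
    · linarith [hf e]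
    · linarith
  have h5 : ∑ e ∈ R with b (key e) < c, f e ≤ c * K := by
    have h6 : ∑ e ∈ R with b (key e) < c, f e = ∑ j ∈ T,
        ∑ e ∈ R.filter (fun e => b (key e) < c) with key e = j, f e :=
      (Finset.sum_fiberwise_of_maps_to (fun e he => hT e (Finset.mem_filter.1 he).1) f).symm
    rw [h6]
    refine le_trans (Finset.sum_le_sum fun j hj => ?_)
      (le_trans (le_of_eq (Finset.mul_sum T p c).symm) (mul_le_mul_of_nonneg_left hpK hc.le))
    by_cases hbj : b j < c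
    · refine le_trans ?_ (le_trans (hs j hj) ?_)
      · refine Finset.sum_le_sum_of_subset_of_nonneg ?_ fun e _ _ => hf e
        intro e he
        rw [Finset.mem_filter, Finset.mem_filter] at he
        exact Finset.mem_filter.2 ⟨he.1.1, he.2⟩
      · rw [mul_comm]
        exact mul_le_mul_of_nonneg_right hbj.le (hp j)
    · rw [Finset.sum_eq_zero]
      · exact mul_nonneg hc.le (hp j)
      · intro e he
        rw [Finset.mem_filter, Finset.mem_filter] at he
        rw [he.2] at he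
        exact absurd he.1.2 hbj
  have h7 : ∑ e ∈ R, f e * k e / (α * c) ≤ D / (α * c) := by
    rw [← Finset.sum_div]
    exact div_le_div_of_nonneg_right hD (mul_pos hα hc).le
  linarith

/-! ### The tree -/

/-- The vertex of a node or a label. -/
def vtx {V Ω : Type} (hub : Ω → V) : V ⊕ Ω → V
  | .inl x => x
  | .inr o => hub o

/-- The tree without conflicts. -/
lemma tree_of {V Ω κ : Type} (G : SimpleGraph V) (A : Finset V) (O : Finset Ω) (hub : Ω → V)
    (kx : V → κ) (ko : Ω → κ) (S : V → Ω → Prop) (I J : Finset V) (hI : Stab G I)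
    (hJ : Stab G J) (hSI : ∀ x ∈ A, ∀ o ∈ O, S x o → x ∈ I ∧ hub o ∈ J)
    (hS : ∀ x ∈ A, ∀ o ∈ O, S x o → G.Adj x (hub o) ∧ kx x = ko o)
    (hne : ∀ x ∈ A, ∃ o ∈ O, S x o)
    (hinj : ∀ o ∈ O, ∀ o' ∈ O, ko o = ko o' → hub o = hub o' → o = o') (M h : ℕ)
    (φ : ℕ → V ⊕ Ω) (h0 : ∃ x ∈ A, φ 0 = Sum.inl x)
    (hE : ∀ j, 1 ≤ j → j ≤ (M + 1) ^ h → TCH.EP A O S (φ (j / (M + 1))) (φ j))
    (hC : ∀ j ≤ (M + 1) ^ h, ∀ i < j, i ≠ j / (M + 1) →
      ¬ TCH.CP (fun x o => G.Adj x (hub o) ∧ kx x = ko o) (fun x x' => x = x')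
        (fun o o' => o = o') (φ i) (φ j)) :
    Tree G h M fun u => vtx hub (φ (ix u)) := by
  -- the types, the keys
  have hM : ∀ j, 1 ≤ j → j / (M + 1) < j ∨ M = 0 := by
    intro j hj
    rcases Nat.eq_zero_or_pos M with h1 | h1
    · exact Or.inr h1
    · exact Or.inl (Nat.div_lt_self hj (by omega))
  have hst : ∀ u : List (Fin M), u.length ≤ h →
      (∃ x ∈ A, φ (ix u) = Sum.inl x ∧ ∀ x0, φ 0 = Sum.inl x0 → kx x = kx x0) ∨
      (∃ o ∈ O, φ (ix u) = Sum.inr o ∧ (∃ x ∈ A, S x o) ∧ ∀ x0, φ 0 = Sum.inl x0 → ko o = kx x0) := by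
    intro u
    induction u with
    | nil =>
      intro _
      obtain ⟨x, hx, hx0⟩ := h0
      refine Or.inl ⟨x, hx, hx0, fun x0 h1 => ?_⟩
      rw [hx0] at h1
      rw [Sum.inl.inj h1]
    | cons t u ih =>
      intro hu
      have h1 := ih (by rw [List.length_cons] at hu; omega)
      have h2 := hE (ix (t :: u)) (ix_pos t u) (ix_le h (t :: u) hu)
      rw [ix_div] at h2
      rcases h1 with ⟨x, hx, hx1, hx2⟩ | ⟨o, ho, ho1, -, ho2⟩
      · rw [hx1] at h2
        cases h3 : φ (ix (t :: u)) with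
        | inl x' =>
          rw [h3] at h2
          exact h2.elim
        | inr o =>
          rw [h3] at h2
          obtain ⟨h4, h5, h6⟩ := h2
          refine Or.inr ⟨o, h5, rfl, ⟨x, hx, h6⟩, fun x0 h7 => ?_⟩
          rw [← hx2 x0 h7]
          exact (hS x hx o h5 h6).2.symm
      · rw [ho1] at h2
        cases h3 : φ (ix (t :: u)) with
        | inl x =>
          rw [h3] at h2
          obtain ⟨h4, h5, h6⟩ := h2
          refine Or.inl ⟨x, h4, rfl, fun x0 h7 => ?_⟩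
          rw [← ho2 x0 h7]
          exact (hS x h4 o ho h6).2
        | inr o' =>
          rw [h3] at h2
          exact h2.elim
  obtain ⟨x0, hx0A, hx0⟩ := h0
  -- adjacency of parents
  have hpar : ∀ (t : Fin M) (u : List (Fin M)), (t :: u).length ≤ h →
      G.Adj (vtx hub (φ (ix u))) (vtx hub (φ (ix (t :: u)))) := by
    intro t u hu
    have h2 := hE (ix (t :: u)) (ix_pos t u) (ix_le h (t :: u) hu)
    rw [ix_div] at h2
    cases h3 : φ (ix u) with
    | inl x =>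
      cases h4 : φ (ix (t :: u)) with
      | inl x' =>
        rw [h3, h4] at h2
        exact h2.elim
      | inr o =>
        rw [h3, h4] at h2
        exact (hS x h2.1 o h2.2.1 h2.2.2).1
    | inr o =>
      cases h4 : φ (ix (t :: u)) with
      | inl x =>
        rw [h3, h4] at h2
        exact (hS x h2.1 o h2.2.1 h2.2.2).1.symm
      | inr o' =>
        rw [h3, h4] at h2
        exact h2.elim
  -- all the other pairs
  have hoth : ∀ u v : List (Fin M), u.length ≤ h → v.length ≤ h → ix u < ix v →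
      ix u ≠ ix v / (M + 1) → vtx hub (φ (ix u)) ≠ vtx hub (φ (ix v)) ∧
        ¬ G.Adj (vtx hub (φ (ix u))) (vtx hub (φ (ix v))) := by
    intro u v hu hv hlt hne'
    have h2 := hC (ix v) (ix_le h v hv) (ix u) hlt hne'
    rcases hst u hu with ⟨x, hx, hx1, hx2⟩ | ⟨o, ho, ho1, ⟨y, hy, hyo⟩, ho2⟩
    · rcases hst v hv with ⟨x', hx', hx1', hx2'⟩ | ⟨o', ho', ho1', ⟨y', hy', hyo'⟩, ho2'⟩
      · rw [hx1, hx1'] at h2 ⊢
        obtain ⟨p, hp, hxp⟩ := hne x hx
        obtain ⟨p', hp', hxp'⟩ := hne x' hx'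
        refine ⟨fun h3 => h2 (Or.inl h3), ?_⟩
        exact hI x (hSI x hx p hp hxp).1 x' (hSI x' hx' p' hp' hxp').1
      · rw [hx1, ho1'] at h2 ⊢
        refine ⟨?_, fun h3 => h2 ⟨h3, ?_⟩⟩
        · intro h3
          have h4 : x = hub o' := h3
          obtain ⟨p, hp, hxp⟩ := hne x hx
          have h5 := (hS x hx p hp hxp).1
          have h6 := (hSI x hx p hp hxp).2
          have h7 := (hSI y' hy' o' ho' hyo').2
          rw [← h4] at h7
          exact hJ x h7 (hub p) h6 h5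
        · rw [hx2 x0 hx0, ho2' x0 hx0]
    · rcases hst v hv with ⟨x', hx', hx1', hx2'⟩ | ⟨o', ho', ho1', ⟨y', hy', hyo'⟩, ho2'⟩
      · rw [ho1, hx1'] at h2 ⊢
        refine ⟨?_, fun h3 => h2 ⟨h3.symm, ?_⟩⟩
        · intro h3
          have h4 : hub o = x' := h3
          obtain ⟨p, hp, hxp⟩ := hne x' hx'
          have h5 := (hS x' hx' p hp hxp).1
          have h6 := (hSI x' hx' p hp hxp).2
          have h7 := (hSI y hy o ho hyo).2
          rw [h4] at h7
          exact hJ x' h7 (hub p) h6 h5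
        · rw [hx2' x0 hx0, ho2 x0 hx0]
      · rw [ho1, ho1'] at h2 ⊢
        refine ⟨?_, ?_⟩
        · intro h3
          have h4 : hub o = hub o' := h3
          exact h2 (Or.inl (hinj o ho o' ho' ((ho2 x0 hx0).trans (ho2' x0 hx0).symm) h4))
        · exact hJ (hub o) (hSI y hy o ho hyo).2 (hub o') (hSI y' hy' o' ho' hyo').2
  -- the parent relation
  have hpr : ∀ u v : List (Fin M), ix u < ix v → ix u = ix v / (M + 1) → ∃ t, v = t :: u := by
    intro u v hlt he
    cases v with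
    | nil => exact absurd hlt (Nat.not_lt_zero _)
    | cons t v =>
      rw [ix_div] at he
      exact ⟨t, by rw [ix_inj u v he]⟩
  constructor
  · intro u v hu hv huv
    by_contra hne'
    have h3 : ix u ≠ ix v := fun h4 => hne' (ix_inj u v h4)
    rcases lt_or_gt_of_ne h3 with h4 | h4
    · by_cases h5 : ix u = ix v / (M + 1)
      · obtain ⟨t, rfl⟩ := hpr u v h4 h5
        exact (hpar t u hv).ne huv
      · exact (hoth u v hu hv h4 h5).1 huv
    · by_cases h5 : ix v = ix u / (M + 1)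
      · obtain ⟨t, rfl⟩ := hpr v u h4 h5
        exact (hpar t v hu).ne huv.symm
      · exact (hoth v u hv hu h4 h5).1 huv.symm
  · intro u v hu hv
    constructor
    · intro hadj
      have h3 : ix u ≠ ix v := by
        intro h4
        rw [ix_inj u v h4] at hadj
        exact G.irrefl hadj
      rcases lt_or_gt_of_ne h3 with h4 | h4
      · by_cases h5 : ix u = ix v / (M + 1)
        · obtain ⟨t, rfl⟩ := hpr u v h4 h5
          exact Or.inr ⟨t, rfl⟩
        · exact absurd hadj (hoth u v hu hv h4 h5).2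
      · by_cases h5 : ix v = ix u / (M + 1)
        · obtain ⟨t, rfl⟩ := hpr v u h4 h5
          exact Or.inl ⟨t, rfl⟩
        · exact absurd hadj.symm (hoth v u hv hu h4 h5).2
    · rintro (⟨t, rfl⟩ | ⟨t, rfl⟩)
      · exact (hpar t v hu).symm
      · exact hpar t u hv

/-! ### Sums over pairs -/

lemma sum_pairs {V Ω : Type} (A : Finset V) (O : Finset Ω) (R : V → Ω → Prop) (g : V → Ω → ℝ) :
    ∑ x ∈ A, ∑ o ∈ O with R x o, g x o =
      ∑ e ∈ (A ×ˢ O).filter (fun e => R e.1 e.2), g e.1 e.2 := by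
  rw [Finset.sum_filter, Finset.sum_product]
  refine Finset.sum_congr rfl fun x _ => ?_
  rw [Finset.sum_filter]

lemma sum_row {V Ω : Type} (S : Finset (V × Ω)) (O : Finset Ω) (hO : ∀ e ∈ S, e.2 ∈ O) (x : V)
    (w : Ω → ℝ) : ∑ o ∈ O with (x, o) ∈ S, w o = ∑ e ∈ S with e.1 = x, w e.2 := by
  refine Finset.sum_nbij' (fun o => (x, o)) (fun e => e.2) ?_ ?_ ?_ ?_ ?_
  · intro o ho
    exact Finset.mem_filter.2 ⟨(Finset.mem_filter.1 ho).2, rfl⟩
  · intro e he
    rw [Finset.mem_filter] at he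
    obtain ⟨h1, rfl⟩ := he
    exact Finset.mem_filter.2 ⟨hO e h1, h1⟩
  · intro o _
    rfl
  · intro e he
    rw [Finset.mem_filter] at he
    obtain ⟨_, rfl⟩ := he
    rfl
  · intro o _
    rfl

lemma sum_col {V Ω : Type} (S : Finset (V × Ω)) (A : Finset V) (hA : ∀ e ∈ S, e.1 ∈ A) (o : Ω)
    (r : V → ℝ) : ∑ x ∈ A with (x, o) ∈ S, r x = ∑ e ∈ S with e.2 = o, r e.1 := by
  refine Finset.sum_nbij' (fun x => (x, o)) (fun e => e.1) ?_ ?_ ?_ ?_ ?_
  · intro x hx
    exact Finset.mem_filter.2 ⟨(Finset.mem_filter.1 hx).2, rfl⟩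
  · intro e he
    rw [Finset.mem_filter] at he
    obtain ⟨h1, rfl⟩ := he
    exact Finset.mem_filter.2 ⟨hA e h1, h1⟩
  · intro o _
    rfl
  · intro e he
    rw [Finset.mem_filter] at he
    obtain ⟨_, rfl⟩ := he
    rfl
  · intro o _
    rfl

/-! ### The embedding -/

/-- A trimmed incidence without atoms and with few 4-cycles contains the tree. -/
lemma embed (M h : ℕ) (C K α : ℝ) (hM : 1 ≤ M) (hK : K ≤ C)
    (hLL : ∀ (V Ω : Type) (A : Finset V) (O : Finset Ω) (E N : V → Ω → Prop)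
      (Ev : V → V → Prop) (Eo : Ω → Ω → Prop) (F : V → Ω → ℝ) (r : V → ℝ) (w : Ω → ℝ),
      TCH.Inc A O E N Ev Eo F r w C K α →
        ∑ x ∈ A, ∑ o ∈ O, F x o * TCH.kap A O E r w x o ≤ α →
        ∀ par : ℕ → ℕ, (∀ j, 1 ≤ j → par j < j) →
          ∃ φ : ℕ → V ⊕ Ω, (∃ x ∈ A, φ 0 = Sum.inl x) ∧
            (∀ j, 1 ≤ j → j ≤ (M + 1) ^ h → TCH.EP A O E (φ (par j)) (φ j)) ∧
            ∀ j ≤ (M + 1) ^ h, ∀ i < j, i ≠ par j → ¬ TCH.CP N Ev Eo (φ i) (φ j))
    {V Ω κ : Type} (G : SimpleGraph V) (A : Finset V) (O : Finset Ω) (hub : Ω → V)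
    (E : V → Ω → Prop) (kx : V → κ) (ko : Ω → κ) (sc : κ → ℝ) (r : V → ℝ) (w : Ω → ℝ)
    (H : SLI G A O hub E kx ko sc r w K) (I J : Finset V) (hI : Stab G I) (hJ : Stab G J)
    (S : Finset (V × Ω)) (hS : ∀ e ∈ S, e.1 ∈ A ∧ e.2 ∈ O ∧ E e.1 e.2)
    (hSI : ∀ e ∈ S, e.1 ∈ I ∧ hub e.2 ∈ J) (hSa : ∀ e ∈ S, r e.1 ≤ α ∧ w e.2 ≤ α)
    (c : ℝ) (hc : 0 < c) (hcC : 1 ≤ C * c)
    (hrow : ∀ e ∈ S, c ≤ ∑ e' ∈ S with e'.1 = e.1, w e'.2)
    (hcol : ∀ e ∈ S, c ≤ ∑ e' ∈ S with e'.2 = e.2, r e'.1)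
    (hZ : 0 < ∑ e ∈ S, sc (kx e.1) * r e.1 * w e.2)
    (hkap : ∑ e ∈ S, sc (kx e.1) * r e.1 * w e.2 * TCH.kap A O (fun x o => (x, o) ∈ S) r w e.1 e.2 ≤
      α * ∑ e ∈ S, sc (kx e.1) * r e.1 * w e.2) :
    ∃ φ : List (Fin M) → V, Tree G h M φ := by
  obtain ⟨Z, hZe⟩ : ∃ Z, Z = ∑ e ∈ S, sc (kx e.1) * r e.1 * w e.2 := ⟨_, rfl⟩
  rw [← hZe] at hZ hkap
  obtain ⟨A', hA'⟩ : ∃ A', A' = S.image Prod.fst := ⟨_, rfl⟩
  obtain ⟨O', hO'⟩ : ∃ O', O' = S.image Prod.snd := ⟨_, rfl⟩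
  have hA1 : ∀ x ∈ A', ∃ o, (x, o) ∈ S := by
    intro x hx
    rw [hA'] at hx
    obtain ⟨e, he, rfl⟩ := Finset.mem_image.1 hx
    exact ⟨e.2, he⟩
  have hO1 : ∀ o ∈ O', ∃ x, (x, o) ∈ S := by
    intro o ho
    rw [hO'] at ho
    obtain ⟨e, he, rfl⟩ := Finset.mem_image.1 ho
    exact ⟨e.1, he⟩
  have hSA : ∀ e ∈ S, e.1 ∈ A' := fun e he => hA' ▸ Finset.mem_image_of_mem _ he
  have hSO : ∀ e ∈ S, e.2 ∈ O' := fun e he => hO' ▸ Finset.mem_image_of_mem _ he
  have hAA : A' ⊆ A := by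
    intro x hx
    obtain ⟨o, ho⟩ := hA1 x hx
    exact (hS _ ho).1
  have hOO : O' ⊆ O := by
    intro o ho
    obtain ⟨x, hx⟩ := hO1 o ho
    exact (hS _ hx).2.1
  obtain ⟨F, hF⟩ : ∃ F : V → Ω → ℝ, F = fun x o =>
    if (x, o) ∈ S then sc (kx x) * r x * w o / Z else 0 := ⟨_, rfl⟩
  have hF1 : ∀ x o, (x, o) ∈ S → F x o = sc (kx x) * r x * w o / Z := by
    intro x o h1
    rw [hF]
    exact if_pos h1
  have hF0 : ∀ x o, (x, o) ∉ S → F x o = 0 := by
    intro x o h1
    rw [hF]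
    exact if_neg h1
  have hkey : ∀ x o, (x, o) ∈ S → G.Adj x (hub o) ∧ kx x = ko o := fun x o h1 =>
    H.own x (hS _ h1).1 o (hS _ h1).2.1 (hS _ h1).2.2
  have hs0 : ∀ x, 0 ≤ sc (kx x) * r x := fun x => mul_nonneg (H.s0 _) (H.r0 _)
  have hq0 : ∀ o, 0 ≤ sc (ko o) * w o := fun x => mul_nonneg (H.s0 _) (H.w0 _)
  have hFrow : ∀ x, ∑ o' ∈ O', F x o' = sc (kx x) * r x / Z * ∑ e ∈ S with e.1 = x, w e.2 := by
    intro x
    rw [← sum_row S O' hSO x w, Finset.mul_sum, Finset.sum_filter]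
    refine Finset.sum_congr rfl fun o _ => ?_
    by_cases h1 : (x, o) ∈ S
    · rw [if_pos h1, hF1 x o h1]
      ring
    · rw [if_neg h1, hF0 x o h1]
  have hFcol : ∀ o, ∑ x' ∈ A', F x' o = sc (ko o) * w o / Z * ∑ e ∈ S with e.2 = o, r e.1 := by
    intro o
    rw [← sum_col S A' hSA o r, Finset.mul_sum, Finset.sum_filter]
    refine Finset.sum_congr rfl fun x _ => ?_
    by_cases h1 : (x, o) ∈ S
    · rw [if_pos h1, hF1 x o h1, (hkey x o h1).2]
      ring
    · rw [if_neg h1, hF0 x o h1]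
  have hrowK : ∀ x ∈ A', ∑ e ∈ S with e.1 = x, w e.2 ≤ K := by
    intro x hx
    rw [← sum_row S O' hSO x w]
    refine le_trans (Finset.sum_le_sum_of_subset_of_nonneg ?_ fun o _ _ => H.w0 o)
      (H.nw x (hAA hx))
    intro o ho
    rw [Finset.mem_filter] at ho ⊢
    exact ⟨hOO ho.1, hkey x o ho.2⟩
  have hcolK : ∀ o ∈ O', ∑ e ∈ S with e.2 = o, r e.1 ≤ K := by
    intro o ho
    rw [← sum_col S A' hSA o r]
    refine le_trans (Finset.sum_le_sum_of_subset_of_nonneg ?_ fun x _ _ => H.r0 x)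
      (H.nr o (hOO ho))
    intro x hx
    rw [Finset.mem_filter] at hx ⊢
    exact ⟨hAA hx.1, hkey x o hx.2⟩
  have hsum : ∀ g : V → Ω → ℝ, ∑ x ∈ A', ∑ o ∈ O', F x o * g x o =
      (∑ e ∈ S, sc (kx e.1) * r e.1 * w e.2 * g e.1 e.2) / Z := by
    intro g
    rw [← Finset.sum_product' A' O' (fun x o => F x o * g x o), Finset.sum_div]
    symm
    refine Finset.sum_subset_zero_on_sdiff
      (fun e he => Finset.mem_product.2 ⟨hSA e he, hSO e he⟩) ?_ ?_
    · intro e he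
      rw [Finset.mem_sdiff] at he
      rw [hF0 e.1 e.2 he.2, zero_mul]
    · intro e he
      rw [hF1 e.1 e.2 he]
      ring
  have hInc : TCH.Inc A' O' (fun x o => (x, o) ∈ S)
      (fun x o => G.Adj x (hub o) ∧ kx x = ko o) (fun x x' => x = x') (fun o o' => o = o')
      F r w C K α := by
    refine ⟨?_, H.r0, H.w0, ?_, ?_, ?_, ?_, ?_, ?_, ?_, ?_, ?_, ?_⟩
    · intro x o
      by_cases h1 : (x, o) ∈ S
      · rw [hF1 x o h1]
        exact div_nonneg (mul_nonneg (hs0 x) (H.w0 o)) hZ.le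
      · rw [hF0 x o h1]
    · intro x o h1
      have h2 : (x, o) ∈ S := by
        by_contra h2
        exact h1 (hF0 x o h2)
      exact ⟨hSA _ h2, hSO _ h2, h2⟩
    · have h1 := hsum fun _ _ => 1
      simp only [mul_one] at h1
      rw [h1, ← hZe, div_self hZ.ne']
    · intro x _ o _
      by_cases h1 : (x, o) ∈ S
      · rw [hF1 x o h1, hFrow x]
        have h2 := hrow _ h1
        simp only at h2
        have h3 : 0 ≤ sc (kx x) * r x * w o / Z :=
          div_nonneg (mul_nonneg (hs0 x) (H.w0 o)) hZ.le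
        have hC : 0 ≤ C := by
          by_contra h4
          nlinarith
        calc sc (kx x) * r x * w o / Z = sc (kx x) * r x * w o / Z * 1 := (mul_one _).symm
          _ ≤ sc (kx x) * r x * w o / Z * (C * ∑ e ∈ S with e.1 = x, w e.2) := by
              refine mul_le_mul_of_nonneg_left (hcC.trans ?_) h3
              exact mul_le_mul_of_nonneg_left h2 hC
          _ = C * w o * (sc (kx x) * r x / Z * ∑ e ∈ S with e.1 = x, w e.2) := by ring
      · rw [hF0 x o h1, hFrow x]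
        have hC : 0 ≤ C := by
          by_contra h4
          nlinarith
        exact mul_nonneg (mul_nonneg hC (H.w0 o)) (mul_nonneg (div_nonneg (hs0 x) hZ.le)
          (Finset.sum_nonneg fun e _ => H.w0 _))
    · intro x _ o _
      have hC : 0 ≤ C := by
        by_contra h4
        nlinarith
      by_cases h1 : (x, o) ∈ S
      · rw [hF1 x o h1, hFcol o]
        have h2 := hcol _ h1
        simp only at h2
        have h3 : 0 ≤ sc (kx x) * r x * w o / Z :=
          div_nonneg (mul_nonneg (hs0 x) (H.w0 o)) hZ.le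
        calc sc (kx x) * r x * w o / Z = sc (kx x) * r x * w o / Z * 1 := (mul_one _).symm
          _ ≤ sc (kx x) * r x * w o / Z * (C * ∑ e ∈ S with e.2 = o, r e.1) := by
              refine mul_le_mul_of_nonneg_left (hcC.trans ?_) h3
              exact mul_le_mul_of_nonneg_left h2 hC
          _ = C * r x * (sc (ko o) * w o / Z * ∑ e ∈ S with e.2 = o, r e.1) := by
              rw [(hkey x o h1).2]
              ring
      · rw [hF0 x o h1, hFcol o]
        exact mul_nonneg (mul_nonneg hC (H.r0 x)) (mul_nonneg (div_nonneg (hq0 o) hZ.le)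
          (Finset.sum_nonneg fun e _ => H.r0 _))
    · intro x hx o _ h1
      rw [hF1 x o h1, hFrow x]
      have h3 : 0 ≤ sc (kx x) * r x * w o / Z :=
        div_nonneg (mul_nonneg (hs0 x) (H.w0 o)) hZ.le
      calc w o * (sc (kx x) * r x / Z * ∑ e ∈ S with e.1 = x, w e.2) =
          sc (kx x) * r x * w o / Z * ∑ e ∈ S with e.1 = x, w e.2 := by ring
        _ ≤ sc (kx x) * r x * w o / Z * C :=
            mul_le_mul_of_nonneg_left ((hrowK x hx).trans hK) h3
        _ = C * (sc (kx x) * r x * w o / Z) := mul_comm _ _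
    · intro x _ o ho h1
      rw [hF1 x o h1, hFcol o]
      have h3 : 0 ≤ sc (kx x) * r x * w o / Z :=
        div_nonneg (mul_nonneg (hs0 x) (H.w0 o)) hZ.le
      calc r x * (sc (ko o) * w o / Z * ∑ e ∈ S with e.2 = o, r e.1) =
          sc (kx x) * r x * w o / Z * ∑ e ∈ S with e.2 = o, r e.1 := by
            rw [(hkey x o h1).2]
            ring
        _ ≤ sc (kx x) * r x * w o / Z * C :=
            mul_le_mul_of_nonneg_left ((hcolK o ho).trans hK) h3
        _ = C * (sc (kx x) * r x * w o / Z) := mul_comm _ _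
    · intro x hx
      refine le_trans (Finset.sum_le_sum_of_subset_of_nonneg ?_ fun o _ _ => H.w0 o)
        (H.nw x (hAA hx))
      intro o ho
      rw [mf] at ho ⊢
      exact ⟨hOO ho.1, ho.2⟩
    · intro o ho
      refine le_trans (Finset.sum_le_sum_of_subset_of_nonneg ?_ fun o _ _ => H.r0 o)
        (H.nr o (hOO ho))
      intro x hx
      rw [mf] at hx ⊢
      exact ⟨hAA hx.1, hx.2⟩
    · intro x' hx'
      obtain ⟨o, ho⟩ := hA1 x' hx'
      have h1 : A'.filter (fun x => x = x' ∨ x' = x) = {x'} := by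
        ext x
        rw [Finset.mem_filter, Finset.mem_singleton]
        constructor
        · rintro ⟨-, rfl | rfl⟩ <;> rfl
        · rintro rfl
          exact ⟨hx', Or.inl rfl⟩
      rw [h1, Finset.sum_singleton]
      exact (hSa _ ho).1
    · intro o' ho'
      obtain ⟨x, hx⟩ := hO1 o' ho'
      have h1 : O'.filter (fun o => o = o' ∨ o' = o) = {o'} := by
        ext o
        rw [Finset.mem_filter, Finset.mem_singleton]
        constructor
        · rintro ⟨-, rfl | rfl⟩ <;> rfl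
        · rintro rfl
          exact ⟨ho', Or.inl rfl⟩
      rw [h1, Finset.sum_singleton]
      exact (hSa _ hx).2
  have hk : ∑ x ∈ A', ∑ o ∈ O', F x o * TCH.kap A' O' (fun x o => (x, o) ∈ S) r w x o ≤ α := by
    rw [hsum, div_le_iff₀ hZ]
    refine le_trans (Finset.sum_le_sum fun e he => ?_) hkap
    refine mul_le_mul_of_nonneg_left ?_ (mul_nonneg (hs0 _) (H.w0 _))
    exact kap_mono H.r0 H.w0 hAA hOO (fun _ _ _ _ h1 => h1) e.1 (hSA e he) e.2 (hSO e he)
  obtain ⟨φ, h1, h2, h3⟩ := hLL V Ω A' O' _ _ _ _ F r w hInc hk (fun j => j / (M + 1))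
    (fun j hj => Nat.div_lt_self hj (by omega))
  exact ⟨_, tree_of G A' O' hub kx ko (fun x o => (x, o) ∈ S) I J hI hJ
    (fun x _ o _ h4 => hSI _ h4) (fun x _ o _ h4 => hkey x o h4)
    (fun x hx => by
      obtain ⟨o, ho⟩ := hA1 x hx
      exact ⟨o, hSO _ ho, ho⟩)
    (fun o ho o' ho' => H.inj o (hOO ho) o' (hOO ho')) M h φ h1 h2 h3⟩

end SL_

/-- Self-linked parts of incidences in graphs without an induced tree. -/
theorem stSL : StSL := by
  intro M h F K c hM hF hK hc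
  obtain ⟨c1, hc1e⟩ : ∃ c1, c1 = c / (8 * F ^ 2 * K) := ⟨_, rfl⟩
  have hFpos : 0 < F := by linarith
  have hc1 : 0 < c1 := by
    rw [hc1e]
    positivity
  obtain ⟨C, hCe⟩ : ∃ C, C = 1 / c1 + K := ⟨_, rfl⟩
  have hC : 0 < C := by
    rw [hCe]
    positivity
  have hKC : K ≤ C := by
    rw [hCe]
    have h1 : 0 < 1 / c1 := by positivity
    linarith
  have hcC : 1 ≤ C * c1 := by
    rw [hCe, add_mul, one_div, inv_mul_cancel₀ hc1.ne']
    have h1 := mul_pos hK hc1
    linarith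
  obtain ⟨α, hα, hLL⟩ := TCH.stLL ((M + 1) ^ h) C K hC hK
  obtain ⟨D, hDe⟩ : ∃ D, D = min (α * c ^ 2 / (256 * K)) (α * (c / (2 * F ^ 2))) := ⟨_, rfl⟩
  have hD : 0 < D := by
    rw [hDe]
    exact lt_min (by positivity) (by positivity)
  have hD1 : D ≤ α * c ^ 2 / (256 * K) := hDe ▸ min_le_left _ _
  have hD2 : D ≤ α * (c / (2 * F ^ 2)) := hDe ▸ min_le_right _ _
  refine ⟨D / (4 * K ^ 2), by positivity, ?_⟩
  intro V Ω κ _ G A O hub E kx ko sc r w hFr hT H
  have hs0 : ∀ x, 0 ≤ sc (kx x) * r x := fun x => mul_nonneg (H.s0 _) (H.r0 _)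
  have hq0 : ∀ o, 0 ≤ sc (ko o) * w o := fun x => mul_nonneg (H.s0 _) (H.w0 _)
  have hsum : ∑ x ∈ A, ∑ o ∈ O with E x o, sc (kx x) * r x * w o ≤ K ^ 2 := by
    have h1 : ∑ x ∈ A, ∑ o ∈ O with E x o, sc (kx x) * r x * w o ≤
        ∑ x ∈ A, sc (kx x) * r x * K := by
      refine Finset.sum_le_sum fun x hx => ?_
      rw [← Finset.mul_sum]
      refine mul_le_mul_of_nonneg_left ?_ (hs0 x)
      refine le_trans (Finset.sum_le_sum_of_subset_of_nonneg ?_ fun o _ _ => H.w0 o) (H.nw x hx)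
      intro o ho
      rw [Finset.mem_filter] at ho ⊢
      exact ⟨ho.1, H.own x hx o ho.1 ho.2⟩
    rw [← Finset.sum_mul] at h1
    have h2 := mul_le_mul_of_nonneg_right H.mr hK.le
    nlinarith
  obtain ⟨E', hE1, hE2, hE3⟩ := TCH.stPe V Ω A O E r w (fun x => sc (kx x)) 1 (K ^ 2)
    (D / (4 * K ^ 2)) H.r0 H.w0 (fun x => H.s0 _) (by positivity) le_rfl
    (fun x hx x' hx' o ho h1 h2 => by
      have e1 := (H.own x hx o ho h1).2
      have e2 := (H.own x' hx' o ho h2).2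
      simp only [one_mul]
      rw [e1, e2]) hsum
  refine ⟨E', hE1, fun x o h1 => (hE2 x o h1).le, ?_⟩
  have hD3 : 4 * (1 : ℝ) ^ 2 * K ^ 2 * (D / (4 * K ^ 2)) = D := by field_simp
  rw [hD3] at hE3
  by_contra hcon
  push Not at hcon
  obtain ⟨R, hR⟩ : ∃ R : Finset (V × Ω),
    R = (A ×ˢ O).filter (fun e => E e.1 e.2 ∧ ¬ E' e.1 e.2) := ⟨_, rfl⟩
  have hRm : ∀ e ∈ R, e.1 ∈ A ∧ e.2 ∈ O ∧ E e.1 e.2 ∧ ¬ E' e.1 e.2 := by
    intro e he
    rw [hR, Finset.mem_filter, Finset.mem_product] at he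
    exact ⟨he.1.1, he.1.2, he.2.1, he.2.2⟩
  have hkey : ∀ e ∈ R, kx e.1 = ko e.2 := fun e he =>
    (H.own e.1 (hRm e he).1 e.2 (hRm e he).2.1 (hRm e he).2.2.1).2
  have hconv : ∀ g : V → Ω → ℝ, ∑ x ∈ A, ∑ o ∈ O with E x o ∧ ¬ E' x o, g x o =
      ∑ e ∈ R, g e.1 e.2 := by
    intro g
    rw [hR, Finset.sum_filter, Finset.sum_product]
    refine Finset.sum_congr rfl fun x _ => ?_
    rw [Finset.sum_filter]
  rw [hconv] at hcon hE3
  obtain ⟨f, hf⟩ : ∃ f : V × Ω → ℝ, f = fun e => sc (kx e.1) * r e.1 * w e.2 := ⟨_, rfl⟩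
  have hfe : ∀ e, f e = sc (kx e.1) * r e.1 * w e.2 := fun e => by rw [hf]
  have hf0 : ∀ e, 0 ≤ f e := fun e => by
    rw [hfe]
    exact mul_nonneg (hs0 _) (H.w0 _)
  have hcon' : c < ∑ e ∈ R, f e := by
    rw [hf]
    exact hcon
  -- the 4-cycles inside `R`
  have hkR : ∀ S ⊆ R, ∑ e ∈ S, f e * TCH.kap A O (fun x o => (x, o) ∈ S) r w e.1 e.2 ≤ D := by
    intro S hS
    refine le_trans (le_trans (Finset.sum_le_sum
      (g := fun e => f e * TCH.kap A O (fun x o => E x o ∧ ¬ E' x o) r w e.1 e.2)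
      fun e he => ?_) ?_) hE3
    · refine mul_le_mul_of_nonneg_left ?_ (hf0 e)
      exact SL_.kap_mono H.r0 H.w0 subset_rfl subset_rfl
        (fun x _ o _ h1 => (hRm _ (hS h1)).2.2) e.1 (hRm _ (hS he)).1 e.2 (hRm _ (hS he)).2.1
    · simp only [hfe]
      refine Finset.sum_le_sum_of_subset_of_nonneg hS fun e he _ => ?_
      refine mul_nonneg (mul_nonneg (hs0 _) (H.w0 _)) ?_
      unfold TCH.kap
      exact Finset.sum_nonneg fun x' _ => mul_nonneg (H.r0 _)
        (Finset.sum_nonneg fun o' _ => H.w0 _)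
  have hkn : ∀ e : V × Ω, 0 ≤ TCH.kap A O (fun x o => (x, o) ∈ R) r w e.1 e.2 := by
    intro e
    unfold TCH.kap
    exact Finset.sum_nonneg fun x' _ => mul_nonneg (H.r0 _)
      (Finset.sum_nonneg fun o' _ => H.w0 _)
  -- atoms
  have hc2 : 0 < c / (16 * K) := by positivity
  have hcK : c / (16 * K) * K + D / (α * (c / (16 * K))) ≤ c / 8 := by
    have e1 : c / (16 * K) * K = c / 16 := by
      field_simp
    have e2 : D / (α * (c / (16 * K))) ≤ c / 16 := by
      rw [div_le_iff₀ (by positivity)]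
      refine hD1.trans (le_of_eq ?_)
      field_simp
      norm_num
    rw [e1]
    linarith
  have hat1 : ∑ e ∈ R with α < r e.1, f e ≤ c / 8 := by
    refine le_trans (SL_.atoms R f (fun e => TCH.kap A O (fun x o => (x, o) ∈ R) r w e.1 e.2)
      (fun e => r e.1) Prod.fst (fun x => ∑ e ∈ R with e.1 = x, w e.2)
      (fun x => sc (kx x) * r x) A hf0 ?_ (fun x => Finset.sum_nonneg fun e _ => H.w0 _)
      (fun e _ => hkn e) (fun e he => (hRm e he).1) hs0 ?_ α (c / (16 * K)) K D hα hc2 H.mr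
      (hkR R subset_rfl)) hcK
    · intro e he
      have h1 := SL_.kap_ge_r (A := A) (O := O) (E := fun x o => (x, o) ∈ R) H.r0 H.w0 e.1
        (hRm e he).1 e.2 he
      have h2 := SL_.sum_row R O (fun e he => (hRm e he).2.1) e.1 w
      refine le_trans (le_of_eq ?_) h1
      rw [← h2]
      congr!
    · intro x _
      refine le_of_eq ?_
      rw [Finset.mul_sum]
      refine Finset.sum_congr rfl fun e he => ?_
      rw [Finset.mem_filter] at he
      rw [hfe, he.2]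
  have hat2 : ∑ e ∈ R with α < w e.2, f e ≤ c / 8 := by
    refine le_trans (SL_.atoms R f (fun e => TCH.kap A O (fun x o => (x, o) ∈ R) r w e.1 e.2)
      (fun e => w e.2) Prod.snd (fun o => ∑ e ∈ R with e.2 = o, r e.1)
      (fun o => sc (ko o) * w o) O hf0 ?_ (fun x => Finset.sum_nonneg fun e _ => H.r0 _)
      (fun e _ => hkn e) (fun e he => (hRm e he).2.1) hq0 ?_ α (c / (16 * K)) K D hα hc2 H.mw
      (hkR R subset_rfl)) hcK
    · intro e he
      have h1 := SL_.kap_ge_w (A := A) (O := O) (E := fun x o => (x, o) ∈ R) H.r0 H.w0 e.1 e.2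
        (hRm e he).2.1 he
      have h2 := SL_.sum_col R A (fun e he => (hRm e he).1) e.2 r
      refine le_trans (le_of_eq ?_) h1
      rw [← h2]
      congr!
    · intro o _
      refine le_of_eq ?_
      rw [Finset.mul_sum]
      refine Finset.sum_congr rfl fun e he => ?_
      rw [Finset.mem_filter] at he
      rw [hfe, hkey e he.1, he.2]
      ring
  obtain ⟨R1, hR1⟩ : ∃ R1 : Finset (V × Ω),
    R1 = R.filter (fun e => r e.1 ≤ α ∧ w e.2 ≤ α) := ⟨_, rfl⟩
  have hR1s : 3 * c / 4 < ∑ e ∈ R1, f e := by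
    have h1 : ∑ e ∈ R, f e ≤ ∑ e ∈ R1, f e + ∑ e ∈ R with α < r e.1, f e +
        ∑ e ∈ R with α < w e.2, f e := by
      rw [hR1, Finset.sum_filter, Finset.sum_filter, Finset.sum_filter,
        ← Finset.sum_add_distrib, ← Finset.sum_add_distrib]
      refine Finset.sum_le_sum fun e _ => ?_
      have h2 := hf0 e
      by_cases h3 : α < r e.1
      · rw [if_pos h3, if_neg (fun h4 => absurd h3 (not_lt.2 h4.1))]
        split_ifs <;> linarith
      · by_cases h4 : α < w e.2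
        · rw [if_pos h4, if_neg h3, if_neg (fun h5 => absurd h4 (not_lt.2 h5.2))]
          linarith
        · rw [if_pos ⟨not_lt.1 h3, not_lt.1 h4⟩, if_neg h3, if_neg h4]
          linarith
    linarith
  -- stable sets
  obtain ⟨J, hJ, hJ1⟩ := SL_.frac_pairs hFr R1 f hf0 (fun e => hub e.2)
  obtain ⟨I, hI, hI1⟩ := SL_.frac_pairs hFr (R1.filter fun e => hub e.2 ∈ J) f hf0
    (fun e => e.1)
  obtain ⟨R2, hR2⟩ : ∃ R2 : Finset (V × Ω),
    R2 = (R1.filter fun e => hub e.2 ∈ J).filter fun e => e.1 ∈ I := ⟨_, rfl⟩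
  rw [← hR2] at hI1
  have hR2m : ∀ e ∈ R2, e ∈ R ∧ r e.1 ≤ α ∧ w e.2 ≤ α ∧ e.1 ∈ I ∧ hub e.2 ∈ J := by
    intro e he
    rw [hR2, Finset.mem_filter, Finset.mem_filter, hR1, Finset.mem_filter] at he
    exact ⟨he.1.1.1, he.1.1.2.1, he.1.1.2.2, he.2, he.1.2⟩
  have hR2s : 3 * c / 4 < F ^ 2 * ∑ e ∈ R2, f e := by
    have h1 := mul_le_mul_of_nonneg_left hI1 hFpos.le
    calc 3 * c / 4 < ∑ e ∈ R1, f e := hR1s
      _ ≤ F * ∑ e ∈ R1 with hub e.2 ∈ J, f e := hJ1
      _ ≤ F * (F * ∑ e ∈ R2, f e) := h1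
      _ = F ^ 2 * ∑ e ∈ R2, f e := by ring
  -- trimming
  obtain ⟨S, hS, hrow, hcol, htr⟩ := SL_.trim r w (fun x => sc (kx x) * r x)
    (fun o => sc (ko o) * w o) hs0 hq0 c1 hc1.le f R2 (fun e _ => hfe e)
    (fun e he => by rw [hfe, hkey e (hR2m e he).1]; ring)
  have hp : ∑ x ∈ R2.image Prod.fst, sc (kx x) * r x ≤ K := by
    refine le_trans (Finset.sum_le_sum_of_subset_of_nonneg ?_ fun x _ _ => hs0 x) H.mr
    intro x hx
    obtain ⟨e, he, rfl⟩ := Finset.mem_image.1 hx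
    exact (hRm e (hR2m e he).1).1
  have hq : ∑ o ∈ R2.image Prod.snd, sc (ko o) * w o ≤ K := by
    refine le_trans (Finset.sum_le_sum_of_subset_of_nonneg ?_ fun x _ _ => hq0 x) H.mw
    intro o ho
    obtain ⟨e, he, rfl⟩ := Finset.mem_image.1 ho
    exact (hRm e (hR2m e he).1).2.1
  have hSs : c / (2 * F ^ 2) ≤ ∑ e ∈ S, f e := by
    have h1 : ∑ e ∈ R2, f e ≤ ∑ e ∈ S, f e + c1 * K + c1 * K := by
      have h2 := mul_le_mul_of_nonneg_left hp hc1.le
      have h3 := mul_le_mul_of_nonneg_left hq hc1.le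
      linarith
    have h2 : F ^ 2 * (c1 * K) = c / 8 := by
      rw [hc1e]
      field_simp
    have h3 := mul_le_mul_of_nonneg_left h1 (sq_nonneg F)
    rw [div_le_iff₀ (by positivity)]
    nlinarith
  have hZ : 0 < ∑ e ∈ S, f e := lt_of_lt_of_le (by positivity) hSs
  have hSR : S ⊆ R := fun e he => (hR2m e (hS he)).1
  have hZ' := hZ
  have hk2 := (hkR S hSR).trans (hD2.trans (mul_le_mul_of_nonneg_left hSs hα.le))
  simp only [hfe] at hZ' hk2
  obtain ⟨φ, hφ⟩ := SL_.embed M h C K α hM hKC hLL G A O hub E kx ko sc r w H I J hI hJ S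
    (fun e he => ⟨(hRm e (hSR he)).1, (hRm e (hSR he)).2.1, (hRm e (hSR he)).2.2.1⟩)
    (fun e he => ⟨(hR2m e (hS he)).2.2.2.1, (hR2m e (hS he)).2.2.2.2⟩)
    (fun e he => ⟨(hR2m e (hS he)).2.1, (hR2m e (hS he)).2.2.1⟩)
    c1 hc1 hcC hrow hcol hZ' hk2
  exact hT φ hφ

end Pool.Agent.Lib.GSR
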