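import Pool.Agent.Lib.TCH.LL
import Pool.Agent.Lib.TCH.Pe
import Pool.Agent.Lib.FGJ.UPool

/-!
# Self-linked parts of incidences in graphs without an induced tree: statement

`A` are the nodes with weights `r`, `O` the labels with weights `w`, `hub o` is the vertex of the
label `o`, `E` is the own incidence.  `kx`, `ko` are the keys (scale and heights); the own labels of
a node have its key, `sc` is the scale of a key, so `sc (kx x) * r x` is the measure of the node
`x` and `sc (kx x) * r x * w o` is the flux of the pair `(x, o)`.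
-/

set_option autoImplicit false

namespace Pool.Agent.Lib.GSR

open Finset Classical
open Pool.Agent.Lib.GSR3 (Stab Tree)
open Pool.Agent.Lib.FGF (Frac)

/-- An own incidence with keys. -/
structure SLI {V Ω κ : Type} (G : SimpleGraph V) (A : Finset V) (O : Finset Ω) (hub : Ω → V)
    (E : V → Ω → Prop) (kx : V → κ) (ko : Ω → κ) (sc : κ → ℝ) (r : V → ℝ) (w : Ω → ℝ) (K : ℝ) :
    Prop where
  r0 : ∀ x, 0 ≤ r x
  w0 : ∀ o, 0 ≤ w o
  s0 : ∀ k, 0 ≤ sc k
  own : ∀ x ∈ A, ∀ o ∈ O, E x o → G.Adj x (hub o) ∧ kx x = ko o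
  /-- labels with the same vertex and the same key are equal -/
  inj : ∀ o ∈ O, ∀ o' ∈ O, ko o = ko o' → hub o = hub o' → o = o'
  /-- the near weight of a node -/
  nw : ∀ x ∈ A, ∑ o ∈ O with G.Adj x (hub o) ∧ kx x = ko o, w o ≤ K
  /-- the near weight of a label -/
  nr : ∀ o ∈ O, ∑ x ∈ A with G.Adj x (hub o) ∧ kx x = ko o, r x ≤ K
  mr : ∑ x ∈ A, sc (kx x) * r x ≤ K
  mw : ∑ o ∈ O, sc (ko o) * w o ≤ K

/-- Module `SL`: in a graph without an induced tree, all own incidences are self-linked up to a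
part of small flux. -/
def StSL : Prop :=
  ∀ (M h : ℕ) (F K c : ℝ), 1 ≤ M → 1 ≤ F → 0 < K → 0 < c → ∃ ε : ℝ, 0 < ε ∧
    ∀ (V Ω κ : Type) [Fintype V] (G : SimpleGraph V) (A : Finset V) (O : Finset Ω) (hub : Ω → V)
      (E : V → Ω → Prop) (kx : V → κ) (ko : Ω → κ) (sc : κ → ℝ) (r : V → ℝ) (w : Ω → ℝ),
      Frac G F → (∀ φ : List (Fin M) → V, ¬ Tree G h M φ) →
      SLI G A O hub E kx ko sc r w K →
        ∃ E' : V → Ω → Prop, (∀ x o, E' x o → x ∈ A ∧ o ∈ O ∧ E x o) ∧
          (∀ x o, E' x o → ε ≤ TCH.kap A O E' r w x o) ∧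
          ∑ x ∈ A, ∑ o ∈ O with E x o ∧ ¬ E' x o, sc (kx x) * r x * w o ≤ c

end Pool.Agent.Lib.GSR
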