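import Pool.Agent.Lib.GSR.SLO

/-!
# Self-linked parts of incidences: own windows of different radii
-/

set_option autoImplicit false

namespace Pool.Agent.Lib.GSR

open Finset Classical
open Pool.Agent.Lib.GSR3 (Stab Tree)
open Pool.Agent.Lib.FGF (Frac)

/-- An own incidence with windows of radius `g i` in `d` integer heights. -/
structure SLWg {V Ω : Type} (d : ℕ) (g : Fin d → ℕ) (G : SimpleGraph V) (A : Finset V)
    (O : Finset Ω) (hub : Ω → V) (E : V → Ω → Prop) (hx : V → Fin d → ℤ) (ho : Ω → Fin d → ℤ)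
    (sc : (Fin d → ℤ) → ℝ) (r : V → ℝ) (w : Ω → ℝ) (K : ℝ) : Prop where
  r0 : ∀ x, 0 ≤ r x
  w0 : ∀ o, 0 ≤ w o
  s0 : ∀ k, 0 ≤ sc k
  own : ∀ x ∈ A, ∀ o ∈ O, E x o → G.Adj x (hub o) ∧ ∀ i, |hx x i - ho o i| ≤ g i
  /-- labels with the same hub and the same heights are equal -/
  inj : ∀ o ∈ O, ∀ o' ∈ O, ho o = ho o' → hub o = hub o' → o = o'
  nw : ∀ x ∈ A, ∑ o ∈ O with G.Adj x (hub o) ∧ ∀ i, |hx x i - ho o i| ≤ g i, w o ≤ K
  nr : ∀ o ∈ O, ∑ x ∈ A with G.Adj x (hub o) ∧ ∀ i, |hx x i - ho o i| ≤ g i, r x ≤ K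
  mr : ∀ δ : Fin d → ℤ, (∀ i, |δ i| ≤ g i) → ∑ x ∈ A, sc (fun i => hx x i + δ i) * r x ≤ K
  mw : ∑ o ∈ O, sc (ho o) * w o ≤ K

namespace SLG_

/-- The offsets. -/
def off {d : ℕ} (g : Fin d → ℕ) (a : ∀ i : Fin d, Fin (2 * g i + 1)) : Fin d → ℤ :=
  fun i => ((a i : ℕ) : ℤ) - g i

lemma off_le {d : ℕ} {g : Fin d → ℕ} (a : ∀ i : Fin d, Fin (2 * g i + 1)) (i : Fin d) :
    |off g a i| ≤ g i := by
  unfold off
  have h1 := (a i).2
  rw [abs_le]
  constructor <;> omega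

lemma off_ex {d : ℕ} {g : Fin d → ℕ} (δ : Fin d → ℤ) (h : ∀ i, |δ i| ≤ g i) :
    ∃ a : ∀ i : Fin d, Fin (2 * g i + 1), off g a = δ := by
  have h1 : ∀ i, 0 ≤ δ i + g i ∧ δ i + g i ≤ 2 * g i := by
    intro i
    have h2 := abs_le.1 (h i)
    constructor <;> omega
  refine ⟨fun i => ⟨(δ i + g i).toNat, by have := h1 i; omega⟩, ?_⟩
  funext i
  unfold off
  have h2 := h1 i
  have h3 : (((δ i + g i).toNat : ℕ) : ℤ) = δ i + g i := Int.toNat_of_nonneg h2.1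
  change (((δ i + g i).toNat : ℕ) : ℤ) - g i = δ i
  rw [h3]
  ring

end SLG_

/-- Self-linked parts, windows of different radii in integer heights. -/
theorem stSLG (M h d : ℕ) (g : Fin d → ℕ) (F K c : ℝ) (hM : 1 ≤ M) (hF : 1 ≤ F) (hK : 0 < K)
    (hc : 0 < c) :
    ∃ ε : ℝ, 0 < ε ∧
    ∀ (V Ω : Type) [Fintype V] (G : SimpleGraph V) (A : Finset V) (O : Finset Ω) (hub : Ω → V)
      (E : V → Ω → Prop) (hx : V → Fin d → ℤ) (ho : Ω → Fin d → ℤ) (sc : (Fin d → ℤ) → ℝ)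
      (r : V → ℝ) (w : Ω → ℝ),
      Frac G F → (∀ φ : List (Fin M) → V, ¬ Tree G h M φ) →
      SLWg d g G A O hub E hx ho sc r w K →
        ∃ E' : V → Ω → Prop, (∀ x o, E' x o → x ∈ A ∧ o ∈ O ∧ E x o) ∧
          (∀ x o, E' x o → ε ≤ TCH.kap A O E' r w x o) ∧
          ∑ x ∈ A, ∑ o ∈ O with E x o ∧ ¬ E' x o, sc (ho o) * r x * w o ≤ c := by
  obtain ⟨ε, hε, hS⟩ := stSLO M h (Fintype.card (∀ i : Fin d, Fin (2 * g i + 1))) F K c hM hF
    hK hc
  refine ⟨ε, hε, ?_⟩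
  intro V Ω _ G A O hub E hx ho sc r w hFr hT H
  have hwin : ∀ (a : ∀ i : Fin d, Fin (2 * g i + 1)) (x : V) (o : Ω),
      (fun i => hx x i + SLG_.off g a i) = ho o → ∀ i, |hx x i - ho o i| ≤ g i := by
    intro a x o h1 i
    have h2 : hx x i + SLG_.off g a i = ho o i := congrFun h1 i
    have h3 := abs_le.1 (SLG_.off_le a i)
    rw [abs_le]
    constructor <;> omega
  obtain ⟨en, hen⟩ : ∃ en : Fin (Fintype.card (∀ i : Fin d, Fin (2 * g i + 1))) →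
      (∀ i : Fin d, Fin (2 * g i + 1)), Function.Surjective en :=
    ⟨(Fintype.equivFin _).symm, (Fintype.equivFin _).symm.surjective⟩
  refine hS V Ω (Fin d → ℤ) G A O hub E (fun j x => fun i => hx x i + SLG_.off g (en j) i) ho sc r w
    hFr hT
      { r0 := H.r0
        w0 := H.w0
        s0 := H.s0
        own := ?_
        inj := H.inj
        nw := ?_
        nr := ?_
        mr := fun j => H.mr _ (SLG_.off_le (en j))
        mw := H.mw }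
  · intro x hx' o ho' h1
    obtain ⟨h2, h3⟩ := H.own x hx' o ho' h1
    obtain ⟨a, ha⟩ := SLG_.off_ex (fun i => ho o i - hx x i)
      (fun i => by rw [abs_sub_comm]; exact h3 i)
    obtain ⟨j, hj⟩ := hen a
    refine ⟨h2, j, ?_⟩
    funext i
    rw [hj, ha]
    ring
  · intro j x hx'
    refine le_trans (Finset.sum_le_sum_of_subset_of_nonneg ?_ fun o _ _ => H.w0 o) (H.nw x hx')
    intro o ho'
    rw [SL_.mf] at ho' ⊢
    exact ⟨ho'.1, ho'.2.1, hwin _ x o ho'.2.2⟩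
  · intro j o ho'
    refine le_trans (Finset.sum_le_sum_of_subset_of_nonneg ?_ fun o _ _ => H.r0 o) (H.nr o ho')
    intro x hx'
    rw [SL_.mf] at hx' ⊢
    exact ⟨hx'.1, hx'.2.1, hwin _ x o hx'.2.2⟩

end Pool.Agent.Lib.GSR
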