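import Pool.Agent.Lib.GSR.SL

/-!
# Self-linked parts of incidences: own windows with offsets

`stSLO`: several keys per node; `stSLZ`: windows in integer heights.
-/

set_option autoImplicit false

namespace Pool.Agent.Lib.GSR

open Finset Classical
open Pool.Agent.Lib.GSR3 (Stab Tree)
open Pool.Agent.Lib.FGF (Frac)

/-- An own incidence with `N` keys per node: an own label of the node has one of its keys. -/
structure SLKeys {V Ω κ : Type} (N : ℕ) (G : SimpleGraph V) (A : Finset V) (O : Finset Ω)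
    (hub : Ω → V) (E : V → Ω → Prop) (kx : Fin N → V → κ) (ko : Ω → κ) (sc : κ → ℝ) (r : V → ℝ)
    (w : Ω → ℝ) (K : ℝ) : Prop where
  r0 : ∀ x, 0 ≤ r x
  w0 : ∀ o, 0 ≤ w o
  s0 : ∀ k, 0 ≤ sc k
  own : ∀ x ∈ A, ∀ o ∈ O, E x o → G.Adj x (hub o) ∧ ∃ j, kx j x = ko o
  inj : ∀ o ∈ O, ∀ o' ∈ O, ko o = ko o' → hub o = hub o' → o = o'
  nw : ∀ j, ∀ x ∈ A, ∑ o ∈ O with G.Adj x (hub o) ∧ kx j x = ko o, w o ≤ K
  nr : ∀ j, ∀ o ∈ O, ∑ x ∈ A with G.Adj x (hub o) ∧ kx j x = ko o, r x ≤ K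
  mr : ∀ j, ∑ x ∈ A, sc (kx j x) * r x ≤ K
  mw : ∑ o ∈ O, sc (ko o) * w o ≤ K

/-- Self-linked parts, several keys per node; the flux of `(x, o)` is `sc (ko o) * r x * w o`. -/
theorem stSLO (M h N : ℕ) (F K c : ℝ) (hM : 1 ≤ M) (hF : 1 ≤ F) (hK : 0 < K) (hc : 0 < c) :
    ∃ ε : ℝ, 0 < ε ∧
    ∀ (V Ω κ : Type) [Fintype V] (G : SimpleGraph V) (A : Finset V) (O : Finset Ω) (hub : Ω → V)
      (E : V → Ω → Prop) (kx : Fin N → V → κ) (ko : Ω → κ) (sc : κ → ℝ) (r : V → ℝ) (w : Ω → ℝ),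
      Frac G F → (∀ φ : List (Fin M) → V, ¬ Tree G h M φ) →
      SLKeys N G A O hub E kx ko sc r w K →
        ∃ E' : V → Ω → Prop, (∀ x o, E' x o → x ∈ A ∧ o ∈ O ∧ E x o) ∧
          (∀ x o, E' x o → ε ≤ TCH.kap A O E' r w x o) ∧
          ∑ x ∈ A, ∑ o ∈ O with E x o ∧ ¬ E' x o, sc (ko o) * r x * w o ≤ c := by
  obtain ⟨ε, hε, hS⟩ := stSL M h F K (c / (N + 1)) hM hF hK (by positivity)
  refine ⟨ε, hε, ?_⟩
  intro V Ω κ _ G A O hub E kx ko sc r w hFr hT H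
  have h1 : ∀ j : Fin N, ∃ E' : V → Ω → Prop,
      (∀ x o, E' x o → x ∈ A ∧ o ∈ O ∧ E x o ∧ kx j x = ko o) ∧
      (∀ x o, E' x o → ε ≤ TCH.kap A O E' r w x o) ∧
      ∑ x ∈ A, ∑ o ∈ O with (E x o ∧ kx j x = ko o) ∧ ¬ E' x o,
        sc (kx j x) * r x * w o ≤ c / (N + 1) := by
    intro j
    obtain ⟨E', e1, e2, e3⟩ := hS V Ω κ G A O hub (fun x o => E x o ∧ kx j x = ko o) (kx j) ko
      sc r w hFr hT
      { r0 := H.r0
        w0 := H.w0
        s0 := H.s0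
        own := fun x hx o ho h1 => ⟨(H.own x hx o ho h1.1).1, h1.2⟩
        inj := H.inj
        nw := H.nw j
        nr := H.nr j
        mr := H.mr j
        mw := H.mw }
    refine ⟨E', e1, e2, le_trans (le_of_eq (Finset.sum_congr rfl fun x _ => ?_)) e3⟩
    congr!
  choose E1 h2 h3 h4 using h1
  refine ⟨fun x o => ∃ j, E1 j x o, ?_, ?_, ?_⟩
  · rintro x o ⟨j, hj⟩
    exact ⟨(h2 j x o hj).1, (h2 j x o hj).2.1, (h2 j x o hj).2.2.1⟩
  · rintro x o ⟨j, hj⟩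
    refine (h3 j x o hj).trans ?_
    exact SL_.kap_mono H.r0 H.w0 subset_rfl subset_rfl (fun x _ o _ h5 => ⟨j, h5⟩) x
      (h2 j x o hj).1 o (h2 j x o hj).2.1
  · have h5 : ∑ x ∈ A, ∑ o ∈ O with E x o ∧ ¬ (∃ j, E1 j x o), sc (ko o) * r x * w o ≤
        ∑ j : Fin N, ∑ x ∈ A, ∑ o ∈ O with (E x o ∧ kx j x = ko o) ∧ ¬ E1 j x o,
          sc (kx j x) * r x * w o := by
      rw [Finset.sum_comm]
      refine Finset.sum_le_sum fun x hx => ?_
      simp_rw [Finset.sum_filter]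
      rw [Finset.sum_comm]
      refine Finset.sum_le_sum fun o ho => ?_
      have hnn : ∀ j : Fin N, 0 ≤ (if (E x o ∧ kx j x = ko o) ∧ ¬ E1 j x o then
          sc (kx j x) * r x * w o else 0) := by
        intro j
        split_ifs
        · exact mul_nonneg (mul_nonneg (H.s0 _) (H.r0 _)) (H.w0 _)
        · exact le_rfl
      by_cases h6 : E x o ∧ ¬ (∃ j, E1 j x o)
      · obtain ⟨j, hj⟩ := (H.own x hx o ho h6.1).2
        rw [if_pos h6]
        have h7 := Finset.single_le_sum (f := fun j : Fin N =>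
          if (E x o ∧ kx j x = ko o) ∧ ¬ E1 j x o then sc (kx j x) * r x * w o else 0)
          (fun j _ => hnn j) (Finset.mem_univ j)
        refine le_trans (le_of_eq ?_) h7
        rw [if_pos ⟨⟨h6.1, hj⟩, fun h8 => h6.2 ⟨j, h8⟩⟩, hj]
      · rw [if_neg h6]
        exact Finset.sum_nonneg fun j _ => hnn j
    refine le_trans (le_of_eq ?_) (h5.trans ((Finset.sum_le_sum fun j _ => h4 j).trans ?_))
    · refine Finset.sum_congr rfl fun x _ => ?_
      congr!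
    rw [Finset.sum_const, Finset.card_univ, Fintype.card_fin, nsmul_eq_mul]
    have h6 : (N : ℝ) / (N + 1) ≤ 1 := by
      rw [div_le_one (by positivity)]
      linarith
    calc (N : ℝ) * (c / (N + 1)) = N / (N + 1) * c := by ring
      _ ≤ 1 * c := mul_le_mul_of_nonneg_right h6 hc.le
      _ = c := one_mul c

/-- An own incidence with windows of radius `g` in `d` integer heights. -/
structure SLWin {V Ω : Type} (d g : ℕ) (G : SimpleGraph V) (A : Finset V) (O : Finset Ω)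
    (hub : Ω → V) (E : V → Ω → Prop) (hx : V → Fin d → ℤ) (ho : Ω → Fin d → ℤ)
    (sc : (Fin d → ℤ) → ℝ) (r : V → ℝ) (w : Ω → ℝ) (K : ℝ) : Prop where
  r0 : ∀ x, 0 ≤ r x
  w0 : ∀ o, 0 ≤ w o
  s0 : ∀ k, 0 ≤ sc k
  own : ∀ x ∈ A, ∀ o ∈ O, E x o → G.Adj x (hub o) ∧ ∀ i, |hx x i - ho o i| ≤ g
  /-- labels with the same hub and the same heights are equal -/
  inj : ∀ o ∈ O, ∀ o' ∈ O, ho o = ho o' → hub o = hub o' → o = o'
  nw : ∀ x ∈ A, ∑ o ∈ O with G.Adj x (hub o) ∧ ∀ i, |hx x i - ho o i| ≤ g, w o ≤ K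
  nr : ∀ o ∈ O, ∑ x ∈ A with G.Adj x (hub o) ∧ ∀ i, |hx x i - ho o i| ≤ g, r x ≤ K
  mr : ∀ δ : Fin d → ℤ, (∀ i, |δ i| ≤ g) → ∑ x ∈ A, sc (fun i => hx x i + δ i) * r x ≤ K
  mw : ∑ o ∈ O, sc (ho o) * w o ≤ K

/-- The offsets. -/
def off {d : ℕ} (g : ℕ) (a : Fin d → Fin (2 * g + 1)) : Fin d → ℤ := fun i => (a i : ℤ) - g

lemma off_le {d g : ℕ} (a : Fin d → Fin (2 * g + 1)) (i : Fin d) : |off g a i| ≤ g := by
  unfold off
  have h1 := (a i).2
  rw [abs_le]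
  constructor <;> omega

lemma off_ex {d g : ℕ} (δ : Fin d → ℤ) (h : ∀ i, |δ i| ≤ g) :
    ∃ a : Fin d → Fin (2 * g + 1), off g a = δ := by
  have h1 : ∀ i, 0 ≤ δ i + g ∧ δ i + g ≤ 2 * g := by
    intro i
    have h2 := abs_le.1 (h i)
    constructor <;> omega
  refine ⟨fun i => ⟨(δ i + g).toNat, by have := h1 i; omega⟩, ?_⟩
  funext i
  unfold off
  have h2 := h1 i
  have h3 : (((δ i + g).toNat : ℕ) : ℤ) = δ i + g := Int.toNat_of_nonneg h2.1
  change (((δ i + g).toNat : ℕ) : ℤ) - g = δ i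
  rw [h3]
  ring

/-- Self-linked parts, windows in integer heights. -/
theorem stSLZ (M h d g : ℕ) (F K c : ℝ) (hM : 1 ≤ M) (hF : 1 ≤ F) (hK : 0 < K) (hc : 0 < c) :
    ∃ ε : ℝ, 0 < ε ∧
    ∀ (V Ω : Type) [Fintype V] (G : SimpleGraph V) (A : Finset V) (O : Finset Ω) (hub : Ω → V)
      (E : V → Ω → Prop) (hx : V → Fin d → ℤ) (ho : Ω → Fin d → ℤ) (sc : (Fin d → ℤ) → ℝ)
      (r : V → ℝ) (w : Ω → ℝ),
      Frac G F → (∀ φ : List (Fin M) → V, ¬ Tree G h M φ) →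
      SLWin d g G A O hub E hx ho sc r w K →
        ∃ E' : V → Ω → Prop, (∀ x o, E' x o → x ∈ A ∧ o ∈ O ∧ E x o) ∧
          (∀ x o, E' x o → ε ≤ TCH.kap A O E' r w x o) ∧
          ∑ x ∈ A, ∑ o ∈ O with E x o ∧ ¬ E' x o, sc (ho o) * r x * w o ≤ c := by
  obtain ⟨ε, hε, hS⟩ := stSLO M h (Fintype.card (Fin d → Fin (2 * g + 1))) F K c hM hF hK hc
  refine ⟨ε, hε, ?_⟩
  intro V Ω _ G A O hub E hx ho sc r w hFr hT H
  have hwin : ∀ (a : Fin d → Fin (2 * g + 1)) (x : V) (o : Ω),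
      (fun i => hx x i + off g a i) = ho o → ∀ i, |hx x i - ho o i| ≤ g := by
    intro a x o h1 i
    have h2 : hx x i + off g a i = ho o i := congrFun h1 i
    have h3 := abs_le.1 (off_le a i)
    rw [abs_le]
    constructor <;> omega
  obtain ⟨en, hen⟩ : ∃ en : Fin (Fintype.card (Fin d → Fin (2 * g + 1))) →
      (Fin d → Fin (2 * g + 1)), Function.Surjective en :=
    ⟨(Fintype.equivFin _).symm, (Fintype.equivFin _).symm.surjective⟩
  refine hS V Ω (Fin d → ℤ) G A O hub E (fun j x => fun i => hx x i + off g (en j) i) ho sc r w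
    hFr hT
      { r0 := H.r0
        w0 := H.w0
        s0 := H.s0
        own := ?_
        inj := H.inj
        nw := ?_
        nr := ?_
        mr := fun j => H.mr _ (off_le (en j))
        mw := H.mw }
  · intro x hx' o ho' h1
    obtain ⟨h2, h3⟩ := H.own x hx' o ho' h1
    obtain ⟨a, ha⟩ := off_ex (fun i => ho o i - hx x i) (fun i => by rw [abs_sub_comm]; exact h3 i)
    obtain ⟨j, hj⟩ := hen a
    refine ⟨h2, j, ?_⟩
    funext i
    rw [hj, ha]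
    ring
  · intro j x hx'
    refine le_trans (Finset.sum_le_sum_of_subset_of_nonneg ?_ fun o _ _ => H.w0 o) (H.nw x hx')
    intro o ho'
    rw [SL_.mf] at ho' ⊢
    exact ⟨ho'.1, ho'.2.1, hwin _ x o ho'.2.2⟩
  · intro j o ho'
    refine le_trans (Finset.sum_le_sum_of_subset_of_nonneg ?_ fun o _ _ => H.r0 o) (H.nr o ho')
    intro x hx'
    rw [SL_.mf] at hx' ⊢
    exact ⟨hx'.1, hx'.2.1, hwin _ x o hx'.2.2⟩

end Pool.Agent.Lib.GSR
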