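import Pool.Agent.Lib.GSR.SL

/-!
# Self-linked parts of incidences with windows

The own incidence of mate labels has windows: the scale of the label differs from the scale of the
node by at most `g0`, the earlier heights by at most `w0`, and there are many labels with the same
hub.  The labels are merged along cells of a random grid; so the weight of the 4-cycles does not
depend on `w0`, the windows become wider (`W`).
-/

set_option autoImplicit false

namespace Pool.Agent.Lib.GSR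

open Finset Classical
open Pool.Agent.Lib.GSR3 (Stab Tree)
open Pool.Agent.Lib.FGF (Frac)

/-- An own incidence with windows. -/
structure SWI {V Ω : Type} (G : SimpleGraph V) (A : Finset V) (O : Finset Ω) (hub : Ω → V)
    (E : V → Ω → Prop) (g0 w0 d : ℕ) (hs : V → ℤ) (Hs : Ω → ℤ) (h : ℕ → V → ℤ) (H : ℕ → Ω → ℤ)
    (sc : ℤ → ℝ) (r : V → ℝ) (w : Ω → ℝ) (K : ℝ) : Prop where
  r0 : ∀ x, 0 ≤ r x
  wn : ∀ o, 0 ≤ w o
  s0 : ∀ k, 0 ≤ sc k
  own : ∀ x ∈ A, ∀ o ∈ O, E x o → G.Adj x (hub o) ∧ |hs x - Hs o| ≤ g0 ∧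
    ∀ c < d, |h c x - H c o| ≤ w0
  /-- the near weight of a node, at its scale -/
  nw : ∀ x ∈ A, ∑ o ∈ O with G.Adj x (hub o) ∧ |hs x - Hs o| ≤ g0, w o ≤ K
  /-- the near weight of a label, at its scale -/
  nr : ∀ o ∈ O, ∑ x ∈ A with G.Adj x (hub o) ∧ |hs x - Hs o| ≤ g0, r x ≤ K
  mr : ∀ t : ℤ, |t| ≤ g0 → ∑ x ∈ A, sc (hs x + t) * r x ≤ K
  mw : ∑ o ∈ O, sc (Hs o) * w o ≤ K

/-- Module `SLW`: in a graph without an induced tree, all own incidences with windows are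
self-linked up to a part of small flux; `ε` does not depend on the window `w0`. -/
def StSLW : Prop :=
  ∀ (M ht : ℕ) (F K c : ℝ) (g0 : ℕ), 1 ≤ M → 1 ≤ F → 0 < K → 0 < c → ∃ ε : ℝ, 0 < ε ∧
    ∀ w0 d : ℕ, ∃ W : ℕ, ∀ (V Ω : Type) [Fintype V] (G : SimpleGraph V) (A : Finset V)
      (O : Finset Ω) (hub : Ω → V) (E : V → Ω → Prop) (hs : V → ℤ) (Hs : Ω → ℤ)
      (h : ℕ → V → ℤ) (H : ℕ → Ω → ℤ) (sc : ℤ → ℝ) (r : V → ℝ) (w : Ω → ℝ),
      Frac G F → (∀ φ : List (Fin M) → V, ¬ Tree G ht M φ) →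
      SWI G A O hub E g0 w0 d hs Hs h H sc r w K →
        ∃ E' : V → Ω → Prop, (∀ x o, E' x o → x ∈ A ∧ o ∈ O ∧ G.Adj x (hub o) ∧
            |hs x - Hs o| ≤ g0 ∧ ∀ c < d, |h c x - H c o| ≤ W) ∧
          (∀ x o, E' x o → ε ≤ TCH.kap A O E' r w x o) ∧
          ∑ x ∈ A, ∑ o ∈ O with E x o ∧ ¬ E' x o, sc (Hs o) * r x * w o ≤ c

namespace SLW_

/-! ### The shift -/

/-- Hermite's identity. -/
lemma hermite (W : ℕ) (hW : 0 < W) (a : ℤ) :
    ∑ t ∈ Finset.range W, (a + t) / (W : ℤ) = a := by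
  have hW' : (W : ℤ) ≠ 0 := by exact_mod_cast hW.ne'
  have h0 : ∑ t ∈ Finset.range W, ((0 : ℤ) + t) / (W : ℤ) = 0 := by
    refine Finset.sum_eq_zero fun t ht => ?_
    rw [Finset.mem_range] at ht
    rw [zero_add]
    exact Int.ediv_eq_zero_of_lt (by positivity) (by exact_mod_cast ht)
  have hs : ∀ b : ℤ, ∑ t ∈ Finset.range W, (b + 1 + t) / (W : ℤ) =
      ∑ t ∈ Finset.range W, (b + t) / (W : ℤ) + 1 := by
    intro b
    have h1 := Finset.sum_range_succ' (fun t : ℕ => (b + t) / (W : ℤ)) W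
    have h2 := Finset.sum_range_succ (fun t : ℕ => (b + t) / (W : ℤ)) W
    rw [h2] at h1
    have h3 : (b + (W : ℤ)) / (W : ℤ) = b / (W : ℤ) + 1 := Int.add_ediv_of_dvd_right
      (dvd_refl _) |>.trans (by rw [Int.ediv_self hW'])
    have h4 : ∑ t ∈ Finset.range W, (b + ((t + 1 : ℕ) : ℤ)) / (W : ℤ) =
        ∑ t ∈ Finset.range W, (b + 1 + t) / (W : ℤ) := by
      refine Finset.sum_congr rfl fun t _ => ?_
      push_cast
      congr 1
      ring
    rw [h4, h3] at h1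
    simp only [Nat.cast_zero, add_zero] at h1
    linarith
  induction a using Int.induction_on with
  | zero => exact h0
  | succ i ih => rw [hs, ih]
  | pred i ih =>
    have h1 := hs (-(i : ℤ) - 1)
    have h2 : (-(i : ℤ) - 1 + 1) = -(i : ℤ) := by ring
    rw [h2, ih] at h1
    linarith

/-- Two numbers at distance at most `w0` are in different cells for at most `w0` shifts. -/
lemma card_bad (W : ℕ) (hW : 0 < W) (w0 : ℕ) (a b : ℤ) (hab : |a - b| ≤ w0) :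
    (((Finset.range W).filter fun t : ℕ => (a + t) / (W : ℤ) ≠ (b + t) / (W : ℤ)).card : ℤ) ≤
      w0 := by
  wlog h : a ≤ b generalizing a b with H
  · have h1 := H b a (by rwa [abs_sub_comm]) (by omega)
    have h2 : ((Finset.range W).filter fun t : ℕ => (a + t) / (W : ℤ) ≠ (b + t) / (W : ℤ)) =
        (Finset.range W).filter fun t : ℕ => (b + t) / (W : ℤ) ≠ (a + t) / (W : ℤ) := by
      refine Finset.filter_congr fun t _ => ?_
      exact ne_comm
    rw [h2]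
    exact h1
  have hW' : (0 : ℤ) < W := by exact_mod_cast hW
  have h1 : (((Finset.range W).filter fun t : ℕ =>
      (a + t) / (W : ℤ) ≠ (b + t) / (W : ℤ)).card : ℤ) ≤
      ∑ t ∈ Finset.range W, ((b + t) / (W : ℤ) - (a + t) / (W : ℤ)) := by
    rw [Finset.card_filter]
    push_cast
    refine Finset.sum_le_sum fun t _ => ?_
    have h2 : (a + t) / (W : ℤ) ≤ (b + t) / (W : ℤ) :=
      Int.ediv_le_ediv hW' (by linarith)
    split_ifs with h3
    · omega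
    · omega
  rw [Finset.sum_sub_distrib, hermite W hW, hermite W hW] at h1
  have h2 := abs_le.1 hab
  linarith [h2.1, h2.2]

/-- A good shift. -/
lemma exists_shift {ι : Type} (T : Finset ι) (f : ι → ℝ) (hf : ∀ i ∈ T, 0 ≤ f i)
    (d w0 W : ℕ) (hW : 0 < W) (a b : ℕ → ι → ℤ)
    (hab : ∀ i ∈ T, ∀ c < d, |a c i - b c i| ≤ w0) :
    ∃ t : ℕ, (∑ i ∈ T with ∃ c < d, (a c i + t) / (W : ℤ) ≠ (b c i + t) / (W : ℤ), f i) * W ≤
      d * w0 * ∑ i ∈ T, f i := by
  have h1 : ∑ t ∈ Finset.range W,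
      ∑ i ∈ T with ∃ c < d, (a c i + (t : ℕ)) / (W : ℤ) ≠ (b c i + (t : ℕ)) / (W : ℤ), f i ≤
      ∑ i ∈ T, (d * w0 : ℝ) * f i := by
    have h2 : ∀ t ∈ Finset.range W,
        ∑ i ∈ T with ∃ c < d, (a c i + (t : ℕ)) / (W : ℤ) ≠ (b c i + (t : ℕ)) / (W : ℤ), f i ≤
        ∑ i ∈ T, ∑ c ∈ Finset.range d,
          if (a c i + (t : ℕ)) / (W : ℤ) ≠ (b c i + (t : ℕ)) / (W : ℤ) then f i else 0 := by
      intro t _
      rw [Finset.sum_filter]
      refine Finset.sum_le_sum fun i hi => ?_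
      split_ifs with h3
      · obtain ⟨c, hc, h4⟩ := h3
        have h5 := Finset.single_le_sum (f := fun c : ℕ =>
          if (a c i + (t : ℕ)) / (W : ℤ) ≠ (b c i + (t : ℕ)) / (W : ℤ) then f i else 0)
          (s := Finset.range d) (fun c _ => by
            by_cases h6 : (a c i + (t : ℕ)) / (W : ℤ) ≠ (b c i + (t : ℕ)) / (W : ℤ)
            · simp only [h6, if_true, ne_eq, not_false_eq_true]
              exact hf i hi
            · simp only [h6, if_false]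
              exact le_rfl) (Finset.mem_range.2 hc)
        simp only [h4, if_true, ne_eq, not_false_eq_true] at h5
        exact h5
      · refine Finset.sum_nonneg fun c _ => ?_
        split_ifs
        · exact hf i hi
        · exact le_rfl
    refine (Finset.sum_le_sum h2).trans ?_
    rw [Finset.sum_comm]
    refine Finset.sum_le_sum fun i hi => ?_
    rw [Finset.sum_comm]
    have h3 : ∀ c ∈ Finset.range d, ∑ t ∈ Finset.range W,
        (if (a c i + (t : ℕ)) / (W : ℤ) ≠ (b c i + (t : ℕ)) / (W : ℤ) then f i else 0) ≤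
        w0 * f i := by
      intro c hc
      rw [← Finset.sum_filter, Finset.sum_const, nsmul_eq_mul]
      refine mul_le_mul_of_nonneg_right ?_ (hf i hi)
      have h4 := card_bad W hW w0 (a c i) (b c i) (hab i hi c (Finset.mem_range.1 hc))
      exact_mod_cast h4
    refine (Finset.sum_le_sum h3).trans (le_of_eq ?_)
    rw [Finset.sum_const, Finset.card_range, nsmul_eq_mul]
    ring
  rw [← Finset.mul_sum] at h1
  by_contra hcon
  push Not at hcon
  have hW' : (0 : ℝ) < W := by exact_mod_cast hW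
  have h2 : ∀ t ∈ Finset.range W, (d * w0 * ∑ i ∈ T, f i) / W <
      ∑ i ∈ T with ∃ c < d, (a c i + (t : ℕ)) / (W : ℤ) ≠ (b c i + (t : ℕ)) / (W : ℤ), f i := by
    intro t _
    rw [div_lt_iff₀ hW']
    exact hcon t
  have h3 := Finset.sum_lt_sum_of_nonempty (Finset.nonempty_range_iff.2 hW.ne') h2
  rw [Finset.sum_const, Finset.card_range, nsmul_eq_mul, mul_div_cancel₀ _ hW'.ne'] at h3
  linarith

/-! ### Merging labels -/

lemma sum_pairs' {V Ω : Type} (A : Finset V) (O : Finset Ω) (R : V → Ω → Prop)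
    {d1 : ∀ x, DecidablePred (R x)} {d2 : DecidablePred fun e : V × Ω => R e.1 e.2}
    (g : V → Ω → ℝ) :
    ∑ x ∈ A, ∑ o ∈ O with R x o, g x o =
      ∑ e ∈ (A ×ˢ O).filter (fun e => R e.1 e.2), g e.1 e.2 := by
  rw [Finset.sum_filter, Finset.sum_product]
  refine Finset.sum_congr rfl fun x _ => ?_
  rw [Finset.sum_filter]
  refine Finset.sum_congr rfl fun y _ => ?_
  by_cases h : R x y
  · rw [if_pos h, if_pos h]
  · rw [if_neg h, if_neg h]

/-- The merged weights. -/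
noncomputable def mwt {Ω Ω' : Type} (O : Finset Ω) (w : Ω → ℝ) (mk : Ω → Ω') (o' : Ω') : ℝ :=
  ∑ o ∈ O with mk o = o', w o

lemma sum_mwt {Ω Ω' : Type} (O : Finset Ω) {O' : Finset Ω'} (w : Ω → ℝ) (mk : Ω → Ω')
    (hO' : ∀ o', o' ∈ O' ↔ ∃ o ∈ O, mk o = o') (P : Ω' → Prop) {d1 : DecidablePred P}
    {d2 : DecidablePred fun o => P (mk o)} (f : Ω' → ℝ) :
    ∑ o' ∈ O' with P o', f o' * mwt O w mk o' = ∑ o ∈ O with P (mk o), f (mk o) * w o := by
  have h1 : ∑ o ∈ O with P (mk o), f (mk o) * w o =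
      ∑ o' ∈ O'.filter P, ∑ o ∈ (O.filter fun o => P (mk o)) with mk o = o',
        f (mk o) * w o := by
    refine (Finset.sum_fiberwise_of_maps_to ?_ _).symm
    intro o ho
    rw [Finset.mem_filter] at ho ⊢
    exact ⟨(hO' _).2 ⟨o, ho.1, rfl⟩, ho.2⟩
  rw [h1]
  refine Finset.sum_congr rfl fun o' ho' => ?_
  rw [Finset.mem_filter] at ho'
  unfold mwt
  rw [Finset.mul_sum]
  have h2 : ((O.filter fun o => P (mk o)).filter fun o => mk o = o') =
      O.filter fun o => mk o = o' := by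
    ext o
    simp only [Finset.mem_filter]
    constructor
    · rintro ⟨⟨h3, _⟩, h4⟩
      exact ⟨h3, h4⟩
    · rintro ⟨h3, h4⟩
      exact ⟨⟨h3, h4 ▸ ho'.2⟩, h4⟩
  rw [h2]
  refine Finset.sum_congr rfl fun o ho => ?_
  rw [Finset.mem_filter] at ho
  rw [ho.2]

lemma sum_mwt' {Ω Ω' : Type} (O : Finset Ω) {O' : Finset Ω'} (w : Ω → ℝ) (mk : Ω → Ω')
    (hO' : ∀ o', o' ∈ O' ↔ ∃ o ∈ O, mk o = o') (P : Ω' → Prop) {d1 : DecidablePred P}
    {d2 : DecidablePred fun o => P (mk o)} :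
    ∑ o' ∈ O' with P o', mwt O w mk o' = ∑ o ∈ O with P (mk o), w o := by
  have h := sum_mwt (d1 := d1) (d2 := d2) O w mk hO' P fun _ => 1
  simp only [one_mul] at h
  exact h

lemma kap_merge {V Ω Ω' : Type} (A : Finset V) (O : Finset Ω) {O' : Finset Ω'}
    (E : V → Ω' → Prop) (r : V → ℝ) (w : Ω → ℝ) (mk : Ω → Ω')
    (hO' : ∀ o', o' ∈ O' ↔ ∃ o ∈ O, mk o = o') (x : V) (o : Ω) :
    TCH.kap A O (fun x o => E x (mk o)) r w x o = TCH.kap A O' E r (mwt O w mk) x (mk o) := by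
  unfold TCH.kap
  refine Finset.sum_congr rfl fun x' _ => ?_
  rw [sum_mwt' (d2 := fun _ => Classical.propDecidable _) O w mk hO' fun o' => E x o' ∧ E x' o']
  congr 1
  refine Finset.sum_congr ?_ fun _ _ => rfl
  ext o1
  simp only [Finset.mem_filter]

/-! ### The module -/

lemma ediv_close {W : ℕ} (hW : 0 < W) {a b t : ℤ} (h : (a + t) / (W : ℤ) = (b + t) / (W : ℤ)) :
    |a - b| ≤ W := by
  have hW' : (0 : ℤ) < W := by exact_mod_cast hW
  have h1 := Int.emod_nonneg (a + t) hW'.ne'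
  have h2 := Int.emod_lt_of_pos (a + t) hW'
  have h3 := Int.emod_nonneg (b + t) hW'.ne'
  have h4 := Int.emod_lt_of_pos (b + t) hW'
  have h5 := Int.emod_add_mul_ediv (a + t) W
  have h6 := Int.emod_add_mul_ediv (b + t) W
  rw [h] at h5
  rw [abs_le]
  constructor <;> linarith

end SLW_

open SLW_

theorem stSLW : StSLW := by
  intro M ht F K c g0 hM hF hK hc
  have hg : (0 : ℝ) < 2 * g0 + 1 := by positivity
  obtain ⟨ε, hε, hSL⟩ := stSL M ht F K (c / (2 * (2 * g0 + 1))) hM hF hK (by positivity)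
  refine ⟨ε, hε, fun w0 d => ?_⟩
  obtain ⟨W, hW1⟩ := exists_nat_gt (2 * (d * w0) * K ^ 2 / c)
  have hW0 : (0 : ℝ) ≤ 2 * (d * w0) * K ^ 2 / c := by positivity
  have hWr : (0 : ℝ) < W := hW0.trans_lt hW1
  have hW : 0 < W := by exact_mod_cast hWr
  refine ⟨W, ?_⟩
  intro V Ω _ G A O hub E hs Hs h H sc r w hFr hT hE
  -- the total flux
  have htot : ∑ e ∈ (A ×ˢ O).filter (fun e => E e.1 e.2), sc (Hs e.2) * r e.1 * w e.2 ≤
      K ^ 2 := by
    rw [← SL_.sum_pairs A O E fun x o => sc (Hs o) * r x * w o]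
    have h1 : ∑ x ∈ A, ∑ o ∈ O with E x o, sc (Hs o) * r x * w o =
        ∑ o ∈ O, ∑ x ∈ A with E x o, sc (Hs o) * r x * w o := by
      simp_rw [Finset.sum_filter]
      rw [Finset.sum_comm]
    rw [h1]
    have h2 : ∀ o ∈ O, ∑ x ∈ A with E x o, sc (Hs o) * r x * w o ≤ sc (Hs o) * w o * K := by
      intro o ho
      have h3 : ∑ x ∈ A with E x o, sc (Hs o) * r x * w o =
          sc (Hs o) * w o * ∑ x ∈ A with E x o, r x := by
        rw [Finset.mul_sum]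
        refine Finset.sum_congr rfl fun x _ => ?_
        ring
      rw [h3]
      refine mul_le_mul_of_nonneg_left (le_trans ?_ (hE.nr o ho))
        (mul_nonneg (hE.s0 _) (hE.wn o))
      refine Finset.sum_le_sum_of_subset_of_nonneg ?_ fun x _ _ => hE.r0 x
      intro x hx
      rw [Finset.mem_filter] at hx ⊢
      have h4 := hE.own x hx.1 o ho hx.2
      exact ⟨hx.1, h4.1, h4.2.1⟩
    refine (Finset.sum_le_sum h2).trans ?_
    rw [← Finset.sum_mul, pow_two]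
    exact mul_le_mul_of_nonneg_right hE.mw hK.le
  -- the shift
  obtain ⟨t, ht'⟩ := exists_shift ((A ×ˢ O).filter fun e => E e.1 e.2)
    (fun e => sc (Hs e.2) * r e.1 * w e.2)
    (fun e _ => mul_nonneg (mul_nonneg (hE.s0 _) (hE.r0 _)) (hE.wn _)) d w0 W hW
    (fun c e => h c e.1) (fun c e => H c e.2) (by
      intro e he k hk
      rw [Finset.mem_filter, Finset.mem_product] at he
      exact (hE.own e.1 he.1.1 e.2 he.1.2 he.2).2.2 k hk)
  -- the cells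
  obtain ⟨cx, hcx⟩ : ∃ cx : V → Fin d → ℤ, cx = fun x (k : Fin d) => (h k.1 x + t) / (W : ℤ) :=
    ⟨_, rfl⟩
  obtain ⟨co, hco⟩ : ∃ co : Ω → Fin d → ℤ, co = fun o (k : Fin d) => (H k.1 o + t) / (W : ℤ) :=
    ⟨_, rfl⟩
  obtain ⟨mk, hmk⟩ : ∃ mk : Ω → V × (ℤ × (Fin d → ℤ)), mk = fun o => (hub o, (Hs o, co o)) :=
    ⟨_, rfl⟩
  obtain ⟨O', hO'⟩ : ∃ O' : Finset (V × (ℤ × (Fin d → ℤ))), ∀ o', o' ∈ O' ↔ ∃ o ∈ O, mk o = o' :=
    ⟨O.image mk, fun o' => Finset.mem_image⟩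
  obtain ⟨kx, hkx⟩ : ∃ kx : ℤ → V → ℤ × (Fin d → ℤ), kx = fun e x => (hs x + e, cx x) :=
    ⟨_, rfl⟩
  obtain ⟨Em, hEm⟩ : ∃ Em : ℤ → V → V × (ℤ × (Fin d → ℤ)) → Prop,
      Em = fun e x o' => G.Adj x o'.1 ∧ kx e x = o'.2 := ⟨_, rfl⟩
  have hEm' : ∀ e x o, Em e x (mk o) ↔ G.Adj x (hub o) ∧ hs x + e = Hs o ∧ cx x = co o := by
    intro e x o
    rw [hEm, hmk, hkx]
    constructor
    · rintro ⟨h1, h2⟩
      exact ⟨h1, congrArg Prod.fst h2, congrArg Prod.snd h2⟩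
    · rintro ⟨h1, h2, h3⟩
      exact ⟨h1, Prod.ext h2 h3⟩
  -- the merged incidences
  have hm : ∀ e : ℤ, |e| ≤ g0 → SLI G A O' Prod.fst (Em e) (kx e) Prod.snd
      (fun k => sc k.1) r (mwt O w mk) K := by
    intro e he
    have hwin : ∀ x o, hs x + e = Hs o → |hs x - Hs o| ≤ g0 := by
      intro x o h1
      have h3 : hs x - Hs o = -e := by linarith
      rw [h3, abs_neg]
      exact he
    refine ⟨hE.r0, fun o' => Finset.sum_nonneg fun o _ => hE.wn o, fun k => hE.s0 _,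
      ?_, ?_, ?_, ?_, ?_, ?_⟩
    · intro x _ o' _ h1
      rw [hEm] at h1
      exact h1
    · intro o1 _ o2 _ h1 h2
      exact Prod.ext h2 h1
    · intro x hx
      rw [sum_mwt' (d2 := fun _ => Classical.propDecidable _) O w mk hO'
        fun o' => G.Adj x o'.1 ∧ kx e x = o'.2]
      refine le_trans (Finset.sum_le_sum_of_subset_of_nonneg ?_ fun o _ _ => hE.wn o) (hE.nw x hx)
      intro o ho
      rw [SL_.mf] at ho ⊢
      have h1 : Em e x (mk o) := by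
        rw [hEm]
        exact ho.2
      rw [hEm'] at h1
      exact ⟨ho.1, h1.1, hwin x o h1.2.1⟩
    · intro o' ho'
      obtain ⟨o, ho, rfl⟩ := (hO' o').1 ho'
      refine le_trans (Finset.sum_le_sum_of_subset_of_nonneg ?_ fun x _ _ => hE.r0 x) (hE.nr o ho)
      intro x hx
      rw [SL_.mf] at hx ⊢
      have h1 : Em e x (mk o) := by
        rw [hEm]
        exact hx.2
      rw [hEm'] at h1
      exact ⟨hx.1, h1.1, hwin x o h1.2.1⟩
    · rw [hkx]
      exact hE.mr e he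
    · have h1 := sum_mwt (d1 := fun _ => instDecidableTrue) (d2 := fun _ => instDecidableTrue)
        O w mk hO' (fun _ => True) fun o' => sc o'.2.1
      simp only [Finset.filter_true_of_mem, implies_true] at h1
      rw [h1]
      have h2 : ∀ o ∈ O, sc (mk o).2.1 * w o = sc (Hs o) * w o := by
        intro o _
        rw [hmk]
      rw [Finset.sum_congr rfl h2]
      exact hE.mw
  -- the self-linked parts
  have hsl : ∀ e : ℤ, ∃ E' : V → V × (ℤ × (Fin d → ℤ)) → Prop, |e| ≤ g0 →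
      (∀ x o, E' x o → x ∈ A ∧ o ∈ O' ∧ Em e x o) ∧
      (∀ x o, E' x o → ε ≤ TCH.kap A O' E' r (mwt O w mk) x o) ∧
      ∑ x ∈ A, ∑ o ∈ O' with Em e x o ∧ ¬ E' x o,
        sc (kx e x).1 * r x * mwt O w mk o ≤ c / (2 * (2 * g0 + 1)) := by
    intro e
    by_cases he : |e| ≤ g0
    · obtain ⟨E', h1, h2, h3⟩ := hSL V _ _ G A O' Prod.fst _ _ Prod.snd _ r
        (mwt O w mk) hFr hT (hm e he)
      exact ⟨E', fun _ => ⟨h1, h2, h3⟩⟩
    · exact ⟨fun _ _ => False, fun h1 => absurd h1 he⟩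
  choose E1 hE1 using hsl
  obtain ⟨E2, hE2⟩ : ∃ E2 : V → Ω → Prop, ∀ x o, E2 x o ↔
      x ∈ A ∧ o ∈ O ∧ ∃ e : ℤ, |e| ≤ g0 ∧ E1 e x (mk o) := ⟨_, fun _ _ => Iff.rfl⟩
  refine ⟨E2, ?_, ?_, ?_⟩
  · intro x o h1
    obtain ⟨hx, ho, e, he, h1⟩ := (hE2 x o).1 h1
    have h2 := ((hE1 e he).1 x (mk o) h1).2.2
    rw [hEm'] at h2
    refine ⟨hx, ho, h2.1, ?_, ?_⟩
    · have h5 : hs x - Hs o = -e := by linarith [h2.2.1]
      rw [h5, abs_neg]
      exact he
    · intro k hk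
      have h4 : cx x ⟨k, hk⟩ = co o ⟨k, hk⟩ := congrFun h2.2.2 _
      rw [hcx, hco] at h4
      exact ediv_close hW h4
  · intro x o h1
    obtain ⟨hx, ho, e, he, h1⟩ := (hE2 x o).1 h1
    refine ((hE1 e he).2.1 x (mk o) h1).trans ?_
    rw [← kap_merge A O (E1 e) r w mk hO' x o]
    refine SL_.kap_mono hE.r0 hE.wn subset_rfl subset_rfl ?_ x hx o ho
    intro x' hx' o' ho' h2
    exact (hE2 x' o').2 ⟨hx', ho', e, he, h2⟩
  -- the flux
  have hnn : ∀ x o, 0 ≤ sc (Hs o) * r x * w o := fun x o =>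
    mul_nonneg (mul_nonneg (hE.s0 _) (hE.r0 _)) (hE.wn _)
  have hbad : ∑ e ∈ ((A ×ˢ O).filter fun e => E e.1 e.2) with
      ∃ k < d, (h k e.1 + (t : ℕ)) / (W : ℤ) ≠ (H k e.2 + (t : ℕ)) / (W : ℤ),
        sc (Hs e.2) * r e.1 * w e.2 ≤ c / 2 := by
    have h1 : (d * w0 * ∑ e ∈ (A ×ˢ O).filter (fun e => E e.1 e.2),
        sc (Hs e.2) * r e.1 * w e.2 : ℝ) ≤ d * w0 * K ^ 2 :=
      mul_le_mul_of_nonneg_left htot (by positivity)
    have h2 := ht'.trans h1
    rw [← le_div_iff₀ hWr] at h2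
    refine h2.trans ?_
    rw [div_le_iff₀ hWr]
    rw [div_lt_iff₀ hc] at hW1
    nlinarith
  have hgood : ∀ x ∈ A, ∀ o ∈ O, E x o → ¬ (∃ k < d, (h k x + (t : ℕ)) / (W : ℤ) ≠
      (H k o + (t : ℕ)) / (W : ℤ)) → ∃ e ∈ Finset.Icc (-(g0 : ℤ)) g0, Em e x (mk o) := by
    intro x hx o ho h1 h2
    push Not at h2
    obtain ⟨h3, h4, _⟩ := hE.own x hx o ho h1
    refine ⟨Hs o - hs x, ?_, ?_⟩
    · rw [Finset.mem_Icc]
      have h5 := abs_le.1 h4
      constructor <;> linarith [h5.1, h5.2]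
    · rw [hEm']
      refine ⟨h3, by ring, ?_⟩
      rw [hcx, hco]
      funext k
      exact h2 k k.2
  have hmem : ∀ e ∈ Finset.Icc (-(g0 : ℤ)) g0, |e| ≤ g0 := by
    intro e he
    rw [Finset.mem_Icc] at he
    exact abs_le.2 he
  have hsum : ∀ e ∈ Finset.Icc (-(g0 : ℤ)) g0,
      ∑ x ∈ A, ∑ o ∈ O with Em e x (mk o) ∧ ¬ E1 e x (mk o),
        sc (Hs o) * r x * w o ≤ c / (2 * (2 * g0 + 1)) := by
    intro e he
    refine le_trans (le_of_eq ?_) (hE1 e (hmem e he)).2.2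
    refine Finset.sum_congr rfl fun x _ => ?_
    rw [sum_mwt (d2 := fun _ => instDecidableAnd) O w mk hO'
      (fun o' => Em e x o' ∧ ¬ E1 e x o') fun _ => sc (kx e x).1 * r x]
    refine Finset.sum_congr rfl fun o ho => ?_
    rw [Finset.mem_filter] at ho
    have h2 := (hEm' e x o).1 ho.2.1
    rw [← h2.2.1, hkx]
  have hsub : (A ×ˢ O).filter (fun p => E p.1 p.2 ∧ ¬ E2 p.1 p.2) ⊆
      (((A ×ˢ O).filter fun e => E e.1 e.2).filter fun p =>
        ∃ k < d, (h k p.1 + (t : ℕ)) / (W : ℤ) ≠ (H k p.2 + (t : ℕ)) / (W : ℤ)) ∪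
      (Finset.Icc (-(g0 : ℤ)) g0).biUnion fun e => (A ×ˢ O).filter fun p =>
        Em e p.1 (mk p.2) ∧ ¬ E1 e p.1 (mk p.2) := by
    intro p hp
    rw [Finset.mem_filter, Finset.mem_product] at hp
    obtain ⟨⟨hx, ho⟩, h1, h2⟩ := hp
    rw [Finset.mem_union]
    by_cases h3 : ∃ k < d, (h k p.1 + (t : ℕ)) / (W : ℤ) ≠ (H k p.2 + (t : ℕ)) / (W : ℤ)
    · exact Or.inl (Finset.mem_filter.2 ⟨Finset.mem_filter.2
        ⟨Finset.mem_product.2 ⟨hx, ho⟩, h1⟩, h3⟩)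
    · obtain ⟨e, he, h4⟩ := hgood p.1 hx p.2 ho h1 h3
      exact Or.inr (Finset.mem_biUnion.2 ⟨e, he, Finset.mem_filter.2
        ⟨Finset.mem_product.2 ⟨hx, ho⟩, h4, fun h5 => h2 ((hE2 _ _).2 ⟨hx, ho, e, hmem e he, h5⟩)⟩⟩)
  rw [sum_pairs' (d2 := fun _ => instDecidableAnd) A O (fun x o => E x o ∧ ¬ E2 x o)
    fun x o => sc (Hs o) * r x * w o]
  refine (Finset.sum_le_sum_of_subset_of_nonneg hsub fun p _ _ => hnn _ _).trans ?_
  have hun : ∀ (S T : Finset (V × Ω)) (f : V × Ω → ℝ), (∀ p, 0 ≤ f p) →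
      ∑ p ∈ S ∪ T, f p ≤ ∑ p ∈ S, f p + ∑ p ∈ T, f p := by
    intro S T f hf
    rw [← Finset.sum_union_inter]
    exact le_add_of_nonneg_right (Finset.sum_nonneg fun p _ => hf p)
  refine (hun _ _ _ fun p => hnn _ _).trans ?_
  have hbi : ∀ (I : Finset ℤ) (S : ℤ → Finset (V × Ω)) (f : V × Ω → ℝ), (∀ p, 0 ≤ f p) →
      ∑ p ∈ I.biUnion S, f p ≤ ∑ e ∈ I, ∑ p ∈ S e, f p := by
    intro I S f hf
    induction I using Finset.induction_on with
    | empty => simp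
    | insert a I ha ih =>
      rw [Finset.biUnion_insert, Finset.sum_insert ha]
      exact (hun _ _ _ hf).trans (add_le_add le_rfl ih)
  have h1 : ∑ p ∈ (Finset.Icc (-(g0 : ℤ)) g0).biUnion (fun e => (A ×ˢ O).filter fun p =>
      Em e p.1 (mk p.2) ∧ ¬ E1 e p.1 (mk p.2)), sc (Hs p.2) * r p.1 * w p.2 ≤
      ∑ _e ∈ Finset.Icc (-(g0 : ℤ)) g0, c / (2 * (2 * g0 + 1)) := by
    refine (hbi _ _ _ fun p => hnn p.1 p.2).trans (Finset.sum_le_sum fun e he => ?_)
    have h2 := hsum e he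
    rw [sum_pairs' (d2 := fun _ => instDecidableAnd) A O
      (fun x o => Em e x (mk o) ∧ ¬ E1 e x (mk o)) fun x o => sc (Hs o) * r x * w o] at h2
    exact h2
  rw [Finset.sum_const, Int.card_Icc, nsmul_eq_mul] at h1
  have h2 : (((g0 : ℤ) + 1 - -(g0 : ℤ)).toNat : ℝ) = 2 * g0 + 1 := by
    have h3 : ((g0 : ℤ) + 1 - -(g0 : ℤ)).toNat = 2 * g0 + 1 := by omega
    rw [h3]
    push_cast
    ring
  rw [h2] at h1
  have h4 : (2 * g0 + 1 : ℝ) * (c / (2 * (2 * g0 + 1))) = c / 2 := by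
    field_simp
  rw [h4] at h1
  linarith

end Pool.Agent.Lib.GSR
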