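import Pool.Agent.Lib.GSR.Srv

/-!
# Own steps, scores and served shares

* `OwnF`, `stOwn`: the own step of a label with the hub `v` and the own law `P`: a minimiser of
  the violation over the measures of bounded mass has small violation on average.
* `score_dom`: if the score of `x` is at least `c` then the average of the charges of the labels
  dominates exactly.
* `served_sub`, `served_markov`: the difference of the served share and of the score.
-/

set_option autoImplicit false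

namespace Pool.Agent.Lib.GSR

open Finset Classical
open Pool.Agent.Lib.GSR3 (Stab Tree)
open Pool.Agent.Lib.FGF (cm nm Dom)
open Pool.Agent.Lib.GSLE (cl cl_nonneg cl_le_one)

/-! ### The own step -/

/-- The charge of the own step. -/
noncomputable def ownC {V : Type} [Fintype V] (G : SimpleGraph V) (A η : ℝ) (g P lam : V → ℝ)
    (v : V) : V → ℝ :=
  fun x => A * g x + cm G (fun u => (if u = v then 1 else 0) + lam u + P u / η) x

/-- The mean violation of the own step. -/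
noncomputable def OwnF {V : Type} [Fintype V] (G : SimpleGraph V) (M j : ℕ) (A η : ℝ)
    (g P lam : V → ℝ) (v : V) (L : Finset V) : ℝ :=
  ∑ x, P x * vioC G M j x (ownC G A η g P lam v) L

/-- The measures allowed in the own step. -/
def OwnK {V : Type} [Fintype V] (Λ : ℝ) (L : Finset V) : Set (V → ℝ) :=
  {l | (∀ u, 0 ≤ l u) ∧ (∀ u, l u ≠ 0 → u ∈ L) ∧ ∑ u, l u ≤ Λ}

/-- The own step. -/
def StOwn : Prop :=
  ∀ M j κ : ℕ, 1 ≤ M → 1 ≤ j → ∀ δ : ℝ, 0 < δ → ∃ A Λ η : ℝ, 1 ≤ A ∧ 0 ≤ Λ ∧ 0 < η ∧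
    ∀ (V : Type) [Fintype V] (G : SimpleGraph V) (g P : V → ℝ) (L L' : Finset V) (v : V)
      (f : V → Fin κ),
      (∀ u, 0 ≤ g u) → (∀ u, 0 ≤ P u) → L ⊆ L' →
      (∀ c, P c ≠ 0 → G.Adj v c ∧ c ∈ L') →
      (∀ u w, G.Adj v u → G.Adj v w → G.Adj u w → f u ≠ f w) →
      vioC G M (j + 1) v g L' ≤ 1 / 2 →
        ∀ lam : V → ℝ, (∀ l ∈ OwnK Λ L, OwnF G M j A η g P lam v L ≤ OwnF G M j A η g P l v L) →
          OwnF G M j A η g P lam v L ≤ δ + A * ∑ c, P c * min 1 (g c)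

theorem stOwn : StOwn := by
  intro M j κ hM hj δ hδ
  obtain ⟨A, Λ, η, hA, hΛ, hη, key⟩ := stRoot M j κ hM hj δ hδ
  refine ⟨A, Λ, η, hA, hΛ, hη, ?_⟩
  intro V _ G g P L L' v f hg hP hL hPv hf hv lam hlam
  obtain ⟨l, h1, h2, h3, h4⟩ := key V G g P L L' v f hg hP hL hPv hf hv
  exact (hlam l ⟨h1, h2, h3⟩).trans h4

/-- The cost of an own law with a small charge. -/
theorem cost_le {V : Type} [Fintype V] {P g : V → ℝ} {e : ℝ} (hP : ∀ x, 0 ≤ P x)
    (hg : ∀ x, P x ≠ 0 → g x ≤ e) : ∑ x, P x * min 1 (g x) ≤ e * ∑ x, P x := by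
  rw [Finset.mul_sum]
  refine Finset.sum_le_sum fun x _ => ?_
  rcases eq_or_ne (P x) 0 with h | h
  · rw [h, zero_mul, mul_zero]
  · rw [mul_comm]
    exact mul_le_mul_of_nonneg_right ((min_le_right _ _).trans (hg x h)) (hP x)

/-! ### The score -/

/-- The charge of a weighted sum of measures. -/
theorem cm_sum {V Om : Type} [Fintype V] (G : SimpleGraph V) (O : Finset Om) (w : Om → ℝ)
    (R : Om → V → ℝ) (x : V) :
    cm G (fun u => ∑ l ∈ O, w l * R l u) x = ∑ l ∈ O, w l * cm G (R l) x := by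
  simp only [Srv_.cm_cl, Finset.mul_sum, Finset.sum_mul]
  rw [Finset.sum_comm]
  refine Finset.sum_congr rfl fun l _ => Finset.sum_congr rfl fun u _ => ?_
  ring

/-- **A vertex with the score at least `c`**: the average of the charges dominates exactly.
`w l` is the weight of the label `l` at `x`, `sv l` the service weight, `R l` the charge measure of
`l`, `f` the cover. -/
theorem score_dom {V Om : Type} [Fintype V] (G : SimpleGraph V) {M j : ℕ} {c Z Z' H : ℝ}
    (hc : 0 < c) (hZ : 0 ≤ Z) (hZ' : H / c * Z ≤ Z') (O : Finset Om) {w : Om → ℝ}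
    {R : Om → V → ℝ} {f : V → ℝ} (hf : ∀ u, 0 ≤ f u) (hw : ∀ l ∈ O, 0 ≤ w l)
    (hH : ∑ l ∈ O, w l ≤ H) {x : V} {L : Finset V}
    (h : c ≤ ∑ l ∈ O, w l * (1 - vioC G M j x (fun u => cm G (R l) u + Z * f u) L)) :
    vioC G M j x (fun u => cm G (fun v => 1 / c * ∑ l ∈ O, w l * R l v) u + Z' * f u) L = 0 := by
  have h1 := vioC_avg (G := G) (M := M) (j := j) (v := x) (L := L) O w
    (fun l u => cm G (R l) u + Z * f u) hc hw h
  refine le_antisymm (le_trans (vioC_anti (fun u => ?_) (Finset.Subset.refl L)) h1.le)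
    vioC_nonneg
  have h2 : cm G (fun v => 1 / c * ∑ l ∈ O, w l * R l v) u =
      1 / c * ∑ l ∈ O, w l * cm G (R l) u := by
    rw [← cm_sum G O w R u, Srv_.cm_cl, Srv_.cm_cl, Finset.mul_sum]
    refine Finset.sum_congr rfl fun v _ => ?_
    ring
  have h3 : ∑ l ∈ O, w l * (cm G (R l) u + Z * f u) =
      ∑ l ∈ O, w l * cm G (R l) u + (∑ l ∈ O, w l) * (Z * f u) := by
    rw [Finset.sum_mul, ← Finset.sum_add_distrib]
    exact Finset.sum_congr rfl fun l _ => by ring
  have h4 : 1 / c * ((∑ l ∈ O, w l) * (Z * f u)) ≤ Z' * f u := by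
    have h5 : (∑ l ∈ O, w l) * (Z * f u) ≤ H * (Z * f u) :=
      mul_le_mul_of_nonneg_right hH (mul_nonneg hZ (hf u))
    have h6 : 1 / c * ((∑ l ∈ O, w l) * (Z * f u)) ≤ 1 / c * (H * (Z * f u)) :=
      mul_le_mul_of_nonneg_left h5 (by positivity)
    have h7 : 1 / c * (H * (Z * f u)) = H / c * Z * f u := by ring
    rw [h7] at h6
    exact h6.trans (mul_le_mul_of_nonneg_right hZ' (hf u))
  show 1 / c * ∑ l ∈ O, w l * (cm G (R l) u + Z * f u) ≤
    cm G (fun v => 1 / c * ∑ l ∈ O, w l * R l v) u + Z' * f u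
  rw [h2, h3, mul_add]
  linarith

/-! ### The served share -/

section

variable {V Om : Type} [Fintype V]

/-- The served share minus the score. -/
theorem served_sub (O : Finset Om) {n : V → ℝ} {w P ups : Om → V → ℝ} {ρ sv : Om → ℝ}
    (hP : ∀ l ∈ O, ∀ x, n x * w l x = ρ l * P l x) :
    ∑ x, n x * (∑ l ∈ O, w l x * sv l - ∑ l ∈ O, w l x * sv l * (1 - ups l x)) =
      ∑ l ∈ O, ρ l * sv l * ∑ x, P l x * ups l x := by
  have h1 : ∀ x, n x * (∑ l ∈ O, w l x * sv l - ∑ l ∈ O, w l x * sv l * (1 - ups l x)) =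
      ∑ l ∈ O, ρ l * sv l * (P l x * ups l x) := by
    intro x
    rw [← Finset.sum_sub_distrib, Finset.mul_sum]
    refine Finset.sum_congr rfl fun l hl => ?_
    linear_combination (sv l * ups l x) * hP l hl x
  rw [Finset.sum_congr rfl fun x _ => h1 x, Finset.sum_comm]
  exact Finset.sum_congr rfl fun l _ => by rw [Finset.mul_sum]

/-- The nodes with the score at most `c` and the served share at least `2 c`. -/
theorem served_markov (O : Finset Om) {n : V → ℝ} {w P ups : Om → V → ℝ} {ρ sv : Om → ℝ}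
    {c E : ℝ} (hn : ∀ x, 0 ≤ n x) (hw : ∀ l x, 0 ≤ w l x) (hsv : ∀ l, 0 ≤ sv l)
    (hups : ∀ l x, 0 ≤ ups l x) (hP : ∀ l ∈ O, ∀ x, n x * w l x = ρ l * P l x)
    (hE : ∑ l ∈ O, ρ l * sv l * ∑ x, P l x * ups l x ≤ E) (X : Finset V)
    (hX : ∀ x ∈ X, ∑ l ∈ O, w l x * sv l * (1 - ups l x) + c ≤ ∑ l ∈ O, w l x * sv l) :
    c * ∑ x ∈ X, n x ≤ E := by
  refine le_trans ?_ hE
  rw [← served_sub O hP, Finset.mul_sum]
  refine (Finset.sum_le_sum (g := fun x => n x * (∑ l ∈ O, w l x * sv l -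
      ∑ l ∈ O, w l x * sv l * (1 - ups l x))) fun x hx => ?_).trans
    (Finset.sum_le_sum_of_subset_of_nonneg (Finset.subset_univ _) fun x _ _ => ?_)
  · rw [mul_comm]
    exact mul_le_mul_of_nonneg_left (by linarith [hX x hx]) (hn x)
  · refine mul_nonneg (hn x) ?_
    rw [sub_nonneg]
    refine Finset.sum_le_sum fun l _ => ?_
    have h1 : 0 ≤ w l x * sv l := mul_nonneg (hw l x) (hsv l)
    nlinarith [hups l x]

/-- The sum over the labels: every used label has a small mean violation relative to the mass of its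
own law or absolutely. -/
theorem served_bound (O : Finset Om) {P ups : Om → V → ℝ} {ρ sv : Om → ℝ} {d Rm : ℝ}
    (hρ : ∀ l, 0 ≤ ρ l) (hsv : ∀ l, 0 ≤ sv l) (hsv1 : ∀ l, sv l ≤ 1) (hd : 0 ≤ d)
    (hR : ∑ l ∈ O, ρ l ≤ Rm)
    (h : ∀ l ∈ O, ρ l ≠ 0 → sv l ≠ 0 → ∑ x, P l x * ups l x ≤ d) :
    ∑ l ∈ O, ρ l * sv l * ∑ x, P l x * ups l x ≤ d * Rm := by
  calc ∑ l ∈ O, ρ l * sv l * ∑ x, P l x * ups l x ≤ ∑ l ∈ O, d * ρ l := by
        refine Finset.sum_le_sum fun l hl => ?_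
        rcases eq_or_ne (ρ l) 0 with h1 | h1
        · rw [h1, zero_mul, zero_mul, mul_zero]
        rcases eq_or_ne (sv l) 0 with h2 | h2
        · rw [h2, mul_zero, zero_mul]
          exact mul_nonneg hd (hρ l)
        have h3 : 0 ≤ ρ l * sv l := mul_nonneg (hρ l) (hsv l)
        calc ρ l * sv l * ∑ x, P l x * ups l x ≤ ρ l * sv l * d :=
              mul_le_mul_of_nonneg_left (h l hl h1 h2) h3
          _ ≤ d * ρ l := by nlinarith [mul_nonneg (hρ l) hd, hsv1 l]
    _ = d * ∑ l ∈ O, ρ l := by rw [Finset.mul_sum]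
    _ ≤ d * Rm := mul_le_mul_of_nonneg_left hR hd

end

end Pool.Agent.Lib.GSR
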