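import Pool.Agent.Lib.GSR.VioC
import Pool.Agent.Lib.GSLE.FanE

/-!
# The service lemma

`stRoot`: if the charge `g` dominates the trees of depth `j + 1` with the root `v` then for every
law `q` on the neighbours of `v` there is a measure of bounded mass which, together with `g`, the
weight at `v` and a multiple of `q`, dominates the trees of depth `j` for `q`-most roots.

`stSrv`: the same for a family of labels `l` with the hubs `y l` and the own laws `p l`, with small
charges on the own laws: all the labels of the family are served on average.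
-/

set_option autoImplicit false

namespace Pool.Agent.Lib.GSR

open Finset Classical
open Pool.Agent.Lib.GSR3 (Stab Tree)
open Pool.Agent.Lib.FGF (cm nm Dom)
open Pool.Agent.Lib.FGF.LemAAux (cm_mono cm_eq)
open Pool.Agent.Lib.GSLE (cl cl_nonneg cl_le_one)

/-- The laws of the roots. -/
def StRoot : Prop :=
  ∀ M j κ : ℕ, 1 ≤ M → 1 ≤ j → ∀ δ : ℝ, 0 < δ → ∃ A Λ η : ℝ, 1 ≤ A ∧ 0 ≤ Λ ∧ 0 < η ∧
    ∀ (V : Type) [Fintype V] (G : SimpleGraph V) (g q : V → ℝ) (L L' : Finset V) (v : V)
      (f : V → Fin κ),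
      (∀ u, 0 ≤ g u) → (∀ u, 0 ≤ q u) → L ⊆ L' →
      (∀ c, q c ≠ 0 → G.Adj v c ∧ c ∈ L') →
      (∀ u w, G.Adj v u → G.Adj v w → G.Adj u w → f u ≠ f w) →
      vioC G M (j + 1) v g L' ≤ 1 / 2 →
        ∃ l : V → ℝ, (∀ u, 0 ≤ l u) ∧ (∀ u, l u ≠ 0 → u ∈ L) ∧ ∑ u, l u ≤ Λ ∧
          ∑ c, q c * vioC G M j c (fun x => A * g x +
              cm G (fun u => (if u = v then 1 else 0) + l u + q u / η) x) L ≤
            δ + A * ∑ c, q c * min 1 (g c)

namespace Srv_

lemma cm_nonneg {V : Type} [Fintype V] {G : SimpleGraph V} {r : V → ℝ} (h : ∀ u, 0 ≤ r u)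
    (x : V) : 0 ≤ cm G r x :=
  add_nonneg (h x) (Finset.sum_nonneg fun u _ => h u)

lemma cm_cl {V : Type} [Fintype V] {G : SimpleGraph V} (r : V → ℝ) (x : V) :
    cm G r x = ∑ u, r u * cl G x u := by
  rw [cm_eq]
  exact Finset.sum_congr rfl fun u _ => rfl

end Srv_

open Srv_

theorem stRoot : StRoot := by
  intro M j κ hM hj δ hδ
  obtain ⟨Λ0, η, hΛ0, hη, key⟩ := stLemFRg M j hM hj (δ / (κ + 1)) (by positivity)
  set A : ℝ := ((M + 1 : ℕ) : ℝ) ^ (j + 1) / (1 / 2) with hA
  have hA1 : 1 ≤ A := by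
    have h1 : (1 : ℝ) ≤ ((M + 1 : ℕ) : ℝ) ^ (j + 1) :=
      one_le_pow₀ (by exact_mod_cast Nat.le_add_left 1 M)
    rw [hA]
    linarith
  refine ⟨A, κ * Λ0, η, hA1, by positivity, hη, ?_⟩
  intro V _ G g q L L' v f hg hq hL hqv hf hv
  have hD : DomC G M (j + 1) v (fun u => A * g u) L' :=
    domC_of_vioC (c := 1 / 2) (by norm_num) le_rfl (by linarith)
  have hAg : ∀ u, 0 ≤ A * g u := fun u => mul_nonneg (by linarith) (hg u)
  set X : Fin κ → Finset V := fun i =>
    Finset.univ.filter (fun c => q c ≠ 0 ∧ f c = i) with hX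
  have hXmem : ∀ i c, c ∈ X i ↔ q c ≠ 0 ∧ f c = i := fun i c => by
    rw [hX]
    simp
  have h1 : ∀ i : Fin κ, ∃ (l : V → ℝ) (Z : Finset V), (∀ u, 0 ≤ l u) ∧
      (∀ u, l u ≠ 0 → u ∈ L) ∧ ∑ u, l u ≤ Λ0 ∧ Z ⊆ X i ∧ ∑ u ∈ Z, q u ≤ δ / (κ + 1) ∧
        ∀ c ∈ X i, c ∉ Z → A * g c < 1 → DomC G M j c (fun x => A * g x +
          cm G (fun u => (if u = v then 1 else 0) + l u + q u / η) x) L := fun i =>
    key V G (fun u => A * g u) q L L' (X i) v hAg hq hL
      (fun c hc => (hqv c ((hXmem i c).1 hc).1).2)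
      (fun c hc => (hqv c ((hXmem i c).1 hc).1).1)
      (fun a ha b hb hab => by
        have ha' := (hXmem i a).1 ha
        have hb' := (hXmem i b).1 hb
        exact hf a b (hqv a ha'.1).1 (hqv b hb'.1).1 hab (ha'.2.trans hb'.2.symm)) hD
  choose l Z hl0 hlL hlΛ hZX hZq hdom using h1
  have hqη : ∀ u, 0 ≤ q u / η := fun u => div_nonneg (hq u) hη.le
  refine ⟨fun u => ∑ i, l i u, fun u => Finset.sum_nonneg fun i _ => hl0 i u, ?_, ?_, ?_⟩
  · intro u hu
    obtain ⟨i, -, hi⟩ := Finset.exists_ne_zero_of_sum_ne_zero hu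
    exact hlL i u hi
  · rw [Finset.sum_comm]
    refine (Finset.sum_le_card_nsmul _ _ Λ0 fun i _ => hlΛ i).trans (le_of_eq ?_)
    rw [Finset.card_univ, Fintype.card_fin, nsmul_eq_mul]
  · set F : V → ℝ := fun x => A * g x +
      cm G (fun u => (if u = v then 1 else 0) + ∑ i, l i u + q u / η) x with hF
    have hF0 : ∀ x, 0 ≤ F x := fun x => add_nonneg (hAg x) (cm_nonneg (fun u => by
      have h2 : 0 ≤ ∑ i, l i u := Finset.sum_nonneg fun i _ => hl0 i u
      have h3 := hqη u
      split_ifs <;> linarith) x)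
    have h2 : ∀ c, q c * vioC G M j c F L ≤
        (∑ i, if c ∈ Z i then q c else 0) + A * (q c * min 1 (g c)) := by
      intro c
      have h3 : 0 ≤ ∑ i, if c ∈ Z i then q c else 0 := Finset.sum_nonneg fun i _ => by
        split_ifs
        · exact hq c
        · exact le_rfl
      have h4 : 0 ≤ A * (q c * min 1 (g c)) :=
        mul_nonneg (by linarith) (mul_nonneg (hq c) (le_min zero_le_one (hg c)))
      have h5 : q c * vioC G M j c F L ≤ q c :=
        mul_le_of_le_one_right (hq c) (vioC_le_one hF0)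
      by_cases hqc : q c = 0
      · rw [hqc, zero_mul]
        rw [hqc] at h3 h4
        linarith
      by_cases hZc : c ∈ Z (f c)
      · have h6 : q c ≤ ∑ i, if c ∈ Z i then q c else 0 := by
          refine le_trans (le_of_eq (if_pos hZc).symm) (Finset.single_le_sum
            (f := fun i => if c ∈ Z i then q c else 0) (fun i _ => ?_) (Finset.mem_univ (f c)))
          split_ifs
          · exact hq c
          · exact le_rfl
        linarith
      by_cases hgc : A * g c < 1
      · have h6 := hdom (f c) c ((hXmem _ _).2 ⟨hqc, rfl⟩) hZc hgc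
        have h7 : vioC G M j c F L = 0 := by
          refine le_antisymm ?_ vioC_nonneg
          refine (vioC_anti (g := fun x => A * g x +
            cm G (fun u => (if u = v then 1 else 0) + l (f c) u + q u / η) x)
            (fun x => ?_) (Finset.Subset.refl L)).trans (le_of_eq (vioC_eq_zero_of_domC ?_ h6))
          · rw [hF]
            refine add_le_add le_rfl (cm_mono (fun u => ?_) x)
            have h8 : l (f c) u ≤ ∑ i, l i u :=
              Finset.single_le_sum (f := fun i => l i u) (fun i _ => hl0 i u)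
                (Finset.mem_univ _)
            linarith
          · intro x
            refine add_nonneg (hAg x) (cm_nonneg (fun u => ?_) x)
            have h3 := hqη u
            have h8 := hl0 (f c) u
            split_ifs <;> linarith
        rw [h7, mul_zero]
        linarith
      · have h6 : 1 ≤ A * min 1 (g c) := by
          rcases le_total 1 (g c) with h7 | h7
          · rw [min_eq_left h7]
            linarith
          · rw [min_eq_right h7]
            exact not_lt.1 hgc
        have h8 : q c * 1 ≤ q c * (A * min 1 (g c)) := mul_le_mul_of_nonneg_left h6 (hq c)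
        have h9 : q c * (A * min 1 (g c)) = A * (q c * min 1 (g c)) := by ring
        linarith
    calc ∑ c, q c * vioC G M j c F L
        ≤ ∑ c, ((∑ i, if c ∈ Z i then q c else 0) + A * (q c * min 1 (g c))) :=
          Finset.sum_le_sum fun c _ => h2 c
      _ = (∑ i, ∑ c ∈ Z i, q c) + A * ∑ c, q c * min 1 (g c) := by
          rw [Finset.sum_add_distrib, Finset.sum_comm, Finset.mul_sum]
          congr 1
          refine Finset.sum_congr rfl fun i _ => ?_
          rw [Finset.sum_ite_mem, Finset.univ_inter]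
      _ ≤ δ + A * ∑ c, q c * min 1 (g c) := by
          have h3 : ∑ i, ∑ c ∈ Z i, q c ≤ κ * (δ / (κ + 1)) := by
            refine (Finset.sum_le_card_nsmul _ _ (δ / (κ + 1)) fun i _ => hZq i).trans
              (le_of_eq ?_)
            rw [Finset.card_univ, Fintype.card_fin, nsmul_eq_mul]
          have h4 : (κ : ℝ) * (δ / (κ + 1)) ≤ δ := by
            rw [mul_div_assoc', div_le_iff₀ (by positivity)]
            nlinarith
          linarith

/-- The service lemma. -/
def StSrv : Prop :=
  ∀ M j κ : ℕ, 1 ≤ M → 1 ≤ j → ∀ δ : ℝ, 0 < δ → ∃ A Λ e : ℝ, 1 ≤ A ∧ 0 ≤ Λ ∧ 0 < e ∧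
    ∀ (V Om : Type) [Fintype V] [Fintype Om] (G : SimpleGraph V) (g : V → ℝ) (L L' : Finset V)
      (t : V) (f : V → Fin κ) (y : Om → V) (p : Om → V → ℝ) (om : Om → ℝ),
      (∀ u, 0 ≤ g u) → L ⊆ L' → t ∈ L' → (∀ l x, 0 ≤ p l x) → (∀ l, 0 ≤ om l) →
      ∑ l, om l ≤ 1 → (∀ l, om l ≠ 0 → G.Adj t (y l) ∧ y l ∈ L') →
      (∀ u w, G.Adj t u → G.Adj t w → G.Adj u w → f u ≠ f w) →
      vioC G M (j + 1) t g L' ≤ 1 / 2 →
      (∀ b ∈ L, ∑ l, om l * ∑ x, p l x * cl G x b ≤ e) →
      ∑ l, om l * ∑ x, p l x * cl G x t ≤ e →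
      ∑ l, om l * ∑ x, p l x * ∑ l', om l' * cl G x (y l') ≤ e →
      ∑ l, om l * ∑ x, p l x * g x ≤ e →
      ∑ l, om l * min 1 (g (y l)) ≤ e →
        ∃ mu : V → ℝ, (∀ u, 0 ≤ mu u) ∧ (∀ u, mu u ≠ 0 → u ∈ L') ∧ ∑ u, mu u ≤ Λ ∧
          ∑ l, om l * (vioC G M j (y l) (fun x => A * g x + cm G mu x) L +
            ∑ x, p l x * (A * g x + cm G mu x)) ≤ δ

/-- The law of the hub of a random label. -/
noncomputable def psh {V Om : Type} [Fintype Om] (y : Om → V) (om : Om → ℝ) (u : V) : ℝ :=
  ∑ l ∈ Finset.univ.filter (fun l => y l = u), om l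

lemma sum_psh {V Om : Type} [Fintype V] [Fintype Om] (y : Om → V) (om : Om → ℝ) (F : V → ℝ) :
    ∑ u, psh y om u * F u = ∑ l, om l * F (y l) := by
  unfold psh
  rw [← Finset.sum_fiberwise (s := Finset.univ) (g := y) (f := fun l => om l * F (y l))]
  refine Finset.sum_congr rfl fun u _ => ?_
  rw [Finset.sum_mul]
  refine Finset.sum_congr rfl fun l hl => ?_
  rw [(Finset.mem_filter.1 hl).2]

theorem stSrv : StSrv := by
  intro M j κ hM hj δ hδ
  obtain ⟨A, Λ0, η, hA1, hΛ0, hη, key⟩ := stRoot M j κ hM hj (δ / 2) (by positivity)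
  have hA0 : 0 < A := by linarith
  set B : ℝ := 2 * (A + A + 1 + Λ0 + 1 / η) with hB
  have hB0 : 0 < B := by positivity
  refine ⟨A, 1 + Λ0 + 1 / η, δ / B, hA1, by positivity, by positivity, ?_⟩
  intro V Om _ _ G g L L' t f y p om hg hL htL hp hom hom1 hy hf hv h1 h2 h3 h4 h5
  set q : V → ℝ := psh y om with hq
  have hq0 : ∀ u, 0 ≤ q u := fun u => Finset.sum_nonneg fun l _ => hom l
  have hqv : ∀ c, q c ≠ 0 → G.Adj t c ∧ c ∈ L' := by
    intro c hc
    obtain ⟨l, hl, hl0⟩ := Finset.exists_ne_zero_of_sum_ne_zero hc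
    rw [← (Finset.mem_filter.1 hl).2]
    exact hy l hl0
  obtain ⟨l0, hl00, hl0L, hl0Λ, hkey⟩ := key V G g q L L' t f hg hq0 hL hqv hf hv
  have hqη : ∀ u, 0 ≤ q u / η := fun u => div_nonneg (hq0 u) hη.le
  set mu : V → ℝ := fun u => (if u = t then 1 else 0) + l0 u + q u / η with hmu
  have hmu0 : ∀ u, 0 ≤ mu u := by
    intro u
    have h6 := hl00 u
    have h7 := hqη u
    rw [hmu]
    simp only
    split_ifs <;> linarith
  refine ⟨mu, hmu0, ?_, ?_, ?_⟩
  · intro u hu
    by_contra hcon
    have h6 : u ≠ t := fun h => hcon (h ▸ htL)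
    have h7 : l0 u = 0 := by
      by_contra h
      exact hcon (hL (hl0L u h))
    have h8 : q u = 0 := by
      by_contra h
      exact hcon (hqv u h).2
    apply hu
    rw [hmu]
    simp only [if_neg h6, h7, h8, zero_div, add_zero]
  · have h6 : ∑ u, q u = ∑ l, om l := by
      have h7 := sum_psh y om (fun _ => 1)
      simp only [mul_one] at h7
      exact h7
    rw [hmu]
    simp only [Finset.sum_add_distrib, Finset.sum_ite_eq', Finset.mem_univ, if_true,
      ← Finset.sum_div]
    rw [h6]
    have h8 : (∑ l, om l) / η ≤ 1 / η := by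
      rw [div_le_div_iff_of_pos_right hη]
      exact hom1
    linarith
  · have e1 : ∑ l, om l * vioC G M j (y l) (fun x => A * g x + cm G mu x) L ≤
        δ / 2 + A * (δ / B) := by
      rw [← sum_psh y om (fun c => vioC G M j c (fun x => A * g x + cm G mu x) L)]
      refine hkey.trans (add_le_add le_rfl (mul_le_mul_of_nonneg_left ?_ hA0.le))
      rw [sum_psh y om (fun c => min 1 (g c))]
      exact h5
    have e2 : ∑ l, om l * ∑ x, p l x * cm G mu x ≤ (1 + Λ0 + 1 / η) * (δ / B) := by
      have h6 : ∀ x, cm G mu x = cl G x t + ∑ b, l0 b * cl G x b +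
          1 / η * ∑ l', om l' * cl G x (y l') := by
        intro x
        rw [cm_cl, hmu]
        simp only [add_mul, Finset.sum_add_distrib]
        congr 1
        · congr 1
          simp only [ite_mul, one_mul, zero_mul, Finset.sum_ite_eq', Finset.mem_univ, if_true]
        · rw [← sum_psh y om (fun c => cl G x c), Finset.mul_sum]
          refine Finset.sum_congr rfl fun u _ => ?_
          ring
      have h7 : ∑ l, om l * ∑ x, p l x * cm G mu x = ∑ l, om l * ∑ x, p l x * cl G x t +
          ∑ b, l0 b * ∑ l, om l * ∑ x, p l x * cl G x b +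
          1 / η * ∑ l, om l * ∑ x, p l x * ∑ l', om l' * cl G x (y l') := by
        simp only [h6, mul_add, Finset.sum_add_distrib]
        congr 1
        · congr 1
          simp only [Finset.mul_sum]
          rw [Finset.sum_comm' (t' := Finset.univ) (s' := fun _ => Finset.univ) (by simp)]
          have h8 : ∀ x : V, ∑ l : Om, ∑ b : V, om l * (p l x * (l0 b * cl G x b)) =
              ∑ b : V, ∑ l : Om, l0 b * (om l * (p l x * cl G x b)) := by
            intro x
            rw [Finset.sum_comm]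
            refine Finset.sum_congr rfl fun b _ => Finset.sum_congr rfl fun l _ => ?_
            ring
          rw [Finset.sum_congr rfl fun x _ => h8 x, Finset.sum_comm]
          refine Finset.sum_congr rfl fun b _ => ?_
          rw [Finset.sum_comm]
        · simp only [Finset.mul_sum]
          refine Finset.sum_congr rfl fun l _ => Finset.sum_congr rfl fun x _ =>
            Finset.sum_congr rfl fun l' _ => ?_
          ring
      rw [h7]
      have h8 : ∑ b, l0 b * ∑ l, om l * ∑ x, p l x * cl G x b ≤ Λ0 * (δ / B) := by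
        calc ∑ b, l0 b * ∑ l, om l * ∑ x, p l x * cl G x b ≤ ∑ b, l0 b * (δ / B) := by
              refine Finset.sum_le_sum fun b _ => ?_
              by_cases hb : l0 b = 0
              · rw [hb, zero_mul, zero_mul]
              · exact mul_le_mul_of_nonneg_left (h1 b (hl0L b hb)) (hl00 b)
          _ = (∑ b, l0 b) * (δ / B) := by rw [Finset.sum_mul]
          _ ≤ Λ0 * (δ / B) := mul_le_mul_of_nonneg_right hl0Λ (by positivity)
      have h9 : 1 / η * ∑ l, om l * ∑ x, p l x * ∑ l', om l' * cl G x (y l') ≤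
          1 / η * (δ / B) := mul_le_mul_of_nonneg_left h3 (by positivity)
      calc _ ≤ δ / B + Λ0 * (δ / B) + 1 / η * (δ / B) := add_le_add (add_le_add h2 h8) h9
        _ = (1 + Λ0 + 1 / η) * (δ / B) := by ring
    have e3 : ∑ l, om l * ∑ x, p l x * (A * g x) ≤ A * (δ / B) := by
      have h6 : ∑ l, om l * ∑ x, p l x * (A * g x) = A * ∑ l, om l * ∑ x, p l x * g x := by
        simp only [Finset.mul_sum]
        refine Finset.sum_congr rfl fun l _ => Finset.sum_congr rfl fun x _ => ?_
        ring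
      rw [h6]
      exact mul_le_mul_of_nonneg_left h4 hA0.le
    have e4 : ∑ l, om l * (vioC G M j (y l) (fun x => A * g x + cm G mu x) L +
        ∑ x, p l x * (A * g x + cm G mu x)) =
        ∑ l, om l * vioC G M j (y l) (fun x => A * g x + cm G mu x) L +
          (∑ l, om l * ∑ x, p l x * (A * g x) + ∑ l, om l * ∑ x, p l x * cm G mu x) := by
      rw [← Finset.sum_add_distrib, ← Finset.sum_add_distrib]
      refine Finset.sum_congr rfl fun l _ => ?_
      simp only [mul_add, Finset.sum_add_distrib]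
    have e5 : δ / 2 + A * (δ / B) + (A * (δ / B) + (1 + Λ0 + 1 / η) * (δ / B)) = δ := by
      have h6 : A * (δ / B) + (A * (δ / B) + (1 + Λ0 + 1 / η) * (δ / B)) =
          (A + A + 1 + Λ0 + 1 / η) * (δ / B) := by ring
      have h7 : (A + A + 1 + Λ0 + 1 / η) * (δ / B) = δ / 2 := by
        have h8 : A + A + 1 + Λ0 + 1 / η = B / 2 := by
          rw [hB]
          ring
        rw [h8]
        field_simp
      linarith
    rw [e4]
    linarith

end Pool.Agent.Lib.GSR
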