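import Pool.Agent.Lib.GSR.VioC
import Pool.Agent.Lib.FGF.Glue
import Pool.Agent.Lib.FGF.Cnt

/-!
# Rank one: the star count

`vioC_succ_le`, `vioC_mono_rank`: the violation is antitone in the rank.

`star_charge`: `M` nonadjacent neighbours of `y` in `L` have the charge at least
`1 - vioC 1 y g L`.  Hence (`few_cheap`) if this is at least `d` then `y` has at most `κ * (M - 1)`
neighbours in `L` with charge less than `d / M`; `star_mass` is the weighted form and
`star_hub` gives a hub of large mass.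
-/

set_option autoImplicit false

namespace Pool.Agent.Lib.GSR

open Finset Classical
open Pool.Agent.Lib.GSR3 (Tree)
open Pool.Agent.Lib.FGF.Avg (wds mem_wds)
open Pool.Agent.Lib.FGF.Cnt (tree0)

variable {V : Type} [Fintype V] {G : SimpleGraph V} {M : ℕ} {v : V} {g : V → ℝ} {L L' : Finset V}

/-- The violation is antitone in the rank. -/
theorem vioC_mono_rank {j j' : ℕ} (hj : j ≤ j') (hg : ∀ u ∈ L', 0 ≤ g u) (hL : L' ⊆ L) :
    vioC G M j' v g L' ≤ vioC G M j v g L := by
  refine vioC_le vioC_nonneg fun φ h1 h2 h3 => ?_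
  have h4 : Tree G j M φ := ⟨fun u w hu hw => h1.inj u w (hu.trans hj) (hw.trans hj),
    fun u w hu hw => h1.adj u w (hu.trans hj) (hw.trans hj)⟩
  have hsub : wds M j ⊆ wds M j' := fun u hu => by
    rw [mem_wds] at hu ⊢
    exact ⟨hu.1.trans hj, hu.2⟩
  have h5 := le_vioC (g := g) h4 h2 fun u hu => hL (h3 u (hsub hu))
  have h6 : bc M j g φ ≤ bc M j' g φ :=
    Finset.sum_le_sum_of_subset_of_nonneg hsub fun u hu _ => hg _ (h3 u hu)
  linarith

/-- Stars of `M` nonadjacent neighbours are charged. -/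
theorem star_charge (X : Finset V) (hX : ∀ x ∈ X, G.Adj v x ∧ x ∈ L)
    (hS : ∀ a ∈ X, ∀ b ∈ X, ¬ G.Adj a b) (hc : X.card = M) :
    1 - vioC G M 1 v g L ≤ ∑ x ∈ X, g x := by
  let e : X ≃ Fin M := X.equivFinOfCardEq hc
  let c : Fin M → V := fun i => ((e.symm i : X) : V)
  have hcX : ∀ i, c i ∈ X := fun i => (e.symm i).2
  have hcinj : ∀ i i', c i = c i' → i = i' := fun i i' h1 =>
    e.symm.injective (Subtype.ext h1)
  obtain ⟨ψ, hψ, hψ0, hψ1⟩ := FGF.stGlue V G M 0 v (fun i _ => c i) (fun i => tree0 G M (c i))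
    (fun i => (hX _ (hcX i)).1) (fun i u _ h1 => G.ne_of_adj (hX _ (hcX i)).1 h1.symm)
    (fun i u hu hu0 => (hu (List.eq_nil_of_length_eq_zero (Nat.le_zero.1 hu0))).elim)
    (fun i i' u u' hne _ _ => ⟨fun h1 => hne (hcinj i i' h1), hS _ (hcX i) _ (hcX i')⟩)
  have hw : ∀ i : Fin M, ψ [i] = c i := fun i => by
    have h2 := hψ1 i [] le_rfl
    rw [List.nil_append] at h2
    exact h2
  have hwds : ∀ u ∈ wds M 1, ∃ i, u = [i] := fun u hu => by
    rw [mem_wds] at hu
    refine List.length_eq_one_iff.1 (le_antisymm hu.1 ?_)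
    exact List.length_pos_iff.2 hu.2
  have h1 := le_vioC (g := g) (L := L) hψ hψ0 fun u hu => by
    obtain ⟨i, rfl⟩ := hwds u hu
    rw [hw]
    exact (hX _ (hcX i)).2
  have h2 : bc M 1 g ψ = ∑ x ∈ X, g x := by
    unfold bc
    symm
    refine Finset.sum_bij' (fun x hx => [e ⟨x, hx⟩]) (fun u _ => ψ u) ?_ ?_ ?_ ?_ ?_
    · intro x hx
      rw [mem_wds]
      exact ⟨by simp, by simp⟩
    · intro u hu
      obtain ⟨i, rfl⟩ := hwds u hu
      rw [hw]
      exact hcX i
    · intro x hx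
      rw [hw]
      change ((e.symm (e ⟨x, hx⟩) : X) : V) = x
      rw [Equiv.symm_apply_apply]
    · intro u hu
      obtain ⟨i, rfl⟩ := hwds u hu
      congr 1
      have h3 : (⟨ψ [i], by rw [hw]; exact hcX i⟩ : X) = e.symm i := Subtype.ext (hw i)
      rw [h3, Equiv.apply_symm_apply]
    · intro x hx
      congr 1
      rw [hw]
      change x = ((e.symm (e ⟨x, hx⟩) : X) : V)
      rw [Equiv.symm_apply_apply]
  rw [h2] at h1
  linarith

/-- There are few cheap neighbours. -/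
theorem few_cheap (hM : 1 ≤ M) {κ : ℕ} (f : V → Fin κ)
    (hf : ∀ u w, G.Adj v u → G.Adj v w → G.Adj u w → f u ≠ f w) {d : ℝ}
    (hv : vioC G M 1 v g L ≤ 1 - d) (X : Finset V)
    (hX : ∀ x ∈ X, G.Adj v x ∧ x ∈ L ∧ g x < d / M) : X.card ≤ κ * (M - 1) := by
  have hcls : ∀ c : Fin κ, (X.filter fun x => f x = c).card ≤ M - 1 := by
    intro c
    by_contra hcon
    push Not at hcon
    obtain ⟨X', hX', hc⟩ := Finset.exists_subset_card_eq (show M ≤ (X.filter fun x => f x = c).card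
      by omega)
    have hmem : ∀ x ∈ X', (G.Adj v x ∧ x ∈ L ∧ g x < d / M) ∧ f x = c := fun x hx => by
      have h1 := Finset.mem_filter.1 (hX' hx)
      exact ⟨hX x h1.1, h1.2⟩
    have h1 := star_charge (g := g) (L := L) X' (fun x hx => ⟨(hmem x hx).1.1, (hmem x hx).1.2.1⟩)
      (fun a ha b hb hab => hf a b (hmem a ha).1.1 (hmem b hb).1.1 hab
        ((hmem a ha).2.trans (hmem b hb).2.symm)) hc
    have hM0 : (0 : ℝ) < M := by exact_mod_cast hM
    have hne : X'.Nonempty := by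
      rw [← Finset.card_pos]
      omega
    have h2 : ∑ x ∈ X', g x < ∑ _x ∈ X', d / M :=
      Finset.sum_lt_sum_of_nonempty hne fun x hx => (hmem x hx).1.2.2
    rw [Finset.sum_const, hc, nsmul_eq_mul, mul_div_cancel₀ _ hM0.ne'] at h2
    linarith
  rw [Finset.card_eq_sum_card_fiberwise (f := f) (t := Finset.univ)
    (fun x _ => Finset.mem_coe.2 (Finset.mem_univ (f x)))]
  refine (Finset.sum_le_card_nsmul _ _ (M - 1) fun c _ => hcls c).trans (le_of_eq ?_)
  rw [Finset.card_univ, Fintype.card_fin, smul_eq_mul]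

/-- The mass of the neighbours, from the cost. -/
theorem star_mass (hM : 1 ≤ M) {κ : ℕ} (f : V → Fin κ)
    (hf : ∀ u w, G.Adj v u → G.Adj v w → G.Adj u w → f u ≠ f w) {d ξ : ℝ} (hd : 0 < d)
    (hd1 : d ≤ 1) (hv : vioC G M 1 v g L ≤ 1 - d) (hg : ∀ x, 0 ≤ g x) (P : V → ℝ)
    (hP0 : ∀ x, 0 ≤ P x) (hP : ∀ x, P x ≤ ξ) (hPv : ∀ x, P x ≠ 0 → G.Adj v x ∧ x ∈ L) :
    ∑ x, P x ≤ κ * M * ξ + M / d * ∑ x, P x * min 1 (g x) := by
  have hM0 : (0 : ℝ) < M := by exact_mod_cast hM
  have hM1 : (1 : ℝ) ≤ M := by exact_mod_cast hM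
  have hdM : d / M ≤ 1 := by
    rw [div_le_one hM0]
    linarith
  set C : Finset V := Finset.univ.filter fun x => P x ≠ 0 ∧ g x < d / M with hC
  have hcard := few_cheap hM f hf hv C fun x hx => by
    have h1 := (Finset.mem_filter.1 hx).2
    exact ⟨(hPv x h1.1).1, (hPv x h1.1).2, h1.2⟩
  have hpt : ∀ x, P x ≤ (if x ∈ C then ξ else 0) + M / d * (P x * min 1 (g x)) := by
    intro x
    have h0 : 0 ≤ M / d * (P x * min 1 (g x)) :=
      mul_nonneg (div_nonneg hM0.le hd.le) (mul_nonneg (hP0 x) (le_min zero_le_one (hg x)))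
    by_cases hx : x ∈ C
    · rw [if_pos hx]
      linarith [hP x]
    · rw [if_neg hx, zero_add]
      by_cases hPx : P x = 0
      · rw [hPx]
        simp
      · have h1 : d / M ≤ g x := by
          by_contra hcon
          push Not at hcon
          exact hx (Finset.mem_filter.2 ⟨Finset.mem_univ _, hPx, hcon⟩)
        have h2 : d / M ≤ min 1 (g x) := le_min hdM h1
        calc P x = M / d * (P x * (d / M)) := by field_simp
          _ ≤ M / d * (P x * min 1 (g x)) :=
            mul_le_mul_of_nonneg_left (mul_le_mul_of_nonneg_left h2 (hP0 x))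
              (div_nonneg hM0.le hd.le)
  have hC2 : (C.card : ℝ) * ξ ≤ κ * M * ξ := by
    rcases C.eq_empty_or_nonempty with h | ⟨x, _⟩
    · rw [h, Finset.card_empty, Nat.cast_zero, zero_mul]
      by_cases hV : Nonempty V
      · obtain ⟨x⟩ := hV
        have : 0 ≤ ξ := (hP0 x).trans (hP x)
        positivity
      · exact absurd ⟨v⟩ hV
    · have hξ : 0 ≤ ξ := (hP0 x).trans (hP x)
      refine mul_le_mul_of_nonneg_right ?_ hξ
      have h1 : C.card ≤ κ * M := hcard.trans (Nat.mul_le_mul_left _ (Nat.sub_le _ _))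
      exact_mod_cast h1
  calc ∑ x, P x ≤ ∑ x, ((if x ∈ C then ξ else 0) + M / d * (P x * min 1 (g x))) :=
        Finset.sum_le_sum fun x _ => hpt x
    _ = C.card * ξ + M / d * ∑ x, P x * min 1 (g x) := by
        rw [Finset.sum_add_distrib, ← Finset.mul_sum, Finset.sum_ite_mem, Finset.univ_inter,
          Finset.sum_const, nsmul_eq_mul]
    _ ≤ _ := by linarith

/-- A family of cheap hubs has a hub of large mass. -/
theorem star_hub (hM : 1 ≤ M) {κ : ℕ} (f : V → Fin κ)
    (hf : ∀ u w, G.Adj v u → G.Adj v w → G.Adj u w → f u ≠ f w) {d : ℝ}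
    (hv : vioC G M 1 v g L ≤ 1 - d) {Ω : Type} (T : Finset Ω) (om : Ω → ℝ) (y : Ω → V)
    (hT : ∀ l ∈ T, G.Adj v (y l) ∧ y l ∈ L ∧ g (y l) < d / M) (hpos : 0 < ∑ l ∈ T, om l) :
    ∃ l₀ ∈ T, (∑ l ∈ T, om l) / (κ * M) ≤ ∑ l ∈ T with y l = y l₀, om l := by
  by_contra hcon
  push Not at hcon
  have hM0 : (0 : ℝ) < M := by exact_mod_cast hM
  set S := ∑ l ∈ T, om l with hS
  have hcard := few_cheap hM f hf hv (T.image y) fun x hx => by
    obtain ⟨l, hl, rfl⟩ := Finset.mem_image.1 hx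
    exact hT l hl
  have hTne : T.Nonempty := by
    rcases T.eq_empty_or_nonempty with h | h
    · rw [hS, h, Finset.sum_empty] at hpos
      exact absurd hpos (lt_irrefl _)
    · exact h
  have h1 : S = ∑ x ∈ T.image y, ∑ l ∈ T with y l = x, om l :=
    (Finset.sum_fiberwise_of_maps_to (fun l hl => Finset.mem_image_of_mem y hl) om).symm
  have h2 : S < ∑ _x ∈ T.image y, S / (κ * M) := by
    refine h1.trans_lt (Finset.sum_lt_sum_of_nonempty (hTne.image y) fun x hx => ?_)
    obtain ⟨l, hl, rfl⟩ := Finset.mem_image.1 hx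
    exact hcon l hl
  rw [Finset.sum_const, nsmul_eq_mul] at h2
  have hc0 : 0 < (T.image y).card := Finset.card_pos.2 (hTne.image y)
  have hκ : 0 < κ := by
    rcases Nat.eq_zero_or_pos κ with h | h
    · rw [h, zero_mul] at hcard
      omega
    · exact h
  have hκ0 : (0 : ℝ) < κ := by exact_mod_cast hκ
  have h3 : ((T.image y).card : ℝ) ≤ κ * M := by
    have h4 : (T.image y).card ≤ κ * M := hcard.trans (Nat.mul_le_mul_left _ (Nat.sub_le _ _))
    exact_mod_cast h4
  have h4 : ((T.image y).card : ℝ) * (S / (κ * M)) ≤ κ * M * (S / (κ * M)) :=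
    mul_le_mul_of_nonneg_right h3 (by positivity)
  rw [mul_div_cancel₀ _ (by positivity : (κ : ℝ) * M ≠ 0)] at h4
  linarith

end Pool.Agent.Lib.GSR
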