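import Pool.Agent.Lib.GSR.UnsH

/-!
# Thick labels: the continuous thickness

The thickness of a label in the record is a continuous function `Tf` which is at most the sum of the
masses `HM` of the levels `r - 1, ..., r + 2` (with the gap `l0 - 1`).  The labels of `O` which are
thick for some of the sets `insert j S'`, `S' ⊆ range j`, `|S'| = m`, have small total weight.
-/

set_option autoImplicit false

namespace Pool.Agent.Lib.GSR

open Finset Classical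
open Pool.Agent.Lib.GSLE

/-- The level of a positive number. -/
theorem ThkB_.lev_le {a : ℝ} (ha : 0 < a) : (1 / 2 : ℝ) ^ ⌈-Real.logb 2 a⌉₊ ≤ a := by
  have h1 := Nat.le_ceil (-Real.logb 2 a)
  have h2 : (1 / 2 : ℝ) ^ ⌈-Real.logb 2 a⌉₊ = (2 : ℝ) ^ (-(⌈-Real.logb 2 a⌉₊ : ℝ)) := by
    rw [Real.rpow_neg (by norm_num), Real.rpow_natCast, one_div, inv_pow]
  rw [h2]
  calc (2 : ℝ) ^ (-(⌈-Real.logb 2 a⌉₊ : ℝ)) ≤ (2 : ℝ) ^ Real.logb 2 a :=
        Real.rpow_le_rpow_of_exponent_le (by norm_num) (by linarith)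
    _ = a := Real.rpow_logb (by norm_num) (by norm_num) ha

/-- The level of `a` near `r`, from `|log a + r| < 2`. -/
theorem ThkB_.lev_mem {t : ℝ} {r : ℕ} (h : |t + r| < 2) : ⌈-t⌉₊ ∈ Icc (r - 1) (r + 2) := by
  rw [abs_lt] at h
  rw [Finset.mem_Icc]
  constructor
  · have h1 := Nat.le_ceil (-t)
    have h2 : (r : ℝ) < (⌈-t⌉₊ : ℝ) + 2 := by linarith
    have h3 : r < ⌈-t⌉₊ + 2 := by exact_mod_cast h2
    omega
  · rw [Nat.ceil_le]
    push_cast
    linarith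

/-- One of four levels. -/
theorem ThkB_.pick {f : ℕ → ℝ} {q ε : ℝ} (hq0 : 0 < q) (hq1 : q < 1) (hq : q * q = 1 / 2)
    (hε : 0 < ε) {d i r : ℕ} (hd : 2 ≤ d) (hr : r + d ≤ i)
    (h : ε * q ^ (i - r) ≤ ∑ r' ∈ Icc (r - 1) (r + 2), f r') :
    ∃ r', r' + (d - 2) ≤ i ∧ ε / 8 * q ^ (i - r') ≤ f r' := by
  by_contra hcon
  push Not at hcon
  have h1 : ∀ r' ∈ Icc (r - 1) (r + 2), f r' ≤ ε / 4 * q ^ (i - r) := by
    intro r' hr'
    rw [Finset.mem_Icc] at hr'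
    have h2 := (hcon r' (by omega)).le
    refine h2.trans ?_
    have h3 : q ^ (i - r') ≤ 2 * q ^ (i - r) := by
      have h4 : q ^ (i - r') ≤ q ^ (i - (r + 2)) :=
        pow_le_pow_of_le_one hq0.le hq1.le (by omega)
      have h5 : q ^ (i - r) = q ^ (i - (r + 2)) * (q * q) := by
        rw [show i - r = (i - (r + 2)) + 2 by omega, pow_add]
        ring
      rw [h5, hq]
      linarith
    calc ε / 8 * q ^ (i - r') ≤ ε / 8 * (2 * q ^ (i - r)) :=
          mul_le_mul_of_nonneg_left h3 (by positivity)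
      _ = ε / 4 * q ^ (i - r) := by ring
  have hpos : 0 < ε * q ^ (i - r) := by positivity
  -- strict in one of the terms
  have h2 : ∑ r' ∈ Icc (r - 1) (r + 2), f r' < ε * q ^ (i - r) := by
    have hmem : r ∈ Icc (r - 1) (r + 2) := Finset.mem_Icc.2 ⟨by omega, by omega⟩
    have hcard : (Icc (r - 1) (r + 2)).card ≤ 4 := by
      rw [Nat.card_Icc]
      omega
    have h3 : f r < ε / 4 * q ^ (i - r) := by
      refine (hcon r (by omega)).trans_le ?_
      have h4 : 0 < q ^ (i - r) := by positivity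
      nlinarith
    calc ∑ r' ∈ Icc (r - 1) (r + 2), f r' < ∑ _r' ∈ Icc (r - 1) (r + 2), ε / 4 * q ^ (i - r) :=
          Finset.sum_lt_sum h1 ⟨r, hmem, h3⟩
      _ = ((Icc (r - 1) (r + 2)).card : ℝ) * (ε / 4 * q ^ (i - r)) := by
          rw [Finset.sum_const, nsmul_eq_mul]
      _ ≤ 4 * (ε / 4 * q ^ (i - r)) := by
          refine mul_le_mul_of_nonneg_right ?_ (by positivity)
          exact_mod_cast hcard
      _ = ε * q ^ (i - r) := by ring
  exact absurd h (not_le.2 h2)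

section

variable {V Om : Type} [Fintype V] {G : SimpleGraph V} {n a : V → ℝ}
  {k : V → ℕ} {ρ : Om → ℝ} {y : Om → V} {i : Om → ℕ} {q : ℝ} {O : Finset Om} {C : Finset ℕ}
  {h : ℕ → V → ℝ} {Hh : ℕ → Om → ℤ} {l0 : ℤ} {w : Om → ℝ}

/-- The sum of the masses of several levels. -/
theorem ThkB_.sum_HM (A : Finset ℕ) (l : Om) :
    ∑ r ∈ A, HM G n a k y h Hh l0 C r l =
      ∑ x with k x ∈ A ∧ G.Adj (y l) x ∧ ∀ c ∈ C, Hh c l + l0 ≤ h c x, n x / a x := by
  unfold HM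
  rw [← Finset.sum_fiberwise_of_maps_to (g := k) (t := A)
    (s := univ.filter fun x => k x ∈ A ∧ G.Adj (y l) x ∧ ∀ c ∈ C, Hh c l + l0 ≤ h c x)]
  · refine Finset.sum_congr rfl fun r hr => Finset.sum_congr ?_ fun _ _ => rfl
    ext x
    simp only [Finset.mem_filter, Finset.mem_univ, true_and]
    constructor
    · rintro ⟨h1, h2⟩
      exact ⟨⟨h1 ▸ hr, h2⟩, h1⟩
    · rintro ⟨⟨-, h2⟩, h1⟩
      exact ⟨h1, h2⟩
  · intro x hx
    exact (Finset.mem_filter.1 hx).2.1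

/-- A function which lives on the vertices of the levels `r - 1, ..., r + 2` which see the hub and
are high. -/
theorem ThkB_.le_HM {φ : V → ℝ} (hn : ∀ x, 0 ≤ n x) (ha : ∀ x, 0 < a x) {r : ℕ} {l : Om}
    (h1 : ∀ x, φ x ≤ 1)
    (h2 : ∀ x, φ x ≠ 0 → k x ∈ Icc (r - 1) (r + 2) ∧ G.Adj (y l) x ∧
      ∀ c ∈ C, (Hh c l : ℝ) + l0 ≤ h c x) :
    ∑ x, n x / a x * φ x ≤ ∑ r' ∈ Icc (r - 1) (r + 2), HM G n a k y h Hh l0 C r' l := by
  rw [ThkB_.sum_HM, Finset.sum_filter]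
  refine Finset.sum_le_sum fun x _ => ?_
  have h0 : 0 ≤ n x / a x := div_nonneg (hn x) (ha x).le
  by_cases hx : φ x = 0
  · rw [hx, mul_zero]
    split_ifs
    · exact h0
    · exact le_rfl
  · rw [if_pos (h2 x hx)]
    exact mul_le_of_le_one_right h0 (h1 x)

/-- **The thick labels are rare**, in the form of `GSX/BDef.lean`. -/
theorem thickB_rare [Fintype Om] (hn : ∀ x, 0 ≤ n x) (ha : ∀ x, (1 / 2 : ℝ) ^ k x ≤ a x)
    (hρ : ∀ l ∈ O, 0 ≤ ρ l) (hq0 : 0 < q) (hq1 : q < 1) (hq : q * q = 1 / 2) {j m : ℕ}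
    (hw : ∀ l ∈ O, w l * (1 / 2 : ℝ) ^ i l = ρ l) (hH : ∀ l ∈ O, Hh j l = -(i l : ℤ))
    {K : ℝ} (hK : 0 ≤ K)
    (hnr : ∀ S' ⊆ range j, S'.card = m → ∀ x, n x ≠ 0 → ∀ r : ℤ,
      ∑ o ∈ O with G.Adj (y o) x ∧ Hh j o = r ∧ ∀ c ∈ insert j S', (Hh c o : ℝ) + l0 ≤ h c x,
        w o ≤ K)
    {ε : ℝ} (hε : 0 < ε) {d : ℕ} (hd : 2 ≤ d) {O₂ : Finset Om} (hO₂ : O₂ ⊆ O)
    (Tf : Finset ℕ → ℕ → Om → ℝ)
    (hT : ∀ S' ⊆ range j, S'.card = m → ∀ l ∈ O₂, ∀ r, Tf (insert j S') r l ≤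
      ∑ r' ∈ Icc (r - 1) (r + 2), HM G n a k y h Hh l0 (insert j S') r' l)
    (hthk : ∀ l ∈ O₂, ∃ S' ⊆ range j, S'.card = m ∧ ∃ r, r + d ≤ i l ∧
      ε * q ^ (i l - r) ≤ Tf (insert j S') r l) :
    ∑ l ∈ O₂, ρ l ≤ j.choose m * (K / (ε / 8) * (q ^ (d - 2) / (1 - q)) * ∑ x, n x) := by
  set P := (range j).powersetCard m with hP
  have hsub : O₂ ⊆ P.biUnion fun S' => O₂.filter fun l => ∃ r, r + d ≤ i l ∧
      ε * q ^ (i l - r) ≤ Tf (insert j S') r l := by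
    intro l hl
    obtain ⟨S', h1, h2, h3⟩ := hthk l hl
    exact Finset.mem_biUnion.2 ⟨S', Finset.mem_powersetCard.2 ⟨h1, h2⟩,
      Finset.mem_filter.2 ⟨hl, h3⟩⟩
  have hρ0 : ∀ l ∈ O₂, 0 ≤ ρ l := fun l hl => hρ l (hO₂ hl)
  calc ∑ l ∈ O₂, ρ l
      ≤ ∑ l ∈ P.biUnion fun S' => O₂.filter fun l => ∃ r, r + d ≤ i l ∧
          ε * q ^ (i l - r) ≤ Tf (insert j S') r l, ρ l := by
        refine Finset.sum_le_sum_of_subset_of_nonneg hsub fun l hl _ => ?_
        obtain ⟨S', -, h1⟩ := Finset.mem_biUnion.1 hl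
        exact hρ0 l (Finset.mem_filter.1 h1).1
    _ ≤ ∑ S' ∈ P, ∑ l ∈ O₂.filter (fun l => ∃ r, r + d ≤ i l ∧
          ε * q ^ (i l - r) ≤ Tf (insert j S') r l), ρ l := by
        have h1 : ∀ (A : Finset (Finset ℕ)) (f : Finset ℕ → Finset Om),
            (∀ S' ∈ A, ∀ l ∈ f S', 0 ≤ ρ l) →
              ∑ l ∈ A.biUnion f, ρ l ≤ ∑ S' ∈ A, ∑ l ∈ f S', ρ l := by
          intro A f
          induction A using Finset.induction_on with
          | empty =>
            intro _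
            simp
          | insert S' A hS' ih =>
            intro hf
            rw [Finset.biUnion_insert, Finset.sum_insert hS']
            have h2 := Finset.sum_union_inter (s₁ := f S') (s₂ := A.biUnion f) (f := ρ)
            have h3 : 0 ≤ ∑ l ∈ f S' ∩ A.biUnion f, ρ l := by
              refine Finset.sum_nonneg fun l hl => ?_
              exact hf S' (Finset.mem_insert_self _ _) l (Finset.mem_inter.1 hl).1
            have h4 := ih fun S'' h5 => hf S'' (Finset.mem_insert_of_mem h5)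
            linarith
        exact h1 P _ fun S' _ l hl => hρ0 l (Finset.mem_filter.1 hl).1
    _ ≤ ∑ _S' ∈ P, K / (ε / 8) * (q ^ (d - 2) / (1 - q)) * ∑ x, n x := by
        refine Finset.sum_le_sum fun S' hS' => ?_
        obtain ⟨h1, h2⟩ := Finset.mem_powersetCard.1 hS'
        refine thick_rare (C := insert j S') (s := j) (l0 := l0) (i := i) (k := k) (y := y)
          (h := h) (Hh := Hh) (w := w) (G := G) (a := a) hn ha hρ hq0 hq1 hq hw hH hK
          (fun x hx r => hnr S' h1 h2 x hx r) (by positivity) (d - 2)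
          (fun l hl => hO₂ (Finset.mem_filter.1 hl).1) ?_
        intro l hl
        obtain ⟨hl1, r, hr1, hr2⟩ := Finset.mem_filter.1 hl
        exact ThkB_.pick hq0 hq1 hq hε hd hr1 (hr2.trans (hT S' h1 h2 l hl1 r))
    _ = _ := by
        rw [Finset.sum_const, nsmul_eq_mul, hP, Finset.card_powersetCard, Finset.card_range]

end

end Pool.Agent.Lib.GSR
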