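import Pool.Agent.Lib.GSR.PoolSel

/-!
# One pool for many pairs

Every typical pair `ω` has its set `T ω` of good stages and its signs.  By `PoolSel.poolSel` every
pair has a homogeneous pool; there are at most `2 ^ N` pools in `range N`, `h` ranks and two types
of items, so there is a class of pairs of weight at least `1 / (2 ^ (N + 1) * h)` of the typical
pairs with one pool, one rank and one type.
-/

set_option autoImplicit false

namespace Pool.Agent.Lib.GSR.TopSel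

open Finset Classical

/-- The signs of a pair with the good stages `T`: `M C` (master for the set `C`), `P C s`, `B C s`
(the sides which give a master for `insert s C`). -/
structure Sg (h L0 : ℕ) (M : Finset ℕ → Prop) (P B : Finset ℕ → ℕ → Prop) (T : Finset ℕ) :
    Prop where
  M0 : M ∅
  P0 : ∀ s ∈ T, P ∅ s
  nxt : ∀ C s, C ⊆ T → s ∈ T → (∀ c ∈ C, c < s) → P C s ∨ B C s → M C → M (insert s C)
  top : ∀ C, C ⊆ T → C.card = h → ¬ M C
  avg : ∀ S, S ⊆ T → S.card = L0 → ∀ s ∈ T, (∀ c ∈ S, c < s) → (∀ c ∈ S, P {c} s) →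
    ∀ j, 2 ≤ j → j < h → (∀ C, C ⊆ S → C.card = j → M C) → ∃ C, C ⊆ S ∧ C.card = j ∧ P C s

/-- The pool `Q` with the rank `m` for the signs. -/
structure Pl (m q : ℕ) (M : Finset ℕ → Prop) (P B : Finset ℕ → ℕ → Prop) (T Q : Finset ℕ) :
    Prop where
  sub : Q ⊆ T
  card : Q.card = q
  mst : ∀ C, C ⊆ Q → C.card = m → M C
  no : ∀ C, C ⊆ Q → C.card = m → ∀ s ∈ Q, (∀ c ∈ C, c < s) → ¬ P C s ∧ ¬ B C s
  pr : ∀ c ∈ Q, ∀ s ∈ Q, c < s → ¬ P {c} s

/-- **One pool for many pairs.** -/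
theorem topSel (h r q L0 : ℕ) (h1 : 1 ≤ h) : ∃ N0 : ℕ, ∀ (N : ℕ) (Ω : Type) (w : Ω → ℝ)
    (Ty : Finset Ω) (T : Ω → Finset ℕ) (M : Ω → Finset ℕ → Prop)
    (P B I : Ω → Finset ℕ → ℕ → Prop), (∀ ω, 0 ≤ w ω) →
      (∀ ω ∈ Ty, T ω ⊆ range N ∧ N0 ≤ (T ω).card ∧ Sg h L0 (M ω) (P ω) (B ω) (T ω)) →
      Ty.Nonempty →
      ∃ (Q : Finset ℕ) (m : ℕ) (X : Finset Ω), Q ⊆ range N ∧ Q.card = q ∧ 1 ≤ m ∧ m < h ∧
        X ⊆ Ty ∧ ∑ ω ∈ Ty, w ω ≤ 2 * h * 2 ^ N * ∑ ω ∈ X, w ω ∧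
        (∀ ω ∈ X, Pl m q (M ω) (P ω) (B ω) (T ω) Q) ∧
        ((∀ ω ∈ X, ∀ S, S ⊆ Q → S.card = r → ∀ s ∈ Q, (∀ c ∈ S, c < s) → I ω S s) ∨
          ∀ ω ∈ X, ∀ S, S ⊆ Q → S.card = r → ∀ s ∈ Q, (∀ c ∈ S, c < s) → ¬ I ω S s) := by
  obtain ⟨N0, hN0⟩ := poolSel h r q L0 h1
  refine ⟨N0, ?_⟩
  intro N Ω w Ty T M P B I hw hT hne
  have hkey : ∀ ω : Ω, ∃ x : Finset ℕ × ℕ × Bool, ω ∈ Ty →
      (x.1 ⊆ range N ∧ x.1.card = q ∧ 1 ≤ x.2.1 ∧ x.2.1 < h ∧
        Pl x.2.1 q (M ω) (P ω) (B ω) (T ω) x.1 ∧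
        (x.2.2 = true → ∀ S, S ⊆ x.1 → S.card = r → ∀ s ∈ x.1, (∀ c ∈ S, c < s) → I ω S s) ∧
        (x.2.2 = false → ∀ S, S ⊆ x.1 → S.card = r → ∀ s ∈ x.1, (∀ c ∈ S, c < s) →
          ¬ I ω S s)) := by
    intro ω
    by_cases hω : ω ∈ Ty
    · obtain ⟨h2, h3, h4⟩ := hT ω hω
      obtain ⟨Q, hQT, hQc, ⟨m, hm1, hm2, hm3, hm4⟩, h5, h6⟩ :=
        hN0 (M ω) (P ω) (B ω) (I ω) (T ω) h3 h4.M0 h4.P0 h4.nxt h4.top h4.avg
      rcases h6 with h6 | h6
      · refine ⟨(Q, m, true), fun _ => ⟨hQT.trans h2, hQc, hm1, hm2,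
          ⟨hQT, hQc, hm3, hm4, h5⟩, fun _ => h6, fun h7 => ?_⟩⟩
        exact absurd h7 (by simp)
      · refine ⟨(Q, m, false), fun _ => ⟨hQT.trans h2, hQc, hm1, hm2,
          ⟨hQT, hQc, hm3, hm4, h5⟩, fun h7 => ?_, fun _ => h6⟩⟩
        exact absurd h7 (by simp)
    · exact ⟨(∅, 0, true), fun h => absurd h hω⟩
  choose f hf using hkey
  -- the set of the patterns
  set K : Finset (Finset ℕ × ℕ × Bool) :=
    ((range N).powerset) ×ˢ ((range h) ×ˢ (Finset.univ : Finset Bool)) with hK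
  have hfK : ∀ ω ∈ Ty, f ω ∈ K := by
    intro ω hω
    obtain ⟨h2, -, -, h3, -⟩ := hf ω hω
    rw [hK, Finset.mem_product, Finset.mem_product, Finset.mem_powerset, Finset.mem_range]
    exact ⟨h2, h3, Finset.mem_univ _⟩
  have hcK : (K.card : ℝ) = 2 * h * 2 ^ N := by
    rw [hK, Finset.card_product, Finset.card_product, Finset.card_powerset, Finset.card_range,
      Finset.card_range, Finset.card_univ, Fintype.card_bool]
    push_cast
    ring
  have hsum : ∑ ω ∈ Ty, w ω = ∑ k ∈ K, ∑ ω ∈ Ty with f ω = k, w ω :=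
    (Finset.sum_fiberwise_of_maps_to hfK _).symm
  have hKne : K.Nonempty := by
    obtain ⟨ω, hω⟩ := hne
    exact ⟨f ω, hfK ω hω⟩
  obtain ⟨k, hk, hkmax⟩ := Finset.exists_max_image K (fun k => ∑ ω ∈ Ty with f ω = k, w ω) hKne
  have hle : ∑ ω ∈ Ty, w ω ≤ 2 * h * 2 ^ N * ∑ ω ∈ Ty with f ω = k, w ω := by
    rw [hsum, ← hcK, ← nsmul_eq_mul]
    exact Finset.sum_le_card_nsmul _ _ _ hkmax
  -- a class of positive size
  by_cases hX : (Ty.filter fun ω => f ω = k).Nonempty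
  · obtain ⟨ω0, hω0⟩ := hX
    rw [Finset.mem_filter] at hω0
    obtain ⟨h2, h3, h4, h5, -, -, -⟩ := hf ω0 hω0.1
    rw [hω0.2] at h2 h3 h4 h5
    refine ⟨k.1, k.2.1, Ty.filter fun ω => f ω = k, h2, h3, h4, h5, Finset.filter_subset _ _, hle,
      fun ω hω => ?_, ?_⟩
    · rw [Finset.mem_filter] at hω
      have h6 := (hf ω hω.1).2.2.2.2.1
      rw [hω.2] at h6
      exact h6
    · rcases hk2 : k.2.2 with _ | _
      · refine Or.inr fun ω hω => ?_
        rw [Finset.mem_filter] at hω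
        have h6 := (hf ω hω.1).2.2.2.2.2.2
        rw [hω.2] at h6
        exact h6 hk2
      · refine Or.inl fun ω hω => ?_
        rw [Finset.mem_filter] at hω
        have h6 := (hf ω hω.1).2.2.2.2.2.1
        rw [hω.2] at h6
        exact h6 hk2
  · -- the total weight is zero: take the class of any pair
    rw [Finset.not_nonempty_iff_eq_empty] at hX
    rw [hX, Finset.sum_empty, mul_zero] at hle
    obtain ⟨ω0, hω0⟩ := hne
    obtain ⟨h2, h3, h4, h5, h6, h7, h8⟩ := hf ω0 hω0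
    refine ⟨(f ω0).1, (f ω0).2.1, {ω0}, h2, h3, h4, h5, Finset.singleton_subset_iff.2 hω0, ?_,
      fun ω hω => ?_, ?_⟩
    · rw [Finset.sum_singleton]
      exact hle.trans (mul_nonneg (by positivity) (hw _))
    · rw [Finset.mem_singleton] at hω
      rw [hω]
      exact h6
    · rcases hb : (f ω0).2.2 with _ | _
      · refine Or.inr fun ω hω => ?_
        rw [Finset.mem_singleton] at hω
        rw [hω]
        exact h8 hb
      · refine Or.inl fun ω hω => ?_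
        rw [Finset.mem_singleton] at hω
        rw [hω]
        exact h7 hb

end Pool.Agent.Lib.GSR.TopSel
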