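import Pool.Agent.Lib.GSR.SLW

/-!
# Typical nodes have self-linked labels

`n` is the law of the node, `P x o` the share of the label `o` in the flux of the node `x`.  Up to
a set of small `n`-mass, all the nodes with half of their flux in the own labels have a self-linked
label.
-/

set_option autoImplicit false

namespace Pool.Agent.Lib.GSR

open Finset Classical
open Pool.Agent.Lib.GSR3 (Stab Tree)
open Pool.Agent.Lib.FGF (Frac)

namespace Typ_

/-- Markov's inequality for the flux outside the self-linked part. -/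
theorem markov {V Ω : Type} (A : Finset V) (O : Finset Ω) (E E' : V → Ω → Prop) (n : V → ℝ)
    (P f : V → Ω → ℝ) (C1 c b : ℝ) (hb : 0 < b) (hn : ∀ x, 0 ≤ n x) (hC : 0 ≤ C1)
    (hP : ∀ x ∈ A, ∀ o ∈ O, E x o → 0 ≤ P x o)
    (hf : ∀ x ∈ A, ∀ o ∈ O, E x o → n x * P x o ≤ C1 * f x o)
    (hc : ∑ x ∈ A, ∑ o ∈ O with E x o ∧ ¬ E' x o, f x o ≤ c) :
    ∑ x ∈ A with b ≤ (∑ o ∈ O with E x o, P x o) ∧ ∀ o, ¬ E' x o, n x ≤ C1 * c / b := by
  rw [le_div_iff₀ hb, Finset.sum_mul]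
  have h1 : ∀ x ∈ A, 0 ≤ C1 * ∑ o ∈ O with E x o ∧ ¬ E' x o, f x o := by
    intro x hx
    rw [Finset.mul_sum]
    refine Finset.sum_nonneg fun o ho => ?_
    rw [SL_.mf] at ho
    exact (mul_nonneg (hn x) (hP x hx o ho.1 ho.2.1)).trans (hf x hx o ho.1 ho.2.1)
  have h2 : ∑ x ∈ A with b ≤ (∑ o ∈ O with E x o, P x o) ∧ ∀ o, ¬ E' x o, n x * b ≤
      ∑ x ∈ A with b ≤ (∑ o ∈ O with E x o, P x o) ∧ ∀ o, ¬ E' x o,
        C1 * ∑ o ∈ O with E x o ∧ ¬ E' x o, f x o := by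
    refine Finset.sum_le_sum fun x hx => ?_
    rw [SL_.mf] at hx
    refine (mul_le_mul_of_nonneg_left hx.2.1 (hn x)).trans ?_
    rw [Finset.mul_sum, Finset.mul_sum]
    have h3 : ∑ o ∈ O with E x o, n x * P x o ≤ ∑ o ∈ O with E x o, C1 * f x o := by
      refine Finset.sum_le_sum fun o ho => ?_
      rw [SL_.mf] at ho
      exact hf x hx.1 o ho.1 ho.2
    refine h3.trans (le_of_eq (Finset.sum_congr ?_ fun _ _ => rfl))
    ext o
    rw [SL_.mf, SL_.mf]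
    exact ⟨fun h4 => ⟨h4.1, h4.2, hx.2.2 o⟩, fun h4 => ⟨h4.1, h4.2.1⟩⟩
  refine h2.trans (le_trans (Finset.sum_le_sum_of_subset_of_nonneg (Finset.filter_subset _ _)
    fun x hx _ => h1 x hx) ?_)
  rw [← Finset.mul_sum]
  exact mul_le_mul_of_nonneg_left hc hC

end Typ_

/-- Typical nodes have self-linked labels. -/
theorem stTyp (M ht : ℕ) (F K C1 b c : ℝ) (g0 : ℕ) (hM : 1 ≤ M) (hF : 1 ≤ F) (hK : 0 < K)
    (hC : 0 < C1) (hb : 0 < b) (hc : 0 < c) : ∃ ε : ℝ, 0 < ε ∧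
    ∀ w0 d : ℕ, ∃ W : ℕ, ∀ (V Ω : Type) [Fintype V] (G : SimpleGraph V) (A : Finset V)
      (O : Finset Ω) (hub : Ω → V) (E : V → Ω → Prop) (hs : V → ℤ) (Hs : Ω → ℤ)
      (h : ℕ → V → ℤ) (H : ℕ → Ω → ℤ) (sc : ℤ → ℝ) (r : V → ℝ) (w : Ω → ℝ) (n : V → ℝ)
      (P : V → Ω → ℝ), Frac G F → (∀ φ : List (Fin M) → V, ¬ Tree G ht M φ) →
      SWI G A O hub E g0 w0 d hs Hs h H sc r w K → (∀ x, 0 ≤ n x) →
      (∀ x ∈ A, ∀ o ∈ O, E x o → 0 ≤ P x o ∧ n x * P x o ≤ C1 * (sc (Hs o) * r x * w o)) →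
        ∃ E' : V → Ω → Prop, (∀ x o, E' x o → x ∈ A ∧ o ∈ O ∧ G.Adj x (hub o) ∧
            |hs x - Hs o| ≤ g0 ∧ ∀ c < d, |h c x - H c o| ≤ W) ∧
          (∀ x o, E' x o → ε ≤ TCH.kap A O E' r w x o) ∧
          ∑ x ∈ A with b ≤ (∑ o ∈ O with E x o, P x o) ∧ ∀ o, ¬ E' x o, n x ≤ c := by
  obtain ⟨ε, hε, hS⟩ := stSLW M ht F K (c * b / C1) g0 hM hF hK (by positivity)
  refine ⟨ε, hε, fun w0 d => ?_⟩
  obtain ⟨W, hW⟩ := hS w0 d
  refine ⟨W, ?_⟩
  intro V Ω _ G A O hub E hs Hs h H sc r w n P hFr hT I hn hP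
  obtain ⟨E', h1, h2, h3⟩ := hW V Ω G A O hub E hs Hs h H sc r w hFr hT I
  refine ⟨E', h1, h2, ?_⟩
  refine (Typ_.markov A O E E' n P (fun x o => sc (Hs o) * r x * w o) C1 (c * b / C1) b hb hn
    hC.le (fun x hx o ho h4 => (hP x hx o ho h4).1) (fun x hx o ho h4 => (hP x hx o ho h4).2)
    h3).trans (le_of_eq ?_)
  field_simp

/-- Typical nodes in the self-linked parts of several stages: `Q` is a law on the pairs of a chain
and a node, `bad j` the pairs whose node has no self-linked label at the stage `j`. -/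
theorem typ_stages {ι : Type} (T : Finset ι) (Q : ι → ℝ) (pat : ι → Prop) (q : ℕ)
    (bad : ℕ → ι → Prop) (κ c : ℝ) (hpat : κ ≤ ∑ i ∈ T with pat i, Q i)
    (hbad : ∀ j < q, ∑ i ∈ T with bad j i, Q i ≤ c) (hQ : ∀ i ∈ T, 0 ≤ Q i) (hκ : q * c < κ) :
    ∃ i ∈ T, pat i ∧ 0 < Q i ∧ ∀ j < q, ¬ bad j i := by
  by_contra hcon
  push Not at hcon
  have h1 : ∑ i ∈ T with pat i, Q i ≤ ∑ j ∈ range q, ∑ i ∈ T with bad j i, Q i := by
    simp_rw [Finset.sum_filter]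
    rw [Finset.sum_comm]
    refine Finset.sum_le_sum fun i hi => ?_
    have h2 : ∀ j ∈ range q, 0 ≤ (if bad j i then Q i else 0) := by
      intro j _
      split_ifs
      · exact hQ i hi
      · exact le_rfl
    by_cases h3 : pat i
    · rw [if_pos h3]
      rcases (hQ i hi).lt_or_eq with h4 | h4
      · obtain ⟨j, hj, h5⟩ := hcon i hi h3 h4
        have h6 := Finset.single_le_sum (f := fun j => if bad j i then Q i else 0) h2
          (Finset.mem_range.2 hj)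
        refine le_trans (le_of_eq ?_) h6
        exact (if_pos h5).symm
      · exact h4.ge.trans (Finset.sum_nonneg h2)
    · rw [if_neg h3]
      exact Finset.sum_nonneg h2
  have h2 : ∑ j ∈ range q, ∑ i ∈ T with bad j i, Q i ≤ q * c := by
    refine (Finset.sum_le_sum fun j hj => hbad j (Finset.mem_range.1 hj)).trans ?_
    rw [Finset.sum_const, Finset.card_range, nsmul_eq_mul]
  linarith

end Pool.Agent.Lib.GSR
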