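import Pool.Agent.Lib.GSR.Typ
import Pool.Agent.Lib.GSR.SLG
import Pool.Agent.Lib.TCW.BX

/-!
# Typical nodes have self-linked labels: the form for the records of `TCW.BX`, cells

Real heights of the nodes, integer heights of the labels; labels with the same hub and the same
heights are equal, the self-linked part is contained in the own incidence.
-/

set_option autoImplicit false

namespace Pool.Agent.Lib.GSR

open Finset Classical
open Pool.Agent.Lib.GSR3 (Stab Tree)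
open Pool.Agent.Lib.FGF (Frac)
open Pool.Agent.Lib.TCW (RecB IncB Cst)

namespace TypO_

lemma fl_le {x : ℝ} {z : ℤ} {v : ℕ} (h : |x - z| ≤ v) : |⌊x⌋ - z| ≤ ((v + 1 : ℕ) : ℤ) := by
  rw [abs_le] at h ⊢
  have h1 : z - v ≤ ⌊x⌋ := by
    rw [Int.le_floor]
    push_cast
    linarith
  have h2 : ⌊x⌋ ≤ z + v := by
    rw [← Int.lt_add_one_iff, Int.floor_lt]
    push_cast
    linarith
  push_cast
  constructor <;> linarith

lemma le_fl {x : ℝ} {z : ℤ} {v : ℕ} (h : |⌊x⌋ - z| ≤ (v : ℤ)) : |x - z| ≤ ((v + 1 : ℕ) : ℝ) := by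
  rw [abs_le] at h ⊢
  have h1 := Int.floor_le x
  have h2 := Int.lt_floor_add_one x
  have h3 : -(v : ℝ) ≤ ⌊x⌋ - z := by exact_mod_cast h.1
  have h4 : (⌊x⌋ : ℝ) - z ≤ v := by exact_mod_cast h.2
  push_cast
  constructor <;> linarith

end TypO_

open TypO_

/-- Typical nodes have self-linked labels, for labels given by the hub and the heights: `E` is the
own incidence, the window at the stage `s` is `g0`, the windows at the stages `c < s` are `w0`.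
`he`, `He` are the heights which determine a label with a given hub and scale. -/
theorem stTypO (M ht : ℕ) (F K C1 b c : ℝ) (g0 w0 d : ℕ) (hM : 1 ≤ M) (hF : 1 ≤ F) (hK : 0 < K)
    (hC : 0 < C1) (hb : 0 < b) (hc : 0 < c) : ∃ ε : ℝ, 0 < ε ∧
    ∀ (s : ℕ) (V Ω : Type) [Fintype V] (G : SimpleGraph V) (As : Finset V) (O : Finset Ω)
      (hub : Ω → V) (E : V → Ω → Prop) (h : ℕ → V → ℝ) (H : ℕ → Ω → ℤ) (he : ℕ → V → ℝ)
      (He : ℕ → Ω → ℤ) (r : V → ℝ) (w : Ω → ℝ) (n : V → ℝ)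
      (P : V → Ω → ℝ), Frac G F → (∀ φ : List (Fin M) → V, ¬ Tree G ht M φ) →
      (∀ x, 0 ≤ r x) → (∀ o, 0 ≤ w o) → (∀ x, 0 ≤ n x) →
      (∀ x ∈ As, ∀ o ∈ O, E x o → G.Adj x (hub o) ∧ |h s x - H s o| ≤ (g0 : ℝ) ∧
        (∀ c < s, |h c x - H c o| ≤ (w0 : ℝ)) ∧ ∀ e < d, |he e x - He e o| ≤ (w0 : ℝ)) →
      (∀ o ∈ O, ∀ o' ∈ O, hub o = hub o' → H s o = H s o' → (∀ e < d, He e o = He e o') →
        o = o') →
      (∀ x ∈ As, ∑ o ∈ O with G.Adj x (hub o) ∧ |h s x - H s o| ≤ ((g0 + 2 : ℕ) : ℝ),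
        w o ≤ K) →
      (∀ o ∈ O, ∑ x ∈ As with G.Adj x (hub o) ∧ |h s x - H s o| ≤ ((g0 + 2 : ℕ) : ℝ),
        r x ≤ K) →
      ∑ x ∈ As, (2 : ℝ) ^ (h s x) * r x ≤ K →
      ∑ o ∈ O, (2 : ℝ) ^ (H s o) * w o ≤ K →
      (∀ x ∈ As, ∀ o ∈ O, E x o → 0 ≤ P x o ∧ n x * P x o ≤ C1 * ((2 : ℝ) ^ (H s o) * r x * w o)) →
        (∀ k : Cst, w0 ≤ k.w0 → RecB G s g0 K k As O hub E r w h H) ∧
        ∑ x ∈ As with b ≤ (∑ o ∈ O with E x o, P x o) ∧
          ¬ ∃ I : V → Ω → Prop, IncB ε As O E r w I x, n x ≤ c := by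
  have h2p : ∀ t : ℤ, (0 : ℝ) < (2 : ℝ) ^ t := fun t => zpow_pos (by norm_num) t
  have hK' : (0 : ℝ) < 2 ^ (g0 + 1) * K := by positivity
  obtain ⟨g, hg⟩ : ∃ g : Fin (d + 1) → ℕ, g = fun i => if i.1 < d then w0 + 1 else g0 + 1 :=
    ⟨_, rfl⟩
  have hg1 : ∀ i : Fin (d + 1), i.1 < d → g i = w0 + 1 := fun i hi => by
    rw [hg]
    exact if_pos hi
  have hgs : g ⟨d, Nat.lt_succ_self d⟩ = g0 + 1 := by
    rw [hg]
    exact if_neg (lt_irrefl d)
  obtain ⟨ε, hε, hS⟩ := stSLG M ht (d + 1) g F (2 ^ (g0 + 1) * K) (c * b / C1)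
    hM hF hK' (by positivity)
  refine ⟨ε, hε, ?_⟩
  intro s V Ω _ G As O hub E h H he He r w n P hFr hT hr0 hw0 hn hE hinj hnw hnr hmr hmw hP
  have hKK : K ≤ 2 ^ (g0 + 1) * K := by
    have h1 : (1 : ℝ) ≤ 2 ^ (g0 + 1) := one_le_pow₀ (by norm_num)
    nlinarith
  obtain ⟨X, hX⟩ : ∃ X : V → Fin (d + 1) → ℤ, X = fun (x : V) (i : Fin (d + 1)) =>
    if (i : ℕ) < d then ⌊he i x⌋ else ⌊h s x⌋ := ⟨_, rfl⟩
  obtain ⟨Y, hY⟩ : ∃ Y : Ω → Fin (d + 1) → ℤ, Y = fun (o : Ω) (i : Fin (d + 1)) =>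
    if (i : ℕ) < d then He i o else H s o := ⟨_, rfl⟩
  have hX1 : ∀ x (i : Fin (d + 1)), i.1 < d → X x i = ⌊he i x⌋ := fun x i hi => by
    rw [hX]
    exact if_pos hi
  have hY1 : ∀ o (i : Fin (d + 1)), i.1 < d → Y o i = He i o := fun x i hi => by
    rw [hY]
    exact if_pos hi
  have hX2 : ∀ x, X x ⟨d, Nat.lt_succ_self d⟩ = ⌊h s x⌋ := fun x => by
    rw [hX]
    exact if_neg (lt_irrefl d)
  have hY2 : ∀ o, Y o ⟨d, Nat.lt_succ_self d⟩ = H s o := fun x => by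
    rw [hY]
    exact if_neg (lt_irrefl d)
  have hwin : ∀ x o, (∀ i : Fin (d + 1), |X x i - Y o i| ≤ ((g i : ℕ) : ℤ)) →
      |h s x - H s o| ≤ ((g0 + 2 : ℕ) : ℝ) := by
    intro x o h1
    have h2 := h1 ⟨d, Nat.lt_succ_self d⟩
    rw [hgs, hX2, hY2] at h2
    exact le_fl h2
  have hI : SLWg (d + 1) g G As O hub E X Y
      (fun k => (2 : ℝ) ^ k ⟨d, Nat.lt_succ_self d⟩) r w (2 ^ (g0 + 1) * K) := by
    refine ⟨hr0, hw0, fun k => (h2p _).le, ?_, ?_, ?_, ?_, ?_, ?_⟩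
    · intro x hx o ho h1
      obtain ⟨h2, h3, -, h4⟩ := hE x hx o ho h1
      refine ⟨h2, fun i => ?_⟩
      rcases Nat.lt_or_ge i.1 d with h5 | h5
      · rw [hg1 i h5, hX1 x i h5, hY1 o i h5]
        exact fl_le (h4 i h5)
      · have h6 : i = ⟨d, Nat.lt_succ_self d⟩ :=
          Fin.ext (le_antisymm (Nat.lt_succ_iff.1 i.2) h5)
        rw [h6, hgs, hX2, hY2]
        exact fl_le h3
    · intro o ho o' ho' h1 h2
      refine hinj o ho o' ho' h2 ?_ fun e he => ?_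
      · have h3 := congrFun h1 ⟨d, Nat.lt_succ_self d⟩
        rwa [hY2, hY2] at h3
      · have h3 := congrFun h1 ⟨e, Nat.lt_succ_of_lt he⟩
        rwa [hY1 o _ he, hY1 o' _ he] at h3
    · intro x hx
      refine le_trans (le_trans (Finset.sum_le_sum_of_subset_of_nonneg ?_ fun o _ _ => hw0 o)
        (hnw x hx)) hKK
      intro o ho
      rw [SL_.mf] at ho ⊢
      exact ⟨ho.1, ho.2.1, hwin x o ho.2.2⟩
    · intro o ho
      refine le_trans (le_trans (Finset.sum_le_sum_of_subset_of_nonneg ?_ fun o _ _ => hr0 o)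
        (hnr o ho)) hKK
      intro x hx
      rw [SL_.mf] at hx ⊢
      exact ⟨hx.1, hx.2.1, hwin x o hx.2.2⟩
    · intro δ hδ
      have h1 : ∑ x ∈ As, (2 : ℝ) ^ (X x ⟨d, Nat.lt_succ_self d⟩ + δ ⟨d, Nat.lt_succ_self d⟩) *
          r x ≤ ∑ x ∈ As, 2 ^ (g0 + 1) * ((2 : ℝ) ^ (h s x) * r x) := by
        refine Finset.sum_le_sum fun x _ => ?_
        rw [← mul_assoc]
        refine mul_le_mul_of_nonneg_right ?_ (hr0 x)
        have h3 : ((X x ⟨d, Nat.lt_succ_self d⟩ + δ ⟨d, Nat.lt_succ_self d⟩ : ℤ) : ℝ) ≤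
            ((g0 + 1 : ℕ) : ℝ) + h s x := by
          rw [hX2]
          have h4 := Int.floor_le (h s x)
          have h5 : (δ ⟨d, Nat.lt_succ_self d⟩ : ℝ) ≤ ((g0 + 1 : ℕ) : ℝ) := by
            have h6 := (abs_le.1 (hδ ⟨d, Nat.lt_succ_self d⟩)).2
            rw [hgs] at h6
            exact_mod_cast h6
          push_cast at h5 ⊢
          linarith
        calc (2 : ℝ) ^ (X x ⟨d, Nat.lt_succ_self d⟩ + δ ⟨d, Nat.lt_succ_self d⟩) =
              (2 : ℝ) ^ (((X x ⟨d, Nat.lt_succ_self d⟩ + δ ⟨d, Nat.lt_succ_self d⟩ : ℤ) : ℝ)) :=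
              (Real.rpow_intCast 2 _).symm
          _ ≤ (2 : ℝ) ^ (((g0 + 1 : ℕ) : ℝ) + h s x) :=
              Real.rpow_le_rpow_of_exponent_le (by norm_num) h3
          _ = 2 ^ (g0 + 1) * (2 : ℝ) ^ (h s x) := by
              rw [Real.rpow_add (by norm_num), Real.rpow_natCast]
      refine h1.trans ?_
      rw [← Finset.mul_sum]
      exact mul_le_mul_of_nonneg_left hmr (by positivity)
    · simp only [hY2]
      exact hmw.trans hKK
  obtain ⟨E', h1, h2, h3⟩ := hS V Ω G As O hub E X Y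
    (fun k => (2 : ℝ) ^ k ⟨d, Nat.lt_succ_self d⟩) r w hFr hT hI
  simp only [hY2] at h3
  refine ⟨fun k hk => ⟨hr0, hw0, ?_, ?_, ?_, ?_, ?_⟩, ?_⟩
  · intro x hx
    refine le_trans (Finset.sum_le_sum_of_subset_of_nonneg ?_ fun o _ _ => hw0 o) (hnw x hx)
    intro o ho
    rw [SL_.mf] at ho ⊢
    obtain ⟨h4, h5, -⟩ := hE x hx o ho.1 ho.2
    refine ⟨ho.1, h4, h5.trans ?_⟩
    push_cast
    linarith
  · intro o ho
    refine le_trans (Finset.sum_le_sum_of_subset_of_nonneg ?_ fun o _ _ => hr0 o) (hnr o ho)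
    intro x hx
    rw [SL_.mf] at hx ⊢
    obtain ⟨h4, h5, -⟩ := hE x hx.1 o ho hx.2
    refine ⟨hx.1, h4, h5.trans ?_⟩
    push_cast
    linarith
  · exact fun x hx o ho h4 => (hE x hx o ho h4).1
  · exact fun x hx o ho h4 => (hE x hx o ho h4).2.1
  · intro x hx o ho h4 c' hc'
    refine ((hE x hx o ho h4).2.2.1 c' hc').trans ?_
    exact_mod_cast hk
  · refine le_trans (Finset.sum_le_sum_of_subset_of_nonneg ?_ fun x _ _ => hn x)
      ((Typ_.markov As O E E' n P (fun x o => (2 : ℝ) ^ (H s o) * r x * w o) C1 (c * b / C1) b hb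
        hn hC.le (fun x hx o ho h4 => (hP x hx o ho h4).1)
        (fun x hx o ho h4 => (hP x hx o ho h4).2) h3).trans (le_of_eq ?_))
    · intro x hx
      rw [SL_.mf] at hx ⊢
      exact ⟨hx.1, hx.2.1, fun o h4 => hx.2.2 ⟨E', fun x o h5 => h1 x o h5, h2, o, h4⟩⟩
    · field_simp

end Pool.Agent.Lib.GSR
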