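import Pool.Agent.Lib.GSR.Srv

/-!
# Labels which are not served

A label `l` is served at the charge `g` if there is a measure `mu` of bounded mass which together
with `g` dominates the trees at the hub `y l` and which is cheap on the own law of `l`.  If no label
of `O` is served then every `t` sees only a bounded weight of labels in each scale (`uns_nr2`), the
labels which are thick are rare (`thick_rare`), and the other labels have no long increasing fans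
(`uns_fan`).
-/

set_option autoImplicit false

namespace Pool.Agent.Lib.GSR

open Finset Classical
open Pool.Agent.Lib.FGF (cm)
open Pool.Agent.Lib.GSLE

/-- The label `l` is served at the charge `g`. -/
def Served {V Om : Type} [Fintype V] (G : SimpleGraph V) (M j : ℕ) (A Λ δ : ℝ) (y : Om → V)
    (p : Om → V → ℝ) (g : V → ℝ) (L L' : Finset V) (l : Om) : Prop :=
  ∃ mu : V → ℝ, (∀ u, 0 ≤ mu u) ∧ (∀ u, mu u ≠ 0 → u ∈ L') ∧ ∑ u, mu u ≤ Λ ∧
    vioC G M j (y l) (fun x => A * g x + cm G mu x) L +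
      ∑ x, p l x * (A * g x + cm G mu x) ≤ δ

/-- The service lemma with fixed constants. -/
def SrvC (M j κ : ℕ) (δ A Λ e : ℝ) : Prop :=
  ∀ (V Om : Type) [Fintype V] [Fintype Om] (G : SimpleGraph V) (g : V → ℝ) (L L' : Finset V)
    (t : V) (f : V → Fin κ) (y : Om → V) (p : Om → V → ℝ) (om : Om → ℝ),
    (∀ u, 0 ≤ g u) → L ⊆ L' → t ∈ L' → (∀ l x, 0 ≤ p l x) → (∀ l, 0 ≤ om l) →
    ∑ l, om l = 1 → (∀ l, om l ≠ 0 → G.Adj t (y l) ∧ y l ∈ L') →
    (∀ u w, G.Adj t u → G.Adj t w → G.Adj u w → f u ≠ f w) →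
    vioC G M (j + 1) t g L' ≤ 1 / 2 →
    (∀ b ∈ L, ∑ l, om l * ∑ x, p l x * cl G x b ≤ e) →
    ∑ l, om l * ∑ x, p l x * cl G x t ≤ e →
    ∑ l, om l * ∑ x, p l x * ∑ l', om l' * cl G x (y l') ≤ e →
    ∑ l, om l * ∑ x, p l x * g x ≤ e →
    ∑ l, om l * min 1 (g (y l)) ≤ e →
      ∃ l, om l ≠ 0 ∧ Served G M j A Λ δ y p g L L' l

/-- There are such constants. -/
theorem exists_srvC (M j κ : ℕ) (hM : 1 ≤ M) (hj : 1 ≤ j) {δ : ℝ} (hδ : 0 < δ) :
    ∃ A Λ e : ℝ, 1 ≤ A ∧ 0 ≤ Λ ∧ 0 < e ∧ SrvC M j κ δ A Λ e := by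
  obtain ⟨A, Λ, e, hA, hΛ, he, key⟩ := stSrv M j κ hM hj δ hδ
  refine ⟨A, Λ, e, hA, hΛ, he, ?_⟩
  intro V Om _ _ G g L L' t f y p om hg hL htL hp hom hom1 hy hf hv h1 h2 h3 h4 h5
  obtain ⟨mu, hmu0, hmuL, hmuΛ, hsum⟩ :=
    key V Om G g L L' t f y p om hg hL htL hp hom hom1.le hy hf hv h1 h2 h3 h4 h5
  by_contra hcon
  have hlt : ∀ l, om l ≠ 0 → δ < vioC G M j (y l) (fun x => A * g x + cm G mu x) L +
      ∑ x, p l x * (A * g x + cm G mu x) := by
    intro l hl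
    by_contra hle
    push Not at hle
    exact hcon ⟨l, hl, mu, hmu0, hmuL, hmuΛ, hle⟩
  obtain ⟨l₀, -, hl₀⟩ : ∃ l ∈ (Finset.univ : Finset Om), om l ≠ 0 := by
    refine Finset.exists_ne_zero_of_sum_ne_zero ?_
    rw [hom1]
    exact one_ne_zero
  have h6 : ∑ l, om l * δ < ∑ l, om l * (vioC G M j (y l) (fun x => A * g x + cm G mu x) L +
      ∑ x, p l x * (A * g x + cm G mu x)) := by
    refine Finset.sum_lt_sum (fun l _ => ?_) ⟨l₀, Finset.mem_univ l₀, ?_⟩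
    · by_cases hl : om l = 0
      · rw [hl, zero_mul, zero_mul]
      · exact mul_le_mul_of_nonneg_left (hlt l hl).le (hom l)
    · exact mul_lt_mul_of_pos_left (hlt l₀ hl₀) (lt_of_le_of_ne (hom l₀) (Ne.symm hl₀))
  rw [← Finset.sum_mul, hom1, one_mul] at h6
  linarith

/-- The labels of `O` of one stage: `n` the node law, `a` the root function with the levels `k`,
`A'` the mass function, `c` the own kernel, `ρ` the weights, `p` the own laws, `y` the hubs, `i` the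
scales.  All the conditions are at the nodes (`n x ≠ 0`). -/
structure OwnL {V Om : Type} [Fintype V] (G : SimpleGraph V) (n a A' : V → ℝ) (k : V → ℕ)
    (c : V → Om → ℝ) (ρ : Om → ℝ) (p : Om → V → ℝ) (y : Om → V) (i : Om → ℕ) (g₀ : ℕ)
    (H θ B q Bd : ℝ) (O : Finset Om) : Prop where
  n0 : ∀ x, 0 ≤ n x
  a0 : ∀ x, 0 < a x
  ak : ∀ x, a x < 2 * (1 / 2 : ℝ) ^ k x
  aA : ∀ x, n x ≠ 0 → θ * a x ≤ A' x
  H0 : 0 ≤ H
  θ0 : 0 < θ
  B0 : 0 ≤ B
  c0 : ∀ x, n x ≠ 0 → ∀ l ∈ O, 0 ≤ c x l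
  ρ0 : ∀ l ∈ O, 0 ≤ ρ l
  win : ∀ x, n x ≠ 0 → ∀ l ∈ O, c x l ≠ 0 → ds (k x) (i l) ≤ g₀
  own : ∀ x, n x ≠ 0 → ∑ l ∈ O, c x l * ρ l ≤ H * a x
  p0 : ∀ l x, 0 ≤ p l x
  p1 : ∀ l ∈ O, ∑ x, p l x ≤ 1
  pB : ∀ l ∈ O, ∀ x, p l x ≤ B * (n x / A' x * c x l)
  near : ∀ x, n x ≠ 0 → ∑ l ∈ O with G.Adj x (y l), ρ l * q ^ ds (k x) (i l) ≤
    Bd * (1 / 2 : ℝ) ^ k x
  hub : ∀ x, n x ≠ 0 → ∀ l ∈ O, x ≠ y l

/-- The target `t` with its charge `g`. -/
structure TgtL {V : Type} [Fintype V] (G : SimpleGraph V) (M j κ : ℕ) (n a : V → ℝ) (k : V → ℕ)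
    (ξ : ℝ) (g : V → ℝ) (L L' : Finset V) (t : V) (f : V → Fin κ) : Prop where
  g0 : ∀ u, 0 ≤ g u
  LL : L ⊆ L'
  tL : t ∈ L'
  col : ∀ u w, G.Adj t u → G.Adj t w → G.Adj u w → f u ≠ f w
  mas : vioC G M (j + 1) t g L' ≤ 1 / 2
  ξ0 : 0 ≤ ξ
  thin : ∀ b, b ∈ L ∨ b = t → ∀ r, ∑ x with k x = r, n x / a x * cl G x b ≤ ξ

section base

variable {V Om : Type} [Fintype V] [Fintype Om] {G : SimpleGraph V} {n a A' : V → ℝ}
  {k : V → ℕ} {c : V → Om → ℝ} {ρ : Om → ℝ} {p : Om → V → ℝ} {y : Om → V} {i : Om → ℕ}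
  {g₀ : ℕ} {H θ B q Bd : ℝ} {O : Finset Om}

theorem OwnL.node (h : OwnL G n a A' k c ρ p y i g₀ H θ B q Bd O) {l : Om} (hl : l ∈ O) {x : V}
    (hx : p l x ≠ 0) : n x ≠ 0 := by
  intro hn
  have h1 := h.pB l hl x
  rw [hn, zero_div, zero_mul, mul_zero] at h1
  exact hx (le_antisymm h1 (h.p0 l x))

/-- The data of one group. -/
theorem OwnL.toOwn (h : OwnL G n a A' k c ρ p y i g₀ H θ B q Bd O) {T : Finset Om} (hT : T ⊆ O)
    {m : ℕ} (hi : ∀ l ∈ T, i l = m) {η : ℝ} (hη : 0 < η)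
    (hmass : η * (1 / 2 : ℝ) ^ m ≤ ∑ l ∈ T, ρ l) :
    Own n a (fun x => if n x = 0 then θ * a x else A' x) k
      (fun x l => if n x = 0 then 0 else c x l) (fun l => if l ∈ O then ρ l else 0) p g₀ H θ η B
      m T where
  n0 := h.n0
  a0 := h.a0
  ak := h.ak
  aA := fun x => by
    by_cases hx : n x = 0
    · rw [if_pos hx]
    · rw [if_neg hx]
      exact h.aA x hx
  H0 := h.H0
  θ0 := h.θ0
  η0 := hη
  B0 := h.B0
  c0 := fun x l hl => by
    by_cases hx : n x = 0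
    · rw [if_pos hx]
    · rw [if_neg hx]
      exact h.c0 x hx l (hT hl)
  ρ0 := fun l hl => by
    rw [if_pos (hT hl)]
    exact h.ρ0 l (hT hl)
  win := fun x l hl hc => by
    by_cases hx : n x = 0
    · rw [if_pos hx] at hc
      exact absurd rfl hc
    · rw [if_neg hx] at hc
      rw [← hi l hl]
      exact h.win x hx l (hT hl) hc
  own := fun x => by
    by_cases hx : n x = 0
    · simp only [if_pos hx, zero_mul, Finset.sum_const_zero]
      exact mul_nonneg h.H0 (h.a0 x).le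
    · refine le_trans ?_ (h.own x hx)
      simp only [if_neg hx]
      calc ∑ l ∈ T, c x l * (if l ∈ O then ρ l else 0) = ∑ l ∈ T, c x l * ρ l :=
            Finset.sum_congr rfl fun l hl => by rw [if_pos (hT hl)]
        _ ≤ ∑ l ∈ O, c x l * ρ l :=
            Finset.sum_le_sum_of_subset_of_nonneg hT fun l hl _ =>
              mul_nonneg (h.c0 x hx l hl) (h.ρ0 l hl)
  mass := by
    refine hmass.trans (le_of_eq (Finset.sum_congr rfl fun l hl => ?_))
    rw [if_pos (hT hl)]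
  p0 := fun l _ => h.p0 l
  p1 := fun l hl => h.p1 l (hT hl)
  pB := fun l hl x => by
    refine (h.pB l (hT hl) x).trans (le_of_eq ?_)
    by_cases hx : n x = 0
    · rw [hx, zero_div, zero_div, zero_mul, zero_mul]
    · rw [if_neg hx, if_neg hx]

theorem OwnL.ρO (h : OwnL G n a A' k c ρ p y i g₀ H θ B q Bd O) (l : Om) :
    0 ≤ (if l ∈ O then ρ l else 0) := by
  by_cases hl : l ∈ O
  · rw [if_pos hl]
    exact h.ρ0 l hl
  · rw [if_neg hl]

/-- The bound for the labels near a node, with the closed adjacency. -/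
theorem OwnL.near_cl (h : OwnL G n a A' k c ρ p y i g₀ H θ B q Bd O) {x : V} (hx : n x ≠ 0) :
    ∑ l', cl G x (y l') * (if l' ∈ O then ρ l' else 0) * q ^ ds (k x) (i l') ≤
      Bd * (1 / 2 : ℝ) ^ k x := by
  refine le_trans (le_of_eq ?_) (h.near x hx)
  rw [Finset.sum_filter, ← Finset.sum_filter_add_sum_filter_not Finset.univ (fun l => l ∈ O)]
  have e1 : ∑ l' with ¬ l' ∈ O, cl G x (y l') * (if l' ∈ O then ρ l' else 0) *
      q ^ ds (k x) (i l') = 0 := by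
    refine Finset.sum_eq_zero fun l hl => ?_
    rw [if_neg (Finset.mem_filter.mp hl).2, mul_zero, zero_mul]
  rw [e1, add_zero, Finset.filter_mem_eq_inter, Finset.univ_inter]
  refine Finset.sum_congr rfl fun l hl => ?_
  rw [if_pos hl]
  unfold cl
  by_cases hadj : G.Adj x (y l)
  · rw [if_pos (Or.inr hadj), if_pos hadj, one_mul]
  · rw [if_neg hadj, if_neg, zero_mul, zero_mul]
    rintro (h1 | h1)
    · exact h.hub x hx l hl h1
    · exact hadj h1

end base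

section scale

variable {V Om : Type} [Fintype V] [Fintype Om] {G : SimpleGraph V} {n a A' : V → ℝ}
  {k : V → ℕ} {c : V → Om → ℝ} {ρ : Om → ℝ} {p : Om → V → ℝ} {y : Om → V} {i : Om → ℕ}
  {g₀ : ℕ} {H θ B q Bd : ℝ} {O : Finset Om} {M j κ : ℕ} {δ A Λ e ξ : ℝ} {g : V → ℝ}
  {L L' : Finset V} {t : V} {f : V → Fin κ}

/-- One scale: a group of weight at least `K (1/2)^m` has a label which is served. -/
theorem srv_scale (hS : SrvC M j κ δ A Λ e) (hO : OwnL G n a A' k c ρ p y i g₀ H θ B q Bd O)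
    (ht : TgtL G M j κ n a k ξ g L L' t f) (hq0 : 0 < q) (hq1 : q ≤ 1) (hBd : 0 ≤ Bd)
    {T : Finset Om} (hT : T ⊆ O) {m : ℕ} (hi : ∀ l ∈ T, i l = m) {K : ℝ} (hK : 0 < K)
    (hmass : K * (1 / 2 : ℝ) ^ m ≤ ∑ l ∈ T, ρ l)
    (hy : ∀ l ∈ T, G.Adj t (y l) ∧ y l ∈ L')
    (hg1 : ∀ l ∈ T, ∀ x, p l x ≠ 0 → g x ≤ e) (hg2 : ∀ l ∈ T, g (y l) ≤ e)
    (hξ : Cf g₀ H θ K B * ξ ≤ e) (hKe : Bd * (2 ^ g₀ / q ^ g₀) / K ≤ e) :
    ∃ l ∈ T, Served G M j A Λ δ y p g L L' l := by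
  have hW := hO.toOwn hT hi hK hmass
  set ρO : Om → ℝ := fun l => if l ∈ O then ρ l else 0 with hρO
  have hρO0 : ∀ l, 0 ≤ ρO l := fun l => hO.ρO l
  have hom0 : ∀ l, 0 ≤ omg ρO T l := omg_nonneg fun l _ => hρO0 l
  have he0 : 0 ≤ e := by
    refine le_trans ?_ hKe
    positivity
  obtain ⟨l, hl, hs⟩ := hS V Om G g L L' t f y p (omg ρO T) ht.g0 ht.LL ht.tL hO.p0 hom0
    (omg_one hW.pos) (fun l hl => hy l (omg_supp hl)) ht.col ht.mas
    (fun b hb => (hW.e1 b ht.ξ0 (ht.thin b (Or.inl hb))).trans hξ)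
    ((hW.e1 t ht.ξ0 (ht.thin t (Or.inr rfl))).trans hξ)
    ((hW.e3 hi hρO0 hq0 hq1 hBd (fun l hl x hx => hO.near_cl (hO.node (hT hl) hx))).trans hKe)
    (by
      calc ∑ l, omg ρO T l * ∑ x, p l x * g x ≤ ∑ l, omg ρO T l * e := by
            refine Finset.sum_le_sum fun l _ => ?_
            by_cases hl : omg ρO T l = 0
            · rw [hl, zero_mul, zero_mul]
            · have hlT := omg_supp hl
              refine mul_le_mul_of_nonneg_left ?_ (hom0 l)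
              calc ∑ x, p l x * g x ≤ ∑ x, p l x * e := by
                    refine Finset.sum_le_sum fun x _ => ?_
                    by_cases hx : p l x = 0
                    · rw [hx, zero_mul, zero_mul]
                    · exact mul_le_mul_of_nonneg_left (hg1 l hlT x hx) (hO.p0 l x)
                _ = (∑ x, p l x) * e := by rw [Finset.sum_mul]
                _ ≤ 1 * e := mul_le_mul_of_nonneg_right (hO.p1 l (hT hlT)) he0
                _ = e := one_mul e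
        _ = e := by rw [← Finset.sum_mul, omg_one hW.pos, one_mul])
    (by
      calc ∑ l, omg ρO T l * min 1 (g (y l)) ≤ ∑ l, omg ρO T l * e := by
            refine Finset.sum_le_sum fun l _ => ?_
            by_cases hl : omg ρO T l = 0
            · rw [hl, zero_mul, zero_mul]
            · exact mul_le_mul_of_nonneg_left ((min_le_right _ _).trans (hg2 l (omg_supp hl)))
                (hom0 l)
        _ = e := by rw [← Finset.sum_mul, omg_one hW.pos, one_mul])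
  exact ⟨l, omg_supp hl, hs⟩

/-- A fan: a sequence of groups of decreasing scales has a label which is served. -/
theorem srv_fan (hS : SrvC M j κ δ A Λ e) (hO : OwnL G n a A' k c ρ p y i g₀ H θ B q Bd O)
    (ht : TgtL G M j κ n a k ξ g L L' t f) (hq0 : 0 < q) (hq1 : q < 1) (hq : q * q = 1 / 2)
    (hBd : 0 ≤ Bd) {R₁ : ℕ} (hR : 0 < R₁) {m : ℕ → ℕ} {T : ℕ → Finset Om}
    (hT : ∀ b < R₁, T b ⊆ O) (hi : ∀ b < R₁, ∀ l ∈ T b, i l = m b) {d : ℕ} (hd : 1 ≤ d)
    (hgap : ∀ b b', b < b' → b' < R₁ → m b + g₀ + d ≤ m b') {η : ℝ} (hη : 0 < η)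
    (hmass : ∀ b < R₁, η * (1 / 2 : ℝ) ^ m b ≤ ∑ l ∈ T b, ρ l)
    (hy : ∀ b < R₁, ∀ l ∈ T b, G.Adj t (y l) ∧ y l ∈ L')
    (hg1 : ∀ b < R₁, ∀ l ∈ T b, ∀ x, p l x ≠ 0 → g x ≤ e)
    (hg2 : ∀ b < R₁, ∀ l ∈ T b, g (y l) ≤ e) {φ : Om → V → ℝ} (hφ : ∀ l x, 0 ≤ φ l x)
    {ε : ℝ} (hε : 0 ≤ ε)
    (hF : ∀ b₀ b, b₀ < b → b < R₁ → ∀ l ∈ T b₀, ∀ x, p l x ≠ 0 → ∀ l' ∈ T b,
      G.Adj x (y l') → 1 ≤ φ l' x)
    (hth : ∀ b₀ b, b₀ < b → b < R₁ → ∀ l' ∈ T b, ∀ r, ds r (m b₀) ≤ g₀ →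
      DF n a k φ r l' ≤ ε * q ^ (m b - r))
    (hξ : Cf g₀ H θ η B * ξ ≤ e)
    (hRe : (1 + (Bd / η + Cf g₀ H θ η B * ε) * (q ^ d / (1 - q))) / R₁ ≤ e) :
    ∃ b < R₁, ∃ l ∈ T b, Served G M j A Λ δ y p g L L' l := by
  have hW : ∀ b < R₁, Own n a (fun x => if n x = 0 then θ * a x else A' x) k
      (fun x l => if n x = 0 then 0 else c x l) (fun l => if l ∈ O then ρ l else 0) p g₀ H θ η B
      (m b) (T b) := fun b hb => hO.toOwn (hT b hb) (hi b hb) hη (hmass b hb)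
  set ρO : Om → ℝ := fun l => if l ∈ O then ρ l else 0 with hρO
  have hρO0 : ∀ l, 0 ≤ ρO l := fun l => hO.ρO l
  have hom0 : ∀ l, 0 ≤ omf ρO T R₁ l := omf_nonneg hρO0
  have hom1 : ∑ l, omf ρO T R₁ l = 1 := omf_one hR fun b hb => (hW b hb).pos
  have hq1' : 0 < 1 - q := by linarith
  have hCf : 0 ≤ Cf g₀ H θ η B := by
    unfold Cf
    have h1 := hO.H0
    have h2 := hO.B0
    have h3 := hO.θ0
    positivity
  have he0 : 0 ≤ e := le_trans (mul_nonneg hCf ht.ξ0) hξ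
  obtain ⟨l, hl, hs⟩ := hS V Om G g L L' t f y p (omf ρO T R₁) ht.g0 ht.LL ht.tL hO.p0 hom0
    hom1 (fun l hl => by
      obtain ⟨b, hb, hlb⟩ := omf_supp hl
      exact hy b hb l hlb) ht.col ht.mas
    (fun b hb => (fan_e1 hR m T hW b ht.ξ0 (ht.thin b (Or.inl hb))).trans hξ)
    ((fan_e1 hR m T hW t ht.ξ0 (ht.thin t (Or.inr rfl))).trans hξ)
    ((fan_e3 hR m T hd hgap hW hi hρO0 hφ hq0 hq1 hq hε hBd
      (fun b hb l hl x hx => hO.near_cl (hO.node (hT b hb hl) hx))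
      (fun b₀ b h1 h2 l hl x hx l' hl' => by
        unfold cl
        by_cases hadj : G.Adj x (y l')
        · rw [if_pos (Or.inr hadj)]
          exact hF b₀ b h1 h2 l hl x hx l' hl' hadj
        · rw [if_neg]
          · exact hφ l' x
          · rintro (h3 | h3)
            · exact hO.hub x (hO.node (hT b₀ (h1.trans h2) hl) hx) l' (hT b h2 hl') h3
            · exact hadj h3) hth).trans hRe)
    (by
      calc ∑ l, omf ρO T R₁ l * ∑ x, p l x * g x ≤ ∑ l, omf ρO T R₁ l * e := by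
            refine Finset.sum_le_sum fun l _ => ?_
            by_cases hl : omf ρO T R₁ l = 0
            · rw [hl, zero_mul, zero_mul]
            · obtain ⟨b, hb, hlb⟩ := omf_supp hl
              refine mul_le_mul_of_nonneg_left ?_ (hom0 l)
              calc ∑ x, p l x * g x ≤ ∑ x, p l x * e := by
                    refine Finset.sum_le_sum fun x _ => ?_
                    by_cases hx : p l x = 0
                    · rw [hx, zero_mul, zero_mul]
                    · exact mul_le_mul_of_nonneg_left (hg1 b hb l hlb x hx) (hO.p0 l x)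
                _ = (∑ x, p l x) * e := by rw [Finset.sum_mul]
                _ ≤ 1 * e := mul_le_mul_of_nonneg_right (hO.p1 l (hT b hb hlb)) he0
                _ = e := one_mul e
        _ = e := by rw [← Finset.sum_mul, hom1, one_mul])
    (by
      calc ∑ l, omf ρO T R₁ l * min 1 (g (y l)) ≤ ∑ l, omf ρO T R₁ l * e := by
            refine Finset.sum_le_sum fun l _ => ?_
            by_cases hl : omf ρO T R₁ l = 0
            · rw [hl, zero_mul, zero_mul]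
            · obtain ⟨b, hb, hlb⟩ := omf_supp hl
              exact mul_le_mul_of_nonneg_left ((min_le_right _ _).trans (hg2 b hb l hlb))
                (hom0 l)
        _ = e := by rw [← Finset.sum_mul, hom1, one_mul])
  obtain ⟨b, hb, hlb⟩ := omf_supp hl
  exact ⟨b, hb, l, hlb, hs⟩

end scale

end Pool.Agent.Lib.GSR
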