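import Pool.Agent.Lib.GSR.Uns

/-!
# Labels which are not served: heights

The statements of `Uns.lean` in the form of the fields `nr2` and `fan` of the structure `StgH` of
`TCW/LvlS.lean` and `NrB` of `TCW/BX.lean`.  The heights of the labels are integers, the height of
a label at its stage is minus its scale; the heights of the vertices are real.
-/

set_option autoImplicit false

namespace Pool.Agent.Lib.GSR

open Finset Classical
open Pool.Agent.Lib.FGF (cm)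
open Pool.Agent.Lib.GSLE

/-- The mass of the vertices `x` of the level `r` which see the hub of `l` and are higher than `l`
at all the stages of `C`. -/
noncomputable def HM {V Om : Type} [Fintype V] (G : SimpleGraph V) (n a : V → ℝ) (k : V → ℕ)
    (y : Om → V) (h : ℕ → V → ℝ) (Hh : ℕ → Om → ℤ) (l0 : ℤ) (C : Finset ℕ) (r : ℕ) (l : Om) : ℝ :=
  ∑ x with k x = r ∧ G.Adj (y l) x ∧ ∀ c ∈ C, Hh c l + l0 ≤ h c x, n x / a x

section

variable {V Om : Type} [Fintype V] [Fintype Om] {G : SimpleGraph V} {n a A' : V → ℝ}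
  {k : V → ℕ} {c : V → Om → ℝ} {ρ : Om → ℝ} {p : Om → V → ℝ} {y : Om → V} {i : Om → ℕ}
  {g₀ : ℕ} {H θ B q Bd : ℝ} {O : Finset Om} {M j κ : ℕ} {δ A Λ e ξ : ℝ} {g : V → ℝ}
  {L L' : Finset V} {t : V} {f : V → Fin κ} {C : Finset ℕ} {s : ℕ} {h : ℕ → V → ℝ}
  {Hh : ℕ → Om → ℤ} {l0 l1 : ℤ} {w0 : ℝ} {w : Om → ℝ}

omit [Fintype Om] in
theorem HM_eq (r : ℕ) (l : Om) : HM G n a k y h Hh l0 C r l =
    DF n a k (fun l x => if G.Adj (y l) x ∧ ∀ c ∈ C, Hh c l + l0 ≤ h c x then 1 else 0) r l := by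
  unfold HM DF
  rw [← Finset.filter_filter, Finset.sum_filter (s := Finset.univ.filter fun x => k x = r)]
  refine Finset.sum_congr rfl fun x _ => ?_
  dsimp only
  split_ifs
  · rw [mul_one]
  · rw [mul_zero]

/-- **The field `nr2`.**  In each scale, the labels which are not served and are lower than `t` at
all the stages of `C` have small weight. -/
theorem uns_nr2 (hS : SrvC M j κ δ A Λ e) (hO : OwnL G n a A' k c ρ p y i g₀ H θ B q Bd O)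
    (ht : TgtL G M j κ n a k ξ g L L' t f) (hq0 : 0 < q) (hq1 : q ≤ 1) (hBd : 0 ≤ Bd)
    (hw : ∀ l ∈ O, w l * (1 / 2 : ℝ) ^ i l = ρ l) (hH : ∀ l ∈ O, Hh s l = -(i l : ℤ))
    (hyL : ∀ l ∈ O, y l ∈ L')
    (hch : ∀ l ∈ O, G.Adj (y l) t → (∀ c ∈ C, Hh c l + l0 ≤ h c t) →
      (∀ x, p l x ≠ 0 → g x ≤ e) ∧ g (y l) ≤ e ∧ ¬ Served G M j A Λ δ y p g L L' l)
    {K : ℝ} (hK : 0 < K) (hξ : Cf g₀ H θ K B * ξ ≤ e)
    (hKe : Bd * (2 ^ g₀ / q ^ g₀) / K ≤ e) (r : ℤ) :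
    ∑ o ∈ O with G.Adj (y o) t ∧ Hh s o = r ∧ ∀ c ∈ C, Hh c o + l0 ≤ h c t, w o ≤ K := by
  by_contra hcon
  push Not at hcon
  set T : Finset Om := O.filter
    (fun o => G.Adj (y o) t ∧ Hh s o = r ∧ ∀ c ∈ C, Hh c o + l0 ≤ h c t) with hTdef
  have hTm : ∀ l ∈ T, l ∈ O ∧ G.Adj (y l) t ∧ Hh s l = r ∧ ∀ c ∈ C, Hh c l + l0 ≤ h c t :=
    fun l hl => Finset.mem_filter.mp hl
  have hne : T.Nonempty := by
    by_contra hemp
    rw [Finset.not_nonempty_iff_eq_empty] at hemp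
    rw [hemp, Finset.sum_empty] at hcon
    exact absurd hcon (not_lt.mpr hK.le)
  obtain ⟨l₁, hl₁⟩ := hne
  have hi : ∀ l ∈ T, i l = i l₁ := by
    intro l hl
    have h1 := hH l (hTm l hl).1
    have h2 := hH l₁ (hTm l₁ hl₁).1
    rw [(hTm l hl).2.2.1] at h1
    rw [(hTm l₁ hl₁).2.2.1] at h2
    have h3 : (i l : ℤ) = (i l₁ : ℤ) := by linarith
    exact_mod_cast h3
  have hmass : K * (1 / 2 : ℝ) ^ i l₁ ≤ ∑ l ∈ T, ρ l := by
    have h1 : ∑ l ∈ T, ρ l = (∑ l ∈ T, w l) * (1 / 2 : ℝ) ^ i l₁ := by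
      rw [Finset.sum_mul]
      refine Finset.sum_congr rfl fun l hl => ?_
      rw [← hw l (hTm l hl).1, hi l hl]
    rw [h1]
    exact mul_le_mul_of_nonneg_right hcon.le (by positivity)
  obtain ⟨l, hl, hs⟩ := srv_scale hS hO ht hq0 hq1 hBd (fun l hl => (hTm l hl).1) hi hK hmass
    (fun l hl => ⟨(hTm l hl).2.1.symm, hyL l (hTm l hl).1⟩)
    (fun l hl => (hch l (hTm l hl).1 (hTm l hl).2.1 (hTm l hl).2.2.2).1)
    (fun l hl => (hch l (hTm l hl).1 (hTm l hl).2.1 (hTm l hl).2.2.2).2.1) hξ hKe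
  exact (hch l (hTm l hl).1 (hTm l hl).2.1 (hTm l hl).2.2.2).2.2 hs

/-- **The field `fan`.**  The labels which are neither served nor thick have no long increasing
fans. -/
theorem uns_fan (hS : SrvC M j κ δ A Λ e) (hO : OwnL G n a A' k c ρ p y i g₀ H θ B q Bd O)
    (ht : TgtL G M j κ n a k ξ g L L' t f) (hq0 : 0 < q) (hq1 : q < 1) (hq : q * q = 1 / 2)
    (hBd : 0 ≤ Bd) (hsC : s ∈ C)
    (hw : ∀ l ∈ O, w l * (1 / 2 : ℝ) ^ i l = ρ l) (hH : ∀ l ∈ O, Hh s l = -(i l : ℤ))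
    (hyL : ∀ l ∈ O, y l ∈ L')
    (hch : ∀ l ∈ O, G.Adj (y l) t → (∀ c ∈ C, Hh c l + l0 ≤ h c t) →
      (∀ x, p l x ≠ 0 → g x ≤ e) ∧ g (y l) ≤ e ∧ ¬ Served G M j A Λ δ y p g L L' l)
    (hlow : ∀ l ∈ O, ∀ x, p l x ≠ 0 → ∀ c ∈ C, Hh c l ≤ h c x + w0) {d : ℕ} (hd : 1 ≤ d)
    {ε : ℝ} (hε : 0 ≤ ε)
    (hthk : ∀ l ∈ O, ∀ r, r + d ≤ i l → HM G n a k y h Hh l0 C r l ≤ ε * q ^ (i l - r))
    (hl1 : (l0 : ℝ) + w0 ≤ l1) (hl1' : (g₀ : ℤ) + d ≤ l1) {η : ℝ} (hη : 0 < η) {R₁ : ℕ}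
    (hξ : Cf g₀ H θ η B * ξ ≤ e)
    (hRe : (1 + (Bd / η + Cf g₀ H θ η B * ε) * (q ^ d / (1 - q))) / R₁ ≤ e) (hR : 0 < R₁)
    (F : ℕ → Finset Om)
    (hF : ∀ b < R₁, F b ⊆ O ∧ η ≤ ∑ o ∈ F b, w o ∧ (∀ o ∈ F b, ∀ o' ∈ F b, Hh s o = Hh s o') ∧
      ∀ o ∈ F b, G.Adj (y o) t ∧ ∀ c ∈ C, Hh c o + l0 ≤ h c t) :
    ¬ ∀ a b, a < b → b < R₁ → ∀ o ∈ F a, ∀ o' ∈ F b, ∀ c ∈ C, Hh c o + l1 ≤ Hh c o' := by
  intro hinc
  -- the scales of the groups
  have hne : ∀ b < R₁, (F b).Nonempty := by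
    intro b hb
    by_contra hemp
    rw [Finset.not_nonempty_iff_eq_empty] at hemp
    have h1 := (hF b hb).2.1
    rw [hemp, Finset.sum_empty] at h1
    exact absurd hη (not_lt.mpr h1)
  have hmex : ∀ b, ∃ m : ℕ, b < R₁ → ∀ l ∈ F b, i l = m := by
    intro b
    by_cases hb : b < R₁
    · obtain ⟨l₁, hl₁⟩ := hne b hb
      refine ⟨i l₁, fun _ l hl => ?_⟩
      have h1 := hH l ((hF b hb).1 hl)
      have h2 := hH l₁ ((hF b hb).1 hl₁)
      have h3 := (hF b hb).2.2.1 l hl l₁ hl₁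
      have h4 : (i l : ℤ) = (i l₁ : ℤ) := by linarith
      exact_mod_cast h4
    · exact ⟨0, fun h => absurd h hb⟩
  choose m0 hm0 using hmex
  set T : ℕ → Finset Om := fun b => F (R₁ - 1 - b) with hTdef
  set m : ℕ → ℕ := fun b => m0 (R₁ - 1 - b) with hmdef
  have hidx : ∀ b, b < R₁ → R₁ - 1 - b < R₁ := fun b hb => by omega
  have hTO : ∀ b < R₁, T b ⊆ O := fun b hb => (hF _ (hidx b hb)).1
  have hi : ∀ b < R₁, ∀ l ∈ T b, i l = m b := fun b hb l hl => hm0 _ (hidx b hb) l hl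
  have hord : ∀ b₀ b, b₀ < b → b < R₁ → ∀ l ∈ T b₀, ∀ l' ∈ T b, ∀ c ∈ C,
      Hh c l' + l1 ≤ Hh c l := by
    intro b₀ b h1 h2 l hl l' hl' c hc
    exact hinc (R₁ - 1 - b) (R₁ - 1 - b₀) (by omega) (by omega) l' hl' l hl c hc
  have hgap : ∀ b b', b < b' → b' < R₁ → m b + g₀ + d ≤ m b' := by
    intro b b' h1 h2
    obtain ⟨l, hl⟩ := hne _ (hidx b (h1.trans h2))
    obtain ⟨l', hl'⟩ := hne _ (hidx b' h2)
    have h3 := hord b b' h1 h2 l hl l' hl' s hsC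
    rw [hH l (hTO b (h1.trans h2) hl), hH l' (hTO b' h2 hl'), hi b (h1.trans h2) l hl,
      hi b' h2 l' hl'] at h3
    have h4 : (m b : ℤ) + g₀ + d ≤ m b' := by linarith
    exact_mod_cast h4
  obtain ⟨b, hb, l, hl, hs⟩ := srv_fan (φ := fun l x =>
      if G.Adj (y l) x ∧ ∀ c ∈ C, Hh c l + l0 ≤ h c x then 1 else 0)
    hS hO ht hq0 hq1 hq hBd hR hTO hi hd hgap hη
    (by
      intro b hb
      have h1 : ∑ l ∈ T b, ρ l = (∑ l ∈ T b, w l) * (1 / 2 : ℝ) ^ m b := by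
        rw [Finset.sum_mul]
        refine Finset.sum_congr rfl fun l hl => ?_
        rw [← hw l (hTO b hb hl), hi b hb l hl]
      rw [h1]
      exact mul_le_mul_of_nonneg_right (hF _ (hidx b hb)).2.1 (by positivity))
    (fun b hb l hl => ⟨((hF _ (hidx b hb)).2.2.2 l hl).1.symm, hyL l (hTO b hb hl)⟩)
    (fun b hb l hl => (hch l (hTO b hb hl) ((hF _ (hidx b hb)).2.2.2 l hl).1
      ((hF _ (hidx b hb)).2.2.2 l hl).2).1)
    (fun b hb l hl => (hch l (hTO b hb hl) ((hF _ (hidx b hb)).2.2.2 l hl).1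
      ((hF _ (hidx b hb)).2.2.2 l hl).2).2.1)
    (fun l x => by
      split_ifs
      · exact zero_le_one
      · exact le_rfl) hε
    (by
      intro b₀ b h1 h2 l hl x hx l' hl' hadj
      rw [if_pos]
      refine ⟨hadj.symm, fun c hc => ?_⟩
      have h3 : ((Hh c l' + l1 : ℤ) : ℝ) ≤ ((Hh c l : ℤ) : ℝ) := by
        exact_mod_cast hord b₀ b h1 h2 l hl l' hl' c hc
      have h4 := hlow l (hTO b₀ (h1.trans h2) hl) x hx c hc
      push_cast at h3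
      linarith)
    (by
      intro b₀ b h1 h2 l' hl' r hr
      have h3 := hthk l' (hTO b h2 hl') r (by
        rw [hi b h2 l' hl']
        have h4 := hgap b₀ b h1 h2
        unfold ds at hr
        omega)
      rw [HM_eq, hi b h2 l' hl'] at h3
      exact h3)
    hξ hRe
  exact (hch l (hTO b hb hl) ((hF _ (hidx b hb)).2.2.2 l hl).1
    ((hF _ (hidx b hb)).2.2.2 l hl).2).2.2 hs

/-- **The thick labels are rare.** -/
theorem thick_rare (hn : ∀ x, 0 ≤ n x) (ha : ∀ x, (1 / 2 : ℝ) ^ k x ≤ a x)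
    (hρ : ∀ l ∈ O, 0 ≤ ρ l) (hq0 : 0 < q) (hq1 : q < 1) (hq : q * q = 1 / 2)
    (hw : ∀ l ∈ O, w l * (1 / 2 : ℝ) ^ i l = ρ l) (hH : ∀ l ∈ O, Hh s l = -(i l : ℤ))
    {K : ℝ} (hK : 0 ≤ K)
    (hnr : ∀ x, n x ≠ 0 → ∀ r : ℤ,
      ∑ o ∈ O with G.Adj (y o) x ∧ Hh s o = r ∧ ∀ c ∈ C, Hh c o + l0 ≤ h c x, w o ≤ K)
    {ε : ℝ} (hε : 0 < ε) (d : ℕ) {O₂ : Finset Om} (hO₂ : O₂ ⊆ O)
    (hthk : ∀ l ∈ O₂, ∃ r, r + d ≤ i l ∧ ε * q ^ (i l - r) ≤ HM G n a k y h Hh l0 C r l) :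
    ∑ l ∈ O₂, ρ l ≤ K / ε * (q ^ d / (1 - q)) * ∑ x, n x := by
  set ρO : Om → ℝ := fun l => if l ∈ O then ρ l else 0 with hρO
  have hρO0 : ∀ l, 0 ≤ ρO l := by
    intro l
    rw [hρO]
    dsimp only
    by_cases hl : l ∈ O
    · rw [if_pos hl]
      exact hρ l hl
    · rw [if_neg hl]
  have h1 : ∑ l ∈ O₂, ρ l = ∑ l ∈ O₂, ρO l := by
    refine Finset.sum_congr rfl fun l hl => ?_
    rw [hρO]
    dsimp only
    rw [if_pos (hO₂ hl)]
  rw [h1]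
  refine count_le (f := fun l x =>
      if G.Adj (y l) x ∧ ∀ c ∈ C, Hh c l + l0 ≤ h c x then 1 else 0) (i := i) hn ha ?_ hρO0 hK
    ?_ hq0 hq1 hq hε d O₂ ?_
  · intro l x
    split_ifs
    · exact zero_le_one
    · exact le_rfl
  · intro x hx m
    have h2 := hnr x hx (-(m : ℤ))
    have h3 : ∑ l with i l = m, ρO l *
        (if G.Adj (y l) x ∧ ∀ c ∈ C, Hh c l + l0 ≤ h c x then 1 else 0) =
        (∑ o ∈ O with G.Adj (y o) x ∧ Hh s o = -(m : ℤ) ∧ ∀ c ∈ C, Hh c o + l0 ≤ h c x, w o) *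
          (1 / 2 : ℝ) ^ m := by
      rw [Finset.sum_mul, Finset.sum_filter, Finset.sum_filter,
        ← Finset.sum_filter_add_sum_filter_not Finset.univ (fun l => l ∈ O)]
      have e1 : ∑ l with ¬ l ∈ O, (if i l = m then ρO l *
          (if G.Adj (y l) x ∧ ∀ c ∈ C, Hh c l + l0 ≤ h c x then 1 else 0) else 0) = 0 := by
        refine Finset.sum_eq_zero fun l hl => ?_
        rw [hρO]
        dsimp only
        rw [if_neg (Finset.mem_filter.mp hl).2, zero_mul, ite_self]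
      rw [e1, add_zero, Finset.filter_mem_eq_inter, Finset.univ_inter]
      refine Finset.sum_congr rfl fun l hl => ?_
      rw [hρO]
      dsimp only
      rw [if_pos hl, hH l hl]
      by_cases him : i l = m
      · have h4 : (-(i l : ℤ) = -(m : ℤ)) := by rw [him]
        by_cases hh : G.Adj (y l) x ∧ ∀ c ∈ C, Hh c l + l0 ≤ h c x
        · rw [if_pos him, if_pos hh, if_pos ⟨hh.1, h4, hh.2⟩, mul_one, ← hw l hl, him]
        · rw [if_pos him, if_neg hh, if_neg, mul_zero]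
          rintro ⟨h5, -, h6⟩
          exact hh ⟨h5, h6⟩
      · rw [if_neg him, if_neg]
        rintro ⟨-, h5, -⟩
        exact him (by exact_mod_cast neg_injective h5)
    rw [h3]
    exact mul_le_mul_of_nonneg_right h2 (by positivity)
  · intro l hl
    obtain ⟨r, hr1, hr2⟩ := hthk l hl
    refine ⟨r, hr1, ?_⟩
    rw [← HM_eq]
    exact hr2

end

end Pool.Agent.Lib.GSR
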