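import Pool.Agent.Lib.GSR.UnsH
import Pool.Agent.Lib.GSR.Star

/-!
# The fields nr2 and fan at the targets of rank one

At a target of rank one there are few cheap hubs, so the weight of the labels of one scale is
bounded and there are no long fans, without any assumption on the services.
-/

set_option autoImplicit false

namespace Pool.Agent.Lib.GSR

open Finset Classical
open Pool.Agent.Lib.FGF (cm)
open Pool.Agent.Lib.GSLE

section

variable {V Om : Type} [Fintype V] [Fintype Om] {G : SimpleGraph V} {n a A' : V → ℝ}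
  {k : V → ℕ} {c : V → Om → ℝ} {ρ : Om → ℝ} {p : Om → V → ℝ} {y : Om → V} {i : Om → ℕ}
  {g₀ : ℕ} {H θ B q Bd : ℝ} {O : Finset Om} {M κ : ℕ} {g : V → ℝ}
  {L' : Finset V} {t : V} {f : V → Fin κ} {C : Finset ℕ} {s : ℕ} {h : ℕ → V → ℝ}
  {Hh : ℕ → Om → ℤ} {l0 l1 : ℤ} {w0 : ℝ} {w : Om → ℝ}

omit [Fintype Om] in
theorem OwnL.ker (hO : OwnL G n a A' k c ρ p y i g₀ H θ B q Bd O) {l : Om} (hl : l ∈ O) {x : V}
    (hx : p l x ≠ 0) : c x l ≠ 0 := by
  intro hc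
  have h1 := hO.pB l hl x
  rw [hc, mul_zero, mul_zero] at h1
  exact hx (le_antisymm h1 (hO.p0 l x))

/-- The field `nr2` at a target of rank one. -/
theorem uns_nr2_one (hM : 1 ≤ M) (hO : OwnL G n a A' k c ρ p y i g₀ H θ B q Bd O)
    (hcol : ∀ u v, G.Adj t u → G.Adj t v → G.Adj u v → f u ≠ f v)
    (hv : vioC G M 1 t g L' ≤ 1 / 2) (hq0 : 0 < q) (hq1 : q ≤ 1) (hBd : 0 ≤ Bd)
    (hw : ∀ l ∈ O, w l * (1 / 2 : ℝ) ^ i l = ρ l) (hH : ∀ l ∈ O, Hh s l = -(i l : ℤ))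
    (hyL : ∀ l ∈ O, y l ∈ L')
    (hch : ∀ l ∈ O, G.Adj (y l) t → (∀ c ∈ C, Hh c l + l0 ≤ h c t) → g (y l) < 1 / 2 / M)
    (hown : ∀ l ∈ O, ∃ x, p l x ≠ 0) (hadj : ∀ l ∈ O, ∀ x, p l x ≠ 0 → G.Adj x (y l))
    {K : ℝ} (hK0 : 0 ≤ K) (hK : κ * M * (Bd * (2 ^ g₀ / q ^ g₀)) ≤ K) (r : ℤ) :
    ∑ o ∈ O with G.Adj (y o) t ∧ Hh s o = r ∧ ∀ c ∈ C, Hh c o + l0 ≤ h c t, w o ≤ K := by
  by_contra hcon
  push Not at hcon
  set T : Finset Om := O.filter
    (fun o => G.Adj (y o) t ∧ Hh s o = r ∧ ∀ c ∈ C, Hh c o + l0 ≤ h c t) with hTdef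
  have hTm : ∀ l ∈ T, l ∈ O ∧ G.Adj (y l) t ∧ Hh s l = r ∧ ∀ c ∈ C, Hh c l + l0 ≤ h c t :=
    fun l hl => Finset.mem_filter.mp hl
  obtain ⟨l₀, hl₀, hbig⟩ := star_hub hM f hcol (d := 1 / 2) (by linarith) T w y
    (fun l hl => ⟨(hTm l hl).2.1.symm, hyL l (hTm l hl).1,
      hch l (hTm l hl).1 (hTm l hl).2.1 (hTm l hl).2.2.2⟩) (lt_of_le_of_lt hK0 hcon)
  obtain ⟨x, hx⟩ := hown l₀ (hTm l₀ hl₀).1
  have hnx := hO.node (hTm l₀ hl₀).1 hx
  have hwin := hO.win x hnx l₀ (hTm l₀ hl₀).1 (hO.ker (hTm l₀ hl₀).1 hx)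
  have hi : ∀ l ∈ T, i l = i l₀ := by
    intro l hl
    have h1 := hH l (hTm l hl).1
    have h2 := hH l₀ (hTm l₀ hl₀).1
    rw [(hTm l hl).2.2.1] at h1
    rw [(hTm l₀ hl₀).2.2.1] at h2
    have h3 : (i l : ℤ) = (i l₀ : ℤ) := by linarith
    exact_mod_cast h3
  have hpm : (0 : ℝ) < (1 / 2 : ℝ) ^ i l₀ := by positivity
  have hqg : 0 < q ^ g₀ := by positivity
  set S : ℝ := ∑ l ∈ T with y l = y l₀, w l with hS
  have hnear := hO.near x hnx
  have h1 : S * (1 / 2 : ℝ) ^ i l₀ * q ^ g₀ ≤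
      ∑ l ∈ O with G.Adj x (y l), ρ l * q ^ ds (k x) (i l) := by
    rw [hS, Finset.sum_mul, Finset.sum_mul]
    calc ∑ l ∈ T with y l = y l₀, w l * (1 / 2 : ℝ) ^ i l₀ * q ^ g₀
        ≤ ∑ l ∈ T with y l = y l₀, ρ l * q ^ ds (k x) (i l) := by
          refine Finset.sum_le_sum fun l hl => ?_
          have hlT := (Finset.mem_filter.mp hl).1
          rw [← hw l (hTm l hlT).1, hi l hlT]
          have h2 : q ^ g₀ ≤ q ^ ds (k x) (i l₀) := pow_le_pow_of_le_one hq0.le hq1 hwin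
          have h3 : 0 ≤ w l * (1 / 2 : ℝ) ^ i l₀ := by
            rw [← hi l hlT, hw l (hTm l hlT).1]
            exact hO.ρ0 l (hTm l hlT).1
          exact mul_le_mul_of_nonneg_left h2 h3
      _ ≤ _ := by
          refine Finset.sum_le_sum_of_subset_of_nonneg (fun l hl => ?_) fun l hl _ => ?_
          · have hlT := (Finset.mem_filter.mp hl).1
            refine Finset.mem_filter.mpr ⟨(hTm l hlT).1, ?_⟩
            rw [(Finset.mem_filter.mp hl).2]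
            exact hadj l₀ (hTm l₀ hl₀).1 x hx
          · exact mul_nonneg (hO.ρ0 l (Finset.mem_filter.mp hl).1) (by positivity)
  have h2 : (1 / 2 : ℝ) ^ k x ≤ 2 ^ g₀ * (1 / 2 : ℝ) ^ i l₀ := by
    have h3 : i l₀ ≤ k x + g₀ := by
      unfold ds at hwin
      omega
    have h4 : (1 / 2 : ℝ) ^ (k x + g₀) ≤ (1 / 2 : ℝ) ^ i l₀ :=
      pow_le_pow_of_le_one (by norm_num) (by norm_num) h3
    rw [pow_add] at h4
    have h5 : (2 : ℝ) ^ g₀ * (1 / 2 : ℝ) ^ g₀ = 1 := by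
      rw [← mul_pow]
      norm_num
    calc (1 / 2 : ℝ) ^ k x = 2 ^ g₀ * ((1 / 2 : ℝ) ^ k x * (1 / 2 : ℝ) ^ g₀) := by
          rw [mul_comm ((1 / 2 : ℝ) ^ k x), ← mul_assoc, h5, one_mul]
      _ ≤ 2 ^ g₀ * (1 / 2 : ℝ) ^ i l₀ := mul_le_mul_of_nonneg_left h4 (by positivity)
  have h3 : S * (1 / 2 : ℝ) ^ i l₀ * q ^ g₀ ≤ Bd * (2 ^ g₀ * (1 / 2 : ℝ) ^ i l₀) :=
    (h1.trans hnear).trans (mul_le_mul_of_nonneg_left h2 hBd)
  have h4 : S ≤ Bd * (2 ^ g₀ / q ^ g₀) := by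
    have h5 : S * q ^ g₀ * (1 / 2 : ℝ) ^ i l₀ ≤ Bd * 2 ^ g₀ * (1 / 2 : ℝ) ^ i l₀ := by
      calc S * q ^ g₀ * (1 / 2 : ℝ) ^ i l₀ = S * (1 / 2 : ℝ) ^ i l₀ * q ^ g₀ := by ring
        _ ≤ _ := h3
        _ = _ := by ring
    have h6 := le_of_mul_le_mul_right h5 hpm
    rw [← mul_div_assoc, le_div_iff₀ hqg]
    exact h6
  have hκM : (0 : ℝ) ≤ κ * M := by positivity
  rcases hκM.eq_or_lt with h0 | h0
  · have hκ : κ = 0 := by
      have hM0 : (M : ℝ) ≠ 0 := by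
        have : (0 : ℝ) < M := by exact_mod_cast hM
        exact this.ne'
      rcases mul_eq_zero.mp h0.symm with h5 | h5
      · exact_mod_cast h5
      · exact absurd h5 hM0
    subst hκ
    exact (f t).elim0
  · have h5 : (∑ l ∈ T, w l) ≤ κ * M * (Bd * (2 ^ g₀ / q ^ g₀)) := by
      rw [div_le_iff₀ h0] at hbig
      calc ∑ l ∈ T, w l ≤ S * (κ * M) := hbig
        _ ≤ Bd * (2 ^ g₀ / q ^ g₀) * (κ * M) := mul_le_mul_of_nonneg_right h4 h0.le
        _ = _ := by ring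
    linarith

/-- The field `fan` at a target of rank one. -/
theorem uns_fan_one (hM : 1 ≤ M) (hO : OwnL G n a A' k c ρ p y i g₀ H θ B q Bd O)
    (hcol : ∀ u v, G.Adj t u → G.Adj t v → G.Adj u v → f u ≠ f v)
    (hv : vioC G M 1 t g L' ≤ 1 / 2) (hq0 : 0 < q) (hq1 : q ≤ 1) (hsC : s ∈ C)
    (hH : ∀ l ∈ O, Hh s l = -(i l : ℤ)) (hyL : ∀ l ∈ O, y l ∈ L')
    (hch : ∀ l ∈ O, G.Adj (y l) t → (∀ c ∈ C, Hh c l + l0 ≤ h c t) → g (y l) < 1 / 2 / M)
    (hc1 : ∀ x l, c x l ≤ 1) {β : ℝ} (hβ : ∀ l ∈ O, β ≤ ∑ x, p l x)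
    (hadj : ∀ l ∈ O, ∀ x, p l x ≠ 0 → G.Adj x (y l))
    (hlow : ∀ l ∈ O, ∀ x, p l x ≠ 0 → ∀ c ∈ C, Hh c l ≤ h c x + w0) {d : ℕ}
    {ε : ℝ} (hε : 0 ≤ ε)
    (hthk : ∀ l ∈ O, ∀ r, r + d ≤ i l → HM G n a k y h Hh l0 C r l ≤ ε * q ^ (i l - r))
    (hl1 : (l0 : ℝ) + w0 ≤ l1) (hl1' : (g₀ : ℤ) + d ≤ l1) {η : ℝ} (hη : 0 < η) {R₁ : ℕ}
    (hβε : B / θ * ((2 * g₀ + 1) * ε) < β) (hR : κ * (M - 1) < R₁)
    (F : ℕ → Finset Om)
    (hF : ∀ b < R₁, F b ⊆ O ∧ η ≤ ∑ o ∈ F b, w o ∧ (∀ o ∈ F b, ∀ o' ∈ F b, Hh s o = Hh s o') ∧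
      ∀ o ∈ F b, G.Adj (y o) t ∧ ∀ c ∈ C, Hh c o + l0 ≤ h c t) :
    ¬ ∀ a b, a < b → b < R₁ → ∀ o ∈ F a, ∀ o' ∈ F b, ∀ c ∈ C, Hh c o + l1 ≤ Hh c o' := by
  intro hinc
  have hne : ∀ b < R₁, (F b).Nonempty := by
    intro b hb
    by_contra hemp
    rw [Finset.not_nonempty_iff_eq_empty] at hemp
    have h1 := (hF b hb).2.1
    rw [hemp, Finset.sum_empty] at h1
    exact absurd hη (not_lt.mpr h1)
  have hlex : ∀ b : ℕ, ∃ l : Om, b < R₁ → l ∈ F b := by
    intro b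
    by_cases hb : b < R₁
    · obtain ⟨l, hl⟩ := hne b hb
      exact ⟨l, fun _ => hl⟩
    · obtain ⟨l, -⟩ := hne 0 (by omega)
      exact ⟨l, fun h => absurd h hb⟩
  choose lb hlb using hlex
  have hcard := few_cheap hM f hcol (d := 1 / 2) (g := g) (L := L') (by linarith)
    ((range R₁).image fun b => y (lb b)) (fun x hx => by
      obtain ⟨b, hb, rfl⟩ := Finset.mem_image.1 hx
      have hb' := Finset.mem_range.mp hb
      have h1 := (hF b hb').2.2.2 (lb b) (hlb b hb')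
      have h2 := (hF b hb').1 (hlb b hb')
      exact ⟨h1.1.symm, hyL _ h2, hch _ h2 h1.1 h1.2⟩)
  obtain ⟨b₁, hb₁, b₂, hb₂, hne12, heq⟩ := Finset.exists_ne_map_eq_of_card_lt_of_maps_to
    (s := range R₁) (t := (range R₁).image fun b => y (lb b)) (f := fun b => y (lb b))
    (by rw [Finset.card_range]; omega) (fun b hb => Finset.mem_image_of_mem _ hb)
  -- the core
  have key : ∀ b b', b < b' → b' < R₁ → y (lb b) = y (lb b') → False := by
    intro b b' hbb hb' hyy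
    have hbR : b < R₁ := hbb.trans hb'
    have hlO : lb b ∈ O := (hF b hbR).1 (hlb b hbR)
    have hlO' : lb b' ∈ O := (hF b' hb').1 (hlb b' hb')
    have hgap := hinc b b' hbb hb' _ (hlb b hbR) _ (hlb b' hb')
    have hsc : i (lb b') + g₀ + d ≤ i (lb b) := by
      have h1 := hgap s hsC
      rw [hH _ hlO, hH _ hlO'] at h1
      have h2 : (i (lb b') : ℤ) + g₀ + d ≤ i (lb b) := by linarith
      exact_mod_cast h2
    set P : V → Prop := fun x => G.Adj (y (lb b)) x ∧ ∀ c ∈ C, Hh c (lb b) + l0 ≤ h c x with hP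
    have hpt : ∀ x, p (lb b') x ≤ B / θ * (if ds (k x) (i (lb b')) ≤ g₀ then
        (if P x then n x / a x else 0) else 0) := by
      intro x
      have hBθ : 0 ≤ B / θ := div_nonneg hO.B0 hO.θ0.le
      by_cases hx : p (lb b') x = 0
      · rw [hx]
        refine mul_nonneg hBθ ?_
        split_ifs
        · exact div_nonneg (hO.n0 x) (hO.a0 x).le
        · exact le_rfl
        · exact le_rfl
      · have hnx := hO.node hlO' hx
        have hwin := hO.win x hnx _ hlO' (hO.ker hlO' hx)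
        have hPx : P x := by
          refine ⟨?_, fun c hc => ?_⟩
          · rw [hyy]
            exact (hadj _ hlO' x hx).symm
          · have h1 : ((Hh c (lb b) + l1 : ℤ) : ℝ) ≤ ((Hh c (lb b') : ℤ) : ℝ) := by
              exact_mod_cast hgap c hc
            have h2 := hlow _ hlO' x hx c hc
            push_cast at h1
            linarith
        rw [if_pos hwin, if_pos hPx]
        refine (hO.pB _ hlO' x).trans ?_
        have hn0 := hO.n0 x
        have ha0 := hO.a0 x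
        have hA := hO.aA x hnx
        have hθa : 0 < θ * a x := mul_pos hO.θ0 ha0
        have h1 : n x / A' x ≤ n x / (θ * a x) := div_le_div_of_nonneg_left hn0 hθa hA
        have h2 : n x / A' x * c x (lb b') ≤ n x / (θ * a x) := by
          calc n x / A' x * c x (lb b') ≤ n x / A' x * 1 :=
                mul_le_mul_of_nonneg_left (hc1 x _) (div_nonneg hn0 (hθa.le.trans hA))
            _ = n x / A' x := mul_one _
            _ ≤ _ := h1
        calc B * (n x / A' x * c x (lb b')) ≤ B * (n x / (θ * a x)) :=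
              mul_le_mul_of_nonneg_left h2 hO.B0
          _ = B / θ * (n x / a x) := by
              rw [← div_div]
              field_simp
    have h1 : ∑ x, p (lb b') x ≤ B / θ * ∑ x with ds (k x) (i (lb b')) ≤ g₀,
        (if P x then n x / a x else 0) := by
      rw [Finset.sum_filter, Finset.mul_sum]
      exact Finset.sum_le_sum fun x _ => hpt x
    have h2 : ∑ x with ds (k x) (i (lb b')) ≤ g₀, (if P x then n x / a x else 0) ≤
        (2 * g₀ + 1) * ε := by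
      refine win_le (k := k) (fun x => if P x then n x / a x else 0) (i (lb b')) g₀ hε ?_
      intro r hr
      have h3 := hthk _ hlO r (by
        unfold ds at hr
        omega)
      have h4 : ∑ x with k x = r, (if P x then n x / a x else 0) =
          HM G n a k y h Hh l0 C r (lb b) := by
        unfold HM
        rw [← Finset.filter_filter,
          Finset.sum_filter (s := Finset.univ.filter fun x => k x = r)]
      rw [h4]
      refine h3.trans ?_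
      have h5 : q ^ (i (lb b) - r) ≤ 1 := pow_le_one₀ hq0.le hq1
      calc ε * q ^ (i (lb b) - r) ≤ ε * 1 := mul_le_mul_of_nonneg_left h5 hε
        _ = ε := mul_one ε
    have h3 := hβ _ hlO'
    have h4 : ∑ x, p (lb b') x ≤ B / θ * ((2 * g₀ + 1) * ε) :=
      h1.trans (mul_le_mul_of_nonneg_left h2 (div_nonneg hO.B0 hO.θ0.le))
    linarith
  rcases lt_or_gt_of_ne hne12 with h1 | h1
  · exact key b₁ b₂ h1 (Finset.mem_range.mp hb₂) heq
  · exact key b₂ b₁ h1 (Finset.mem_range.mp hb₁) heq.symm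

end

end Pool.Agent.Lib.GSR
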