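import Pool.Agent.Lib.GSLE.Vio
import Pool.Agent.Lib.GSR.LemFRg

/-!
# Fractional domination for general charges

`vioC G M j v g L` is the violation of the charge `g : V → ℝ` at the root `v`: the largest value of
`1 - g` (body of `K`) over the copies `K` of the `M`-ary tree of depth `j` with the root `v` and the
body in `L` (and `0` if this is negative or if there is no copy).  `vio G M j v m L` is the case
`g = cm G m`.
-/

set_option autoImplicit false

namespace Pool.Agent.Lib.GSR

open Finset Classical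
open Pool.Agent.Lib.GSR3 (Tree)
open Pool.Agent.Lib.FGF (cm nm Dom)
open Pool.Agent.Lib.FGF.Avg (wds mem_wds card_wds cm_nonneg)
open Pool.Agent.Lib.GSLE (cps vio)

/-- The charge of the vertices `φ u`, `u ≠ []`. -/
noncomputable def bc {V : Type} (M j : ℕ) (g : V → ℝ) (φ : List (Fin M) → V) : ℝ :=
  ∑ u ∈ wds M j, g (φ u)

/-- The violation. -/
noncomputable def vioC {V : Type} [Fintype V] (G : SimpleGraph V) (M j : ℕ) (v : V) (g : V → ℝ)
    (L : Finset V) : ℝ :=
  (insert 0 ((cps G M j v L).image fun ψ => 1 - ∑ u, g (ψ u))).max'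
    (Finset.insert_nonempty _ _)

section

variable {V : Type} [Fintype V] {G : SimpleGraph V} {M j : ℕ} {v : V} {g g' : V → ℝ}
  {L L' : Finset V}

theorem vioC_cm (m : V → ℝ) : vioC G M j v (cm G m) L = vio G M j v m L := rfl

theorem vioC_nonneg : 0 ≤ vioC G M j v g L :=
  Finset.le_max' _ _ (Finset.mem_insert_self _ _)

theorem le_vioC {φ : List (Fin M) → V} (h1 : Tree G j M φ) (h2 : φ [] = v)
    (h3 : ∀ u ∈ wds M j, φ u ∈ L) : 1 - bc M j g φ ≤ vioC G M j v g L := by
  refine Finset.le_max' _ _ (Finset.mem_insert_of_mem (Finset.mem_image.2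
    ⟨fun u => φ u.1, Finset.mem_filter.2 ⟨Finset.mem_univ _, φ, h1, h2, h3, fun _ => rfl⟩, ?_⟩))
  unfold bc
  rw [← Finset.sum_coe_sort (wds M j) fun u => g (φ u)]

theorem vioC_le {a : ℝ} (ha : 0 ≤ a) (h : ∀ φ : List (Fin M) → V, Tree G j M φ → φ [] = v →
    (∀ u ∈ wds M j, φ u ∈ L) → 1 - bc M j g φ ≤ a) : vioC G M j v g L ≤ a := by
  refine Finset.max'_le _ _ _ fun x hx => ?_
  rcases Finset.mem_insert.1 hx with rfl | hx
  · exact ha
  · obtain ⟨ψ, hψ, rfl⟩ := Finset.mem_image.1 hx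
    obtain ⟨φ, h1, h2, h3, h4⟩ := (Finset.mem_filter.1 hψ).2
    refine le_of_eq_of_le ?_ (h φ h1 h2 h3)
    unfold bc
    rw [← Finset.sum_coe_sort (wds M j) fun u => g (φ u)]
    congr 1
    exact Finset.sum_congr rfl fun u _ => by rw [h4]

theorem bc_nonneg (hg : ∀ u, 0 ≤ g u) (φ : List (Fin M) → V) : 0 ≤ bc M j g φ :=
  Finset.sum_nonneg fun _ _ => hg _

theorem vioC_le_one (hg : ∀ u, 0 ≤ g u) : vioC G M j v g L ≤ 1 :=
  vioC_le zero_le_one fun φ _ _ _ => by linarith [bc_nonneg (j := j) hg φ]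

theorem bc_mono (h : ∀ u, g u ≤ g' u) (φ : List (Fin M) → V) : bc M j g φ ≤ bc M j g' φ :=
  Finset.sum_le_sum fun _ _ => h _

/-- The violation is antitone in the charge and monotone in the body set. -/
theorem vioC_anti (h : ∀ u, g u ≤ g' u) (hL : L ⊆ L') :
    vioC G M j v g' L ≤ vioC G M j v g L' :=
  vioC_le vioC_nonneg fun φ h1 h2 h3 => by
    have h4 := le_vioC (g := g) h1 h2 fun u hu => hL (h3 u hu)
    have h5 := bc_mono (j := j) h φ
    linarith

/-- Only the charges on `L` matter. -/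
theorem vioC_anti' (h : ∀ u ∈ L, g u ≤ g' u) (hL : L ⊆ L') :
    vioC G M j v g' L ≤ vioC G M j v g L' :=
  vioC_le vioC_nonneg fun φ h1 h2 h3 => by
    have h4 := le_vioC (g := g) h1 h2 fun u hu => hL (h3 u hu)
    have h5 : bc M j g φ ≤ bc M j g' φ := Finset.sum_le_sum fun u hu => h _ (h3 u hu)
    linarith

/-! ### Domination -/

theorem vioC_eq_zero_of_domC (hg : ∀ u, 0 ≤ g u) (h : DomC G M j v g L) :
    vioC G M j v g L = 0 := by
  refine le_antisymm (vioC_le le_rfl fun φ h1 h2 h3 => ?_) vioC_nonneg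
  by_contra hcon
  push Not at hcon
  refine h φ h1 h2 fun u hu0 hu => ⟨h3 u (mem_wds.2 ⟨hu, hu0⟩), ?_⟩
  have h4 : g (φ u) ≤ bc M j g φ :=
    Finset.single_le_sum (f := fun u => g (φ u)) (fun u _ => hg _) (mem_wds.2 ⟨hu, hu0⟩)
  linarith

/-- A charge which is at least `c` on all copies dominates after scaling. -/
theorem domC_of_bc {c τ : ℝ} (hc : 0 < c) (hτ : ((M + 1 : ℕ) : ℝ) ^ j ≤ τ)
    (h : ∀ φ : List (Fin M) → V, Tree G j M φ → φ [] = v → (∀ u ∈ wds M j, φ u ∈ L) →
      c ≤ bc M j g φ) : DomC G M j v (fun u => τ / c * g u) L := by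
  intro φ h1 h2 hall
  have h4 : c ≤ bc M j g φ := h φ h1 h2 fun u hu =>
    (hall u (mem_wds.1 hu).2 (mem_wds.1 hu).1).1
  have hτ0 : 0 ≤ τ := le_trans (by positivity) hτ
  have hne : (wds M j).Nonempty := by
    by_contra hne
    rw [Finset.not_nonempty_iff_eq_empty] at hne
    unfold bc at h4
    rw [hne, Finset.sum_empty] at h4
    linarith
  have h5 : ∑ u ∈ wds M j, τ / c * g (φ u) < ∑ _u ∈ wds M j, (1 : ℝ) :=
    Finset.sum_lt_sum_of_nonempty hne fun u hu =>
      (hall u (mem_wds.1 hu).2 (mem_wds.1 hu).1).2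
  rw [← Finset.mul_sum, Finset.sum_const, nsmul_eq_mul, mul_one] at h5
  have h7 : ((wds M j).card : ℝ) ≤ τ := le_trans (by exact_mod_cast card_wds M j) hτ
  have h8 : τ ≤ τ / c * bc M j g φ := by
    rw [div_mul_eq_mul_div, le_div_iff₀ hc]
    exact mul_le_mul_of_nonneg_left h4 hτ0
  unfold bc at h8
  linarith

/-- A charge with a violation less than one dominates after scaling. -/
theorem domC_of_vioC {c τ : ℝ} (hc : 0 < c) (hτ : ((M + 1 : ℕ) : ℝ) ^ j ≤ τ)
    (h : vioC G M j v g L ≤ 1 - c) : DomC G M j v (fun u => τ / c * g u) L :=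
  domC_of_bc hc hτ fun φ h1 h2 h3 => by
    have h4 := le_vioC (g := g) h1 h2 h3
    linarith

/-! ### Convexity -/

omit [Fintype V] in
theorem bc_sum {ι : Type} (s : Finset ι) (P : ι → ℝ) (f : ι → V → ℝ)
    (φ : List (Fin M) → V) :
    bc M j (fun u => ∑ l ∈ s, P l * f l u) φ = ∑ l ∈ s, P l * bc M j (f l) φ := by
  unfold bc
  rw [Finset.sum_comm]
  exact Finset.sum_congr rfl fun l _ => (Finset.mul_sum _ _ _).symm

/-- The violation is convex. -/
theorem vioC_sum_le {ι : Type} (s : Finset ι) (P : ι → ℝ) (f : ι → V → ℝ)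
    (hP : ∀ l ∈ s, 0 ≤ P l) (h1 : ∑ l ∈ s, P l = 1) :
    vioC G M j v (fun u => ∑ l ∈ s, P l * f l u) L ≤ ∑ l ∈ s, P l * vioC G M j v (f l) L := by
  refine vioC_le (Finset.sum_nonneg fun l hl => mul_nonneg (hP l hl) vioC_nonneg)
    fun φ h2 h3 h4 => ?_
  rw [bc_sum, ← h1, ← Finset.sum_sub_distrib]
  refine Finset.sum_le_sum fun l hl => ?_
  have h5 := mul_le_mul_of_nonneg_left (le_vioC (g := f l) h2 h3 h4) (hP l hl)
  linarith

/-- The violation of a convex combination. -/
theorem vioC_convex {a b : ℝ} (ha : 0 ≤ a) (hb : 0 ≤ b) (hab : a + b = 1) :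
    vioC G M j v (fun u => a * g u + b * g' u) L ≤
      a * vioC G M j v g L + b * vioC G M j v g' L := by
  have h := vioC_sum_le (G := G) (M := M) (j := j) (v := v) (L := L) (Finset.univ : Finset Bool)
    (fun l => if l then a else b) (fun l => if l then g else g')
    (fun l _ => by cases l <;> simpa) (by simpa using hab)
  simpa using h

/-- Masters from a share: if the labels `l` which are well dominated have the share `c` then
the average, divided by `c`, has no violation. -/
theorem vioC_avg {ι : Type} (s : Finset ι) (P : ι → ℝ) (f : ι → V → ℝ) {c : ℝ}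
    (hc : 0 < c) (hP : ∀ l ∈ s, 0 ≤ P l)
    (h : c ≤ ∑ l ∈ s, P l * (1 - vioC G M j v (f l) L)) :
    vioC G M j v (fun u => 1 / c * ∑ l ∈ s, P l * f l u) L = 0 := by
  refine le_antisymm (vioC_le le_rfl fun φ h1 h2 h3 => ?_) vioC_nonneg
  have h4 : bc M j (fun u => 1 / c * ∑ l ∈ s, P l * f l u) φ =
      1 / c * bc M j (fun u => ∑ l ∈ s, P l * f l u) φ := by
    unfold bc
    rw [Finset.mul_sum]
  have h6 : c ≤ bc M j (fun u => ∑ l ∈ s, P l * f l u) φ := by
    rw [bc_sum]
    refine h.trans (Finset.sum_le_sum fun l hl => mul_le_mul_of_nonneg_left ?_ (hP l hl))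
    have h5 := le_vioC (g := f l) h1 h2 h3
    linarith
  have h7 : 1 ≤ 1 / c * bc M j (fun u => ∑ l ∈ s, P l * f l u) φ := by
    rw [div_mul_eq_mul_div, one_mul, le_div_iff₀ hc]
    linarith
  rw [h4]
  linarith

/-! ### Continuity -/

theorem bc_sub_le (φ : List (Fin M) → V) :
    |bc M j g φ - bc M j g' φ| ≤ (wds M j).card * ∑ u, |g u - g' u| := by
  unfold bc
  rw [← Finset.sum_sub_distrib]
  refine (Finset.abs_sum_le_sum_abs _ _).trans ?_
  refine (Finset.sum_le_card_nsmul _ _ (∑ u, |g u - g' u|) fun u _ =>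
    Finset.single_le_sum (f := fun u => |g u - g' u|) (fun _ _ => abs_nonneg _)
      (Finset.mem_univ _)).trans ?_
  rw [nsmul_eq_mul]

/-- The violation is Lipschitz. -/
theorem vioC_sub_le :
    |vioC G M j v g L - vioC G M j v g' L| ≤ (wds M j).card * ∑ u, |g u - g' u| := by
  have key : ∀ f g : V → ℝ, vioC G M j v f L ≤
      vioC G M j v g L + (wds M j).card * ∑ u, |f u - g u| := by
    intro f g
    refine vioC_le (add_nonneg vioC_nonneg (mul_nonneg (Nat.cast_nonneg _)
      (Finset.sum_nonneg fun _ _ => abs_nonneg _))) fun φ h1 h2 h3 => ?_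
    have h4 := le_vioC (g := g) h1 h2 h3
    have h5 := abs_le.1 (bc_sub_le (j := j) (g := f) (g' := g) φ)
    linarith [h5.1]
  rw [abs_sub_le_iff]
  refine ⟨by linarith [key g g'], ?_⟩
  have h1 := key g' g
  have h2 : ∑ u, |g' u - g u| = ∑ u, |g u - g' u| :=
    Finset.sum_congr rfl fun u _ => abs_sub_comm _ _
  rw [h2] at h1
  linarith

/-- The violation is continuous in the charge. -/
theorem continuous_vioC' : Continuous fun g : V → ℝ => vioC G M j v g L := by
  rw [continuous_iff_continuousAt]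
  intro g
  unfold ContinuousAt
  rw [tendsto_iff_dist_tendsto_zero]
  have h1 : Filter.Tendsto (fun g' : V → ℝ => ((wds M j).card : ℝ) * ∑ u, |g' u - g u|)
      (nhds g) (nhds (((wds M j).card : ℝ) * ∑ u, |g u - g u|)) := by
    refine Filter.Tendsto.const_mul _ (tendsto_finsetSum _ fun u _ => ?_)
    exact ((continuous_apply u).continuousAt.sub continuousAt_const).abs
  simp only [sub_self, abs_zero, Finset.sum_const_zero, mul_zero] at h1
  refine squeeze_zero (fun _ => dist_nonneg) (fun θ' => ?_) h1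
  rw [Real.dist_eq]
  exact vioC_sub_le

/-- The violation is continuous. -/
theorem continuous_vioC {T : Type} [TopologicalSpace T] {f : T → V → ℝ}
    (hf : ∀ u, Continuous fun θ => f θ u) : Continuous fun θ => vioC G M j v (f θ) L :=
  continuous_vioC'.comp (continuous_pi hf)

theorem continuousOn_vioC {T : Type} [TopologicalSpace T] {D : Set T} {f : T → V → ℝ}
    (hf : ∀ u, ContinuousOn (fun θ => f θ u) D) :
    ContinuousOn (fun θ => vioC G M j v (f θ) L) D :=
  continuous_vioC'.comp_continuousOn (continuousOn_pi.2 hf)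

end

end Pool.Agent.Lib.GSR
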